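import Mathlib
import Pool.Agent.Work.MP_59f3ad_nt.PX.StmtsF

/-!
Block QD (captain helper67): Schneider's conjecture at `p = 2`, odd twists, ascends in most quadratic
extensions of an arbitrary number field. Definitions.
-/

set_option autoImplicit false

open NumberField IsDedekindDomain

namespace Pool.Agent.Work.MP_59f3ad_nt.QD

open Pool.Agent.Work.MP_59f3ad_nt.FE
open Pool.Agent.Work.MP_59f3ad_nt.PX

universe u

/-- The configuration: `L = F(x)` is cyclic of degree `p` over `F`, `x^p = m`, `σ x = ζ x`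
(`PX.Cf` without `p ≠ 2`). -/
structure Cf (F L : Type u) [Field F] [NumberField F] [Field L] [NumberField L] [Algebra F L]
    (p : ℕ) (ζ m : F) (x : L) (σ : L ≃ₐ[F] L) : Prop where
  hζ : IsPrimitiveRoot ζ p
  hm : m ≠ 0
  hL : Module.finrank F L = p
  hx : x ^ p = algebraMap F L m
  hσ : σ x = algebraMap F L ζ * x
  hfix : ∀ y : L, σ y = y → ∃ z : F, y = algebraMap F L z

/-- What the failure of the conjecture for `L`, `p = 2`, produces: `a` is the norm of `δ`, `A` is a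
square root of `a`, not in `L`, fixed by the inertia groups of the primes not above `2`; on the
decomposition group of a prime above `2` it is fixed up to a power of `i = √(-1)`. -/
structure Bd {F L : Type u} [Field F] [NumberField F] [Field L] [NumberField L] [Algebra F L]
    (σ : L ≃ₐ[F] L) (A : AlgebraicClosure L) (a : F) (δ : L) : Prop where
  ha : a ≠ 0
  hA : A ^ 2 = algebraMap F (AlgebraicClosure L) a
  hδ : δ * σ δ = algebraMap F L a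
  inr : ∀ Q : Ideal (𝓞 (AlgebraicClosure L)), Q.IsPrime →
    ((2 : ℕ) : 𝓞 (AlgebraicClosure L)) ∉ Q → ∀ h : GK L, Inr Q h → h A = A
  dec : ∀ Q : Ideal (𝓞 (AlgebraicClosure L)), Q.IsPrime →
    ((2 : ℕ) : 𝓞 (AlgebraicClosure L)) ∈ Q → ∃ l : ℕ, ∀ i : AlgebraicClosure L, i ^ 2 = -1 →
    ∀ h : GK L, Dec Q h → h (i ^ l * A) = i ^ l * A
  fx : ∃ s : AlgebraicClosure L ≃ₐ[F] AlgebraicClosure L, Ex σ s ∧
    (∀ i : AlgebraicClosure L, i ^ 2 = -1 → s i = i) ∧ s A = A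
  ne : ∃ h : GK L, h A ≠ A

/-! ### Counting side -/

/-- The element `m0 ∏ x_i`. -/
noncomputable def Mq {F : Type u} [Field F] [NumberField F] {t : ℕ} (m0 : 𝓞 F)
    (x : Fin t → 𝓞 F) : 𝓞 F := m0 * ∏ i, x i

/-- `b` is, up to squares of `F_v`, one of `1, -1, M, -M`, and `b = y^2 - M z^2` with `y, z` in `F_v`. -/
def Lq (F : Type u) [Field F] [NumberField F] (v : HeightOneSpectrum (𝓞 F)) (M b : F) : Prop :=
  (∃ k l : ℕ, Lp F 2 v (b * M ^ k * (-1) ^ l)) ∧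
    ∃ y z : v.adicCompletion F, algebraMap F (v.adicCompletion F) b =
      y ^ 2 - algebraMap F (v.adicCompletion F) M * z ^ 2

/-- `d` is a witness for the exponent vector `e`. -/
structure Wq {F : Type u} [Field F] [NumberField F] {t : ℕ} (m0 : 𝓞 F)
    (x : Fin t → 𝓞 F) (e : Fin t → ZMod 2) (d : 𝓞 F) : Prop where
  ne : d ≠ 0
  val : ∀ q : HeightOneSpectrum (𝓞 F), q ∉ TT F 2 m0 → Vd F 2 q (d : F)
  loc : ∀ v ∈ TT F 2 m0, Lq F v (Mq m0 x : F) ((d * ∏ i, x i ^ (e i).val : 𝓞 F) : F)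
  pos : ∀ s : F →+* ℝ, 0 < s (Mq m0 x : F) ∨ 0 < s ((d * ∏ i, x i ^ (e i).val : 𝓞 F) : F)

/-- The standing hypotheses: `m0`, the reference elements `x`, and the tuple `π`. -/
structure Cq {F : Type u} [Field F] [NumberField F] {t : ℕ} (m0 : 𝓞 F)
    (x : Fin t → 𝓞 F) (π : Fin t → 𝓞 F) : Prop where
  ht : 1 ≤ t
  m0n : m0 ≠ 0
  xn : ∀ i, x i ≠ 0
  nsp : ∀ v ∈ Sp F 2, ¬ Lp F 2 v (Mq m0 x : F) ∧ ¬ Lp F 2 v (-(Mq m0 x : F))
  hH : ∀ d : 𝓞 F, Wq m0 x 0 d → (∀ k, ¬ π k ∣ d) →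
    (∃ g : 𝓞 F, g ^ 2 = d) ∨ ∃ i, ¬ ∃ y : 𝓞 F, π i ∣ y ^ 2 - d
  pr : ∀ i, Prime (π i)
  np : ∀ i, ¬ π i ∣ ((2 : ℕ) : 𝓞 F)
  na : ∀ i k, Associated (π i) (π k) → i = k
  nm0 : ∀ i, ¬ π i ∣ m0
  lc : ∀ i, ∀ v ∈ TT F 2 m0, ∃ y : v.adicCompletion F,
    algebraMap F (v.adicCompletion F) (π i : F) =
      algebraMap F (v.adicCompletion F) (x i : F) * y ^ 2
  sg : ∀ i, ∀ s : F →+* ℝ, 0 < s (π i : F) * s (x i : F)

/-- The conclusion of the deterministic theorem: what the failure of the conjecture for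
`F(√m)`, `m = m0 ∏ π_i`, gives. -/
structure Dq {F : Type u} [Field F] [NumberField F] {t : ℕ} (m0 : 𝓞 F)
    (π : Fin t → 𝓞 F) (a : F) : Prop where
  ne : a ≠ 0
  loc : ∀ v ∈ TT F 2 m0, ∃ k l : ℕ, Lp F 2 v (a * (Mq m0 π : F) ^ k * (-1) ^ l)
  nrm : ∃ y z : F, a = y ^ 2 - (Mq m0 π : F) * z ^ 2
  val : ∀ q : HeightOneSpectrum (𝓞 F), q ∉ TT F 2 m0 → (∀ i, π i ∉ q.asIdeal) → Vd F 2 q a
  non : ∀ (j : ℕ) (g : F), a ≠ (-(Mq m0 π : F)) ^ j * g ^ 2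
  tam : ∀ (j : ℕ) (g : F) (D : 𝓞 F) (e : Fin t → ℕ), g ≠ 0 → (∀ k, ¬ π k ∣ D) →
    a * (-(Mq m0 π : F)) ^ j * g ^ 2 = ((D * ∏ i, π i ^ e i : 𝓞 F) : F) →
    ∀ k, ∃ y : 𝓞 F, π k ∣ y ^ 2 - (D * ∏ i ∈ Finset.univ.erase k, π i ^ e i) *
      (-(m0 * ∏ i ∈ Finset.univ.erase k, π i)) ^ e k

/-- The exponent vector `e` and the cofactor `D` of `a (-m)^j`. -/
structure Rq {F : Type u} [Field F] [NumberField F] {t : ℕ} (m0 : 𝓞 F)
    (x : Fin t → 𝓞 F) (π : Fin t → 𝓞 F) (a : F) (j : ℕ) (e : Fin t → ZMod 2)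
    (D : 𝓞 F) (g : F) : Prop where
  gn : g ≠ 0
  cop : ∀ k, ¬ π k ∣ D
  eq : a * (-(Mq m0 π : F)) ^ j * g ^ 2 = ((D * ∏ i, π i ^ (e i).val : 𝓞 F) : F)
  wit : Wq m0 x e D

/-- A system of representatives of the pairs `(e, d mod squares)`, `e` not constant, `d` a witness
for `e`. -/
structure Repq {F : Type u} [Field F] [NumberField F] {t : ℕ} (m0 : 𝓞 F)
    (x : Fin t → 𝓞 F) (R : Finset ((Fin t → ZMod 2) × 𝓞 F)) : Prop where
  mem : ∀ a ∈ R, (∃ i k, a.1 i ≠ a.1 k) ∧ Wq m0 x a.1 a.2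
  inj : ∀ a ∈ R, ∀ b ∈ R, a.1 = b.1 → Eqv 2 a.2 b.2 → a = b
  cov : ∀ (e : Fin t → ZMod 2) (D : 𝓞 F), (∃ i k, e i ≠ e k) →
    Wq m0 x e D → ∃ d, (e, d) ∈ R ∧ Eqv 2 D d

/-- Schneider's conjecture at `2` for all odd twists is inherited by `F(√m)`, `m = m0 ∏ π_i`. -/
def Gd {F : Type u} [Field F] [NumberField F] {t : ℕ} (m0 : 𝓞 F) (π : Fin t → 𝓞 F) : Prop :=
  ∀ (L : Type u) [Field L] [NumberField L] [Algebra F L] (x : L), Module.finrank F L = 2 →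
    x ^ 2 = algebraMap F L (Mq m0 π : F) → ∀ r : ℤ, Odd r → Sha1 F 2 r (Sp F 2) = ⊥ →
    ∀ S : Set (HeightOneSpectrum (𝓞 L)), (∀ v ∈ Sp L 2, v ∈ S) → Sha1 L 2 r S = ⊥

end Pool.Agent.Work.MP_59f3ad_nt.QD
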