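import Mathlib
import Pool.Agent.Work.MP_59f3ad_nt.QD.Defs

/-!
Block QD, part G: the statements of `PX/StmtsA.lean`, `PX/StmtsF.lean` without the hypothesis `p ≠ 2`
(`QD.Cf` in place of `PX.Cf`; the proofs do not use it).
-/

set_option autoImplicit false

open NumberField IsDedekindDomain

namespace Pool.Agent.Work.MP_59f3ad_nt.QD

open Pool.Agent.Work.MP_59f3ad_nt.FE
open Pool.Agent.Work.MP_59f3ad_nt.PX

universe u

/-- CFG (MEDIUM). `X^p - m` has no root in `F`, so it is irreducible (`X_pow_sub_C_irreducible_of_prime`),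
`[F(x) : F] = p = [L : F]`, so `L = F(x)` with the power basis `1, x, ..., x^(p-1)`
(`IntermediateField.adjoin`, `Field.primitive...`, `PowerBasis`). `ζ x` is another root, so there is an
`F`-algebra map `σ : L → L`, `x ↦ ζ x` (`PowerBasis.lift`), an automorphism (finite dimension). If
`y = ∑ y_i x^i`, then `σ y = ∑ ζ^i y_i x^i`, and `σ y = y` forces `y_i = 0` for `0 < i < p`. -/
def StCFG : Prop := ∀ (F L : Type u) [Field F] [NumberField F] [Field L] [NumberField L]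
  [Algebra F L] (p : ℕ) [Fact p.Prime], ∀ (ζ m : F) (x : L), IsPrimitiveRoot ζ p →
  m ≠ 0 → Module.finrank F L = p → x ^ p = algebraMap F L m → (∀ z : F, z ^ p ≠ m) →
  ∃ σ : L ≃ₐ[F] L, Cf F L p ζ m x σ

/-- GX (EASY-MEDIUM). `x ≠ 0`, `σ x = ζ x ≠ x`, so `x` is not in `F`, and `F(x) = L` because `[L : F] = p`
is prime (the degree of `F(x)` over `F` divides `p` and is not `1`). `σ^p` fixes `x` and `F`. If `g` and `g'`
agree at `x` (both `F`-linear) then they agree on `F(x) = L`: first for `g` and the identity (an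
automorphism of `Ω` which is the identity on `L` is an element of `GK L`: `AlgEquiv.ofRingEquiv`), then
for `s` and `σ`. -/
def StGX : Prop := ∀ (F L : Type u) [Field F] [NumberField F] [Field L] [NumberField L]
  [Algebra F L] (p : ℕ) [Fact p.Prime] (ζ m : F) (x : L) (σ : L ≃ₐ[F] L), Cf F L p ζ m x σ →
  σ ^ p = 1 ∧
  (∀ g : AlgebraicClosure L ≃ₐ[F] AlgebraicClosure L,
    g (algebraMap L (AlgebraicClosure L) x) = algebraMap L (AlgebraicClosure L) x →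
    ∃ h : GK L, ∀ y, h y = g y) ∧
  ∀ s : AlgebraicClosure L ≃ₐ[F] AlgebraicClosure L,
    s (algebraMap L (AlgebraicClosure L) x) = algebraMap L (AlgebraicClosure L) (σ x) → Ex σ s

/-- H90 (EASY-MEDIUM). Hilbert 90, elementary. `σ^p = 1` (StGX). The automorphisms `σ^j`, `j < p`, of `L` are
different (`σ^j x = ζ^j x`), so linearly independent (`linearIndependent_monoidHom`). With
`c_j = ∏_(i<j) σ^i c` (`c_0 = 1`, `c_p = 1`, all not `0`) there is `z ∈ L` with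
`e = ∑_(j<p) c_j σ^j z ≠ 0`. `c σ(e) = ∑_j c_(j+1) σ^(j+1) z = e`. `d = e⁻¹` has `σ d = c d`. (Or Mathlib's
Hilbert 90 for cyclic extensions.) -/
def StH90 : Prop := ∀ (F L : Type u) [Field F] [NumberField F] [Field L] [NumberField L]
  [Algebra F L] (p : ℕ) [Fact p.Prime] (ζ m : F) (x : L) (σ : L ≃ₐ[F] L), Cf F L p ζ m x σ →
  ∀ c : L, ∏ i ∈ Finset.range p, (σ ^ i) c = 1 → ∃ d : L, d ≠ 0 ∧ σ d = c * d

/-- PW (EASY-MEDIUM, from StGX). `(τ x)^p = τ m = m = x^p`, so `τ x = ζ^j x` for some `j < p`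
(`IsPrimitiveRoot.eq_pow_of_pow_eq_one`), `j ≠ 0`. Choose `i` with `i j = 1` modulo `p`. `τ` fixes `ζ ∈ F`, so
`τ^i x = ζ^(ij) x = ζ x = σ x`; StGX, last part. -/
def StPW : Prop := ∀ (F L : Type u) [Field F] [NumberField F] [Field L] [NumberField L]
  [Algebra F L] (p : ℕ) [Fact p.Prime] (ζ m : F) (x : L) (σ : L ≃ₐ[F] L), Cf F L p ζ m x σ →
  ∀ τ : AlgebraicClosure L ≃ₐ[F] AlgebraicClosure L,
  τ (algebraMap L (AlgebraicClosure L) x) ≠ algebraMap L (AlgebraicClosure L) x →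
  ∃ i : ℕ, Ex σ (τ ^ i)

/-- SEX (EASY-MEDIUM, from StI1, StPW; `FE.pr_IC`). By StI1 for `K = F`, `Ω = AlgebraicClosure L`
(`IsAlgClosure F Ω` as `L/F` is algebraic), `A = x`, `a = m`: if all `h ∈ Gal(Ω/F)` with `Inr Q h` fixed `x`,
then `Vd F p q m`. So some `τ` with `Inr Q τ` moves `x`; `s = τ^i` (StPW), and the elements with `Inr Q` form
a subgroup (`FE.pr_IC`). -/
def StSEX : Prop := ∀ (F L : Type u) [Field F] [NumberField F] [Field L] [NumberField L]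
  [Algebra F L] (p : ℕ) [Fact p.Prime] (ζ m : F) (x : L) (σ : L ≃ₐ[F] L), Cf F L p ζ m x σ →
  ∀ q : HeightOneSpectrum (𝓞 F), ¬ Vd F p q m →
  ∀ Q : Ideal (𝓞 (AlgebraicClosure L)), Q.IsPrime →
  Q.comap (algebraMap (𝓞 F) (𝓞 (AlgebraicClosure L))) = q.asIdeal →
  ∃ s : AlgebraicClosure L ≃ₐ[F] AlgebraicClosure L, Inr Q s ∧ Ex σ s

/-- DEX (EASY-MEDIUM, from StLG, StPW). By StLG for `K = F`, `Ω = AlgebraicClosure L`, `A = x`, `a = m`: if
all `h` with `Dec Q h` fixed `x` then `m` would be a `p`-th power in `F_v`. So some `τ` with `Dec Q τ` moves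
`x`; `s = τ^i` (StPW); `Dec Q` is stable under products. -/
def StDEX : Prop := ∀ (F L : Type u) [Field F] [NumberField F] [Field L] [NumberField L]
  [Algebra F L] (p : ℕ) [Fact p.Prime] (ζ m : F) (x : L) (σ : L ≃ₐ[F] L), Cf F L p ζ m x σ →
  ∀ v : HeightOneSpectrum (𝓞 F), ¬ Lp F p v m →
  ∀ Q : Ideal (𝓞 (AlgebraicClosure L)), Q.IsPrime →
  Q.comap (algebraMap (𝓞 F) (𝓞 (AlgebraicClosure L))) = v.asIdeal →
  ∃ s : AlgebraicClosure L ≃ₐ[F] AlgebraicClosure L, Dec Q s ∧ Ex σ s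

/-- KK (EASY, from StGX). `s^p x = ζ^p x = x`, so `s^p` is the identity on `L` (StGX): it is an element `k`
of `GK L`. `cs^[n] h = s⁻ⁿ h sⁿ` by induction, so `cs^[p] h = k⁻¹ h k`. `cs` is the conjugation. -/
def StKK : Prop := ∀ (F L : Type u) [Field F] [NumberField F] [Field L] [NumberField L]
  [Algebra F L] (p : ℕ) [Fact p.Prime] (ζ m : F) (x : L) (σ : L ≃ₐ[F] L), Cf F L p ζ m x σ →
  ∀ (s : AlgebraicClosure L ≃ₐ[F] AlgebraicClosure L) (hs : Ex σ s),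
  ∃ k : GK L, (∀ y, k y = (s ^ p) y) ∧ ∀ h : GK L, (cs hs)^[p] h = k⁻¹ * h * k

/-- LCT (MEDIUM, from StDEX, StTW1). `v = Q ∩ 𝓞 F` is a place above `p`. By StDEX there is `s'` with
`Dec Q s'`, `Ex σ s'`. `g = s⁻¹ s'` is the identity on `L`, an element of `GK L`, `s' = s g`. For `h` with
`Dec Q h` let `h' = s'⁻¹ h s' ∈ GK L`: `Dec Q h'` (`Dec Q` is stable under products and inverses) and
`tw h' = tw h`. With `p^n θ = (tw - 1) c` on `Dec Q`: `p^n θ h' = p^n θ h`, so `θ h' = θ h`. And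
`h' = g⁻¹ (s⁻¹ h s) g`; `θ` is a homomorphism modulo `p` (`tw = 1` modulo `p`, StTW1), so
`θ h' = θ (s⁻¹ h s)` modulo `p`. -/
def StLCT : Prop := ∀ (F L : Type u) [Field F] [NumberField F] [Field L] [NumberField L]
  [Algebra F L] (p : ℕ) [Fact p.Prime] (ζ m : F) (x : L) (σ : L ≃ₐ[F] L), Cf F L p ζ m x σ →
  (∀ v ∈ Sp F p, ¬ Lp F p v m) →
  ∀ (s : AlgebraicClosure L ≃ₐ[F] AlgebraicClosure L) (hs : Ex σ s) (r : ℤ) (θ : GK L → ℤ_[p]),
  SQ L (AlgebraicClosure L) p r θ → ∀ Q : Ideal (𝓞 (AlgebraicClosure L)), Q.IsPrime →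
  (p : 𝓞 (AlgebraicClosure L)) ∈ Q → ∀ h : GK L, Dec Q h → (p : ℤ_[p]) ∣ θ (cs hs h) - θ h

/-- EXT (MEDIUM-HARD, from StGX, StKK). Every `g ∈ Gal(Ω/F)` has `g x = ζ^j x` with a unique `j < p`, and
`s⁻ʲ g` fixes `x`, so it is (the restriction of scalars of) a unique `h ∈ GK L` (StGX); put `Ψ g = φ h`.
Cocycle: `g = s^j h`, `g' = s^(j') h'`: `g g' = s^(j+j') (s⁻ʲ' h sʲ') h'`, where `s⁻ʲ' h sʲ' = cs^[j'] h`
and `φ (cs^[j'] h) = φ h`. If `j + j' < p`: `Ψ (g g') = φ (cs^[j'] h * h') = φ h + tw h φ h'`, and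
`tw g = (tw s)^j tw h = tw h` (`tw (cs^[j'] h) = tw h`). If `j + j' ≥ p`: `s^(j+j') = s^(j+j'-p) k`, and
`φ (k * y) = φ k + tw k φ y = φ y` (`tw k = (tw s)^p = 1`). `Ψ s = φ 1 = 0`, `Ψ h = φ h`. Continuity: by
the cocycle identity it suffices that for every `n` there is an open subgroup of `Gal(Ω/F)` on which
`Ψ = 0` modulo `p^n`. There is a finite `E/L` inside `Ω` with `φ h = 0` modulo `p^n` for `h` fixing `E`
(`φ` is continuous, `φ 1 = 0`); `E/F` is finite (`IntermediateField.restrictScalars F`), and an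
automorphism over `F` which fixes `E` fixes `L`, so it comes from such an `h`. -/
def StEXT : Prop := ∀ (F L : Type u) [Field F] [NumberField F] [Field L] [NumberField L]
  [Algebra F L] (p : ℕ) [Fact p.Prime] (ζ m : F) (x : L) (σ : L ≃ₐ[F] L), Cf F L p ζ m x σ →
  ∀ (s : AlgebraicClosure L ≃ₐ[F] AlgebraicClosure L) (hs : Ex σ s) (k : GK L),
  (∀ y, k y = (s ^ p) y) → ∀ (r : ℤ), tw p r s = 1 → ∀ φ : GK L → ℤ_[p], Continuous φ →
  (∀ g h, φ (g * h) = φ g + tw p r g * φ h) → (∀ h, φ (cs hs h) = φ h) → φ k = 0 →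
  ∃ Ψ : (AlgebraicClosure L ≃ₐ[F] AlgebraicClosure L) → ℤ_[p], Continuous Ψ ∧
    (∀ g h, Ψ (g * h) = Ψ g + tw p r g * Ψ h) ∧ ∀ h : GK L, Ψ (h.restrictScalars F) = φ h

/-- RAM (MEDIUM-HARD, from StSEX; compare `Q3/I_Ram.lean`). `q = (π)` (a nonzero prime ideal), `q(m) = c`
(`π ∤ N`), so `¬ Vd F p q m` (`1 ≤ c < p`). `Q` a prime of `𝓞 Ω` over `q`, `s` from SEX, `v = Q ∩ 𝓞 L`:
`σ y - y = s y - y ∈ Q` for `y ∈ 𝓞 L`, so `Inert σ v`. So `σ` lies in the inertia group of `v` in `Gal(L/F)`,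
which has `p` elements (`L/F` is Galois with group generated by `σ`); the order of the inertia group is
the ramification index (`Ideal.card_inertia_eq_ramificationIdxIn`), so `e = p`, and `e f g = p` gives
`f = 1`: `𝓞 F → 𝓞 L / v` is onto. `v(a) = q(a)^p` for `a ∈ F` (`HeightOneSpectrum.valuation_liesOver`).
`v(x)^p = v(m) = q(m)^p = exp(-c)^p`, so `v(x) = exp(-c)`. -/
def StRAM : Prop := ∀ (F L : Type u) [Field F] [NumberField F] [Field L] [NumberField L]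
  [Algebra F L] (p : ℕ) [Fact p.Prime] (ζ m : F) (x : L) (σ : L ≃ₐ[F] L), Cf F L p ζ m x σ →
  ∀ (π N : 𝓞 F) (c : ℕ), Prime π → ¬ π ∣ (p : 𝓞 F) → 1 ≤ c → c < p → ¬ π ∣ N →
  m = ((π ^ c * N : 𝓞 F) : F) →
  ∃ (q : HeightOneSpectrum (𝓞 F)) (v : HeightOneSpectrum (𝓞 L)), Rt p x σ π c q v

/-- RMQ (EASY-MEDIUM; the proof of `I_RAM.lean` for a place `q` in place of a prime element `π`). `v` above `q`
(`IRAM.exists_above`). `q(m) = exp(-k)`, `k ∈ ℤ`, `p ∤ k` (otherwise `Vd F p q m`: a power of a uniformizer). As in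
`IRAM.p_dvd` `p` divides the ramification index of `v`, `IRAM.e_p`: `e = p`, `f = 1`, `v` is the only place above
`q`. The rest as in `I_RAM.lean`. -/
def StRMQ : Prop := ∀ (F L : Type u) [Field F] [NumberField F] [Field L] [NumberField L]
  [Algebra F L] (p : ℕ) [Fact p.Prime] (ζ m : F) (x : L) (σ : L ≃ₐ[F] L), Cf F L p ζ m x σ →
  ∀ q : HeightOneSpectrum (𝓞 F), ¬ Vd F p q m →
  ∃ v : HeightOneSpectrum (𝓞 L), v.asIdeal.LiesOver q.asIdeal ∧ Q3.Inert (σ : L ≃+* L) v ∧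
    (∀ y : 𝓞 L, ∃ z : 𝓞 F, y - algebraMap (𝓞 F) (𝓞 L) z ∈ v.asIdeal) ∧
    ∀ a : F, v.valuation L (algebraMap F L a) = q.valuation F a ^ p

/-- TMQ (MEDIUM; the proof of `I_TAM.lean`, simpler). `v(σ^i ε) = v(ε)` (`σ` maps `v` to itself, it acts trivially
modulo `v`), so `v(ε)^p = v(u) = q(u)^p = 1`, `v(ε) = 1`. `ε = y1 / y2` with `y1, y2 ∈ 𝓞 L` outside `v`, `y1`, `y2`
congruent modulo `v` to `z1, z2 ∈ 𝓞 F`, and `σ^i y - y ∈ v` for `y ∈ 𝓞 L`. So `u ∏ σ^i y2 = ∏ σ^i y1` gives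
`v(u z2^p - z1^p) < 1`, `q(u z2^p - z1^p) < 1`, `q(z2) = 1`. Choose `w ∈ 𝓞 F` with `w z2 = 1` modulo `q`; `z = z1 w`. -/
def StTMQ : Prop := ∀ (F L : Type u) [Field F] [NumberField F] [Field L] [NumberField L]
  [Algebra F L] (p : ℕ) [Fact p.Prime] (ζ m : F) (x : L) (σ : L ≃ₐ[F] L), Cf F L p ζ m x σ →
  ∀ (q : HeightOneSpectrum (𝓞 F)) (v : HeightOneSpectrum (𝓞 L)), v.asIdeal.LiesOver q.asIdeal →
  Q3.Inert (σ : L ≃+* L) v →
  (∀ y : 𝓞 L, ∃ z : 𝓞 F, y - algebraMap (𝓞 F) (𝓞 L) z ∈ v.asIdeal) →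
  (∀ a : F, v.valuation L (algebraMap F L a) = q.valuation F a ^ p) →
  ∀ (u : F) (ε : L), q.valuation F u = 1 →
  ∏ i ∈ Finset.range p, (σ ^ i) ε = algebraMap F L u →
  ∃ z : 𝓞 F, q.valuation F (u - (z : F) ^ p) < 1

end Pool.Agent.Work.MP_59f3ad_nt.QD
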