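import Mathlib
import Pool.Agent.Work.MP_59f3ad_nt.QD.StmtsG

/-!
Block QD, part N: `p = 2`, odd twists. `L = F(x)`, `x^2 = m`, `σ x = -x`, `Ω = AlgebraicClosure L`,
`GK L = Gal(Ω/L)`, `cs hs h = s⁻¹ h s`. `i` always denotes a square root of `-1` in `Ω`. Every docstring
is the complete proof. Models: folder `PX` (the same statements for odd `p`).
-/

set_option autoImplicit false

open NumberField IsDedekindDomain

namespace Pool.Agent.Work.MP_59f3ad_nt.QD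

open Pool.Agent.Work.MP_59f3ad_nt.FE
open Pool.Agent.Work.MP_59f3ad_nt.PX

universe u

/-- CY (EASY-MEDIUM). `h` maps `i` to `i` or `-i`. `i` is a primitive 4-th root of unity and
`h i = i^a`, `a` the residue modulo `4` of the cyclotomic character `u` of `h`
(`cyclotomicCharacter.spec` for `n = 2`; compare `PX/I_TW1.lean` and `Q3/I_Mon.lean`, lemma
`IMon.dvd_cyc`). So `u = 1` modulo `4` if `h i = i`, and `u = -1` modulo `4` otherwise; `r` is odd, so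
`u^r` is `1`, `-1` modulo `4` too (in the units of `ℤ/4` every square is `1`; `r` may be negative). -/
def StCY : Prop := ∀ (k Ω : Type u) [Field k] [Field Ω] [Algebra k Ω] [CharZero Ω]
  [IsAlgClosed Ω] (r : ℤ), Odd r → ∀ i : Ω, i ^ 2 = -1 → ∀ h : Ω ≃ₐ[k] Ω,
  (h i = i ∧ ∃ w : ℤ_[2], tw 2 r h = 1 + 4 * w) ∨
    (h i = -i ∧ ∃ w : ℤ_[2], tw 2 r h = -1 + 4 * w)

/-- ND (EASY-MEDIUM, from `PX.StNI`, `PX.StDI`; copy of `PX/I_ND.lean`). As there `exists_cyc_ne_one` gives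
`h` with `Dec Q h` and `cyc h ≠ 1`. Let `u = cyc h`, a unit of `ℤ_2`. If `u^r = 1`, `r` odd, then with
`n = |r|` (odd) `u^n = 1`, `0 = u^n - 1 = (u - 1)(1 + u + ... + u^(n-1))`, and the second factor is
odd (`n` terms, `u = 1` modulo `2`), so not `0`: `u = 1`, a contradiction. -/
def StND : Prop := ∀ (K : Type u) [Field K] [NumberField K] (r : ℤ), Odd r →
  ∀ Q : Ideal (𝓞 (AlgebraicClosure K)), Q.IsPrime → ((2 : ℕ) : 𝓞 (AlgebraicClosure K)) ∈ Q →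
  ∃ h : GK K, Dec Q h ∧ tw 2 r h ≠ 1

/-- BE (EASY, copy of `PX/I_BET.lean` with `QD.StND` in place of `PX.StND`; from StND, `PX.StMUF`). -/
def StBE : Prop := ∀ (K : Type u) [Field K] [NumberField K] (r : ℤ), Odd r →
  ∃ (m : ℕ) (β : GK K → ℤ_[2]), (∀ g, ((2 : ℕ) : ℤ_[2]) ^ m * β g = tw 2 r g - 1) ∧
    (∃ g, ¬ ((2 : ℕ) : ℤ_[2]) ∣ β g) ∧ SQ K (AlgebraicClosure K) 2 r β

/-- IN (MEDIUM). Let `C = AlgebraicClosure v.Completion`. `v.Completion` is isomorphic to `ℝ` or `ℂ`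
(`InfinitePlace.Completion.ringEquivRealOfIsReal`, `ringEquivComplexOfIsComplex`), so `C` has degree at
most `2` over it (transport `Complex`, or: every element of `C` is a root of a polynomial of degree `≤ 2`;
`IsAlgClosed` and `Real` : `Polynomial` irreducible over `ℝ` has degree `≤ 2`,
`Irreducible.degree_le_two`), and `GK v.Completion` has at most two elements, all of square `1`; any two
elements different from `1` are equal. Fix `ι`. The `h ∈ GK K` for which some `g ∈ GK v.Completion` has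
`ι h = g ι` inherit this (`ι` is injective): `h^2 = 1`, and two such `h ≠ 1` are equal. `φ 1 = 0`. If all
such `h` are `1` take `c = 0`. Otherwise let `h0 ≠ 1` be the one: `0 = φ (h0^2) = φ h0 + tw h0 φ h0`, so
`φ h0 = 0` (`c = 0`) or `tw h0 = -1` (`c = -φ h0`: `(tw h0 - 1) c = 2 φ h0`). -/
def StIN : Prop := ∀ (K : Type u) [Field K] [NumberField K] (r : ℤ) (φ : GK K → ℤ_[2]),
  (∀ g h, φ (g * h) = φ g + tw 2 r g * φ h) → ∀ v : InfinitePlace K,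
  LocTriv K 2 r v.Completion (fun g => 2 * φ g)

/-- SZ (EASY, from `PX.StDL`, `PX.StZS`, StIN; compare `PX/I_SHZ.lean`). `2 φ` satisfies the conditions of
`SH` too. Infinite places: StIN. -/
def StSZ : Prop := ∀ (K : Type u) [Field K] [NumberField K] (r : ℤ) (φ : GK K → ℤ_[2]),
  SH K (AlgebraicClosure K) 2 r φ → (fun g => 2 * φ g) ∈ ShaZ K 2 r (Sp K 2)

/-- SF (EASY-MEDIUM, from StSZ, StND, `PX.StTRN`; compare `PX/I_SHF.lean`). As there `Ψ` is transported to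
`Ψ'` on `GK F`, in `SH F (AlgebraicClosure F) 2 r`. By StSZ and the hypothesis `2 Ψ' = (tw - 1) c`
(`Sha1_eq_bot_iff`). Take a prime `Q` above `2` (`exists_prime_above`, lying over) and `h` with `Dec Q h`,
`tw h ≠ 1` (ND). `Ψ' h = (tw h - 1) c_Q`, so `(tw h - 1)(c - 2 c_Q) = 0` and `c = 2 c_Q`,
`Ψ' g = (tw g - 1) c_Q` for all `g` (cancel `2`). -/
def StSF : Prop := ∀ (F L : Type u) [Field F] [NumberField F] [Field L] [NumberField L]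
  [Algebra F L] (r : ℤ), Odd r → Sha1 F 2 r (Sp F 2) = ⊥ →
  ∀ Ψ : (AlgebraicClosure L ≃ₐ[F] AlgebraicClosure L) → ℤ_[2],
  SH F (AlgebraicClosure L) 2 r Ψ → ∃ c : ℤ_[2], ∀ g, Ψ g = (tw 2 r g - 1) * c

/-- CH (EASY-MEDIUM). Let `R` be the set of the `φ ∈ A` with `φ ∘ κ + φ ∈ ℤ_2 β`. By the last hypothesis
`φ ∈ R` is `c' β + 2 α` for a function `α`; `2 α = φ - c' β ∈ A`, so `α ∈ A`. With
`φ ∘ κ + φ = c β`, `β ∘ κ = β`: `2 (α (κ g) + α g) = (c - 2 c') β g`; for `g` with `β g` a unit: `2` divides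
`c - 2 c'`, and `α ∈ R`. Iterate: for every `n` `φ = c_n β + 2^n α_n`. Choose `g0` with `β g0` a unit and put
`c = φ g0 / β g0`; `c_n - c` is divisible by `2^n`, so `φ g - c β g` is divisible by `2^n` for all `n`:
`φ = c β` (compare `PX/I_CHN.lean`). -/
def StCH : Prop := ∀ (G : Type u) (κ : G → G) (β : G → ℤ_[2])
  (A : Submodule ℤ_[2] (G → ℤ_[2])), (∃ g, ¬ ((2 : ℕ) : ℤ_[2]) ∣ β g) →
  (∀ g, β (κ g) = β g) → β ∈ A →
  (∀ φ : G → ℤ_[2], (fun g => ((2 : ℕ) : ℤ_[2]) * φ g) ∈ A → φ ∈ A) →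
  (∀ θ ∈ A, ∀ c : ℤ_[2], (∀ g, θ (κ g) + θ g = c * β g) →
    ∃ c' : ℤ_[2], ∀ g, ((2 : ℕ) : ℤ_[2]) ∣ θ g - c' * β g) →
  ∀ φ ∈ A, ∀ c : ℤ_[2], (∀ g, φ (κ g) + φ g = c * β g) → ∃ c' : ℤ_[2], ∀ g, φ g = c' * β g

/-- KU (MEDIUM, from StCY; compare `PX/I_KUM.lean`). Kummer theory modulo `4`. Let
`a g = (toZModPow 2 (f g)).val`, `c g = i^(a g)`. By StCY `g i = i^(tw g)` (exponents modulo `4`), so
`c (g h) = c g * g (c h)`. `U` = the set of the `g` with `4 ∣ f g`, `g i = i`: an open normal subgroup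
(`f` is continuous, the fixing subgroup of `K(i)` is open; `U` is the kernel of a homomorphism to a finite
group: `g ↦ (g i, f g mod 4)` with `f (g h) = f g + tw g f h`). `M` = its fixed field, finite Galois over
`K`, `i ∈ M`; `c` factors through `Gal(M/K)`. Hilbert 90 (`groupCohomology.isMulCoboundary₁_of_isMulCocycle₁_of_aut_to_units`,
or by independence of the automorphisms: `b = ∑_τ c τ * τ z ≠ 0` for some `z ∈ M`, and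
`σ b = ∑ σ(c τ) στ z = (c σ)⁻¹ b`; `u = b⁻¹`). -/
def StKU : Prop := ∀ (K : Type u) [Field K] [NumberField K] (r : ℤ), Odd r →
  ∀ f : GK K → ℤ_[2], Continuous f → (∀ g h, f (g * h) = f g + tw 2 r g * f h) →
  ∀ i : AlgebraicClosure K, i ^ 2 = -1 →
  ∃ u : AlgebraicClosure K, u ≠ 0 ∧
    ∀ g : GK K, g u = i ^ (PadicInt.toZModPow 2 (f g)).val * u

/-- DX (EASY-MEDIUM, from `PX.StLG`, StPW; compare `PX/I_DEX.lean`). `ζ = -1`. Let `D` be the set of the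
`h ∈ Gal(Ω/F)` with `Dec Q h`, a subgroup. By LG for `x`, `m` some `h2 ∈ D` has `h2 x = -x`. Fix `i`; by LG for
`i x`, `(i x)^2 = -m`, some `h1 ∈ D` has `h1 (i x) = -(i x)`. If `h2 i = i` take `τ = h2`. Otherwise
`h2 i = -i`, `h2 x = -x`; `h1`: either `h1 x = -x`, `h1 i = i`: take `τ = h1`; or `h1 x = x`, `h1 i = -i`: take
`τ = h1 h2`. So `τ ∈ D`, `τ x = -x = σ x`, `τ i = i`; `Ex σ τ` by StGX (last part). The other square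
root of `-1` is `-i`. -/
def StDX : Prop := ∀ (F L : Type u) [Field F] [NumberField F] [Field L] [NumberField L]
  [Algebra F L] (ζ m : F) (x : L) (σ : L ≃ₐ[F] L), Cf F L 2 ζ m x σ →
  ∀ v : HeightOneSpectrum (𝓞 F), ¬ Lp F 2 v m → ¬ Lp F 2 v (-m) →
  ∀ Q : Ideal (𝓞 (AlgebraicClosure L)), Q.IsPrime →
  Q.comap (algebraMap (𝓞 F) (𝓞 (AlgebraicClosure L))) = v.asIdeal →
  ∃ s : AlgebraicClosure L ≃ₐ[F] AlgebraicClosure L, Dec Q s ∧ Ex σ s ∧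
    ∀ i : AlgebraicClosure L, i ^ 2 = -1 → s i = i

/-- LO (MEDIUM, from StDX, StCY; compare `PX/I_LCT.lean`). `v = Q ∩ 𝓞 F` is a place above `2`. `s'` from DX:
`Dec Q s'`, `Ex σ s'`, `s' i = i`. `g = s⁻¹ s'` is the identity on `L`, an element of `GK L`, `s' = s g`. For
`h ∈ GK L` with `Dec Q h` let `h' = s'⁻¹ h s' ∈ GK L`: `Dec Q h'`, `tw h' = tw h`; with
`2^n θ = (tw - 1) c` on `Dec Q`: `2^n θ h' = 2^n θ h`, so `θ h' = θ h`. And `h' = g⁻¹ (s⁻¹ h s) g`, so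
`tw g θ h' = θ (cs h) + (tw h - 1) θ g` (cocycle identity for `g h' = (cs h) g`, `tw (cs h) = tw h`) and
`(1 + tw g) θ h = (tw h - 1) θ g`. `tw g = tw s' = 1 + 4 w` (`tw s = 1`; StCY for `s'`), so
`2 (1 + 2 w) θ h = (tw h - 1) θ g`, `1 + 2 w` is a unit: `c = θ g / (1 + 2 w)`. -/
def StLO : Prop := ∀ (F L : Type u) [Field F] [NumberField F] [Field L] [NumberField L]
  [Algebra F L] (ζ m : F) (x : L) (σ : L ≃ₐ[F] L), Cf F L 2 ζ m x σ →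
  (∀ v ∈ Sp F 2, ¬ Lp F 2 v m ∧ ¬ Lp F 2 v (-m)) →
  ∀ (s : AlgebraicClosure L ≃ₐ[F] AlgebraicClosure L) (hs : Ex σ s) (r : ℤ), Odd r →
  tw 2 r s = 1 → ∀ θ : GK L → ℤ_[2], SQ L (AlgebraicClosure L) 2 r θ →
  (∀ h, θ (cs hs h) = -θ h) → ∀ Q : Ideal (𝓞 (AlgebraicClosure L)), Q.IsPrime →
  ((2 : ℕ) : 𝓞 (AlgebraicClosure L)) ∈ Q →
  ∃ c : ℤ_[2], ∀ h : GK L, Dec Q h → 2 * θ h = (tw 2 r h - 1) * c

/-- BA (MEDIUM-HARD, from StKU, StLO, StH90, StCY). Fix `i`. KU: `u ≠ 0`, `h u = i^(θ h) u`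
(exponents modulo `4`). `B = u * s u`. For `h ∈ GK L`: `h (s u) = s ((cs h) u) = s (i^(θ (cs h)) u) =
i^(-θ h) s u` (`s i = i`), so `h B = B`, `B ∈ L*`; `s B = s u * s^2 u = s u * k u = B` (`θ k = 0`), so
`σ B = B` and `B ∈ F*` (`Cf.hfix`). `α = u^4 / B^2`: `h (u^4) = u^4`, so `α ∈ L*`, and
`α σ α = u^4 (s u)^4 / B^4 = 1`. H90 (`p = 2`, `∏_(i < 2) σ^i c = c σ c`) for `α`: `d ∈ L*` with
`σ d = α d`. Put `δ = σ d`, `a = d σ d ∈ F*` (fixed by `σ`), `A = B σ d / u^2`: since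
`u^4 = α B^2 = B^2 σ d / d`, `A^2 = B^2 (σ d)^2 / u^4 = d σ d = a`; `δ σ δ = σ d * d = a`.
`h A = (-1)^(θ h) A` as `h u^2 = i^(2 θ h) u^2`. `s A = B d / (s u)^2 = B d u^2 / B^2 = d u^2 / B`, and
`A = B σ d / u^2 = B α d / u^2 = d u^2 / B`. So `s A = A` (`fx` for `s`; the hypothesis on `s` for every square root
of `-1`). `ne`: some `θ h` is odd. `inr`: `θ h = 0`. `dec`: LO: `2 θ h = (tw h - 1) c`; take `l = 0` if `2 ∣ c`
and `l = 1` otherwise. StCY: if `h i = i` then `4 ∣ tw h - 1`, `θ h` is even and `h A = A`, `h i = i`. If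
`h i = -i`, then `tw h - 1 = -2 + 4 w`, `θ h = (-1 + 2 w) c`: for `c` even `h A = A` (`l = 0`), for `c` odd
`h A = -A`, `h (i A) = i A` (`l = 1`). (`i` arbitrary in `dec`: StCY for that `i`.) -/
def StBA : Prop := ∀ (F L : Type u) [Field F] [NumberField F] [Field L] [NumberField L]
  [Algebra F L] (ζ m : F) (x : L) (σ : L ≃ₐ[F] L), Cf F L 2 ζ m x σ →
  (∀ v ∈ Sp F 2, ¬ Lp F 2 v m ∧ ¬ Lp F 2 v (-m)) →
  ∀ (s : AlgebraicClosure L ≃ₐ[F] AlgebraicClosure L) (hs : Ex σ s) (k : GK L),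
  (∀ y, k y = (s ^ 2) y) → (∀ i : AlgebraicClosure L, i ^ 2 = -1 → s i = i) →
  ∀ r : ℤ, Odd r → tw 2 r s = 1 → ∀ θ : GK L → ℤ_[2], SQ L (AlgebraicClosure L) 2 r θ →
  θ k = 0 → (∀ h, θ (cs hs h) = -θ h) → (∃ h, ¬ ((2 : ℕ) : ℤ_[2]) ∣ θ h) →
  ∃ (A : AlgebraicClosure L) (a : F) (δ : L), Bd σ A a δ

/-- BB (MEDIUM, from StKU, StLCT). Fix `i`; KU for `θ`: `u ≠ 0`, `h u = i^(θ h) u`. `B = u * s u`:
`h B = i^(θ h + θ (cs h)) B = i^(β h) B` (as in BA). `A = B^2`, `δ = u^4`, `h (u^4) = u^4` so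
`δ ∈ L*`, `δ σ δ = u^4 (s u)^4 = B^4 = A^2`. `B^4` is fixed by `GK L` (`(i^4 = 1)`) and by `s`
(`s B = s u * k u = B`, `θ k = 0`), so it is in `F*`, `a`. `s A = A`. `h A = (-1)^(β h) A`; some `β h` is odd:
`ne`. `inr`: `β h = 0`. `dec` with `l = 0`: on `Dec Q`, `Q ∋ 2`: `β h = θ (cs h) + θ h`, and `2` divides
`θ (cs h) - θ h` (LCT), so `β h` is even. -/
def StBB : Prop := ∀ (F L : Type u) [Field F] [NumberField F] [Field L] [NumberField L]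
  [Algebra F L] (ζ m : F) (x : L) (σ : L ≃ₐ[F] L), Cf F L 2 ζ m x σ →
  (∀ v ∈ Sp F 2, ¬ Lp F 2 v m) →
  ∀ (s : AlgebraicClosure L ≃ₐ[F] AlgebraicClosure L) (hs : Ex σ s) (k : GK L),
  (∀ y, k y = (s ^ 2) y) → (∀ i : AlgebraicClosure L, i ^ 2 = -1 → s i = i) →
  ∀ r : ℤ, Odd r → ∀ β : GK L → ℤ_[2], SQ L (AlgebraicClosure L) 2 r β →
  (∃ g, ¬ ((2 : ℕ) : ℤ_[2]) ∣ β g) → ∀ θ : GK L → ℤ_[2], SQ L (AlgebraicClosure L) 2 r θ →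
  θ k = 0 → (∀ h, θ (cs hs h) + θ h = β h) →
  ∃ (A : AlgebraicClosure L) (a : F) (δ : L), Bd σ A a δ

/-- BC (EASY, from StBA, StBB, `PX.StSQM`). If `c = 2 c'`: `θ' = θ - c' β` is in `SQ`, `θ' k = 0`,
`θ' (cs h) = c β h - θ h - c' β h = -θ' h`, and some `θ' h` is odd: BA. If `c` is odd it is a unit:
`θ' = c⁻¹ θ` and BB. -/
def StBC : Prop := ∀ (F L : Type u) [Field F] [NumberField F] [Field L] [NumberField L]
  [Algebra F L] (ζ m : F) (x : L) (σ : L ≃ₐ[F] L), Cf F L 2 ζ m x σ →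
  (∀ v ∈ Sp F 2, ¬ Lp F 2 v m ∧ ¬ Lp F 2 v (-m)) →
  ∀ (s : AlgebraicClosure L ≃ₐ[F] AlgebraicClosure L) (hs : Ex σ s) (k : GK L),
  (∀ y, k y = (s ^ 2) y) → (∀ i : AlgebraicClosure L, i ^ 2 = -1 → s i = i) →
  ∀ r : ℤ, Odd r → tw 2 r s = 1 → ∀ β : GK L → ℤ_[2], SQ L (AlgebraicClosure L) 2 r β →
  (∃ g, ¬ ((2 : ℕ) : ℤ_[2]) ∣ β g) → β k = 0 → (∀ h, β (cs hs h) = β h) →
  ∀ θ : GK L → ℤ_[2], SQ L (AlgebraicClosure L) 2 r θ → θ k = 0 →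
  ∀ c : ℤ_[2], (∀ h, θ (cs hs h) + θ h = c * β h) →
  (∀ c' : ℤ_[2], ∃ g, ¬ ((2 : ℕ) : ℤ_[2]) ∣ θ g - c' * β g) →
  ∃ (A : AlgebraicClosure L) (a : F) (δ : L), Bd σ A a δ

/-- EXS (EASY, copy of `PX/I_EXS.lean` for `p = 2` with `QD.StND` and `QD.StGX`; from StGX, `PX.StMUF`,
StND). -/
def StEXS : Prop := ∀ (F L : Type u) [Field F] [NumberField F] [Field L] [NumberField L]
  [Algebra F L] (ζ m : F) (x : L) (σ : L ≃ₐ[F] L), Cf F L 2 ζ m x σ →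
  ∀ r : ℤ, Odd r → ∀ φ : GK L → ℤ_[2], SH L (AlgebraicClosure L) 2 r φ →
  ∀ Ψ : (AlgebraicClosure L ≃ₐ[F] AlgebraicClosure L) → ℤ_[2], Continuous Ψ →
  (∀ g h, Ψ (g * h) = Ψ g + tw 2 r g * Ψ h) → (∀ h : GK L, Ψ (h.restrictScalars F) = φ h) →
  SH F (AlgebraicClosure L) 2 r Ψ

/-- IH (MEDIUM-HARD, assembly, copy of `PX/I_INH.lean` for `p = 2`; from `PX.StSHS`, StSF, StBE, StND, `PX.StMUF`,
StSEX, StKK, `PX.StTS`, `PX.StSQM`, StCH, StBC, StEXT, StEXS, `FE.pr_IC`). Suppose that there is no `Bd`. `Q0`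
over `q`, `s` from SEX: `Inr Q0 s`, `Ex σ s`; `k` from KK, `Inr Q0 k`; `tw s = tw k = 1` (MUF); `s i = i`: `s` is in
the inertia group of `Q0 ∌ 2`: `s i = -i` would give `2 i ∈ Q0` (`i` is an algebraic integer, a unit), so
`2 ∈ Q0`. `A` = the submodule of SQM (those `φ` in `SQ`), `β`, `m` from BE. The hypotheses of CH for
`κ = cs hs`: `β (cs g) = β g` as in INH; the last one: if it fails for `θ`, `c`, then BC gives a `Bd` (`θ k = 0`,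
`β k = 0` by `SQ.inr`). Now let `φ ∈ ShaZ L 2 r S`; it is in `SH` (SHS). `ψ h = φ (cs h) + φ h` is in `SH`
(TS, SQM), `ψ (cs h) = ψ h` (`cs^[2] h = k⁻¹ h k` and `φ k = 0`), `ψ k = 0`. EXT and EXS give `Ψ` in
`SH F Ω`, SF: `Ψ g = (tw g - 1) c`, so `ψ h = (tw h - 1) c = (c 2^m) β h`. CH: `φ = c' β`. The end as in
INH (ND): `φ ∈ B1`. -/
def StIH : Prop := ∀ (F L : Type u) [Field F] [NumberField F] [Field L] [NumberField L]
  [Algebra F L] (ζ m : F) (x : L) (σ : L ≃ₐ[F] L), Cf F L 2 ζ m x σ →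
  (∀ v ∈ Sp F 2, ¬ Lp F 2 v m ∧ ¬ Lp F 2 v (-m)) →
  ∀ q : HeightOneSpectrum (𝓞 F), q ∉ Sp F 2 → ¬ Vd F 2 q m →
  ∀ r : ℤ, Odd r → Sha1 F 2 r (Sp F 2) = ⊥ →
  ∀ S : Set (HeightOneSpectrum (𝓞 L)), (∀ v ∈ Sp L 2, v ∈ S) → Sha1 L 2 r S ≠ ⊥ →
  ∃ (A : AlgebraicClosure L) (a : F) (δ : L), Bd σ A a δ

/-- T1 (MEDIUM, from StDX, `PX.StLG`, StGX; compare `PX/I_TR1.lean`). `Q` a prime of `𝓞 Ω` over `v`, `2 ∈ Q`.
`s'` from DX. Fix `i`, `l` from `Bd.dec`, `A1 = i^l A`, fixed by the `h ∈ GK L` with `Dec Q h`;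
`A1^2 = (-1)^l a`, so `s' A1 = ±A1`. Put `k = 0`, `A2 = A1` if `s' A1 = A1`, and `k = 1`, `A2 = A1 x` if
`s' A1 = -A1`: `s' A2 = A2`. Let `g ∈ Gal(Ω/F)`, `Dec Q g`; `g x = ±x`, so `g` or `s'⁻¹ g` fixes `x`, and it comes
from some `h ∈ GK L` (StGX), `Dec Q h`, `h A1 = A1`, `h x = x`; so `g A2 = A2`. LG for
`A2^2 = (-1)^l a m^k`. -/
def StT1 : Prop := ∀ (F L : Type u) [Field F] [NumberField F] [Field L] [NumberField L]
  [Algebra F L] (ζ m : F) (x : L) (σ : L ≃ₐ[F] L), Cf F L 2 ζ m x σ →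
  ∀ v ∈ Sp F 2, ¬ Lp F 2 v m → ¬ Lp F 2 v (-m) →
  ∀ (A : AlgebraicClosure L) (a : F) (δ : L), Bd σ A a δ →
  ∃ k l : ℕ, Lp F 2 v (a * m ^ k * (-1) ^ l)

/-- T2 (EASY, copy of `PX/I_TR2.lean`, `p = 2`, `Bd` in place of `Bad`; from `PX.StI1`, `PX.StI2`, StGX). -/
def StT2 : Prop := ∀ (F L : Type u) [Field F] [NumberField F] [Field L] [NumberField L]
  [Algebra F L] (ζ m : F) (x : L) (σ : L ≃ₐ[F] L), Cf F L 2 ζ m x σ →
  ∀ q : HeightOneSpectrum (𝓞 F), q ∉ Sp F 2 → Vd F 2 q m →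
  ∀ (A : AlgebraicClosure L) (a : F) (δ : L), Bd σ A a δ → Vd F 2 q a

/-- NM (EASY). `ζ = -1`, `σ x = -x`, `x ≠ 0`, `x^2 = m`. `y = (δ + σ δ)/2` and `z = (δ - σ δ)/(2 x)` are
fixed by `σ` (`σ (σ δ) = δ`: `σ^2 = 1` as `L = F(x)`: the first part of StGX), so they are in `F`
(`Cf.hfix`), `δ = y + z x`, `σ δ = y - z x`, and `δ σ δ = y^2 - m z^2`. -/
def StNM : Prop := ∀ (F L : Type u) [Field F] [NumberField F] [Field L] [NumberField L]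
  [Algebra F L] (ζ m : F) (x : L) (σ : L ≃ₐ[F] L), Cf F L 2 ζ m x σ → ∀ (a : F) (δ : L),
  δ * σ δ = algebraMap F L a → ∃ y z : F, a = y ^ 2 - m * z ^ 2

/-- TM (MEDIUM; copy of `PX/I_TAM.lean` for `p = 2`, `c = 1`, with `x σ x = -m` in place of StNX). With
`v(δ) = exp(-e)`: `ε = δ / x^e` has `v(ε) = 1`, `ε σ ε = π^e N'' / (-m)^e = N'' / (-N)^e`. As there
`ε = y1 / y2`, `N'' z2^2 = (-N)^e z1^2` modulo `π`, `z2` a unit modulo `π`; multiply by `(-N)^e`: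
`y = (-N)^e z1 w`, `w z2 = 1` modulo `π`. -/
def StTM : Prop := ∀ (F L : Type u) [Field F] [NumberField F] [Field L] [NumberField L]
  [Algebra F L] (ζ m : F) (x : L) (σ : L ≃ₐ[F] L), Cf F L 2 ζ m x σ →
  ∀ (π N N'' : 𝓞 F) (e : ℕ) (q : HeightOneSpectrum (𝓞 F)) (v : HeightOneSpectrum (𝓞 L)),
  Prime π → ¬ π ∣ N → ¬ π ∣ N'' → m = ((π * N : 𝓞 F) : F) →
  Rt 2 x σ π 1 q v → ∀ δ : L, δ * σ δ = algebraMap F L ((π ^ e * N'' : 𝓞 F) : F) →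
  ∃ y : 𝓞 F, π ∣ y ^ 2 - N'' * (-N) ^ e

/-- TT (EASY-MEDIUM; copy of `PX/I_TRT.lean` for `p = 2` with `x σ x = -m` in place of StNX; from StRMQ, StTMQ,
`PX.StHEN`). `u = a (-m)^k / g^2` has `q(u) = 1` and is the norm of `δ x^k / g`. -/
def StTT : Prop := ∀ (F L : Type u) [Field F] [NumberField F] [Field L] [NumberField L]
  [Algebra F L] (ζ m : F) (x : L) (σ : L ≃ₐ[F] L), Cf F L 2 ζ m x σ →
  ∀ q : HeightOneSpectrum (𝓞 F), q ∉ Sp F 2 → ¬ Vd F 2 q m → ∀ (a : F) (δ : L), a ≠ 0 →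
  δ * σ δ = algebraMap F L a → ∃ k : ℕ, Lp F 2 q (a * (-m) ^ k)

/-- DT (MEDIUM, assembly; compare `PX/I_DTU.lean`; from StCFG, StIH, StT1, StT2, StRAM, StNM, StTM, StTT).
`m = Mq m0 π`, `ζ = -1`. `i0 : Fin t`, `q0 = (π_(i0))`, `q0(m)` is odd, so `m` is not a square in `F`, CFG and
IH give `σ`, `A`, `a`, `δ`. `loc`: `v` above `2`: T1; `v` not above `2`, `¬ Vd F 2 v m0`: no `π_i ∈ v`, so
`v(m) = v(m0)`, TT: `Lp (a (-m)^k)`, `(-m)^k = m^k (-1)^k`. `nrm`: NM. `val`: `q(m) = q(m0)`, T2 (`q ∉ TT` says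
`Vd F 2 q m0`). `non`: let `a = (-m)^j g^2`, so `A = ±(i x)^j g` (`(i x)^2 = -m`); `j` even: `A ∈ F`, against
`Bd.ne`; `j` odd: for `s` from `Bd.fx`: `s (i x) = i σ x = -i x`, so `s A = -A`, against `s A = A ≠ 0`. `tam`:
`a (-m)^j g^2` is the norm of `δ x^j g`; for every `k`: `m = π_k N`, `N = m0 ∏_(i≠k) π_i`,
`D ∏ π_i^(e_i) = π_k^(e_k) N''`, RAM (`c = 1`) and TM. -/
def StDT : Prop := ∀ (F : Type u) [Field F] [NumberField F] (t : ℕ) (m0 : 𝓞 F)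
  (π : Fin t → 𝓞 F), 1 ≤ t → m0 ≠ 0 → (∀ i, Prime (π i)) →
  (∀ i, ¬ π i ∣ ((2 : ℕ) : 𝓞 F)) → (∀ i k, Associated (π i) (π k) → i = k) →
  (∀ i, ¬ π i ∣ m0) →
  (∀ v ∈ Sp F 2, ¬ Lp F 2 v (Mq m0 π : F) ∧ ¬ Lp F 2 v (-(Mq m0 π : F))) →
  ∀ (L : Type u) [Field L] [NumberField L] [Algebra F L] (x : L), Module.finrank F L = 2 →
  x ^ 2 = algebraMap F L (Mq m0 π : F) → ∀ r : ℤ, Odd r → Sha1 F 2 r (Sp F 2) = ⊥ →
  ∀ S : Set (HeightOneSpectrum (𝓞 L)), (∀ v ∈ Sp L 2, v ∈ S) → Sha1 L 2 r S ≠ ⊥ →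
  ∃ a : F, Dq m0 π a

/-! ### Base fields -/

/-- D2 (MEDIUM, from `PX.StTW1`, `PX.StKUM`, `PX.StI1`, `PX.StLG`). `ζ = -1`. `f = φ` is a homomorphism modulo `2`
(`tw = 1` modulo `2`, TW1). KUM: `u ≠ 0`, `g u = (-1)^(φ g) u`. `u^2` is fixed by `GK K`, so `u^2 ∈ K*`; replace
`u` by a nonzero integer multiple: `u^2 = d ∈ 𝓞 K`, `d ≠ 0`. For `q ∉ Sp K 2` and `Q` over `q` (lying over): `2 ∉ Q`,
`Inr Q h` implies `φ h = 0`, `h u = u`; I1 (`Ω = AlgebraicClosure K`): `Vd K 2 q d`. For `v ∈ Sp K 2`, `Q` over `v`: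
`Dec Q h` implies `φ h = (tw h - 1) c`, even, `h u = u`; LG: `Lp K 2 v d`. By hypothesis `d = g^2`, so
`u = ±g ∈ K`, `h u = u` for all `h` and `φ h` is even. -/
def StD2 : Prop := ∀ (K : Type u) [Field K] [NumberField K],
  (∀ d : 𝓞 K, d ≠ 0 → (∀ q : HeightOneSpectrum (𝓞 K), q ∉ Sp K 2 → Vd K 2 q (d : K)) →
    (∀ v ∈ Sp K 2, Lp K 2 v (d : K)) → ∃ g : 𝓞 K, g ^ 2 = d) →
  ∀ (r : ℤ) (φ : GK K → ℤ_[2]), SH K (AlgebraicClosure K) 2 r φ →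
  ∀ g, ((2 : ℕ) : ℤ_[2]) ∣ φ g

/-- DV (EASY, copy of `PX/I_DIV.lean` for `p = 2`, from `PX.StTW1`, `PX.StMUF`). -/
def StDV : Prop := ∀ (K : Type u) [Field K] [NumberField K],
  (∀ v ∈ Sp K 2, ∀ v' ∈ Sp K 2, v = v') → ∀ (r : ℤ)
  (φ : GK K → ℤ_[2]), SH K (AlgebraicClosure K) 2 r φ → (∀ g, ((2 : ℕ) : ℤ_[2]) ∣ φ g) →
  ∃ ψ : GK K → ℤ_[2], SH K (AlgebraicClosure K) 2 r ψ ∧ ∃ y : ℤ_[2], ∀ g,
    φ g = 2 * ψ g + (tw 2 r g - 1) * y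

/-- BS (EASY, copy of `PX/I_BAS.lean` for `p = 2`, from `PX.StSHS`, StD2, StDV). -/
def StBS : Prop := ∀ (K : Type u) [Field K] [NumberField K],
  (∀ v ∈ Sp K 2, ∀ v' ∈ Sp K 2, v = v') →
  (∀ d : 𝓞 K, d ≠ 0 → (∀ q : HeightOneSpectrum (𝓞 K), q ∉ Sp K 2 → Vd K 2 q (d : K)) →
    (∀ v ∈ Sp K 2, Lp K 2 v (d : K)) → ∃ g : 𝓞 K, g ^ 2 = d) →
  ∀ r : ℤ, Sha1 K 2 r (Sp K 2) = ⊥

end Pool.Agent.Work.MP_59f3ad_nt.QD
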