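import Mathlib
import Pool.Agent.Work.MP_59f3ad_nt.QD.StmtsN
import Pool.Agent.Work.MP_59f3ad_nt.PX.I_FX

/-!
Block QD, item BA: an element `θ` with `θ (s⁻¹ h s) = -θ h` gives a square root `A` of a norm.
-/

set_option autoImplicit false

open NumberField IsDedekindDomain

namespace Pool.Agent.Work.MP_59f3ad_nt.QD

open Pool.Agent.Work.MP_59f3ad_nt.FE
open Pool.Agent.Work.MP_59f3ad_nt.PX

universe u

namespace IBA

theorem not_dvd_one : ¬ ((2 : ℕ) : ℤ_[2]) ∣ 1 := (PadicInt.prime_p (p := 2)).not_dvd_one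

theorem exists_val (a : ℤ_[2]) : ∃ b : ℤ_[2],
    a = (((PadicInt.toZModPow 2 a).val : ℕ) : ℤ_[2]) + 4 * b := by
  have h1 : a - (((PadicInt.toZModPow 2 a).val : ℕ) : ℤ_[2]) ∈
      RingHom.ker (PadicInt.toZModPow 2 : ℤ_[2] →+* ZMod (2 ^ 2)) := by
    rw [RingHom.mem_ker, map_sub, map_natCast, ZMod.natCast_zmod_val, sub_self]
  rw [PadicInt.ker_toZModPow, Ideal.mem_span_singleton] at h1
  obtain ⟨b, hb⟩ := h1
  refine ⟨b, ?_⟩
  have h2 : (((2 : ℕ) : ℤ_[2]) ^ 2 : ℤ_[2]) = 4 := by norm_num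
  rw [h2] at hb
  rw [← hb]
  ring

theorem even_val {a : ℤ_[2]} (h : ((2 : ℕ) : ℤ_[2]) ∣ a) :
    Even (PadicInt.toZModPow 2 a).val := by
  obtain ⟨b, hb⟩ := exists_val a
  by_contra hne
  rw [Nat.not_even_iff_odd] at hne
  obtain ⟨k, hk⟩ := hne
  obtain ⟨c, hc⟩ := h
  apply not_dvd_one
  refine ⟨c - k - 2 * b, ?_⟩
  rw [hk] at hb
  have h3 : ((2 : ℕ) : ℤ_[2]) * c = (((2 * k + 1 : ℕ)) : ℤ_[2]) + 4 * b := by rw [← hc]; exact hb
  push_cast at h3 ⊢
  linear_combination -h3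

theorem odd_val {a : ℤ_[2]} (h : ¬ ((2 : ℕ) : ℤ_[2]) ∣ a) :
    Odd (PadicInt.toZModPow 2 a).val := by
  obtain ⟨b, hb⟩ := exists_val a
  by_contra hne
  rw [Nat.not_odd_iff_even] at hne
  obtain ⟨k, hk⟩ := hne
  apply h
  refine ⟨k + 2 * b, ?_⟩
  rw [hk] at hb
  rw [hb]
  push_cast
  ring

section pw

variable {Ω : Type u} [Field Ω] {i : Ω}

/-- `i^(a+b) = i^a i^b` for exponents modulo `4` -/
theorem pow_val_add (hi : i ^ 2 = -1) (a b : ZMod (2 ^ 2)) :
    i ^ (a + b).val = i ^ a.val * i ^ b.val := by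
  have h4 : i ^ (2 ^ 2) = 1 := by
    have : i ^ (2 ^ 2) = (i ^ 2) ^ 2 := by ring
    rw [this, hi]
    ring
  rw [ZMod.val_add, ← pow_add, ← pow_mod_orderOf, ← pow_mod_orderOf i (a.val + b.val),
    Nat.mod_mod_of_dvd _ (orderOf_dvd_of_pow_eq_one h4)]

theorem sq_even (hi : i ^ 2 = -1) {n : ℕ} (hn : Even n) : (i ^ n) ^ 2 = 1 := by
  rw [← pow_mul, mul_comm, pow_mul, hi, hn.neg_one_pow]

theorem sq_odd (hi : i ^ 2 = -1) {n : ℕ} (hn : Odd n) : (i ^ n) ^ 2 = -1 := by
  rw [← pow_mul, mul_comm, pow_mul, hi, hn.neg_one_pow]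

theorem pow_four (hi : i ^ 2 = -1) (n : ℕ) : (i ^ n) ^ 4 = 1 := by
  have h4 : i ^ 4 = 1 := by
    have : i ^ 4 = (i ^ 2) ^ 2 := by ring
    rw [this, hi]
    ring
  rw [← pow_mul, mul_comm, pow_mul, h4, one_pow]

end pw

end IBA

open IBA in
theorem pr_BA (hKU : StKU.{u}) (hLO : StLO.{u}) (hH90 : StH90.{u}) (hCY : StCY.{u}) :
    StBA.{u} := by
  intro F L _ _ _ _ _ ζ m x σ hC hlp s hs k hk hsi r hr hts θ hθ hθk hθs hodd
  obtain ⟨i, hi⟩ : ∃ i : AlgebraicClosure L, i ^ 2 = -1 :=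
    IsAlgClosed.exists_pow_nat_eq (-1) (by norm_num)
  obtain ⟨u, hu, hgu⟩ := hKU L r hr θ hθ.cont hθ.mul i hi
  have hsii : s i = i := hsi i hi
  obtain ⟨E, hE⟩ : ∃ E : GK L → AlgebraicClosure L,
      E = fun h => i ^ (PadicInt.toZModPow 2 (θ h)).val := ⟨_, rfl⟩
  have hEu : ∀ h : GK L, h u = E h * u := by
    intro h
    rw [hE]
    exact hgu h
  have hE4 : ∀ h, E h ^ 4 = 1 := by
    intro h
    rw [hE]
    exact pow_four hi _
  have hE2e : ∀ h, ((2 : ℕ) : ℤ_[2]) ∣ θ h → E h ^ 2 = 1 := by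
    intro h hh
    rw [hE]
    exact sq_even hi (even_val hh)
  have hE2o : ∀ h, ¬ ((2 : ℕ) : ℤ_[2]) ∣ θ h → E h ^ 2 = -1 := by
    intro h hh
    rw [hE]
    exact sq_odd hi (odd_val hh)
  have hEcs : ∀ h, E h * E (cs hs h) = 1 := by
    intro h
    rw [hE]
    change i ^ (PadicInt.toZModPow 2 (θ h)).val * i ^ (PadicInt.toZModPow 2 (θ (cs hs h))).val = 1
    rw [hθs h, ← pow_val_add hi, map_neg, add_neg_cancel, ZMod.val_zero, pow_zero]
  have hEs : ∀ h, s (E h) = E h := by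
    intro h
    rw [hE]
    change s (i ^ _) = i ^ _
    rw [map_pow, hsii]
  have hE0 : ∀ h, E h ≠ 0 := by
    intro h h0
    have := hE4 h
    rw [h0] at this
    norm_num at this
  have hsu0 : s u ≠ 0 := by
    rw [Ne, map_eq_zero]
    exact hu
  -- the action on `s u`
  have hsu : ∀ h : GK L, h (s u) = E (cs hs h) * s u := by
    intro h
    have e1 : s (cs hs h u) = h (s u) := by
      rw [cs_apply]
      exact s.apply_symm_apply _
    rw [← e1, hEu (cs hs h), map_mul, hEs]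
  have hku : k u = u := by
    have h1 : E k = 1 := by
      rw [hE]
      change i ^ (PadicInt.toZModPow 2 (θ k)).val = 1
      rw [hθk, map_zero, ZMod.val_zero, pow_zero]
    rw [hEu, h1, one_mul]
  have hssu : s (s u) = u := by
    have h1 := hk u
    rw [hku, pow_two, AlgEquiv.mul_apply] at h1
    exact h1.symm
  -- the element `B`
  obtain ⟨B, hB⟩ : ∃ B : AlgebraicClosure L, B = u * s u := ⟨_, rfl⟩
  have hB0 : B ≠ 0 := by
    rw [hB]
    exact mul_ne_zero hu hsu0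
  have hsB : s B = B := by
    rw [hB, map_mul, hssu, mul_comm]
  have hhB : ∀ h : GK L, h B = B := by
    intro h
    rw [hB, map_mul, hEu, hsu]
    linear_combination (u * s u) * hEcs h
  -- the element `α`
  obtain ⟨α, hα⟩ := IFX.fixed_mem (L := L) (x := u ^ 4 / B ^ 2) (fun h => by
    rw [map_div₀, map_pow, map_pow, hhB, hEu, mul_pow, hE4, one_mul])
  have hασ : α * σ α = 1 := by
    apply (algebraMap L (AlgebraicClosure L)).injective
    rw [map_mul, map_one, ← hs α, ← hα, map_div₀, map_pow, map_pow, hsB, hB]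
    field_simp
  obtain ⟨d, hd0, hd⟩ := hH90 F L 2 ζ m x σ hC α (by
    rw [Finset.prod_range_succ, Finset.prod_range_succ, Finset.prod_range_zero, one_mul,
      pow_zero, pow_one, AlgEquiv.one_apply]
    exact hασ)
  have hσσ : σ (σ d) = d := by
    rw [hd, map_mul, hd]
    linear_combination d * hασ
  obtain ⟨a, ha⟩ := hC.hfix (d * σ d) (by rw [map_mul, hσσ, mul_comm])
  have hσd0 : σ d ≠ 0 := by
    rw [Ne, map_eq_zero]
    exact hd0
  have ha0 : a ≠ 0 := by
    rintro rfl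
    rw [map_zero] at ha
    exact mul_ne_zero hd0 hσd0 ha
  have hdΩ : algebraMap L (AlgebraicClosure L) d ≠ 0 := by
    rw [Ne, map_eq_zero]
    exact hd0
  have hσdΩ : algebraMap L (AlgebraicClosure L) (σ d) =
      u ^ 4 / B ^ 2 * algebraMap L (AlgebraicClosure L) d := by
    rw [hd, map_mul, hα]
  -- the element `A`
  obtain ⟨A, hA⟩ : ∃ A : AlgebraicClosure L,
      A = u ^ 2 * algebraMap L (AlgebraicClosure L) d / B := ⟨_, rfl⟩
  have hA0 : A ≠ 0 := by
    rw [hA]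
    exact div_ne_zero (mul_ne_zero (pow_ne_zero 2 hu) hdΩ) hB0
  have hAsq : A ^ 2 = algebraMap F (AlgebraicClosure L) a := by
    rw [IsScalarTower.algebraMap_apply F L (AlgebraicClosure L) a, ← ha, map_mul, hσdΩ, hA]
    field_simp
  have hhA : ∀ h : GK L, h A = E h ^ 2 * A := by
    intro h
    have hdh : h (algebraMap L (AlgebraicClosure L) d) = algebraMap L (AlgebraicClosure L) d :=
      h.commutes d
    rw [hA, map_div₀, map_mul, map_pow, hhB, hEu, hdh]
    ring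
  have hsA : s A = A := by
    rw [hA, map_div₀, map_mul, map_pow, hsB, hs d, hσdΩ]
    have h1 : s u = B / u := by
      rw [hB]
      field_simp
    rw [h1]
    field_simp
  refine ⟨A, a, σ d, ?_⟩
  refine ⟨ha0, hAsq, ?_, ?_, ?_, ⟨s, hs, hsi, hsA⟩, ?_⟩
  · rw [hσσ, mul_comm]
    exact ha
  · intro Q hQ h2Q h hh
    have h1 : θ h = 0 := hθ.inr Q hQ h2Q h hh
    rw [hhA, hE2e h (by rw [h1]; exact dvd_zero _), one_mul]
  · intro Q hQ h2Q
    obtain ⟨c, hc⟩ := hLO F L ζ m x σ hC hlp s hs r hr hts θ hθ hθs Q hQ h2Q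
    have h20 : (2 : ℤ_[2]) ≠ 0 := by norm_num
    by_cases hc2 : ((2 : ℕ) : ℤ_[2]) ∣ c
    · refine ⟨0, fun j hj h hh => ?_⟩
      rw [pow_zero, one_mul]
      have h1 : ((2 : ℕ) : ℤ_[2]) ∣ θ h := by
        rcases hCY L (AlgebraicClosure L) r hr j hj h with ⟨_, w, hw⟩ | ⟨_, w, hw⟩
        · refine ⟨w * c, ?_⟩
          apply mul_left_cancel₀ h20
          rw [hc h hh, hw]
          push_cast
          ring
        · have h2 : θ h = (-1 + 2 * w) * c := by
            apply mul_left_cancel₀ h20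
            rw [hc h hh, hw]
            ring
          rw [h2]
          exact Dvd.dvd.mul_left hc2 _
      rw [hhA, hE2e h h1, one_mul]
    · refine ⟨1, fun j hj h hh => ?_⟩
      rw [pow_one, map_mul]
      rcases hCY L (AlgebraicClosure L) r hr j hj h with ⟨hhj, w, hw⟩ | ⟨hhj, w, hw⟩
      · have h1 : ((2 : ℕ) : ℤ_[2]) ∣ θ h := by
          refine ⟨w * c, ?_⟩
          apply mul_left_cancel₀ h20
          rw [hc h hh, hw]
          push_cast
          ring
        rw [hhj, hhA, hE2e h h1, one_mul]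
      · have h2 : θ h = (-1 + 2 * w) * c := by
          apply mul_left_cancel₀ h20
          rw [hc h hh, hw]
          ring
        have h1 : ¬ ((2 : ℕ) : ℤ_[2]) ∣ θ h := by
          rw [h2]
          intro hdv
          rcases (PadicInt.prime_p (p := 2)).dvd_or_dvd hdv with h3 | h3
          · apply not_dvd_one
            obtain ⟨e, he⟩ := h3
            refine ⟨w - e, ?_⟩
            push_cast at he ⊢
            linear_combination -he
          · exact hc2 h3
        rw [hhj, hhA, hE2o h h1]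
        ring
  · obtain ⟨h, hh⟩ := hodd
    refine ⟨h, ?_⟩
    rw [hhA, hE2o h hh]
    intro h1
    apply hA0
    have h2 : (2 : AlgebraicClosure L) * A = 0 := by linear_combination -h1
    rcases mul_eq_zero.1 h2 with h3 | h3
    · exfalso
      exact two_ne_zero h3
    · exact h3

end Pool.Agent.Work.MP_59f3ad_nt.QD
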