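import Mathlib
import Pool.Agent.Work.MP_59f3ad_nt.QD.StmtsN

/-!
Block QD, item BB: the case of a class `θ` with `θ ∘ cs + θ = β`.
-/

set_option autoImplicit false

open NumberField IsDedekindDomain

namespace Pool.Agent.Work.MP_59f3ad_nt.QD

open Pool.Agent.Work.MP_59f3ad_nt.FE
open Pool.Agent.Work.MP_59f3ad_nt.PX

universe u

namespace IBB

theorem nat_dvd {n : ℕ} (h : ((2 : ℕ) : ℤ_[2]) ∣ (n : ℤ_[2])) : 2 ∣ n := by
  obtain ⟨b, hb⟩ := h
  have h1 : PadicInt.toZMod (n : ℤ_[2]) = 0 := by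
    rw [hb, map_mul, map_natCast, ZMod.natCast_self, zero_mul]
  rw [map_natCast] at h1
  exact (ZMod.natCast_eq_zero_iff n 2).1 h1

theorem dvd_sub_val (a : ℤ_[2]) :
    ((2 : ℕ) : ℤ_[2]) ∣ a - ((PadicInt.toZModPow 2 a).val : ℤ_[2]) := by
  have h1 : PadicInt.toZModPow 2 (a - ((PadicInt.toZModPow 2 a).val : ℤ_[2])) = 0 := by
    rw [map_sub, map_natCast, ZMod.natCast_zmod_val, sub_self]
  have h2 : a - ((PadicInt.toZModPow 2 a).val : ℤ_[2]) ∈
      RingHom.ker (PadicInt.toZModPow 2 : ℤ_[2] →+* ZMod (2 ^ 2)) := h1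
  rw [PadicInt.ker_toZModPow, Ideal.mem_span_singleton] at h2
  exact (dvd_pow_self _ two_ne_zero).trans h2

theorem even_iff (a b : ℤ_[2]) : ((2 : ℕ) : ℤ_[2]) ∣ a + b ↔
    Even ((PadicInt.toZModPow 2 a).val + (PadicInt.toZModPow 2 b).val) := by
  have h1 := dvd_add (dvd_sub_val a) (dvd_sub_val b)
  constructor
  · intro h
    have h2 := dvd_sub h h1
    have e : a + b - (a - ((PadicInt.toZModPow 2 a).val : ℤ_[2]) +
        (b - ((PadicInt.toZModPow 2 b).val : ℤ_[2]))) =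
        (((PadicInt.toZModPow 2 a).val + (PadicInt.toZModPow 2 b).val : ℕ) : ℤ_[2]) := by
      push_cast
      ring
    rw [e] at h2
    exact even_iff_two_dvd.2 (nat_dvd h2)
  · intro h
    obtain ⟨c, hc⟩ := even_iff_two_dvd.1 h
    have h2 : ((2 : ℕ) : ℤ_[2]) ∣
        (((PadicInt.toZModPow 2 a).val + (PadicInt.toZModPow 2 b).val : ℕ) : ℤ_[2]) := by
      rw [hc, Nat.cast_mul]
      exact dvd_mul_right _ _
    have e : a + b = (a - ((PadicInt.toZModPow 2 a).val : ℤ_[2]) +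
        (b - ((PadicInt.toZModPow 2 b).val : ℤ_[2]))) +
        (((PadicInt.toZModPow 2 a).val + (PadicInt.toZModPow 2 b).val : ℕ) : ℤ_[2]) := by
      push_cast
      ring
    rw [e]
    exact dvd_add h1 h2

theorem fixed_mem {L : Type u} [Field L] [NumberField L] {x : AlgebraicClosure L}
    (h : ∀ g : GK L, g x = x) : ∃ y : L, x = algebraMap L (AlgebraicClosure L) y := by
  obtain ⟨y, hy⟩ := (InfiniteGalois.mem_range_algebraMap_iff_fixed x).2 h
  exact ⟨y, hy.symm⟩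

end IBB

open IBB in
theorem pr_BB (hKU : StKU.{u}) (hLCT : StLCT.{u}) : StBB.{u} := by
  intro F L _ _ _ _ _ ζ m x σ hC hlp s hs k hk hsi r hr β hβ hβ1 θ hθ hθk hθβ
  obtain ⟨i, hi⟩ := IsAlgClosed.exists_pow_nat_eq (-1 : AlgebraicClosure L) (n := 2) two_pos
  have hi4 : i ^ 4 = 1 := by
    calc i ^ 4 = (i ^ 2) ^ 2 := by ring
      _ = 1 := by rw [hi]; ring
  obtain ⟨u, hu, hfu⟩ := hKU L r hr θ hθ.cont hθ.mul i hi
  have hsu0 : s u ≠ 0 := by
    rw [Ne, map_eq_zero]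
    exact hu
  -- the action on `s u`
  have hsu : ∀ h : GK L, h (s u) = i ^ (PadicInt.toZModPow 2 (θ (cs hs h))).val * s u := by
    intro h
    have e1 : s (cs hs h u) = h (s u) := by
      rw [cs_apply]
      exact s.apply_symm_apply _
    rw [← e1, hfu (cs hs h), map_mul, map_pow, hsi i hi]
  obtain ⟨B, hB⟩ : ∃ B, B = u * s u := ⟨_, rfl⟩
  have hB0 : B ≠ 0 := by
    rw [hB]
    exact mul_ne_zero hu hsu0
  have hhB : ∀ h : GK L, h B = i ^ ((PadicInt.toZModPow 2 (θ (cs hs h))).val +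
      (PadicInt.toZModPow 2 (θ h)).val) * B := by
    intro h
    rw [hB, map_mul, hfu h, hsu h, pow_add]
    ring
  have hsB : s B = B := by
    have e1 : s (s u) = u := by
      have e2 := hk u
      rw [hfu k, hθk, map_zero, ZMod.val_zero, pow_zero, one_mul, pow_two,
        AlgEquiv.mul_apply] at e2
      exact e2.symm
    rw [hB, map_mul, e1, mul_comm]
  obtain ⟨A, hA⟩ : ∃ A, A = B ^ 2 := ⟨_, rfl⟩
  have hA0 : A ≠ 0 := by
    rw [hA]
    exact pow_ne_zero 2 hB0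
  have hsA : s A = A := by rw [hA, map_pow, hsB]
  have hhA : ∀ h : GK L, h A = (-1) ^ ((PadicInt.toZModPow 2 (θ (cs hs h))).val +
      (PadicInt.toZModPow 2 (θ h)).val) * A := by
    intro h
    rw [hA, map_pow, hhB h, mul_pow, ← pow_mul, mul_comm _ 2, pow_mul, hi]
  have hev : ∀ h : GK L, ((2 : ℕ) : ℤ_[2]) ∣ β h → h A = A := by
    intro h hd
    rw [← hθβ h, even_iff] at hd
    rw [hhA h, hd.neg_one_pow, one_mul]
  have hA2 : ∀ h : GK L, h (A ^ 2) = A ^ 2 := by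
    intro h
    rw [map_pow, hhA h, mul_pow, ← pow_mul, mul_comm _ 2, pow_mul, neg_one_sq, one_pow, one_mul]
  obtain ⟨b, hb⟩ := fixed_mem hA2
  have hσb : σ b = b := by
    apply (algebraMap L (AlgebraicClosure L)).injective
    rw [← hs b, ← hb, map_pow, hsA]
  obtain ⟨a, ha⟩ := hC.hfix b hσb
  have haA : A ^ 2 = algebraMap F (AlgebraicClosure L) a := by
    rw [hb, ha]
    exact (IsScalarTower.algebraMap_apply F L (AlgebraicClosure L) a).symm
  obtain ⟨δ, hδ⟩ := fixed_mem (L := L) (x := u ^ 4) (fun h => by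
    rw [map_pow, hfu h, mul_pow, ← pow_mul, mul_comm _ 4, pow_mul, hi4, one_pow, one_mul])
  refine ⟨A, a, δ, ?_, haA, ?_, ?_, ?_, ⟨s, hs, hsi, hsA⟩, ?_⟩
  · rintro rfl
    rw [map_zero] at haA
    exact pow_ne_zero 2 hA0 haA
  · apply (algebraMap L (AlgebraicClosure L)).injective
    rw [map_mul, ← hs δ, ← hδ, map_pow, ← mul_pow, ← hB, ← ha, ← hb, hA]
    ring
  · intro Q hQ h2 h hh
    refine hev h ?_
    rw [hβ.inr Q hQ h2 h hh]
    exact dvd_zero _
  · intro Q hQ h2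
    refine ⟨0, fun j _ h hh => ?_⟩
    rw [pow_zero, one_mul]
    refine hev h ?_
    have h3 := hLCT F L 2 ζ m x σ hC hlp s hs r θ hθ Q hQ h2 h hh
    have e : β h = (θ (cs hs h) - θ h) + ((2 : ℕ) : ℤ_[2]) * θ h := by
      rw [← hθβ h]
      push_cast
      ring
    rw [e]
    exact dvd_add h3 (dvd_mul_right _ _)
  · obtain ⟨g, hg⟩ := hβ1
    refine ⟨g, fun hgA => hg ?_⟩
    rw [← hθβ g, even_iff]
    by_contra hodd
    rw [Nat.not_even_iff_odd] at hodd
    rw [hhA g, hodd.neg_one_pow] at hgA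
    have h1 : (2 : AlgebraicClosure L) * A = 0 := by linear_combination -hgA
    have h2 : (2 : AlgebraicClosure L) ≠ 0 := two_ne_zero
    exact mul_ne_zero h2 hA0 h1

end Pool.Agent.Work.MP_59f3ad_nt.QD
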