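import Mathlib
import Pool.Agent.Work.MP_59f3ad_nt.QD.StmtsN

/-!
Block QD, part Q: the count for `p = 2`. Every docstring is the complete proof. Models: folder `PX`, files
`I_LPU`, `I_RU1`, `I_RU2`, `I_RU3`, `I_RU4`, `I_RUS`, `I_CNU`, `I_REU`, `I_BNU`.
-/

set_option autoImplicit false

open NumberField IsDedekindDomain

namespace Pool.Agent.Work.MP_59f3ad_nt.QD

open Pool.Agent.Work.MP_59f3ad_nt.FE
open Pool.Agent.Work.MP_59f3ad_nt.PX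

universe u

/-- LM (EASY). Write `Lp` for squares in `F_v`, `M ≠ 0`. (1) products: `(b M^k (-1)^l)(b' M^(k') (-1)^(l'))`;
`(y^2 - M z^2)(y'^2 - M z'^2) = (y y' + M z z')^2 - M (y z' + z y')^2`. (2) `g^2 = g^2 - M 0^2`. (3)
`-M = 0^2 - M 1^2`, `(-M) M (-1) = M^2`. (4) `a = (a g^2) (g⁻¹)^2`. (5) `Lq` implies the same for `M` replaced by
`M` times a square of `F_v` and `b` by `b` times a square of `F_v` (nonzero squares):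
`b' = b w^2`, `M' = M u^2`, `u ≠ 0`: `b' M'^k (-1)^l = b M^k (-1)^l (w u^k)^2`,
`b' = (w y)^2 - M' (w z / u)^2`. -/
def StLM : Prop := ∀ (F : Type u) [Field F] [NumberField F] (v : HeightOneSpectrum (𝓞 F))
  (M : F), M ≠ 0 →
  (∀ a b, Lq F v M a → Lq F v M b → Lq F v M (a * b)) ∧ (∀ g, Lq F v M (g ^ 2)) ∧
  Lq F v M (-M) ∧ (∀ a g, g ≠ 0 → Lq F v M (a * g ^ 2) → Lq F v M a) ∧
  ∀ (a b M' : F), (∃ u : v.adicCompletion F, u ≠ 0 ∧ algebraMap F (v.adicCompletion F) M' =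
      algebraMap F (v.adicCompletion F) M * u ^ 2) →
    (∃ w : v.adicCompletion F, algebraMap F (v.adicCompletion F) b =
      algebraMap F (v.adicCompletion F) a * w ^ 2) → Lq F v M a → Lq F v M' b

/-- LQ (EASY-MEDIUM, from StLM, `PX.StLPM` first part; compare `PX/I_LPU.lean`). For `v ∈ TT F 2 m0`:
`π_i = x_i y_i^2` in `F_v`, `y_i ≠ 0` (`π_i ≠ 0`), so `Mq m0 π = Mq m0 x (∏ y_i)^2`,
`D ∏ π_i^(e_i) = D ∏ x_i^(e_i) (∏ y_i^(e_i))^2`: (1) (`Sp ⊆ TT`) and (2) by LM (5). (3): for a real embedding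
`s` all `s π_i`, `s x_i` have the same sign and are not `0`: `s (D ∏ π_i^(e_i))` and `s (D ∏ x_i^(e_i))` have the
same sign (their product is a positive multiple of `s(D)^2`, both `0` if `s D = 0`), the same for `Mq`. -/
def StLQ : Prop := ∀ (F : Type u) [Field F] [NumberField F] (t : ℕ) (m0 : 𝓞 F)
  (x π : Fin t → 𝓞 F), Cq m0 x π →
  (∀ v ∈ Sp F 2, ¬ Lp F 2 v (Mq m0 π : F) ∧ ¬ Lp F 2 v (-(Mq m0 π : F))) ∧
  ∀ (D : 𝓞 F) (e : Fin t → ℕ),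
    (∀ v ∈ TT F 2 m0, Lq F v (Mq m0 π : F) ((D * ∏ i, π i ^ e i : 𝓞 F) : F) →
      Lq F v (Mq m0 x : F) ((D * ∏ i, x i ^ e i : 𝓞 F) : F)) ∧
    ∀ s : F →+* ℝ, (0 < s (Mq m0 π : F) ∨ 0 < s ((D * ∏ i, π i ^ e i : 𝓞 F) : F)) →
      (0 < s (Mq m0 x : F) ∨ 0 < s ((D * ∏ i, x i ^ e i : 𝓞 F) : F))

/-- R1 (MEDIUM, from `PX.StLFT`, StLM, StLQ, `PX.StLPM` first part; compare `PX/I_RU1.lean`). `m = Mq m0 π ≠ 0`,
`b = a (-m)^j`. LFT (`p = 2`) for `b` gives `e`, `g`, `D` (`(e_i : ZMod 2).val = e_i` since `e_i < 2`). `val`: at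
`q ∉ TT`: if some `π_i ∈ q` then `q = (π_i)`, `q(D) = 1`; otherwise `q(D) = q(a) q(m0)^j q(g)^2`, all squares.
`loc` for `π`: `b g^2 = D ∏ π_i^(e_i)` is `Lq` for `m` (`a` by `Dq.loc`, `Dq.nrm`; `-m`, `g^2` by LM, products);
LQ gives it for `x`. `pos` for `π`: if `s m ≤ 0` then `s m < 0` (`m ≠ 0`) and `s a = (s y)^2 - s m (s z)^2 > 0`
(`≥ 0` and `a ≠ 0`), `s (-m) > 0`, `s (g^2) > 0`; LQ. -/
def StR1 : Prop := ∀ (F : Type u) [Field F] [NumberField F] (t : ℕ) (m0 : 𝓞 F)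
  (x π : Fin t → 𝓞 F), Cq m0 x π → ∀ a : F, Dq m0 π a → ∀ j : ℕ,
  ∃ (e : Fin t → ZMod 2) (D : 𝓞 F) (g : F), Rq m0 x π a j e D g

/-- R2 (EASY-MEDIUM, compare `PX/I_RU2.lean`). `ind D = ind d` for `ind = ind (π k)` as there (`Eqv 2 D d`,
`π k` divides neither). `Dq.tam` for `j, g, D`, `e_i = (e i).val` gives `y` with
`π_k ∣ y^2 - (D ∏_(i≠k) π_i^(e_i)) (-(m0 ∏_(i≠k) π_i))^(e_k)`; the second term is not divisible by `π_k`, so by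
`Sym.pow` its index is `0`: `ind D + ∑_(i≠k) e_i ind π_i + e_k (ind (-m0) + ∑_(i≠k) ind π_i) = 0` in `ℤ/2`
(`-(m0 ∏) = (-m0) ∏`). In `ℤ/2` signs do not matter: rearrange. -/
def StR2 : Prop := ∀ (F : Type u) [Field F] [NumberField F] (ind : 𝓞 F → 𝓞 F → ZMod 2),
  Sym F 2 ind → ∀ (t : ℕ) (m0 : 𝓞 F) (x π : Fin t → 𝓞 F), Cq m0 x π →
  ∀ a : F, Dq m0 π a → ∀ (j : ℕ) (e : Fin t → ZMod 2) (D : 𝓞 F) (g : F),
  Rq m0 x π a j e D g → ∀ d : 𝓞 F, Eqv 2 D d → (∀ k, ¬ π k ∣ d) →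
  ∀ k, ∑ i ∈ Finset.univ.erase k, (e i - e k) * ind (π k) (π i) =
    -(ind (π k) d - e k * ind (π k) (-m0))

/-- R3 (MEDIUM, from StLM; compare `PX/I_RU3.lean`). Suppose that `e` is constant (`t ≥ 1`), `m = Mq m0 π`. If
`e = 0` let `d' = D`, `j' = j`, `g' = g`; if `e = 1` let `d' = -(D m0)`, `j' = j + 1`, `g' = g / ∏ π_i`
(multiply `Rq.eq` by `-m = -m0 ∏ π_i`). In both cases `a (-m)^(j') g'^2 = d'`, no `π_k` divides `d'`, and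
`Wq m0 x 0 d'`: `val`: `q(m0)` is a square at `q ∉ TT`; `loc`, `e = 1`: `D ∏ x_i` and `-M`, `M = Mq m0 x`, are
`Lq`, so `-(D m0) (∏ x_i)^2` is, and LM (4); `pos`, `e = 1`: if `s M < 0` then `s (D ∏ x_i) > 0`,
`s (-M) > 0`. (For the vector `0` the product `∏ x_i^0` is `1`.) By `hH` `d' = g''^2`, so
`a = (-m)^(j') (g'' / (g' (-m)^(j')))^2`, against `Dq.non`; or `d'` is not a square modulo some `π_i`, against `Dq.tam`
for `j'`, `g'`, `d'` and the exponents `0`. -/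
def StR3 : Prop := ∀ (F : Type u) [Field F] [NumberField F] (t : ℕ) (m0 : 𝓞 F)
  (x π : Fin t → 𝓞 F), Cq m0 x π → ∀ a : F, Dq m0 π a →
  ∀ (j : ℕ) (e : Fin t → ZMod 2) (D : 𝓞 F) (g : F), Rq m0 x π a j e D g → ∃ i k, e i ≠ e k

/-- RS (MEDIUM, from StDT, StR1, StR2, StR3, StLQ; compare `PX/I_RUS.lean`). If `π` is not good then there are
`L`, `x`, `r`, `S` as in `Gd` with `Sha1 L 2 r S ≠ ⊥`; LQ (1) and DT give `a` with `Dq m0 π a`. R1 for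
`j = 0, 1`: `(e0, D0, g0)`, `(e1, D1, g1)`, not constant (R3); `(e0, d0), (e1, d1) ∈ R` with `Eqv 2 D0 d0`,
`Eqv 2 D1 d1`. They are different: otherwise `Eqv 2 D0 D1`, `u^2 D0 = w^2 D1`, `e0 = e1`, `E = ∏ π_i^(e_i)`:
`a (g0 u)^2 = D0 E u^2 = D1 E w^2 = a (-m) (g1 w)^2`, so `-m` is a square in `F`, so in `F_v` for a place `v` above
`2` (`exists_prime_above`), against LQ (1). `T` = these two elements; R2 gives the relation. -/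
def StRS : Prop := ∀ (F : Type u) [Field F] [NumberField F] (ind : 𝓞 F → 𝓞 F → ZMod 2),
  Sym F 2 ind → ∀ (t : ℕ) (m0 : 𝓞 F) (x π : Fin t → 𝓞 F), Cq m0 x π →
  ∀ R : Finset ((Fin t → ZMod 2) × 𝓞 F), (∀ a ∈ R, ∀ k, ¬ π k ∣ a.2) →
  (∀ (e : Fin t → ZMod 2) (D : 𝓞 F), (∃ i k, e i ≠ e k) →
    Wq m0 x e D → ∃ d, (e, d) ∈ R ∧ Eqv 2 D d) → ¬ Gd m0 π →
  ∃ T : Finset ((Fin t → ZMod 2) × 𝓞 F), T.card = 2 ∧ ∀ a ∈ T, a ∈ R ∧
    (∃ i k, a.1 i ≠ a.1 k) ∧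
    ∀ k, ∑ i ∈ Finset.univ.erase k, (a.1 i - a.1 k) * ind (π k) (π i) =
      -(ind (π k) a.2 - a.1 k * ind (π k) (-m0))

open Classical in
/-- CN (MEDIUM, assembly, from `PX.StIND`, StRS, `PX.StFMO`, `PX.StEXC`; compare `PX/I_CNU.lean`). `ind` from IND
(`ζ = -1` is a primitive square root of unity). `H` = the elements `(e, d)` of `R` with `e` not constant.
`D0 = m0 ∏_((e,d) ∈ R) d ≠ 0`. Tuples `π` in `∏ P i`, not exceptional (EXC): `Cq m0 x π` holds (`hH` by the last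
hypothesis and `π_i ∤ d`), RS gives `2` elements of `H` with the relation, FMO (`p = 2`, `c = 1`,
`f k z = -(ind z d - e_k ind z (-m0))`) bounds the number of `π` for every `(e, d) ∈ H` by
`(2 / 2^t + ε') ∏ |P i|`. Double counting: `2 #bad' ≤ #H (2 / 2^t + ε') ∏ |P i|`. -/
def StCN : Prop := ∀ (F : Type u) [Field F] [NumberField F], 2 ≤ Module.finrank ℚ F →
  ∀ (t : ℕ) (m0 : 𝓞 F) (x : Fin t → 𝓞 F), 1 ≤ t → m0 ≠ 0 → (∀ i, x i ≠ 0) →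
  (∀ v ∈ Sp F 2, ¬ Lp F 2 v (Mq m0 x : F) ∧ ¬ Lp F 2 v (-(Mq m0 x : F))) →
  ∀ R : Finset ((Fin t → ZMod 2) × 𝓞 F), (∀ a ∈ R, a.2 ≠ 0) →
  (∀ (e : Fin t → ZMod 2) (D : 𝓞 F), (∃ i k, e i ≠ e k) →
    Wq m0 x e D → ∃ d, (e, d) ∈ R ∧ Eqv 2 D d) → ∀ ε : ℝ, 0 < ε →
  ∃ X0 : ℕ, ∀ X : ℕ, X0 ≤ X → ∀ P : Fin t → Finset (𝓞 F), (∀ i, Adm F 2 X (P i)) →
  (∀ i, (X : ℝ) ^ ((Module.finrank ℚ F : ℝ) - 1 / 4) ≤ (P i).card) →
  (∀ i, ∀ z ∈ P i, ∀ v ∈ TT F 2 m0, ∃ y : v.adicCompletion F,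
    algebraMap F (v.adicCompletion F) (z : F) =
      algebraMap F (v.adicCompletion F) (x i : F) * y ^ 2) →
  (∀ i, ∀ z ∈ P i, ∀ s : F →+* ℝ, 0 < s (z : F) * s (x i : F)) →
  (∀ d : 𝓞 F, Wq m0 x 0 d → (∃ g : 𝓞 F, g ^ 2 = d) ∨
    ∃ i, ∀ z ∈ P i, ¬ z ∣ d → ¬ ∃ y : 𝓞 F, z ∣ y ^ 2 - d) →
  (((Fintype.piFinset P).filter (fun π => ¬ Gd m0 π)).card : ℝ) ≤
    ((R.card : ℝ) / (2 : ℝ) ^ t + ε) * ∏ i, ((P i).card : ℝ)

/-- RE (EASY, from `PX.StTFI`, `PX.StFSU` with `p = 2`, `T = TT F 2 m0`; compare `PX/I_REU.lean`). -/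
def StRE : Prop := ∀ (F : Type u) [Field F] [NumberField F] (t : ℕ)
  (m0 : 𝓞 F) (x : Fin t → 𝓞 F), m0 ≠ 0 →
  ∃ R : Finset ((Fin t → ZMod 2) × 𝓞 F), Repq m0 x R

/-- BN (EASY-MEDIUM, from StLM; compare `PX/I_BNU.lean`). If every witness for `0` is a square then there is at most
one class for every `e`: two witnesses `d`, `d'` for `e` give the witness `d d'` for `0`: `val` clear; `loc`:
`Lq M (d ∏ x^e)`, `Lq M (d' ∏ x^e)`, product, LM (4) (`∏ x^e ≠ 0`); `pos` similar. So `d d' = g^2`,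
`d'^2 d = g^2 d'`, `Eqv 2 d d'`. So `#R` is at most the number of the vectors `e` which are not constant,
`2^t - 2` (`t ≥ 1`). -/
def StBN : Prop := ∀ (F : Type u) [Field F] [NumberField F] (t : ℕ)
  (m0 : 𝓞 F) (x : Fin t → 𝓞 F), 1 ≤ t → m0 ≠ 0 → (∀ i, x i ≠ 0) →
  (∀ d : 𝓞 F, Wq m0 x 0 d → ∃ g : 𝓞 F, g ^ 2 = d) →
  ∀ R : Finset ((Fin t → ZMod 2) × 𝓞 F), Repq m0 x R → R.card ≤ 2 ^ t - 2

end Pool.Agent.Work.MP_59f3ad_nt.QD
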