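import Mathlib
import Pool.Agent.Work.MP_59f3ad_nt.QD.StmtsQ

/-! Item BN of block QD (helper54): the number of representatives if every witness for `0` is a square. -/

set_option autoImplicit false

open NumberField IsDedekindDomain

namespace Pool.Agent.Work.MP_59f3ad_nt.QD

open Pool.Agent.Work.MP_59f3ad_nt.FE
open Pool.Agent.Work.MP_59f3ad_nt.PX

universe u

namespace IBN

theorem coe_ne {F : Type u} [Field F] [NumberField F] {a : 𝓞 F} (ha : a ≠ 0) : (a : F) ≠ 0 :=
  fun h => ha (RingOfIntegers.coe_eq_zero_iff.mp h)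

/-- two witnesses for the same vector give a witness for `0` -/
theorem wt_zero (hLM : StLM.{u}) {F : Type u} [Field F] [NumberField F]
    {t : ℕ} {m0 : 𝓞 F} {x : Fin t → 𝓞 F} (hm0 : m0 ≠ 0) (hx : ∀ i, x i ≠ 0)
    {e : Fin t → ZMod 2} {d d' : 𝓞 F} (hd : Wq m0 x e d) (hd' : Wq m0 x e d') :
    Wq m0 x 0 (d * d') := by
  have hE0 : (∏ i, x i ^ (e i).val) ≠ 0 :=
    Finset.prod_ne_zero_iff.mpr (fun i _ => pow_ne_zero _ (hx i))
  have hM0 : Mq m0 x ≠ 0 := mul_ne_zero hm0 (Finset.prod_ne_zero_iff.mpr (fun i _ => hx i))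
  have hZ : (∏ i, x i ^ ((0 : Fin t → ZMod 2) i).val) = 1 := by simp
  have hloc := hd.loc
  have hloc' := hd'.loc
  have hpos := hd.pos
  have hpos' := hd'.pos
  generalize (∏ i, x i ^ (e i).val) = E at hE0 hloc hloc' hpos hpos'
  have h6 : ((d * E : 𝓞 F) : F) * ((d' * E : 𝓞 F) : F) = ((d * d' * 1 : 𝓞 F) : F) * (E : F) ^ 2 := by
    have h7 : (d * E) * (d' * E) = (d * d' * 1) * E ^ 2 := by ring
    have h8 := congrArg (fun z : 𝓞 F => (z : F)) h7
    simp only [map_mul, map_pow] at h8 ⊢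
    exact h8
  refine ⟨mul_ne_zero hd.ne hd'.ne, ?_, ?_, ?_⟩
  · intro q hq
    obtain ⟨y, hy⟩ := hd.val q hq
    obtain ⟨y', hy'⟩ := hd'.val q hq
    refine ⟨y * y', ?_⟩
    have e1 : ((d * d' : 𝓞 F) : F) = (d : F) * (d' : F) := by
      push_cast
      rfl
    rw [e1, map_mul, hy, hy', map_mul, mul_pow]
  · intro v hv
    obtain ⟨h1, -, -, h4, -⟩ := hLM F v (Mq m0 x : F) (coe_ne hM0)
    rw [hZ]
    have h5 := h1 _ _ (hloc v hv) (hloc' v hv)
    rw [h6] at h5
    exact h4 _ (E : F) (coe_ne hE0) h5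
  · intro s
    rw [hZ]
    rcases hpos s with h | h
    · exact Or.inl h
    rcases hpos' s with h' | h'
    · exact Or.inl h'
    right
    have h9 : 0 < s ((d * E : 𝓞 F) : F) * s ((d' * E : 𝓞 F) : F) := mul_pos h h'
    rw [← map_mul, h6, map_mul, map_pow] at h9
    exact pos_of_mul_pos_left h9 (sq_nonneg _)

end IBN

open Classical in
theorem pr_BN (hLM : StLM.{u}) : StBN.{u} := by
  intro F _ _ t m0 x ht hm0 hx hH R hR
  have hinj : Set.InjOn (fun a : (Fin t → ZMod 2) × 𝓞 F => a.1) (R : Set _) := by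
    intro a ha b hb hab
    have ha' : a ∈ R := ha
    have hb' : b ∈ R := hb
    have hab' : a.1 = b.1 := hab
    refine hR.inj a ha' b hb' hab' ?_
    have hwa := (hR.mem a ha').2
    have hwb := (hR.mem b hb').2
    rw [← hab'] at hwb
    obtain ⟨g, hg⟩ := hH _ (IBN.wt_zero hLM hm0 hx hwa hwb)
    have hg0 : g ≠ 0 := by
      intro h0
      rw [h0, zero_pow two_ne_zero] at hg
      exact mul_ne_zero hwa.ne hwb.ne hg.symm
    refine ⟨b.2, g, hwb.ne, hg0, ?_⟩
    rw [hg]
    ring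
  let f : ZMod 2 → (Fin t → ZMod 2) := fun l _ => l
  have hf : Function.Injective f := by
    intro l l' hll
    exact congrFun hll ⟨0, ht⟩
  have hdis : Disjoint (R.image (fun a => a.1)) (Finset.univ.image f) := by
    rw [Finset.disjoint_left]
    intro e he he'
    obtain ⟨a, ha, rfl⟩ := Finset.mem_image.mp he
    obtain ⟨l, _, hl⟩ := Finset.mem_image.mp he'
    obtain ⟨⟨i, k, hik⟩, _⟩ := hR.mem a ha
    apply hik
    rw [← hl]
  have hcard : (R.image (fun a => a.1)).card + (Finset.univ.image f).card ≤ 2 ^ t := by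
    rw [← Finset.card_union_of_disjoint hdis]
    refine (Finset.card_le_univ _).trans ?_
    rw [Fintype.card_pi]
    simp
  rw [Finset.card_image_of_injOn hinj, Finset.card_image_of_injective _ hf, Finset.card_univ,
    ZMod.card] at hcard
  omega

end Pool.Agent.Work.MP_59f3ad_nt.QD
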