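import Mathlib
import Pool.Agent.Work.MP_59f3ad_nt.QD.StmtsN
import Pool.Agent.Work.MP_59f3ad_nt.Bridge

/-!
Block QD, item BS: base fields with one place above `2`.
-/

set_option autoImplicit false

open NumberField IsDedekindDomain

namespace Pool.Agent.Work.MP_59f3ad_nt.QD

open Pool.Agent.Work.MP_59f3ad_nt.FE
open Pool.Agent.Work.MP_59f3ad_nt.PX

universe u

theorem pr_BS (hSHS : PX.StSHS.{u}) (hD2 : StD2.{u}) (hDV : StDV.{u}) : StBS.{u} := by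
  intro K _ _ hone hcl r
  have hdvd : ∀ φ : GK K → ℤ_[2], SH K (AlgebraicClosure K) 2 r φ →
      ∀ g, ((2 : ℕ) : ℤ_[2]) ∣ φ g := fun φ hφ => hD2 K hcl r φ hφ
  rw [Sha1_eq_bot_iff]
  intro φ hφ
  have hSH := hSHS K 2 r (Sp K 2) (fun v hv => hv) φ hφ
  have key : ∀ n : ℕ, ∃ ψ : GK K → ℤ_[2], SH K (AlgebraicClosure K) 2 r ψ ∧ ∃ y : ℤ_[2],
      ∀ g, φ g = ((2 : ℕ) : ℤ_[2]) ^ n * ψ g + (tw 2 r g - 1) * y := by
    intro n
    induction n with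
    | zero => exact ⟨φ, hSH, 0, fun g => by ring⟩
    | succ n ih =>
      obtain ⟨ψ, hψ, y, hy⟩ := ih
      obtain ⟨ψ', hψ', y', hy'⟩ := hDV K hone r ψ hψ (hdvd ψ hψ)
      refine ⟨ψ', hψ', y + ((2 : ℕ) : ℤ_[2]) ^ n * y', fun g => ?_⟩
      rw [hy g, hy' g]
      push_cast
      ring
  obtain ⟨x, hx⟩ := exists_coboundary_of_forall_mod (GK K) 2 φ (fun g => tw 2 r g - 1) (by
    intro m
    obtain ⟨ψ, -, y, hy⟩ := key m
    refine ⟨y, fun g => ⟨ψ g, ?_⟩⟩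
    rw [hy g]
    ring)
  exact ⟨x, fun g => hx g⟩

end Pool.Agent.Work.MP_59f3ad_nt.QD
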