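import Pool.Agent.Work.MP_59f3ad_nt.QD.StmtsN

/-!
Block QD, item CH.
-/

set_option autoImplicit false

namespace Pool.Agent.Work.MP_59f3ad_nt.QD

open Pool.Agent.Work.MP_59f3ad_nt.FE
open Pool.Agent.Work.MP_59f3ad_nt.PX

universe u

theorem pr_CH : StCH.{u} := by
  intro G κ β A hun hinv hβA hsat hlast φ hφ c hc
  obtain ⟨g0, hg0⟩ := hun
  have hu : IsUnit (β g0) := by
    rw [PadicInt.isUnit_iff]
    by_contra hne
    exact hg0 (PadicInt.norm_lt_one_iff_dvd _ |>.1 (lt_of_le_of_ne (PadicInt.norm_le_one _) hne))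
  obtain ⟨u, hu1⟩ := hu.exists_right_inv
  have h20 : ((2 : ℕ) : ℤ_[2]) ≠ 0 := by
    have := (PadicInt.prime_p (p := 2)).ne_zero
    exact this
  -- one step
  have step : ∀ f ∈ A, (∃ d : ℤ_[2], ∀ g, f (κ g) + f g = d * β g) →
      ∃ α ∈ A, (∃ d : ℤ_[2], ∀ g, α (κ g) + α g = d * β g) ∧
        ∃ d : ℤ_[2], ∀ g, f g = ((2 : ℕ) : ℤ_[2]) * α g + d * β g := by
    rintro f hf ⟨d, hd⟩
    obtain ⟨c', hc'⟩ := hlast f hf d hd
    choose α hα using hc'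
    have hαA : α ∈ A := by
      apply hsat
      have : (fun g => ((2 : ℕ) : ℤ_[2]) * α g) = f - c' • β := by
        funext g
        rw [← hα g]
        rfl
      rw [this]
      exact A.sub_mem hf (A.smul_mem c' hβA)
    have hrel : ∀ g, ((2 : ℕ) : ℤ_[2]) * (α (κ g) + α g) = (d - ((2 : ℕ) : ℤ_[2]) * c') * β g := by
      intro g
      have h1 := hd g
      have h2 := hα g
      have h3 := hα (κ g)
      rw [hinv g] at h3
      push_cast at h2 h3 ⊢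
      linear_combination h1 - h2 - h3
    have hdvd : ∃ d' : ℤ_[2], d - ((2 : ℕ) : ℤ_[2]) * c' = ((2 : ℕ) : ℤ_[2]) * d' := by
      refine ⟨(α (κ g0) + α g0) * u, ?_⟩
      linear_combination (-(d - ((2 : ℕ) : ℤ_[2]) * c')) * hu1 - u * hrel g0
    obtain ⟨d', hd'⟩ := hdvd
    refine ⟨α, hαA, ⟨d', fun g => ?_⟩, c', fun g => ?_⟩
    · apply mul_left_cancel₀ h20
      rw [hrel g, hd']
      ring
    · rw [← hα g]
      ring
  have iter : ∀ n : ℕ, ∃ α ∈ A, (∃ d : ℤ_[2], ∀ g, α (κ g) + α g = d * β g) ∧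
        ∃ d : ℤ_[2], ∀ g, φ g = ((2 : ℕ) : ℤ_[2]) ^ n * α g + d * β g := by
    intro n
    induction n with
    | zero => exact ⟨φ, hφ, ⟨c, hc⟩, 0, fun g => by ring⟩
    | succ n ih =>
      obtain ⟨α, hα, hα2, d, hd⟩ := ih
      obtain ⟨α', hα', hα2', d', hd'⟩ := step α hα hα2
      refine ⟨α', hα', hα2', ((2 : ℕ) : ℤ_[2]) ^ n * d' + d, fun g => ?_⟩
      rw [hd g, hd' g]
      ring
  refine ⟨φ g0 * u, fun g => ?_⟩
  by_contra hne
  have hne' : φ g - φ g0 * u * β g ≠ 0 := sub_ne_zero.2 hne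
  have hfin : FiniteMultiplicity ((2 : ℕ) : ℤ_[2]) (φ g - φ g0 * u * β g) :=
    FiniteMultiplicity.of_not_isUnit PadicInt.prime_p.not_isUnit hne'
  obtain ⟨n, hn⟩ := hfin
  apply hn
  obtain ⟨α, -, -, c1, h4⟩ := iter (n + 1)
  refine ⟨α g - α g0 * u * β g, ?_⟩
  rw [h4 g, h4 g0]
  linear_combination (-c1 * β g) * hu1

end Pool.Agent.Work.MP_59f3ad_nt.QD
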