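import Mathlib
import Pool.Agent.Work.MP_59f3ad_nt.QD.StmtsN

/-!
Block QD, item CY: an automorphism and a square root of `-1`.
-/

set_option autoImplicit false

open NumberField IsDedekindDomain

namespace Pool.Agent.Work.MP_59f3ad_nt.QD

open Pool.Agent.Work.MP_59f3ad_nt.FE
open Pool.Agent.Work.MP_59f3ad_nt.PX

universe u

namespace ICY

theorem units_four : ∀ u : (ZMod (2 ^ 2))ˣ, u = 1 ∨ u = -1 := by decide

theorem zpow_odd (u : (ZMod (2 ^ 2))ˣ) (r : ℤ) (hr : Odd r) : u ^ r = u := by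
  obtain ⟨k, rfl⟩ := hr
  have h2 : u ^ (2 : ℤ) = 1 := by
    rcases units_four u with rfl | rfl
    · exact one_zpow 2
    · decide
  rw [zpow_add, zpow_mul, h2, one_zpow, one_mul, zpow_one]

theorem dvd_of_eq (x y : ℤ_[2]) (h : PadicInt.toZModPow (p := 2) 2 x =
    PadicInt.toZModPow (p := 2) 2 y) : ∃ w : ℤ_[2], x = y + 4 * w := by
  have h1 : x - y ∈ RingHom.ker (PadicInt.toZModPow (p := 2) 2) := by
    rw [RingHom.mem_ker, map_sub, h, sub_self]
  rw [PadicInt.ker_toZModPow, Ideal.mem_span_singleton] at h1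
  obtain ⟨w, hw⟩ := h1
  refine ⟨w, ?_⟩
  have h4 : (((2 : ℕ) : ℤ_[2]) ^ 2) = 4 := by norm_num
  rw [h4] at hw
  rw [← hw]
  ring

end ICY

/-- Item CY. -/
theorem pr_CY : StCY.{u} := by
  intro k Ω _ _ _ _ _ r hr i hi h
  set f := PadicInt.toZModPow (p := 2) 2 with hf
  set χ : ℤ_[2]ˣ := cyclotomicCharacter Ω 2 (h : Ω ≃+* Ω) with hχ
  have hi4 : i ^ 2 ^ 2 = 1 := by
    show i ^ 4 = 1
    have : i ^ 4 = (i ^ 2) ^ 2 := by ring
    rw [this, hi]
    norm_num
  have hs : h i = i ^ (f (χ : ℤ_[2])).val :=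
    cyclotomicCharacter.spec (L := Ω) 2 (n := 2) (h : Ω ≃+* Ω) i hi4
  have h2 : Units.map (f : ℤ_[2] →* ZMod (2 ^ 2)) (χ ^ r) =
      Units.map (f : ℤ_[2] →* ZMod (2 ^ 2)) χ := by
    rw [map_zpow, ICY.zpow_odd _ r hr]
  have h3 : f (tw 2 r h) = f (χ : ℤ_[2]) := congrArg Units.val h2
  rcases ICY.units_four (Units.map (f : ℤ_[2] →* ZMod (2 ^ 2)) χ) with h5 | h5
  · have h6 : f (χ : ℤ_[2]) = 1 := congrArg Units.val h5
    left
    constructor
    · rw [hs, h6]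
      have : (1 : ZMod (2 ^ 2)).val = 1 := rfl
      rw [this, pow_one]
    · exact ICY.dvd_of_eq _ 1 (by rw [← hf, h3, h6, map_one])
  · have h6 : f (χ : ℤ_[2]) = -1 := congrArg Units.val h5
    right
    constructor
    · rw [hs, h6]
      have : (-1 : ZMod (2 ^ 2)).val = 3 := rfl
      rw [this]
      have e : i ^ 3 = i ^ 2 * i := by ring
      rw [e, hi]
      ring
    · exact ICY.dvd_of_eq _ (-1) (by rw [← hf, h3, h6, map_neg, map_one])

end Pool.Agent.Work.MP_59f3ad_nt.QD
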