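import Mathlib
import Pool.Agent.Work.MP_59f3ad_nt.QD.StmtsN

/-!
Block QD, item D2: if the only units outside two that are squares at the places above two are squares,
then every Tate-Shafarevich cocycle has even values.
-/

set_option autoImplicit false

open NumberField IsDedekindDomain

namespace Pool.Agent.Work.MP_59f3ad_nt.QD

open Pool.Agent.Work.MP_59f3ad_nt.FE
open Pool.Agent.Work.MP_59f3ad_nt.PX

universe u

namespace ID2

theorem exists_over (K : Type u) [Field K] [NumberField K] (v : HeightOneSpectrum (𝓞 K)) :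
    ∃ Q : Ideal (𝓞 (AlgebraicClosure K)),
    Q.IsPrime ∧ Q.comap (algebraMap (𝓞 K) (𝓞 (AlgebraicClosure K))) = v.asIdeal := by
  have hi : Algebra.IsIntegral (𝓞 K) (𝓞 (AlgebraicClosure K)) := by
    have : Algebra.IsIntegral ℤ (𝓞 (AlgebraicClosure K)) := ⟨fun b => RingOfIntegers.isIntegral b⟩
    exact Algebra.IsIntegral.tower_top ℤ
  have := v.isPrime
  obtain ⟨Q, -, h1, h2⟩ := Ideal.exists_ideal_over_prime_of_isIntegral v.asIdeal
    (⊥ : Ideal (𝓞 (AlgebraicClosure K))) (by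
      intro x hx
      rw [Ideal.mem_comap, Ideal.mem_bot] at hx
      have : x = 0 := by
        refine FaithfulSMul.algebraMap_injective (𝓞 K) (𝓞 (AlgebraicClosure K)) ?_
        rw [hx, map_zero]
      rw [this]
      exact v.asIdeal.zero_mem)
  exact ⟨Q, h1, h2⟩

theorem hm1 (K : Type u) [Field K] [NumberField K] : IsPrimitiveRoot (-1 : K) 2 :=
  IsPrimitiveRoot.neg_one 0 (by norm_num)

theorem zmod_val (x : ℤ_[2]) : (PadicInt.toZMod x).val = 0 ↔ ((2 : ℕ) : ℤ_[2]) ∣ x := by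
  rw [ZMod.val_eq_zero, ← RingHom.mem_ker, PadicInt.ker_toZMod,
    PadicInt.maximalIdeal_eq_span_p, Ideal.mem_span_singleton]

end ID2

theorem pr_D2 (hTW1 : PX.StTW1.{u}) (hKUM : PX.StKUM.{u}) (hI1 : PX.StI1.{u})
    (hLG : PX.StLG.{u}) : StD2.{u} := by
  intro K _ _ hyp r φ hφ
  have hζ := ID2.hm1 K
  have htw : ∀ g : GK K, ((2 : ℕ) : ℤ_[2]) ∣ tw 2 r g - 1 := fun g =>
    hTW1 K (AlgebraicClosure K) 2 (-1) hζ r g
  obtain ⟨u, hu0, hu⟩ := hKUM K 2 (-1) hζ φ hφ.cont (by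
    intro g h
    have h1 : φ (g * h) - (φ g + φ h) = (tw 2 r g - 1) * φ h := by
      rw [hφ.mul g h]; ring
    rw [h1]
    exact Dvd.dvd.mul_right (htw g) _)
  -- the square of u is fixed
  have hsq : ∀ g : GK K, g (u ^ 2) = u ^ 2 := by
    intro g
    rw [map_pow, hu g, mul_pow, ← map_pow, ← pow_mul, mul_comm _ 2, pow_mul]
    norm_num
  obtain ⟨a, ha⟩ : ∃ a : K, algebraMap K (AlgebraicClosure K) a = u ^ 2 := by
    have h1 : u ^ 2 ∈ (⊥ : IntermediateField K (AlgebraicClosure K)) := by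
      rw [InfiniteGalois.mem_bot_iff_fixed]
      exact hsq
    exact h1
  obtain ⟨b, c, hc0, hbc⟩ := IsFractionRing.div_surjective (A := 𝓞 K) a
  have hc : c ≠ 0 := nonZeroDivisors.ne_zero hc0
  have hcK : algebraMap (𝓞 K) K c ≠ 0 := by
    rw [Ne, RingOfIntegers.coe_eq_zero_iff]
    exact hc
  have ha0 : a ≠ 0 := by
    rintro rfl
    rw [map_zero] at ha
    exact hu0 (pow_eq_zero_iff (two_ne_zero) |>.1 ha.symm)
  have hbK : algebraMap (𝓞 K) K b ≠ 0 := by
    intro h
    rw [h, zero_div] at hbc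
    exact ha0 hbc.symm
  have hb : b ≠ 0 := by
    rintro rfl
    exact hbK (map_zero _)
  -- the integral multiple
  set w : AlgebraicClosure K := algebraMap K (AlgebraicClosure K) (algebraMap (𝓞 K) K c) * u
    with hw
  have hw2 : w ^ 2 = algebraMap K (AlgebraicClosure K) (((b * c : 𝓞 K) : K)) := by
    rw [hw, mul_pow, ← ha, ← map_pow, ← map_mul, ← hbc]
    congr 1
    have e : ((b * c : 𝓞 K) : K) = algebraMap (𝓞 K) K b * algebraMap (𝓞 K) K c := by
      rw [← map_mul]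
    rw [e]
    field_simp
  have hw0 : w ≠ 0 := mul_ne_zero (by
    rw [Ne, map_eq_zero]
    exact hcK) hu0
  have hgw : ∀ g : GK K, g w = algebraMap K (AlgebraicClosure K)
      ((-1) ^ (PadicInt.toZMod (φ g)).val) * w := by
    intro g
    rw [hw, map_mul, g.commutes, hu g]
    ring
  have hfx : ∀ g : GK K, ((2 : ℕ) : ℤ_[2]) ∣ φ g → g w = w := by
    intro g hg
    rw [hgw g, (ID2.zmod_val (φ g)).2 hg, pow_zero, map_one, one_mul]
  have hd0 : b * c ≠ 0 := mul_ne_zero hb hc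
  have hd0K : ((b * c : 𝓞 K) : K) ≠ 0 := by
    rw [Ne, RingOfIntegers.coe_eq_zero_iff]
    exact hd0
  obtain ⟨g0, hg0⟩ := hyp (b * c) hd0 (by
    intro q hq
    obtain ⟨Q, hQ, hQq⟩ := ID2.exists_over K q
    refine hI1 K (AlgebraicClosure K) 2 (-1) hζ q Q hQ hQq w _ hd0K hw2 ?_
    intro h hh
    refine hfx h ?_
    rw [hφ.inr Q hQ (by
      intro h2
      apply hq
      change ((2 : ℕ) : 𝓞 K) ∈ q.asIdeal
      rw [← hQq, Ideal.mem_comap, map_natCast]
      exact h2) h hh]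
    exact dvd_zero _) (by
    intro v hv
    obtain ⟨Q, hQ, hQv⟩ := ID2.exists_over K v
    refine hLG K (AlgebraicClosure K) 2 v Q hQ hQv w _ hw2 ?_
    intro h hh
    refine hfx h ?_
    obtain ⟨y, hy⟩ := hφ.dec Q hQ (by
      have h2 : ((2 : ℕ) : 𝓞 K) ∈ v.asIdeal := hv
      rw [← hQv, Ideal.mem_comap, map_natCast] at h2
      exact h2)
    rw [hy h hh]
    exact Dvd.dvd.mul_right (htw h) _)
  -- the root is in K
  have hgw2 : w ^ 2 = (algebraMap K (AlgebraicClosure K) ((g0 : 𝓞 K) : K)) ^ 2 := by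
    rw [hw2, ← map_pow, ← hg0]
    rfl
  have hfix : ∀ g : GK K, g w = w := by
    intro g
    rcases sq_eq_sq_iff_eq_or_eq_neg.1 hgw2 with h | h
    · rw [h, g.commutes]
    · rw [h, map_neg, g.commutes]
  intro g
  rw [← ID2.zmod_val]
  by_contra hne
  have hlt := ZMod.val_lt (PadicInt.toZMod (φ g))
  have h1 : (PadicInt.toZMod (φ g)).val = 1 := by omega
  have h2 := hgw g
  rw [h1, pow_one, hfix g, map_neg, map_one, neg_one_mul] at h2
  have h3 : (2 : AlgebraicClosure K) * w = 0 := by linear_combination h2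
  rcases mul_eq_zero.1 h3 with h4 | h4
  · exact two_ne_zero h4
  · exact hw0 h4

end Pool.Agent.Work.MP_59f3ad_nt.QD
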