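import Mathlib
import Pool.Agent.Work.MP_59f3ad_nt.QD.StmtsN
import Pool.Agent.Work.MP_59f3ad_nt.PX.I_DTU

/-!
Block QD, item DT: the deterministic theorem for quadratic extensions (assembly).
-/

set_option autoImplicit false

open NumberField IsDedekindDomain

namespace Pool.Agent.Work.MP_59f3ad_nt.QD

open Pool.Agent.Work.MP_59f3ad_nt.FE
open Pool.Agent.Work.MP_59f3ad_nt.PX

universe u

namespace IDT

theorem Mq_eq {F : Type u} [Field F] [NumberField F] {t : ℕ} (m0 : 𝓞 F) (π : Fin t → 𝓞 F) :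
    Mq m0 π = m0 * ∏ i, π i ^ (fun _ : Fin t => 1) i := by
  simp [Mq]

/-- a root of `(-m)^j g^2` is, up to sign, `(i x)^j g` -/
theorem non (F L : Type u) [Field F] [NumberField F] [Field L] [NumberField L] [Algebra F L]
    (ζ m : F) (x : L) (σ : L ≃ₐ[F] L) (hσ : Cf F L 2 ζ m x σ) (A : AlgebraicClosure L) (a : F)
    (δ : L) (hb : Bd σ A a δ) (j : ℕ) (g : F) : a ≠ (-m) ^ j * g ^ 2 := by
  intro haj
  have hζ1 : ζ = -1 := IsPrimitiveRoot.eq_neg_one_of_two_right hσ.hζ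
  obtain ⟨i, hi⟩ : ∃ i : AlgebraicClosure L, i ^ 2 = -1 :=
    IsAlgClosed.exists_pow_nat_eq (-1 : AlgebraicClosure L) two_pos
  set X : AlgebraicClosure L := algebraMap L (AlgebraicClosure L) x with hX
  set G : AlgebraicClosure L := algebraMap F (AlgebraicClosure L) g with hG
  have hX2 : X ^ 2 = algebraMap F (AlgebraicClosure L) m := by
    rw [hX, ← map_pow, hσ.hx, ← IsScalarTower.algebraMap_apply]
  have hiX : (i * X) ^ 2 = algebraMap F (AlgebraicClosure L) (-m) := by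
    rw [mul_pow, hi, hX2, map_neg]
    ring
  have hB : ((i * X) ^ j * G) ^ 2 = algebraMap F (AlgebraicClosure L) a := by
    rw [haj, map_mul, map_pow, map_pow, mul_pow, ← pow_mul, mul_comm j 2, pow_mul, hiX]
  have hA0 : A ≠ 0 := by
    intro h
    have h1 := hb.hA
    rw [h] at h1
    have h2 : algebraMap F (AlgebraicClosure L) a = 0 := by
      rw [← h1]
      ring
    rw [FaithfulSMul.algebraMap_eq_zero_iff] at h2
    exact hb.ha h2
  have hAB : A = (i * X) ^ j * G ∨ A = -((i * X) ^ j * G) := by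
    apply sq_eq_sq_iff_eq_or_eq_neg.mp
    rw [hB, hb.hA]
  rcases Nat.even_or_odd j with hj | hj
  · -- `A` comes from `F`
    obtain ⟨n, hn⟩ := hj
    have h1 : (i * X) ^ j * G = algebraMap F (AlgebraicClosure L) ((-m) ^ n * g) := by
      rw [hn, ← two_mul, pow_mul, hiX, map_mul, map_pow]
    obtain ⟨h, hh⟩ := hb.ne
    apply hh
    have h2 : ∀ z : F, h (algebraMap F (AlgebraicClosure L) z) =
        algebraMap F (AlgebraicClosure L) z := by
      intro z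
      rw [IsScalarTower.algebraMap_apply F L (AlgebraicClosure L)]
      exact h.commutes _
    rcases hAB with hA | hA
    · rw [hA, h1, h2]
    · rw [hA, h1, map_neg, h2]
  · -- the automorphism `s` changes the sign
    obtain ⟨s, hs, hsi, hsA⟩ := hb.fx
    have hsX : s X = -X := by
      rw [hX, hs x, hσ.hσ, hζ1, map_neg, map_one]
      simp
    have hsG : s G = G := s.commutes g
    have hsB : s ((i * X) ^ j * G) = -((i * X) ^ j * G) := by
      rw [map_mul, map_pow, map_mul, hsi i hi, hsX, hsG, mul_neg, hj.neg_pow]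
      ring
    have hsA2 : s A = -A := by
      rcases hAB with hA | hA
      · rw [hA, hsB]
      · rw [hA, map_neg, hsB]
    rw [hsA] at hsA2
    exact hA0 (self_eq_neg.mp hsA2)

end IDT

open IDT in
/-- item DT -/
theorem pr_DT (hCFG : StCFG.{u}) (hIH : StIH.{u}) (hT1 : StT1.{u}) (hT2 : StT2.{u})
    (hRAM : StRAM.{u}) (hNM : StNM.{u}) (hTM : StTM.{u}) (hTT : StTT.{u}) : StDT.{u} := by
  intro F _ _ t m0 π ht hm0 hπ hπp hna hπm0 hLp L _ _ _ x hfin hx r hr hF S hS hLS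
  have hp : (2 : ℕ).Prime := Nat.prime_two
  have hζ : IsPrimitiveRoot (-1 : F) 2 := IsPrimitiveRoot.neg_one 0 (by norm_num)
  have hMe := Mq_eq m0 π
  have hsp : ∀ k, Mq m0 π = π k * (m0 * ∏ i ∈ Finset.univ.erase k, π i) := by
    intro k
    have h1 := IDET.split π m0 (fun _ => 1) k
    simp only [pow_one] at h1
    rw [hMe]
    simp only [pow_one]
    exact h1
  have hN : ∀ k, ¬ π k ∣ m0 * ∏ i ∈ Finset.univ.erase k, π i := by
    intro k
    have h1 := IDET.nd π hπ hna m0 (fun _ => 1) k (hπm0 k)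
    simpa only [pow_one] using h1
  have hM0 : Mq m0 π ≠ 0 := by
    rw [Mq]
    exact mul_ne_zero hm0 (Finset.prod_ne_zero_iff.mpr fun i _ => (hπ i).ne_zero)
  have hm : ((Mq m0 π : 𝓞 F) : F) ≠ 0 := by
    rw [RingOfIntegers.coe_eq_algebraMap, Ne, FaithfulSMul.algebraMap_eq_zero_iff]
    exact hM0
  have hval : ∀ q : HeightOneSpectrum (𝓞 F), (∀ i, π i ∉ q.asIdeal) →
      q.valuation F ((Mq m0 π : 𝓞 F) : F) = q.valuation F (m0 : F) := by
    intro q hq
    rw [hMe]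
    exact IDTU.valM F m0 π (fun _ => 1) q hq
  -- the place `q0`
  let i0 : Fin t := ⟨0, by omega⟩
  obtain ⟨q0, hq0⟩ := IDET.place F (π i0) (hπ i0)
  have hq0p : q0 ∉ Sp F 2 := by
    intro h
    have h1 : ((2 : ℕ) : 𝓞 F) ∈ q0.asIdeal := h
    rw [hq0, Ideal.mem_span_singleton] at h1
    exact hπp i0 h1
  have hnVd : ¬ Vd F 2 q0 ((Mq m0 π : 𝓞 F) : F) := by
    have h1 := IDET.nVd F 2 hp (π i0) _ (hπ i0) (hN i0) 1 le_rfl (by norm_num) q0 hq0
    rw [pow_one, ← hsp i0] at h1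
    exact h1
  have hnp : ∀ z : F, z ^ 2 ≠ ((Mq m0 π : 𝓞 F) : F) := by
    intro z hz
    apply hnVd
    exact ⟨z, by rw [← hz, map_pow]⟩
  obtain ⟨σ, hσ⟩ := hCFG F L 2 (-1) ((Mq m0 π : 𝓞 F) : F) x hζ hm hfin hx hnp
  obtain ⟨A, a, δ, hbad⟩ := hIH F L (-1) ((Mq m0 π : 𝓞 F) : F) x σ hσ hLp q0 hq0p hnVd r hr hF S
    hS hLS
  refine ⟨a, hbad.ha, ?_, ?_, ?_, ?_, ?_⟩
  · intro v hv
    by_cases hvp : v ∈ Sp F 2
    · exact hT1 F L (-1) ((Mq m0 π : 𝓞 F) : F) x σ hσ v hvp (hLp v hvp).1 (hLp v hvp).2 A a δ hbad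
    · have hv0 : ¬ Vd F 2 v (m0 : F) := by
        rcases hv with hv | hv
        · exact absurd hv hvp
        · exact hv
      have hπv : ∀ i, π i ∉ v.asIdeal := fun i =>
        IDTU.notmem F 2 m0 (π i) (hπ i) (hπm0 i) v hv0
      have hvM : ¬ Vd F 2 v ((Mq m0 π : 𝓞 F) : F) := by
        rintro ⟨y, hy⟩
        exact hv0 ⟨y, by rw [← hy, hval v hπv]⟩
      obtain ⟨k, hk⟩ := hTT F L (-1) ((Mq m0 π : 𝓞 F) : F) x σ hσ v hvp hvM a δ hbad.ha hbad.hδ
      refine ⟨k, k, ?_⟩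
      have h1 : a * ((Mq m0 π : 𝓞 F) : F) ^ k * (-1) ^ k = a * (-((Mq m0 π : 𝓞 F) : F)) ^ k := by
        rw [neg_pow ((Mq m0 π : 𝓞 F) : F) k]
        ring
      rw [h1]
      exact hk
  · exact hNM F L (-1) ((Mq m0 π : 𝓞 F) : F) x σ hσ a δ hbad.hδ
  · intro q hq hπq
    have hqp : q ∉ Sp F 2 := fun h => hq (Or.inl h)
    have hq0 : Vd F 2 q (m0 : F) := by
      by_contra h
      exact hq (Or.inr h)
    refine hT2 F L (-1) ((Mq m0 π : 𝓞 F) : F) x σ hσ q hqp ?_ A a δ hbad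
    obtain ⟨y, hy⟩ := hq0
    exact ⟨y, by rw [← hy, hval q hπq]⟩
  · intro j g
    exact non F L (-1) ((Mq m0 π : 𝓞 F) : F) x σ hσ A a δ hbad j g
  · intro j g D e hg hD hEq k
    have hN'' := IDET.nd π hπ hna D e k (hD k)
    obtain ⟨q, v, hRt⟩ := hRAM F L 2 (-1) ((Mq m0 π : 𝓞 F) : F) x σ hσ (π k)
      (m0 * ∏ i ∈ Finset.univ.erase k, π i) 1 (hπ k) (hπp k) le_rfl (by norm_num) (hN k)
      (by rw [pow_one, ← hsp k])
    refine hTM F L (-1) ((Mq m0 π : 𝓞 F) : F) x σ hσ (π k)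
      (m0 * ∏ i ∈ Finset.univ.erase k, π i) (D * ∏ i ∈ Finset.univ.erase k, π i ^ e i)
      (e k) q v (hπ k) (hN k) hN'' (by rw [← hsp k]) hRt
      (δ * x ^ j * algebraMap F L g) ?_
    have hxs : x * σ x = algebraMap F L (-((Mq m0 π : 𝓞 F) : F)) := by
      rw [hσ.hσ, map_neg, map_neg, ← hx, map_one]
      ring
    have h1 : δ * x ^ j * algebraMap F L g * σ (δ * x ^ j * algebraMap F L g) =
        (δ * σ δ) * (x * σ x) ^ j * (algebraMap F L g) ^ 2 := by
      rw [map_mul, map_mul, map_pow, AlgEquiv.commutes]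
      ring
    rw [h1, hbad.hδ, hxs, ← IDET.split π D e k, ← hEq, map_mul, map_mul, map_pow, map_pow]

end Pool.Agent.Work.MP_59f3ad_nt.QD
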