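import Mathlib
import Pool.Agent.Work.MP_59f3ad_nt.QD.StmtsN
import Pool.Agent.Work.MP_59f3ad_nt.PX.I_DIV

/-!
Block QD, item DV: a Tate-Shafarevich cocycle all of whose values are divisible by `2` is `2` times a
Tate-Shafarevich cocycle plus a coboundary, if there is only one place above `2` (copy of
`PX/I_DIV.lean`).
-/

set_option autoImplicit false

open NumberField IsDedekindDomain
open scoped Pointwise

namespace Pool.Agent.Work.MP_59f3ad_nt.QD

open Pool.Agent.Work.MP_59f3ad_nt.FE Pool.Agent.Work.MP_59f3ad_nt.PX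

universe u

namespace IDV

open Pool.Agent.Work.MP_59f3ad_nt.PX.IDIV in
/-- The statement for all primes `p`. -/
theorem all (hTW1 : PX.StTW1.{u}) (hMUF : PX.StMUF.{u}) (K : Type u) [Field K] [NumberField K]
    (p : ℕ) [hp : Fact p.Prime] (ζ : K) (hζ : IsPrimitiveRoot ζ p)
    (huniq : ∀ v ∈ Sp K p, ∀ v' ∈ Sp K p, v = v') (r : ℤ) (φ : GK K → ℤ_[p])
    (hφ : SH K (AlgebraicClosure K) p r φ) (hD : ∀ g, (p : ℤ_[p]) ∣ φ g) :
    ∃ ψ : GK K → ℤ_[p], SH K (AlgebraicClosure K) p r ψ ∧ ∃ y : ℤ_[p], ∀ g,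
      φ g = p * ψ g + (tw p r g - 1) * y := by
  classical
  have h3 : (p : ℤ_[p]) ≠ 0 := Nat.cast_ne_zero.2 hp.out.ne_zero
  have : CharZero (AlgebraicClosure K) := algebraRat.charZero _
  obtain ⟨v, hv⟩ := exists_prime_above K p
  obtain ⟨Q0, hQ0, hco0⟩ := Q3.ITau.exists_over K v
  have hpQ0 : (p : 𝓞 (AlgebraicClosure K)) ∈ Q0 := by
    have h1 : (p : 𝓞 K) ∈ Q0.comap (algebraMap (𝓞 K) (𝓞 (AlgebraicClosure K))) := by
      rw [hco0]
      exact hv
    rwa [Ideal.mem_comap, map_natCast] at h1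
  obtain ⟨y, hy⟩ := hφ.dec Q0 hQ0 hpQ0
  have hex : ∀ g : GK K, ∃ b : ℤ_[p], φ g - (tw p r g - 1) * y = p * b := by
    intro g
    obtain ⟨a, ha⟩ := hD g
    obtain ⟨b, hb⟩ := hTW1 K (AlgebraicClosure K) p ζ hζ r g
    exact ⟨a - b * y, by rw [ha, hb]; ring⟩
  choose ψ hψ using hex
  have hcont : Continuous ψ := by
    refine continuous_div p ψ ?_
    have e : (fun g => (p : ℤ_[p]) * ψ g) = fun g => φ g - (tw p r g - 1) * y := by
      funext g
      exact (hψ g).symm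
    rw [e]
    exact hφ.cont.sub (((Tw.FunX.continuous_zpow_cyc K p r).sub continuous_const).mul
      continuous_const)
  have hcoc : ∀ g h, ψ (g * h) = ψ g + tw p r g * ψ h := by
    intro g h
    refine mul_left_cancel₀ h3 ?_
    have e1 := hψ (g * h)
    have e2 := hψ g
    have e3 := hψ h
    have e4 := hφ.mul g h
    rw [tw_mul] at e1
    linear_combination -e1 + e2 + (tw p r g) * e3 + e4
  have hone : ψ 1 = 0 := by
    have h := hcoc 1 1
    rw [mul_one, tw_one, one_mul] at h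
    exact left_eq_add.1 h
  have hdec0 : ∀ h : GK K, Dec Q0 h → ψ h = 0 := by
    intro h hh
    have e1 := hψ h
    rw [hy h hh, sub_self] at e1
    exact (mul_eq_zero.1 e1.symm).resolve_left h3
  refine ⟨ψ, ⟨hcont, hcoc, ?_, ?_⟩, y, fun g => ?_⟩
  · intro Q hQ hpQ h hh
    have e1 := hψ h
    rw [hφ.inr Q hQ hpQ h hh, hMUF K (AlgebraicClosure K) p Q hQ hpQ h hh r, sub_self,
      zero_mul, sub_zero] at e1
    exact (mul_eq_zero.1 e1.symm).resolve_left h3
  · intro Q hQ hpQ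
    obtain ⟨v', hv', hco'⟩ := below K p Q hQ hpQ
    obtain rfl : v' = v := huniq v' hv' v hv
    obtain ⟨a, ha⟩ := conj K Q Q0 hQ hQ0 (hco'.trans hco0.symm)
    refine ⟨tw p r a⁻¹ * ψ a, fun h hh => ?_⟩
    have hconj : ψ (a * h * a⁻¹) = 0 := hdec0 _ (dec_conj K Q Q0 a ha h hh)
    have hinv : ψ a + tw p r a * ψ a⁻¹ = 0 := by
      rw [← hcoc, mul_inv_cancel, hone]
    have htw : tw p r a⁻¹ * tw p r a = 1 := by
      rw [← tw_mul, inv_mul_cancel, tw_one]
    rw [hcoc, hcoc, tw_mul] at hconj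
    linear_combination (-(ψ h)) * htw + (tw p r a⁻¹) * hconj
      - (tw p r a⁻¹ * tw p r h) * hinv
  · have e := hψ g
    linear_combination e

end IDV

/-- Item DV. -/
theorem pr_DV (hTW1 : PX.StTW1.{u}) (hMUF : PX.StMUF.{u}) : StDV.{u} := by
  intro K _ _ huniq r φ hφ hD
  obtain ⟨ψ, hψ, y, hy⟩ := IDV.all hTW1 hMUF K 2 (-1) (IsPrimitiveRoot.neg_one 0 (by norm_num))
    huniq r φ hφ hD
  refine ⟨ψ, hψ, y, fun g => ?_⟩
  rw [hy g]
  norm_num

end Pool.Agent.Work.MP_59f3ad_nt.QD
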