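import Mathlib
import Pool.Agent.Work.MP_59f3ad_nt.QD.StmtsN
import Pool.Agent.Work.MP_59f3ad_nt.QD.I_DEX

/-!
Block QD, item DX: an element of the decomposition group which extends `σ` and fixes the square
roots of `-1`.
-/

set_option autoImplicit false

open NumberField IsDedekindDomain

namespace Pool.Agent.Work.MP_59f3ad_nt.QD

open Pool.Agent.Work.MP_59f3ad_nt.FE
open Pool.Agent.Work.MP_59f3ad_nt.PX

universe u

namespace IDX

theorem eq_or_neg {Ω : Type u} [Field Ω] {a b : Ω} (h : a ^ 2 = b ^ 2) : a = b ∨ a = -b :=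
  sq_eq_sq_iff_eq_or_eq_neg.1 h

theorem zeta_eq {F L : Type u} [Field F] [NumberField F] [Field L] [NumberField L] [Algebra F L]
    {ζ m : F} {x : L} {σ : L ≃ₐ[F] L} (hC : Cf F L 2 ζ m x σ) : ζ = -1 := by
  exact hC.hζ.eq_neg_one_of_two_right

/-- an automorphism of the algebraic closure that moves a given square root of an element of `F` -/
theorem moves (hLG : PX.StLG.{u}) {F L : Type u} [Field F] [NumberField F] [Field L]
    [NumberField L] [Algebra F L] (hcl : IsAlgClosure F (AlgebraicClosure L))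
    (v : HeightOneSpectrum (𝓞 F)) (Q : Ideal (𝓞 (AlgebraicClosure L))) (hQ : Q.IsPrime)
    (hQv : Q.comap (algebraMap (𝓞 F) (𝓞 (AlgebraicClosure L))) = v.asIdeal) (m : F)
    (hv : ¬ Lp F 2 v m) (A : AlgebraicClosure L)
    (hA : A ^ 2 = algebraMap F (AlgebraicClosure L) m) :
    ∃ τ : AlgebraicClosure L ≃ₐ[F] AlgebraicClosure L, Dec Q τ ∧ τ A = -A := by
  by_contra hcon
  refine hv (hLG F (AlgebraicClosure L) 2 v Q hQ hQv A m hA ?_)
  intro h hd
  have h1 : (h A) ^ 2 = A ^ 2 := by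
    rw [← map_pow, hA, AlgEquiv.commutes]
  rcases eq_or_neg h1 with h2 | h2
  · exact h2
  · exact absurd ⟨h, hd, h2⟩ hcon

end IDX

open IDX in
theorem pr_DX (hLG : PX.StLG.{u}) (hGX : StGX.{u}) : StDX.{u} := by
  intro F L _ _ _ _ _ ζ m x σ hC v hv hv' Q hQ hQv
  have hfin : Module.Finite F L := Module.finite_of_finrank_pos (by
    rw [hC.hL]
    norm_num)
  have halg : Algebra.IsAlgebraic F (AlgebraicClosure L) :=
    Algebra.IsAlgebraic.trans F L (AlgebraicClosure L)
  have hcl : IsAlgClosure F (AlgebraicClosure L) := ⟨inferInstance, halg⟩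
  obtain ⟨-, -, hex⟩ := hGX F L 2 ζ m x σ hC
  have hζ : ζ = -1 := zeta_eq hC
  have hσx : σ x = -x := by
    rw [hC.hσ, hζ, map_neg, map_one, neg_one_mul]
  obtain ⟨i, hi⟩ : ∃ i : AlgebraicClosure L, i ^ 2 = -1 :=
    IsAlgClosed.exists_pow_nat_eq (-1) (by norm_num)
  have hi0 : i ≠ 0 := by
    rintro rfl
    norm_num at hi
  set X : AlgebraicClosure L := algebraMap L (AlgebraicClosure L) x with hX
  have hX2 : X ^ 2 = algebraMap F (AlgebraicClosure L) m := by
    rw [hX, ← map_pow, hC.hx]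
    exact (IsScalarTower.algebraMap_apply F L (AlgebraicClosure L) m).symm
  have hX0 : X ≠ 0 := by
    intro h0
    rw [h0] at hX2
    have h1 : algebraMap F (AlgebraicClosure L) m = 0 := by
      rw [← hX2]
      norm_num
    exact hC.hm ((map_eq_zero (algebraMap F (AlgebraicClosure L))).1 h1)
  have hpm : ∀ g : AlgebraicClosure L ≃ₐ[F] AlgebraicClosure L, g i = i ∨ g i = -i := by
    intro g
    apply eq_or_neg
    rw [← map_pow, hi, map_neg, map_one]
  have hpx : ∀ g : AlgebraicClosure L ≃ₐ[F] AlgebraicClosure L, g X = X ∨ g X = -X := by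
    intro g
    apply eq_or_neg
    rw [← map_pow, hX2, AlgEquiv.commutes]
  obtain ⟨h2, hd2, h2X⟩ := moves hLG hcl v Q hQ hQv m hv X hX2
  obtain ⟨h1, hd1, h1X⟩ := moves hLG hcl v Q hQ hQv (-m) hv' (i * X) (by
    rw [mul_pow, hi, hX2, map_neg, neg_one_mul])
  have key : ∃ τ : AlgebraicClosure L ≃ₐ[F] AlgebraicClosure L, Dec Q τ ∧ τ X = -X ∧ τ i = i := by
    rcases hpm h2 with h2i | h2i
    · exact ⟨h2, hd2, h2X, h2i⟩
    · rw [map_mul] at h1X
      rcases hpx h1 with h1x | h1x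
      · refine ⟨h1 * h2, IDEX.dec_mul hd1 hd2, ?_, ?_⟩
        · rw [AlgEquiv.mul_apply, h2X, map_neg, h1x]
        · rw [AlgEquiv.mul_apply, h2i, map_neg]
          rw [h1x, ← neg_mul] at h1X
          rw [mul_right_cancel₀ hX0 h1X, neg_neg]
      · refine ⟨h1, hd1, h1x, ?_⟩
        rw [h1x, mul_neg, neg_inj] at h1X
        exact mul_right_cancel₀ hX0 h1X
  obtain ⟨τ, hτd, hτX, hτi⟩ := key
  refine ⟨τ, hτd, hex τ ?_, ?_⟩
  · rw [hτX, hσx, map_neg]
  · intro j hj
    rcases eq_or_neg (hj.trans hi.symm) with h | h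
    · rw [h, hτi]
    · rw [h, map_neg, hτi]

end Pool.Agent.Work.MP_59f3ad_nt.QD
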