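import Pool.Agent.Work.MP_59f3ad_nt.QD.StmtsN
import Pool.Agent.Work.MP_59f3ad_nt.PX.I_EXS

/-!
Block QD, item EXS (helper99): the extended cocycle is a Tate-Shafarevich cocycle over `F` (copy of
`PX/I_EXS.lean` for `p = 2`).
-/

set_option autoImplicit false

open NumberField IsDedekindDomain

namespace Pool.Agent.Work.MP_59f3ad_nt.QD

open Pool.Agent.Work.MP_59f3ad_nt.FE
open Pool.Agent.Work.MP_59f3ad_nt.PX

universe u

namespace IEXS

variable {F L : Type u} [Field F] [NumberField F] [Field L] [NumberField L] [Algebra F L]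

/-- conjugates of the radical -/
theorem conj {p : ℕ} [Fact p.Prime] {ζ m : F} {x : L} {σ : L ≃ₐ[F] L} (hC : Cf F L p ζ m x σ)
    (g : AlgebraicClosure L ≃ₐ[F] AlgebraicClosure L) :
    ∃ j : ℕ, g (algebraMap L (AlgebraicClosure L) x) =
      algebraMap F (AlgebraicClosure L) ζ ^ j * algebraMap L (AlgebraicClosure L) x := by
  set X := algebraMap L (AlgebraicClosure L) x with hX
  have hXp : X ^ p = algebraMap F (AlgebraicClosure L) m := by
    rw [hX, ← map_pow, hC.hx, ← IsScalarTower.algebraMap_apply]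
  have hp0 : p ≠ 0 := (Fact.out : p.Prime).ne_zero
  have hX0 : X ≠ 0 := by
    intro h
    rw [h, zero_pow hp0] at hXp
    have := (map_eq_zero (algebraMap F (AlgebraicClosure L))).mp hXp.symm
    exact hC.hm this
  have hg : (g X / X) ^ p = 1 := by
    rw [div_pow, ← map_pow, hXp, AlgEquiv.commutes, ← hXp, div_self (pow_ne_zero p hX0)]
  have hζ : IsPrimitiveRoot (algebraMap F (AlgebraicClosure L) ζ) p :=
    hC.hζ.map_of_injective (algebraMap F (AlgebraicClosure L)).injective
  have : NeZero p := ⟨hp0⟩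
  obtain ⟨j, _, hj⟩ := hζ.eq_pow_of_pow_eq_one hg
  refine ⟨j, ?_⟩
  rw [hj, div_mul_cancel₀ _ hX0]

end IEXS

open PX.IEXS in
theorem pr_EXS (hGX : StGX.{u}) (hMUF : PX.StMUF.{u}) (hND : StND.{u}) : StEXS.{u} := by
  intro F L _ _ _ _ _ ζ m x σ hC r hr φ hφ Ψ hcont hmul hres
  obtain ⟨_, hGX2, _⟩ := hGX F L 2 ζ m x σ hC
  have hp : (2 : ℕ).Prime := Fact.out
  have h1 : Ψ 1 = 0 := by
    have := hmul 1 1
    rw [mul_one, tw_one, one_mul] at this
    exact left_eq_add.mp this
  refine ⟨hcont, hmul, ?_, ?_⟩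
  · intro Q hQ hpQ g hg
    obtain ⟨j, hj⟩ := IEXS.conj hC g
    have hgp := conj_pow hj 2
    have hfix : (g ^ 2) (algebraMap L (AlgebraicClosure L) x) =
        algebraMap L (AlgebraicClosure L) x := by
      rw [hgp, mul_comm j 2, pow_mul, ← map_pow, hC.hζ.pow_eq_one, map_one, one_pow, one_mul]
    obtain ⟨h, hh⟩ := hGX2 (g ^ 2) hfix
    have e : h.restrictScalars F = g ^ 2 := AlgEquiv.ext hh
    have h2 : φ h = 0 := hφ.inr Q hQ hpQ h (inr_res hh (inr_pow hg 2))
    have h3 : Ψ (g ^ 2) = 0 := by rw [← e, hres, h2]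
    have ht : tw 2 r g = 1 := hMUF F (AlgebraicClosure L) 2 Q hQ hpQ g hg r
    have h4 : ∀ n : ℕ, Ψ (g ^ n) = n * Ψ g := by
      intro n
      induction n with
      | zero => simp [h1]
      | succ n ih =>
        rw [pow_succ', hmul, ht, ih]
        push_cast
        ring
    have h5 := h4 2
    rw [h3] at h5
    have h6 : ((2 : ℕ) : ℤ_[2]) ≠ 0 := by exact_mod_cast hp.ne_zero
    exact (mul_eq_zero.mp h5.symm).resolve_left h6
  · intro Q hQ hpQ
    obtain ⟨c, hc⟩ := hφ.dec Q hQ hpQ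
    refine ⟨c, fun g hg => ?_⟩
    have hζL : IsPrimitiveRoot (algebraMap F L ζ) 2 :=
      hC.hζ.map_of_injective (algebraMap F L).injective
    obtain ⟨h, hhD, hhne⟩ := hND L r hr Q hQ hpQ
    set G : AlgebraicClosure L ≃ₐ[F] AlgebraicClosure L := h.restrictScalars F with hG
    have hGfix : G (algebraMap L (AlgebraicClosure L) x) =
        algebraMap L (AlgebraicClosure L) x := h.commutes x
    have hfix : (g⁻¹ * G * g) (algebraMap L (AlgebraicClosure L) x) =
        algebraMap L (AlgebraicClosure L) x := by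
      obtain ⟨j, hj⟩ := IEXS.conj hC g
      have e1 : (g⁻¹ * g) (algebraMap L (AlgebraicClosure L) x) =
        algebraMap L (AlgebraicClosure L) x := by rw [inv_mul_cancel]; rfl
      rw [AlgEquiv.mul_apply, AlgEquiv.mul_apply, hj, map_mul, map_pow, AlgEquiv.commutes,
        hGfix, ← hj, ← AlgEquiv.mul_apply, e1]
    obtain ⟨h', hh'⟩ := hGX2 (g⁻¹ * G * g) hfix
    have e : h'.restrictScalars F = g⁻¹ * G * g := AlgEquiv.ext hh'
    have hD' : Dec Q h' := dec_res hh' (dec_mul (dec_mul (dec_inv hg) (dec_res' hhD)) hg)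
    have htG : tw 2 r G = tw 2 r h := rfl
    have hgg : tw 2 r g⁻¹ * tw 2 r g = 1 := by rw [← tw_mul, inv_mul_cancel, tw_one]
    have htw' : tw 2 r h' = tw 2 r h := by
      have e2 : tw 2 r (h'.restrictScalars F) = tw 2 r h' := rfl
      rw [← e2, e, tw_mul, tw_mul, htG, mul_right_comm, hgg, one_mul]
    have e3 : G * g = g * (h'.restrictScalars F) := by rw [e]; group
    have e4 := congrArg Ψ e3
    rw [hmul, hmul, hG, hres, hres, hc h hhD, hc h' hD', htw', ← hG, htG] at e4
    have e5 : (tw 2 r h - 1) * (Ψ g - (tw 2 r g - 1) * c) = 0 := by linear_combination e4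
    have e6 := (mul_eq_zero.mp e5).resolve_left (sub_ne_zero.mpr hhne)
    exact sub_eq_zero.mp e6

end Pool.Agent.Work.MP_59f3ad_nt.QD
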