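import Mathlib
import Pool.Agent.Work.MP_59f3ad_nt.QD.StmtsG

/-!
Block PX, item EXT: extension of an invariant cocycle from `L` to `F`.
-/

set_option autoImplicit false

open NumberField IsDedekindDomain Topology

namespace Pool.Agent.Work.MP_59f3ad_nt.QD

open Pool.Agent.Work.MP_59f3ad_nt.PX

open Pool.Agent.Work.MP_59f3ad_nt.FE

universe u

namespace IEXT

section
variable {F L : Type u} [Field F] [Field L] [Algebra F L]

/-- the restriction of scalars, as a homomorphism -/
noncomputable def res (F : Type u) {L : Type u} [Field F] [Field L] [Algebra F L] :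
    GK L →* (AlgebraicClosure L ≃ₐ[F] AlgebraicClosure L) where
  toFun h := h.restrictScalars F
  map_one' := by
    ext y
    rfl
  map_mul' a b := by
    ext y
    rfl

theorem res_apply (h : GK L) (y : AlgebraicClosure L) : res F h y = h y := rfl

theorem res_inj {h h' : GK L} (e : res F h = res F h') : h = h' := by
  ext y
  have := congrArg (fun g : AlgebraicClosure L ≃ₐ[F] AlgebraicClosure L => g y) e
  exact this

theorem tw_res (p : ℕ) [Fact p.Prime] (r : ℤ) (h : GK L) : tw p r (res F h) = tw p r h := rfl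

theorem tw_pow_one (p : ℕ) [Fact p.Prime] (r : ℤ) {k Ω : Type u} [Field k] [Field Ω]
    [Algebra k Ω] (s : Ω ≃ₐ[k] Ω) (h : tw p r s = 1) (n : ℕ) : tw p r (s ^ n) = 1 := by
  induction n with
  | zero => rw [pow_zero, tw_one]
  | succ n ih => rw [pow_succ, tw_mul, ih, h, mul_one]

theorem tw_inv_one (p : ℕ) [Fact p.Prime] (r : ℤ) {k Ω : Type u} [Field k] [Field Ω]
    [Algebra k Ω] (s : Ω ≃ₐ[k] Ω) (h : tw p r s = 1) : tw p r s⁻¹ = 1 := by
  have e : tw p r (s⁻¹ * s) = 1 := by rw [inv_mul_cancel, tw_one]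
  rw [tw_mul, h, mul_one] at e
  exact e

variable {σ : L ≃ₐ[F] L} {s : AlgebraicClosure L ≃ₐ[F] AlgebraicClosure L}

theorem res_cs (hs : Ex σ s) (h : GK L) : res F (cs hs h) = s⁻¹ * res F h * s := by
  ext y
  rfl

theorem res_cs_iter (hs : Ex σ s) (n : ℕ) : ∀ h : GK L,
    res F ((cs hs)^[n] h) = (s ^ n)⁻¹ * res F h * s ^ n := by
  induction n with
  | zero =>
    intro h
    simp
  | succ n ih =>
    intro h
    rw [Function.iterate_succ_apply, ih, res_cs, pow_succ', mul_inv_rev]
    group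

theorem tw_cs_iter (p : ℕ) [Fact p.Prime] (r : ℤ) (hs : Ex σ s) (h1 : tw p r s = 1) (n : ℕ)
    (h : GK L) : tw p r ((cs hs)^[n] h) = tw p r h := by
  rw [← tw_res (F := F) p r ((cs hs)^[n] h), res_cs_iter, tw_mul, tw_mul,
    tw_pow_one p r s h1, tw_inv_one p r _ (tw_pow_one p r s h1 n), one_mul, mul_one, tw_res]

end

theorem main (hGX : StGX.{u}) (F L : Type u) [Field F] [NumberField F] [Field L] [NumberField L]
    [Algebra F L] (p : ℕ) [Fact p.Prime] (ζ m : F) (x : L) (σ : L ≃ₐ[F] L) (hC : Cf F L p ζ m x σ)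
    (s : AlgebraicClosure L ≃ₐ[F] AlgebraicClosure L) (hs : Ex σ s) (k : GK L)
    (hk : ∀ y, k y = (s ^ p) y) (r : ℤ) (hr : tw p r s = 1) (φ : GK L → ℤ_[p])
    (hφc : Continuous φ) (hφ : ∀ g h, φ (g * h) = φ g + tw p r g * φ h)
    (hinv : ∀ h, φ (cs hs h) = φ h) (hφk : φ k = 0) :
    ∃ Ψ : (AlgebraicClosure L ≃ₐ[F] AlgebraicClosure L) → ℤ_[p], Continuous Ψ ∧
      (∀ g h, Ψ (g * h) = Ψ g + tw p r g * Ψ h) ∧ ∀ h : GK L, Ψ (h.restrictScalars F) = φ h := by
  obtain ⟨-, hfixL, -⟩ := hGX F L p ζ m x σ hC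
  have hp : p.Prime := Fact.out
  have hx0 : x ≠ 0 := by
    intro h0
    have := hC.hx
    rw [h0, zero_pow hp.ne_zero] at this
    exact hC.hm ((map_eq_zero (algebraMap F L)).1 this.symm)
  set X : AlgebraicClosure L := algebraMap L (AlgebraicClosure L) x with hX
  have hX0 : X ≠ 0 := by
    rw [hX]
    exact (map_ne_zero _).2 hx0
  set Z : AlgebraicClosure L := algebraMap F (AlgebraicClosure L) ζ with hZ
  have hZp : IsPrimitiveRoot Z p :=
    hC.hζ.map_of_injective (algebraMap F (AlgebraicClosure L)).injective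
  -- powers of `s` at `X`
  have hsX : s X = Z * X := by
    rw [hX, hs x, hC.hσ, map_mul, hZ, ← IsScalarTower.algebraMap_apply]
  have hsn : ∀ n : ℕ, (s ^ n) X = Z ^ n * X := by
    intro n
    induction n with
    | zero => simp
    | succ n ih =>
      rw [pow_succ, AlgEquiv.mul_apply, hsX, map_mul, ih, hZ, AlgEquiv.commutes]
      ring
  have hXp : X ^ p = algebraMap F (AlgebraicClosure L) m := by
    rw [hX, ← map_pow, hC.hx, ← IsScalarTower.algebraMap_apply]
  have hkres : res F k = s ^ p := by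
    ext y
    exact hk y
  have hφ1 : φ 1 = 0 := by
    have := hφ 1 1
    rw [mul_one, tw_one, one_mul] at this
    linear_combination -this
  have htwk : tw p r k = 1 := by
    rw [← tw_res (F := F), hkres]
    exact tw_pow_one p r s hr p
  have hφka : ∀ a : ℕ, φ (k ^ a) = 0 := by
    intro a
    induction a with
    | zero => rw [pow_zero, hφ1]
    | succ a ih => rw [pow_succ, hφ, ih, hφk, mul_zero, add_zero]
  have hcsn : ∀ (n : ℕ) (h : GK L), φ ((cs hs)^[n] h) = φ h := by
    intro n
    induction n with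
    | zero => intro h; rfl
    | succ n ih =>
      intro h
      rw [Function.iterate_succ_apply, ih, hinv]
  -- existence
  have hex : ∀ g : AlgebraicClosure L ≃ₐ[F] AlgebraicClosure L, ∃ (j : ℕ) (h : GK L),
      g = s ^ j * res F h := by
    intro g
    have h1 : (g X / X) ^ p = 1 := by
      rw [div_pow, ← map_pow, hXp, AlgEquiv.commutes, ← hXp, div_self (pow_ne_zero _ hX0)]
    have : NeZero p := ⟨hp.ne_zero⟩
    obtain ⟨j, -, hj⟩ := hZp.eq_pow_of_pow_eq_one h1
    have h2 : g X = Z ^ j * X := by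
      rw [hj, div_mul_cancel₀ _ hX0]
    have h3 : ((s ^ j)⁻¹ * g) X = X := by
      rw [AlgEquiv.mul_apply, h2, ← hsn j, ← AlgEquiv.mul_apply, inv_mul_cancel,
        AlgEquiv.one_apply]
    obtain ⟨h, hh⟩ := hfixL _ h3
    refine ⟨j, h, ?_⟩
    have h4 : res F h = (s ^ j)⁻¹ * g := by
      ext y
      exact hh y
    rw [h4, mul_inv_cancel_left]
  -- uniqueness
  have huniq1 : ∀ (i n : ℕ) (h h' : GK L), s ^ i * res F h = s ^ (i + n) * res F h' →
      φ h = φ h' := by
    intro i n h h' e
    rw [pow_add, mul_assoc, mul_left_cancel_iff] at e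
    have e1 : (res F h) X = (s ^ n * res F h') X := by rw [e]
    rw [AlgEquiv.mul_apply, res_apply, res_apply] at e1
    have f1 : h X = X := h.commutes x
    have f2 : h' X = X := h'.commutes x
    rw [f1, f2, hsn n] at e1
    have e2 : Z ^ n = 1 := by
      have := mul_right_cancel₀ hX0 (e1.symm.trans (one_mul X).symm)
      exact this
    obtain ⟨a, rfl⟩ := hZp.dvd_of_pow_eq_one n e2
    rw [pow_mul, ← hkres, ← map_pow, ← map_mul] at e
    rw [res_inj e, hφ, hφka, tw_pow_one p r k htwk, one_mul, zero_add]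
  have huniq : ∀ (i j : ℕ) (h h' : GK L), s ^ i * res F h = s ^ j * res F h' → φ h = φ h' := by
    intro i j h h' e
    rcases le_total i j with hij | hij
    · obtain ⟨n, rfl⟩ := Nat.exists_eq_add_of_le hij
      exact huniq1 i n h h' e
    · obtain ⟨n, rfl⟩ := Nat.exists_eq_add_of_le hij
      exact (huniq1 j n h' h e.symm).symm
  choose J H hJH using hex
  have hval : ∀ (j : ℕ) (h : GK L), φ (H (s ^ j * res F h)) = φ h := by
    intro j h
    exact (huniq _ _ _ _ (hJH (s ^ j * res F h)).symm).trans rfl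
  have htw : ∀ (j : ℕ) (h : GK L), tw p r (s ^ j * res F h) = tw p r h := by
    intro j h
    rw [tw_mul, tw_pow_one p r s hr, one_mul, tw_res]
  have hmul : ∀ g g', φ (H (g * g')) = φ (H g) + tw p r g * φ (H g') := by
    intro g g'
    have e : g * g' = s ^ (J g + J g') * res F ((cs hs)^[J g'] (H g) * H g') := by
      conv_lhs => rw [hJH g, hJH g']
      rw [map_mul, res_cs_iter, pow_add]
      group
    rw [e, hval, hφ, hcsn, tw_cs_iter p r hs hr]
    congr 2
    conv_rhs => rw [hJH g]
    rw [htw]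
  have hres : ∀ h : GK L, φ (H (res F h)) = φ h := by
    intro h
    have := hval 0 h
    rwa [pow_zero, one_mul] at this
  refine ⟨fun g => φ (H g), ?_, hmul, hres⟩
  -- continuity
  have hΨ1 : φ (H 1) = 0 := by
    have := hres 1
    rw [map_one] at this
    rw [this, hφ1]
  have : FiniteDimensional F L := by
    apply FiniteDimensional.of_finrank_pos
    rw [hC.hL]
    exact hp.pos
  have hc1 : Filter.Tendsto (fun g => φ (H g)) (𝓝 (1 : AlgebraicClosure L ≃ₐ[F]
      AlgebraicClosure L)) (𝓝 0) := by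
    intro W hW
    have h1 : φ ⁻¹' W ∈ 𝓝 (1 : GK L) := by
      apply hφc.continuousAt
      rw [hφ1]
      exact hW
    rw [krullTopology_mem_nhds_one_iff] at h1
    obtain ⟨E, hE, hEW⟩ := h1
    change (fun g => φ (H g)) ⁻¹' W ∈ 𝓝 (1 : AlgebraicClosure L ≃ₐ[F] AlgebraicClosure L)
    rw [krullTopology_mem_nhds_one_iff]
    have := hE
    have : FiniteDimensional F E := FiniteDimensional.trans F L E
    refine ⟨E.restrictScalars F, inferInstanceAs (FiniteDimensional F E), ?_⟩
    intro g hg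
    rw [SetLike.mem_coe, IntermediateField.mem_fixingSubgroup_iff] at hg
    have hgX : g X = X := by
      apply hg
      exact E.algebraMap_mem x
    obtain ⟨h, hh⟩ := hfixL g hgX
    have hgh : g = res F h := by
      ext y
      exact (hh y).symm
    have hhE : h ∈ E.fixingSubgroup := by
      rw [IntermediateField.mem_fixingSubgroup_iff]
      intro y hy
      rw [hh y]
      exact hg y hy
    have := hEW hhE
    change φ (H g) ∈ W
    rw [hgh, hres]
    exact this
  rw [continuous_iff_continuousAt]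
  intro g0
  have e0 : (fun g => φ (H g)) = fun g => φ (H g0) + tw p r g0 * φ (H (g0⁻¹ * g)) := by
    funext g
    rw [← hmul, mul_inv_cancel_left]
  unfold ContinuousAt
  rw [e0]
  have h2 : Filter.Tendsto (fun g => g0⁻¹ * g) (𝓝 g0) (𝓝 (1 : AlgebraicClosure L ≃ₐ[F]
      AlgebraicClosure L)) := by
    have : Continuous (fun g : AlgebraicClosure L ≃ₐ[F] AlgebraicClosure L => g0⁻¹ * g) :=
      continuous_const.mul continuous_id
    have h3 := this.tendsto g0
    rwa [inv_mul_cancel] at h3
  have h4 := (hc1.comp h2).const_mul (tw p r g0)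
  have h5 := h4.const_add (φ (H g0))
  simp only [Function.comp_def, mul_zero, add_zero] at h5
  have e6 : (fun g => φ (H g0) + tw p r g0 * φ (H (g0⁻¹ * g))) g0 = φ (H g0) := by
    change φ (H g0) + tw p r g0 * φ (H (g0⁻¹ * g0)) = φ (H g0)
    rw [inv_mul_cancel, hΨ1, mul_zero, add_zero]
  rw [e6]
  exact h5

end IEXT

theorem pr_EXT (hGX : StGX.{u}) : StEXT.{u} := by
  intro F L _ _ _ _ _ p _ ζ m x σ hC s hs k hk r hr φ h1 h2 h3 h4
  exact IEXT.main hGX F L p ζ m x σ hC s hs k hk r hr φ h1 h2 h3 h4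

end Pool.Agent.Work.MP_59f3ad_nt.QD
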