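import Mathlib
import Pool.Agent.Work.MP_59f3ad_nt.QD.StmtsN
import Pool.Agent.Work.MP_59f3ad_nt.PX.I_INF

/-!
# Item IN: twice a cocycle is locally trivial at the infinite places
-/

set_option autoImplicit false

open NumberField IsDedekindDomain

namespace Pool.Agent.Work.MP_59f3ad_nt.QD

open Pool.Agent.Work.MP_59f3ad_nt.FE
open Pool.Agent.Work.MP_59f3ad_nt.PX

universe u

namespace IIN

/-- The absolute Galois group of a field isomorphic to the real numbers. -/
theorem two {R : Type u} [Field R] (e : R ≃+* ℝ) :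
    ∃ g0 : GK R, g0 * g0 = 1 ∧ ∀ g : GK R, g = 1 ∨ g = g0 := by
  let a1 : Algebra R ℝ := e.toRingHom.toAlgebra
  let a2 : Algebra R ℂ := ((algebraMap ℝ ℂ).comp (algebraMap R ℝ)).toAlgebra
  have tw : IsScalarTower R ℝ ℂ := IsScalarTower.of_algebraMap_eq (fun x => rfl)
  have hm : ∀ x : ℝ, algebraMap ℝ ℂ x = algebraMap R ℂ (e.symm x) := by
    intro x
    change algebraMap ℝ ℂ x = algebraMap ℝ ℂ (e (e.symm x))
    rw [RingEquiv.apply_symm_apply]
  have i1 : Algebra.IsIntegral R ℝ := by
    refine ⟨fun x => ?_⟩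
    have h : algebraMap R ℝ (e.symm x) = x := e.apply_symm_apply x
    rw [← h]
    exact isIntegral_algebraMap
  have i2 : Algebra.IsIntegral R ℂ := Algebra.IsIntegral.trans ℝ
  have i3 : Algebra.IsAlgebraic R ℂ := inferInstance
  have i4 : IsAlgClosure R ℂ := ⟨inferInstance, i3⟩
  let E : AlgebraicClosure R ≃ₐ[R] ℂ := IsAlgClosure.equiv R (AlgebraicClosure R) ℂ
  let c : ℂ ≃ₐ[R] ℂ := Complex.conjAe.restrictScalars R
  have hc : ∀ z, c (c z) = z := fun z => Complex.conj_conj z
  refine ⟨(E.trans c).trans E.symm, ?_, fun g => ?_⟩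
  · ext x
    change E.symm (c (E (E.symm (c (E x))))) = x
    rw [AlgEquiv.apply_symm_apply, hc, AlgEquiv.symm_apply_apply]
  · let f : ℂ ≃ₐ[R] ℂ := (E.symm.trans g).trans E
    have hf : ∀ z, f z = E (g (E.symm z)) := fun z => rfl
    let f' : ℂ →ₐ[ℝ] ℂ :=
      { (f : ℂ ≃ₐ[R] ℂ).toRingEquiv.toRingHom with
        commutes' := by
          intro x
          change f (algebraMap ℝ ℂ x) = algebraMap ℝ ℂ x
          rw [hm, AlgEquiv.commutes] }
    have hf' : ∀ z, f' z = f z := fun z => rfl
    have key : ∀ x, E (g x) = f' (E x) := by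
      intro x
      rw [hf', hf, AlgEquiv.symm_apply_apply]
    rcases Complex.real_algHom_eq_id_or_conj f' with h | h
    · left
      ext x
      apply E.injective
      rw [key, h]
      rfl
    · right
      ext x
      apply E.injective
      rw [key, h]
      change c (E x) = E (E.symm (c (E x)))
      rw [AlgEquiv.apply_symm_apply]

theorem two' {K : Type u} [Field K] [NumberField K] (v : InfinitePlace K) :
    ∃ g0 : GK v.Completion, g0 * g0 = 1 ∧ ∀ g : GK v.Completion, g = 1 ∨ g = g0 := by
  rcases v.isReal_or_isComplex with h | h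
  · exact two (InfinitePlace.Completion.ringEquivRealOfIsReal h)
  · haveI : IsAlgClosed v.Completion :=
      IINF.alg (InfinitePlace.Completion.ringEquivComplexOfIsComplex h).symm
    refine ⟨1, mul_one 1, fun g => Or.inl ?_⟩
    ext x
    exact IINF.triv g x

end IIN

open IIN in
theorem pr_IN : StIN.{u} := by
  intro K _ _ r φ hφ v ι
  have hφ1 : φ 1 = 0 := by
    have h := hφ 1 1
    rw [mul_one, tw_one, one_mul] at h
    exact left_eq_add.mp h
  obtain ⟨g0, hg0, hall⟩ := two' v
  have inj : ∀ h h' : GK K, (∀ x, ι (h x) = ι (h' x)) → h = h' := by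
    intro h h' hh
    ext x
    exact ι.injective (hh x)
  by_cases hex : ∃ h0 : GK K, ∀ x, ι (h0 x) = g0 (ι x)
  · obtain ⟨h0, hh0⟩ := hex
    have hsq : h0 * h0 = 1 := by
      apply inj
      intro x
      change ι (h0 (h0 x)) = ι x
      rw [hh0, hh0]
      change (g0 * g0) (ι x) = ι x
      rw [hg0]
      rfl
    have h2 := hφ h0 h0
    rw [hsq, hφ1] at h2
    refine ⟨-φ h0, fun g h hgh => ?_⟩
    rcases hall g with hg | hg
    · have h1 : h = 1 := by
        apply inj
        intro x
        rw [hgh, hg]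
        rfl
      change 2 * φ h = (tw 2 r h - 1) * -φ h0
      rw [h1, hφ1, tw_one]
      ring
    · have h1 : h = h0 := by
        apply inj
        intro x
        rw [hgh, hg, hh0]
      change 2 * φ h = (tw 2 r h - 1) * -φ h0
      rw [h1]
      linear_combination -h2
  · refine ⟨0, fun g h hgh => ?_⟩
    rcases hall g with hg | hg
    · have h1 : h = 1 := by
        apply inj
        intro x
        rw [hgh, hg]
        rfl
      change 2 * φ h = (tw 2 r h - 1) * 0
      rw [h1, hφ1]
      ring
    · exact absurd ⟨h, fun x => by rw [hgh, hg]⟩ hex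

end Pool.Agent.Work.MP_59f3ad_nt.QD
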