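import Mathlib
import Pool.Agent.Work.MP_59f3ad_nt.QD.StmtsG

/-!
# Item KK: the `p`-th power of the conjugation
-/

set_option autoImplicit false

open NumberField IsDedekindDomain

namespace Pool.Agent.Work.MP_59f3ad_nt.QD

open Pool.Agent.Work.MP_59f3ad_nt.PX

open Pool.Agent.Work.MP_59f3ad_nt.FE

universe u

namespace IKK

theorem pow_ex {F L : Type u} [Field F] [Field L] [Algebra F L] {σ : L ≃ₐ[F] L}
    {s : AlgebraicClosure L ≃ₐ[F] AlgebraicClosure L} (hs : Ex σ s) (n : ℕ) (y : L) :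
    (s ^ n) (algebraMap L (AlgebraicClosure L) y) = algebraMap L (AlgebraicClosure L) ((σ ^ n) y) := by
  induction n with
  | zero => simp
  | succ n ih =>
    rw [pow_succ', pow_succ', AlgEquiv.mul_apply, AlgEquiv.mul_apply, ih, hs]

theorem iter {F L : Type u} [Field F] [Field L] [Algebra F L] {σ : L ≃ₐ[F] L}
    {s : AlgebraicClosure L ≃ₐ[F] AlgebraicClosure L} (hs : Ex σ s) (h : GK L) (n : ℕ) :
    ∀ y : AlgebraicClosure L, (s ^ n) (((cs hs)^[n] h) y) = h ((s ^ n) y) := by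
  induction n with
  | zero => intro y; simp
  | succ n ih =>
    intro y
    rw [Function.iterate_succ_apply', pow_succ, AlgEquiv.mul_apply, AlgEquiv.mul_apply, cs_apply,
      AlgEquiv.apply_symm_apply, ih]

end IKK

theorem pr_KK (hGX : StGX.{u}) : StKK.{u} := by
  intro F L _ _ _ _ _ p _ ζ m x σ hC s hs
  obtain ⟨hσ, hk, -⟩ := hGX F L p ζ m x σ hC
  obtain ⟨k, hk'⟩ := hk (s ^ p) (by rw [IKK.pow_ex hs p x, hσ, AlgEquiv.one_apply])
  refine ⟨k, hk', fun h => ?_⟩
  ext y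
  apply k.injective
  have h1 : k ((k⁻¹ * h * k) y) = h (k y) := by
    rw [AlgEquiv.mul_apply, AlgEquiv.mul_apply, ← AlgEquiv.mul_apply k k⁻¹, mul_inv_cancel, AlgEquiv.one_apply]
  rw [h1, hk', hk', IKK.iter hs h p y]

end Pool.Agent.Work.MP_59f3ad_nt.QD
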