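import Mathlib
import Pool.Agent.Work.MP_59f3ad_nt.QD.StmtsN
import Pool.Agent.Work.MP_59f3ad_nt.Bd.B01

/-!
Block QD, item KU: Kummer theory modulo `4`.
-/

set_option autoImplicit false

open NumberField IsDedekindDomain

namespace Pool.Agent.Work.MP_59f3ad_nt.QD

open Pool.Agent.Work.MP_59f3ad_nt.FE
open Pool.Agent.Work.MP_59f3ad_nt.PX

universe u

namespace IKU

/-- a continuous function which is divisible by `4` at `1` is divisible by `4` on an open
subgroup -/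
theorem exists_field (L : Type u) [Field L] (F : GK L → ℤ_[2]) (hcont : Continuous F)
    (h1 : ((2 : ℕ) : ℤ_[2]) ^ 2 ∣ F 1) :
    ∃ E : IntermediateField L (AlgebraicClosure L), FiniteDimensional L E ∧
      ∀ g ∈ E.fixingSubgroup, ((2 : ℕ) : ℤ_[2]) ^ 2 ∣ F g := by
  have h2 : {a : ℤ_[2] | ((2 : ℕ) : ℤ_[2]) ^ 2 ∣ a} ∈ nhds (F 1) := by
    refine Metric.mem_nhds_iff.mpr ⟨((2 : ℕ) : ℝ) ^ (-(2 : ℕ) : ℤ), ?_, ?_⟩
    · positivity
    · intro a ha
      rw [Metric.mem_ball, dist_eq_norm] at ha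
      have h3 : ((2 : ℕ) : ℤ_[2]) ^ 2 ∣ a - F 1 :=
        (PadicInt.norm_le_pow_iff_mem_span_pow _ 2).mp ha.le |> Ideal.mem_span_singleton.mp
      have h4 := dvd_add h3 h1
      rwa [sub_add_cancel] at h4
  have h3 : F ⁻¹' {a : ℤ_[2] | ((2 : ℕ) : ℤ_[2]) ^ 2 ∣ a} ∈ nhds (1 : GK L) :=
    hcont.continuousAt.preimage_mem_nhds h2
  rw [krullTopology_mem_nhds_one_iff] at h3
  obtain ⟨E, hE, hsub⟩ := h3
  exact ⟨E, hE, fun g hg => hsub hg⟩

theorem toZModPow_zero {a : ℤ_[2]} (h : ((2 : ℕ) : ℤ_[2]) ^ 2 ∣ a) :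
    PadicInt.toZModPow 2 a = 0 := by
  obtain ⟨b, rfl⟩ := h
  rw [map_mul, map_pow, map_natCast]
  have h1 : (((2 : ℕ) : ZMod (2 ^ 2)) ^ 2) = 0 := by decide
  rw [h1, zero_mul]

theorem toZModPow_four (w : ℤ_[2]) : PadicInt.toZModPow 2 (4 * w) = 0 := by
  apply toZModPow_zero
  exact ⟨w, by norm_num⟩

/-- `i^(a+b) = i^a i^b` for exponents modulo `4` -/
theorem pow_val_add {F : Type u} [Field F] {i : F} (hi : i ^ (2 ^ 2) = 1) (a b : ZMod (2 ^ 2)) :
    i ^ (a + b).val = i ^ a.val * i ^ b.val := by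
  rw [ZMod.val_add, ← pow_add, ← pow_mod_orderOf, ← pow_mod_orderOf i (a.val + b.val),
    Nat.mod_mod_of_dvd _ (orderOf_dvd_of_pow_eq_one hi)]

end IKU

open IKU in
theorem pr_KU (hCY : StCY.{u}) : StKU.{u} := by
  intro K _ _ r hr f hcont hmul i hi
  have hi4 : i ^ (2 ^ 2) = 1 := by
    have : i ^ (2 ^ 2) = (i ^ 2) ^ 2 := by rw [← pow_mul]; norm_num
    rw [this, hi]
    norm_num
  have hi0 : i ≠ 0 := by
    rintro rfl
    norm_num at hi4
  have hf1 : f 1 = 0 := by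
    have h1 := hmul 1 1
    rw [mul_one, PX.tw_one, one_mul] at h1
    have h2 : f 1 + 0 = f 1 + f 1 := by rw [add_zero]; exact h1
    exact (add_left_cancel h2).symm
  obtain ⟨E, hE, hEf⟩ := exists_field K f hcont (by rw [hf1]; exact dvd_zero _)
  refine hilbert90_cont K (fun g => i ^ (PadicInt.toZModPow 2 (f g)).val)
    (fun g => pow_ne_zero _ hi0) (fun g h => ?_) E (fun g hg => ?_)
  · rw [hmul g h, map_add, map_mul, pow_val_add hi4, map_pow]
    congr 1
    rcases hCY K (AlgebraicClosure K) r hr i hi g with ⟨h1, w, h2⟩ | ⟨h1, w, h2⟩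
    · rw [h1, h2, map_add, map_one, toZModPow_four, add_zero, one_mul]
    · rw [h1, h2, map_add, toZModPow_four, add_zero, map_neg, map_one, neg_one_mul]
      have h3 : i ^ (-PadicInt.toZModPow 2 (f h)).val * i ^ (PadicInt.toZModPow 2 (f h)).val =
          1 := by
        rw [← pow_val_add hi4, neg_add_cancel, ZMod.val_zero, pow_zero]
      have h4 : (-i) ^ (PadicInt.toZModPow 2 (f h)).val * i ^ (PadicInt.toZModPow 2 (f h)).val =
          1 := by
        rw [← mul_pow]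
        have h5 : -i * i = 1 := by linear_combination -hi
        rw [h5, one_pow]
      exact mul_right_cancel₀ (pow_ne_zero _ hi0) (h3.trans h4.symm)
  · rw [toZModPow_zero (hEf g hg), ZMod.val_zero, pow_zero]

end Pool.Agent.Work.MP_59f3ad_nt.QD
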