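import Pool.Agent.Work.MP_59f3ad_nt.QD.StmtsG

/-!
Block PX, item LCT: the action of `s` is trivial modulo `p` on the decomposition groups above `p`.
-/

set_option autoImplicit false

open NumberField IsDedekindDomain

namespace Pool.Agent.Work.MP_59f3ad_nt.QD

open Pool.Agent.Work.MP_59f3ad_nt.PX

open Pool.Agent.Work.MP_59f3ad_nt.FE

universe u

namespace ILCT

section one

variable {F L : Type u} [Field F] [Field L] [Algebra F L]
  {σ : L ≃ₐ[F] L} {s : AlgebraicClosure L ≃ₐ[F] AlgebraicClosure L}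

theorem tw_cs (p : ℕ) [Fact p.Prime] (r : ℤ) (hs : Ex σ s) (h : GK L) :
    tw p r (cs hs h) = tw p r h := by
  have e : ((cs hs h : GK L) : AlgebraicClosure L ≃+* AlgebraicClosure L) =
      (s : AlgebraicClosure L ≃+* AlgebraicClosure L)⁻¹ *
        (h : AlgebraicClosure L ≃+* AlgebraicClosure L) *
        (s : AlgebraicClosure L ≃+* AlgebraicClosure L) := by
    ext y
    rfl
  unfold tw
  rw [e, map_mul, map_mul, map_inv, mul_assoc, mul_comm, mul_assoc, mul_inv_cancel, mul_one]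

theorem dec_cs (hs : Ex σ s) {Q : Ideal (𝓞 (AlgebraicClosure L))} (hQs : Dec Q s) {h : GK L}
    (hh : Dec Q h) : Dec Q (cs hs h) := by
  intro y y' hy
  let sO : 𝓞 (AlgebraicClosure L) ≃+* 𝓞 (AlgebraicClosure L) :=
    RingOfIntegers.mapRingEquiv (s : AlgebraicClosure L ≃+* AlgebraicClosure L)
  have hsO : ∀ z : 𝓞 (AlgebraicClosure L), ((sO z : 𝓞 (AlgebraicClosure L)) :
      AlgebraicClosure L) = s (z : AlgebraicClosure L) :=
    fun z => RingOfIntegers.mapRingEquiv_apply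
      (s : AlgebraicClosure L ≃+* AlgebraicClosure L) z
  have h1 : y ∈ Q ↔ sO y ∈ Q := hQs y (sO y) (hsO y)
  have h2 : y' ∈ Q ↔ sO y' ∈ Q := hQs y' (sO y') (hsO y')
  have h3 : sO y ∈ Q ↔ sO y' ∈ Q := by
    refine hh (sO y) (sO y') ?_
    rw [hsO, hsO, hy, cs_apply, AlgEquiv.apply_symm_apply]
  rw [h1, h2, h3]

end one

end ILCT

open ILCT in
theorem pr_LCT (hDEX : StDEX.{u}) (hTW1 : StTW1.{u}) : StLCT.{u} := by
  intro F L _ _ _ _ _ p _ ζ m x σ hC hlp s hs r θ hθ Q hQ hpQ h hh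
  -- the place below
  set 𝔮 : Ideal (𝓞 F) := Q.comap (algebraMap (𝓞 F) (𝓞 (AlgebraicClosure L))) with h𝔮
  have hp0 : (p : 𝓞 F) ≠ 0 := Nat.cast_ne_zero.2 (Fact.out : p.Prime).ne_zero
  have hpq : (p : 𝓞 F) ∈ 𝔮 := by
    rw [h𝔮, Ideal.mem_comap, map_natCast]
    exact hpQ
  have hne : 𝔮 ≠ ⊥ := by
    intro hb
    rw [hb, Ideal.mem_bot] at hpq
    exact hp0 hpq
  let v : HeightOneSpectrum (𝓞 F) := ⟨𝔮, hQ.comap _, hne⟩
  obtain ⟨s', hs'Q, hs'⟩ := hDEX F L p ζ m x σ hC v (hlp v hpq) Q hQ rfl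
  -- the element `g = s⁻¹ s'`
  let g : GK L := AlgEquiv.ofRingEquiv
    (f := ((s' : AlgebraicClosure L ≃+* AlgebraicClosure L).trans
      (s : AlgebraicClosure L ≃+* AlgebraicClosure L).symm))
    (by
      intro y
      simp only [RingEquiv.trans_apply]
      rw [RingEquiv.symm_apply_eq]
      change s' (algebraMap L _ y) = s (algebraMap L _ y)
      rw [hs y, hs' y])
  have hg : ∀ y, g y = s.symm (s' y) := fun _ => rfl
  have hrel : g * cs hs' h = cs hs h * g := by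
    ext y
    rw [AlgEquiv.mul_apply, AlgEquiv.mul_apply, hg, hg, cs_apply, cs_apply,
      AlgEquiv.apply_symm_apply, AlgEquiv.apply_symm_apply]
  have hζ : IsPrimitiveRoot (algebraMap F L ζ) p :=
    hC.hζ.map_of_injective (algebraMap F L).injective
  have hom : ∀ a b : GK L, (p : ℤ_[p]) ∣ θ (a * b) - (θ a + θ b) := by
    intro a b
    have e : θ (a * b) - (θ a + θ b) = (tw p r a - 1) * θ b := by
      rw [hθ.mul a b]
      ring
    rw [e]
    exact Dvd.dvd.mul_right (hTW1 L (AlgebraicClosure L) p (algebraMap F L ζ) hζ r a) _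
  have h1 := hom g (cs hs' h)
  have h2 := hom (cs hs h) g
  rw [hrel] at h1
  have h3 : (p : ℤ_[p]) ∣ θ (cs hs h) - θ (cs hs' h) := by
    have e : θ (cs hs h) - θ (cs hs' h) =
        (θ (cs hs h * g) - (θ g + θ (cs hs' h))) - (θ (cs hs h * g) - (θ (cs hs h) + θ g)) := by
      ring
    rw [e]
    exact dvd_sub h1 h2
  -- the values at `h` and at its conjugate by `s'`
  obtain ⟨n, c, hc⟩ := hθ.dec Q hQ hpQ
  have h4 : θ (cs hs' h) = θ h := by
    have e1 := hc (cs hs' h) (dec_cs hs' hs'Q hh)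
    rw [tw_cs p r hs' h, ← hc h hh] at e1
    have hpn : (p : ℤ_[p]) ^ n ≠ 0 :=
      pow_ne_zero n (Nat.cast_ne_zero.2 (Fact.out : p.Prime).ne_zero)
    exact mul_left_cancel₀ hpn e1
  rw [h4] at h3
  exact h3

end Pool.Agent.Work.MP_59f3ad_nt.QD
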