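import Pool.Agent.Work.MP_59f3ad_nt.QD.StmtsQ

/-!
Block QD, item LM: rules for `Lq`.
-/

set_option autoImplicit false

open NumberField IsDedekindDomain

namespace Pool.Agent.Work.MP_59f3ad_nt.QD

open Pool.Agent.Work.MP_59f3ad_nt.FE
open Pool.Agent.Work.MP_59f3ad_nt.PX

universe u

theorem pr_LM : StLM.{u} := by
  intro F _ _ v M hM
  have hM' : algebraMap F (v.adicCompletion F) M ≠ 0 := by
    rw [map_ne_zero_iff _ (algebraMap F (v.adicCompletion F)).injective]
    exact hM
  refine ⟨?_, ?_, ?_, ?_, ?_⟩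
  · rintro a b ⟨⟨k, l, y1, h1⟩, y, z, h⟩ ⟨⟨k', l', y1', h1'⟩, y', z', h'⟩
    refine ⟨⟨k + k', l + l', y1 * y1', ?_⟩, y * y' + algebraMap F _ M * z * z', y * z' + z * y', ?_⟩
    · rw [mul_pow, h1, h1', ← map_mul]
      congr 1
      ring
    · rw [map_mul, h, h']
      ring
  · intro g
    refine ⟨⟨0, 0, algebraMap F _ g, ?_⟩, algebraMap F _ g, 0, ?_⟩
    · rw [← map_pow]
      congr 1
      ring
    · rw [← map_pow]
      ring
  · refine ⟨⟨1, 1, algebraMap F _ M, ?_⟩, 0, 1, ?_⟩
    · rw [← map_pow]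
      congr 1
      ring
    · rw [map_neg]
      ring
  · rintro a g hg ⟨⟨k, l, y1, h1⟩, y, z, h⟩
    have hg' : algebraMap F (v.adicCompletion F) g ≠ 0 := by
      rw [map_ne_zero_iff _ (algebraMap F (v.adicCompletion F)).injective]
      exact hg
    refine ⟨⟨k, l, y1 / algebraMap F _ g, ?_⟩, y / algebraMap F _ g, z / algebraMap F _ g, ?_⟩
    · rw [div_pow, h1, ← map_pow, ← map_div₀]
      congr 1
      field_simp
    · rw [map_mul, map_pow] at h
      field_simp
      rw [h]
  · rintro a b M' ⟨u, hu, hM1⟩ ⟨w, hw⟩ ⟨⟨k, l, y1, h1⟩, y, z, h⟩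
    refine ⟨⟨k, l, y1 * w * u ^ k, ?_⟩, w * y, w * z / u, ?_⟩
    · rw [map_mul, map_mul, map_pow, map_pow] at h1 ⊢
      rw [hw, hM1]
      symm
      calc algebraMap F (v.adicCompletion F) a * w ^ 2 *
            (algebraMap F (v.adicCompletion F) M * u ^ 2) ^ k *
            algebraMap F (v.adicCompletion F) (-1) ^ l
          = (algebraMap F (v.adicCompletion F) a * algebraMap F (v.adicCompletion F) M ^ k *
            algebraMap F (v.adicCompletion F) (-1) ^ l) * (w * u ^ k) ^ 2 := by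
              rw [mul_pow, ← pow_mul, mul_pow w, ← pow_mul, mul_comm 2 k]
              ring
        _ = (y1 * w * u ^ k) ^ 2 := by
              rw [← h1]
              ring
    · rw [hw, hM1, h]
      field_simp
      try ring

end Pool.Agent.Work.MP_59f3ad_nt.QD
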