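import Pool.Agent.Work.MP_59f3ad_nt.QD.StmtsQ

/-!
Block QD, item LQ: passing from `π` to `x` in the local and real conditions.
-/

set_option autoImplicit false

open NumberField IsDedekindDomain

namespace Pool.Agent.Work.MP_59f3ad_nt.QD

open Pool.Agent.Work.MP_59f3ad_nt.FE
open Pool.Agent.Work.MP_59f3ad_nt.PX

universe u

namespace ILQ

theorem inj {F : Type u} [Field F] [NumberField F] {v : HeightOneSpectrum (𝓞 F)}
    {a : F} (ha : a ≠ 0) : algebraMap F (v.adicCompletion F) a ≠ 0 := by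
  rw [Ne, map_eq_zero_iff _ (algebraMap F (v.adicCompletion F)).injective]
  exact ha

theorem nz {F : Type u} [Field F] [NumberField F] {a : 𝓞 F} (ha : a ≠ 0) : (a : F) ≠ 0 := by
  intro h
  apply ha
  exact_mod_cast h

/-- The local comparison. -/
theorem comp {F : Type u} [Field F] [NumberField F] {t : ℕ} {m0 : 𝓞 F}
    {x π : Fin t → 𝓞 F} (hC : Cq m0 x π) (v : HeightOneSpectrum (𝓞 F)) (hv : v ∈ TT F 2 m0) :
    ∀ (D : 𝓞 F) (e : Fin t → ℕ), ∃ Y : v.adicCompletion F, Y ≠ 0 ∧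
      algebraMap F (v.adicCompletion F) ((D * ∏ i, π i ^ e i : 𝓞 F) : F) =
        algebraMap F (v.adicCompletion F) ((D * ∏ i, x i ^ e i : 𝓞 F) : F) * Y ^ 2 := by
  intro D e
  choose y hy using fun i => hC.lc i v hv
  have hy0 : ∀ i, y i ≠ 0 := by
    intro i h0
    have h1 := hy i
    rw [h0, zero_pow two_ne_zero, mul_zero] at h1
    exact inj (nz (hC.pr i).ne_zero) h1
  refine ⟨∏ i, y i ^ e i, Finset.prod_ne_zero_iff.mpr fun i _ => pow_ne_zero _ (hy0 i), ?_⟩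
  set φ : F →+* v.adicCompletion F := algebraMap F (v.adicCompletion F) with hφ
  have h2 : ∀ z : Fin t → 𝓞 F, φ ((D * ∏ i, z i ^ e i : 𝓞 F) : F) =
      φ (D : F) * ∏ i, φ (z i : F) ^ e i := by
    intro z
    simp only [map_mul, map_pow, map_prod]
  have h1 : (∏ i, φ (π i : F) ^ e i) = (∏ i, φ (x i : F) ^ e i) * (∏ i, y i ^ e i) ^ 2 := by
    rw [← Finset.prod_pow, ← Finset.prod_mul_distrib]
    refine Finset.prod_congr rfl fun i _ => ?_
    rw [hy i, mul_pow, ← pow_mul, ← pow_mul, mul_comm 2]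
  rw [h2, h2, h1]
  ring

theorem compM {F : Type u} [Field F] [NumberField F] {t : ℕ} {m0 : 𝓞 F}
    {x π : Fin t → 𝓞 F} (hC : Cq m0 x π) (v : HeightOneSpectrum (𝓞 F)) (hv : v ∈ TT F 2 m0) :
    ∃ Y : v.adicCompletion F, Y ≠ 0 ∧
      algebraMap F (v.adicCompletion F) (Mq m0 π : F) =
        algebraMap F (v.adicCompletion F) (Mq m0 x : F) * Y ^ 2 := by
  obtain ⟨Y, hY, h⟩ := comp hC v hv m0 (fun _ => 1)
  refine ⟨Y, hY, ?_⟩
  simp only [pow_one] at h
  exact h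

/-- The real comparison. -/
theorem real {F : Type u} [Field F] [NumberField F] {t : ℕ} {m0 : 𝓞 F}
    {x π : Fin t → 𝓞 F} (hC : Cq m0 x π) (s : F →+* ℝ) (D : 𝓞 F) (e : Fin t → ℕ)
    (h : 0 < s ((D * ∏ i, π i ^ e i : 𝓞 F) : F)) :
    0 < s ((D * ∏ i, x i ^ e i : 𝓞 F) : F) := by
  have h2 : ∀ z : Fin t → 𝓞 F, s ((D * ∏ i, z i ^ e i : 𝓞 F) : F) =
      s (D : F) * ∏ i, s (z i : F) ^ e i := by
    intro z
    simp only [map_mul, map_pow, map_prod]
  rw [h2] at h ⊢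
  have h3 : 0 < (∏ i, s (π i : F) ^ e i) * ∏ i, s (x i : F) ^ e i := by
    rw [← Finset.prod_mul_distrib]
    refine Finset.prod_pos fun i _ => ?_
    rw [← mul_pow]
    exact pow_pos (hC.sg i s) _
  generalize (∏ i, s (π i : F) ^ e i) = P at h h3
  generalize (∏ i, s (x i : F) ^ e i) = Q at h3 ⊢
  generalize s (D : F) = d at h ⊢
  have h4 : 0 < (d * P) * (P * Q) := mul_pos h h3
  have h5 : (d * P) * (P * Q) = (d * Q) * P ^ 2 := by ring
  rw [h5] at h4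
  have hP : P ≠ 0 := by
    rintro rfl
    simp at h3
  exact (pos_iff_pos_of_mul_pos h4).mpr (by positivity)

theorem realM {F : Type u} [Field F] [NumberField F] {t : ℕ} {m0 : 𝓞 F}
    {x π : Fin t → 𝓞 F} (hC : Cq m0 x π) (s : F →+* ℝ) (h : 0 < s (Mq m0 π : F)) :
    0 < s (Mq m0 x : F) := by
  have h1 := real hC s m0 (fun _ => 1)
  simp only [pow_one] at h1
  exact h1 h

end ILQ

theorem pr_LQ (hLM : StLM.{u}) : StLQ.{u} := by
  intro F _ _ t m0 x π hC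
  refine ⟨?_, ?_⟩
  · intro v hv
    have hv' : v ∈ TT F 2 m0 := Or.inl hv
    obtain ⟨Y, hY, h⟩ := ILQ.compM hC v hv'
    obtain ⟨n1, n2⟩ := hC.nsp v hv
    refine ⟨?_, ?_⟩
    · rintro ⟨z, hz⟩
      apply n1
      refine ⟨z / Y, ?_⟩
      rw [div_pow, hz, h, mul_div_assoc, div_self (pow_ne_zero _ hY), mul_one]
    · rintro ⟨z, hz⟩
      apply n2
      refine ⟨z / Y, ?_⟩
      rw [map_neg] at hz ⊢
      rw [div_pow, hz, h, neg_div, mul_div_assoc, div_self (pow_ne_zero _ hY), mul_one]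
  · intro D e
    refine ⟨?_, ?_⟩
    · intro v hv hL
      obtain ⟨Y, hY, h⟩ := ILQ.compM hC v hv
      obtain ⟨W, hW, h'⟩ := ILQ.comp hC v hv D e
      have hM : (Mq m0 π : F) ≠ 0 := by
        apply ILQ.nz
        exact mul_ne_zero hC.m0n (Finset.prod_ne_zero_iff.mpr fun i _ => (hC.pr i).ne_zero)
      obtain ⟨-, -, -, -, h5⟩ := hLM F v (Mq m0 π : F) hM
      refine h5 _ _ _ ⟨Y⁻¹, inv_ne_zero hY, ?_⟩ ⟨W⁻¹, ?_⟩ hL
      · rw [h, inv_pow, mul_assoc, mul_inv_cancel₀ (pow_ne_zero _ hY), mul_one]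
      · rw [h', inv_pow, mul_assoc, mul_inv_cancel₀ (pow_ne_zero _ hW), mul_one]
    · rintro s (h | h)
      · exact Or.inl (ILQ.realM hC s h)
      · exact Or.inr (ILQ.real hC s D e h)

end Pool.Agent.Work.MP_59f3ad_nt.QD
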