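import Mathlib
import Pool.Agent.Work.MP_59f3ad_nt.QD.StmtsN
import Pool.Agent.Work.MP_59f3ad_nt.PX.I_ND

/-!
Block QD, item ND: the odd twists are not trivial on the decomposition groups above `2`.
-/

set_option autoImplicit false

open NumberField IsDedekindDomain

namespace Pool.Agent.Work.MP_59f3ad_nt.QD

open Pool.Agent.Work.MP_59f3ad_nt.FE
open Pool.Agent.Work.MP_59f3ad_nt.PX

universe u

namespace IND

/-- the units of `ℤ_2` have no odd torsion -/
theorem odd_pow_eq_one (u : ℤ_[2]ˣ) (n : ℕ) (hn : Odd n) (h : u ^ n = 1) : u = 1 := by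
  have h1 : (u : ℤ_[2]) ^ n = 1 := by
    have := congrArg Units.val h
    rwa [Units.val_pow_eq_pow_val, Units.val_one] at this
  have h2 : (∑ i ∈ Finset.range n, (u : ℤ_[2]) ^ i) * ((u : ℤ_[2]) - 1) = 0 := by
    rw [geom_sum_mul, h1, sub_self]
  rcases mul_eq_zero.1 h2 with h3 | h3
  · exfalso
    have h4 : PadicInt.toZMod (p := 2) (u : ℤ_[2]) = 1 := by
      have h5 : PadicInt.toZMod (p := 2) (u : ℤ_[2]) ≠ 0 :=
        (u.isUnit.map (PadicInt.toZMod (p := 2))).ne_zero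
      revert h5
      generalize PadicInt.toZMod (p := 2) (u : ℤ_[2]) = x
      revert x
      decide
    have h6 := congrArg (PadicInt.toZMod (p := 2)) h3
    rw [map_sum, map_zero] at h6
    simp only [map_pow, h4, one_pow, Finset.sum_const, Finset.card_range, nsmul_eq_mul,
      mul_one] at h6
    rw [ZMod.natCast_eq_zero_iff] at h6
    exact (Nat.not_even_iff_odd.2 hn) (even_iff_two_dvd.2 h6)
  · exact Units.ext (sub_eq_zero.1 h3)

theorem tw_ne (K : Type u) [Field K] [NumberField K] (r : ℤ) (hr : Odd r) (h : GK K)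
    (hne : cyc K 2 h ≠ 1) : twist K 2 r h ≠ 1 := by
  intro hc
  have h1 : cyc K 2 h ^ r = 1 := Units.ext hc
  have h2 : cyc K 2 h ^ r.natAbs = 1 := by
    rcases Int.natAbs_eq r with h3 | h3
    · rw [h3, zpow_natCast] at h1
      exact h1
    · rw [h3, zpow_neg, inv_eq_one, zpow_natCast] at h1
      exact h1
  exact hne (odd_pow_eq_one _ _ (Int.natAbs_odd.2 hr) h2)

end IND

theorem pr_ND (hNI : PX.StNI.{u}) (hDI : PX.StDI.{u}) : StND.{u} := by
  intro K _ _ r hr Q hQ hpQ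
  have hpK : ((2 : ℕ) : 𝓞 K) ∈ Q.comap (algebraMap (𝓞 K) (𝓞 (AlgebraicClosure K))) := by
    rw [Ideal.mem_comap, map_natCast]
    exact hpQ
  have hpr : (Q.comap (algebraMap (𝓞 K) (𝓞 (AlgebraicClosure K)))).IsPrime :=
    Ideal.IsPrime.comap _
  have hne : Q.comap (algebraMap (𝓞 K) (𝓞 (AlgebraicClosure K))) ≠ ⊥ := by
    intro h0
    rw [h0, Ideal.mem_bot] at hpK
    exact (Nat.cast_ne_zero (R := 𝓞 K)).2 two_ne_zero hpK
  let v : HeightOneSpectrum (𝓞 K) := ⟨_, hpr, hne⟩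
  obtain ⟨N, hN, hinv⟩ := hNI K v
  obtain ⟨ι, hι⟩ := pr_DT pr_DQ K v N hN Q hQ rfl
  obtain ⟨g, h, hgh, hc⟩ := exists_cyc_ne_one K 2 v hpK ι
  exact ⟨h, hDI K v N hN hinv Q ι hι g h hgh, IND.tw_ne K r hr h hc⟩

end Pool.Agent.Work.MP_59f3ad_nt.QD
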