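import Pool.Agent.Work.MP_59f3ad_nt.QD.StmtsG

/-!
Block PX, item PW (helper78): powers of an automorphism which moves `x` extend `σ`.
-/

set_option autoImplicit false

open NumberField IsDedekindDomain

namespace Pool.Agent.Work.MP_59f3ad_nt.QD

open Pool.Agent.Work.MP_59f3ad_nt.PX

open Pool.Agent.Work.MP_59f3ad_nt.FE

universe u

namespace IPW

theorem pow_ap {F Ω : Type u} [Field F] [Field Ω] [Algebra F Ω] (τ : Ω ≃ₐ[F] Ω) (Z : F) (X : Ω)
    (j : ℕ) (h : τ X = algebraMap F Ω Z ^ j * X) (i : ℕ) :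
    (τ ^ i) X = algebraMap F Ω Z ^ (j * i) * X := by
  induction i with
  | zero => simp
  | succ i ih =>
    rw [pow_succ, AlgEquiv.mul_apply, h, map_mul, map_pow, AlgEquiv.commutes, ih, ← mul_assoc,
      ← pow_add]
    congr 2
    ring

end IPW

theorem pr_PW (hGX : StGX.{u}) : StPW.{u} := by
  intro F L _ _ _ _ _ p _ ζ m x σ hC τ hτ
  have hp : p.Prime := Fact.out
  have : NeZero p := ⟨hp.ne_zero⟩
  set Ω := AlgebraicClosure L with hΩ
  set X : Ω := algebraMap L Ω x with hX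
  have hmap : ∀ z : F, algebraMap L Ω (algebraMap F L z) = algebraMap F Ω z := fun z =>
    (IsScalarTower.algebraMap_apply F L Ω z).symm
  have hXp : X ^ p = algebraMap F Ω m := by
    rw [hX, ← map_pow, hC.hx, hmap]
  have hX0 : X ≠ 0 := by
    intro h0
    rw [h0, zero_pow hp.ne_zero] at hXp
    have h1 : algebraMap F Ω m = 0 := hXp.symm
    rw [map_eq_zero_iff _ (algebraMap F Ω).injective] at h1
    exact hC.hm h1
  have hτp : (τ X / X) ^ p = 1 := by
    rw [div_pow, ← map_pow, hXp, AlgEquiv.commutes, ← hXp]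
    exact div_self (pow_ne_zero _ hX0)
  have hZ : IsPrimitiveRoot (algebraMap F Ω ζ) p :=
    hC.hζ.map_of_injective (algebraMap F Ω).injective
  obtain ⟨j, hj, hjZ⟩ := hZ.eq_pow_of_pow_eq_one hτp
  have hτX : τ X = algebraMap F Ω ζ ^ j * X := by
    rw [hjZ, div_mul_cancel₀ _ hX0]
  have hj0 : j ≠ 0 := by
    intro h0
    rw [h0, pow_zero, one_mul] at hτX
    exact hτ hτX
  have hco : Nat.Coprime j p :=
    (Nat.Coprime.symm ((Nat.Prime.coprime_iff_not_dvd hp).2 fun hd =>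
      absurd (Nat.le_of_dvd (Nat.pos_of_ne_zero hj0) hd) (not_le.2 hj)))
  obtain ⟨i, hi⟩ := Nat.exists_mul_mod_eq_one_of_coprime hco hp.one_lt
  refine ⟨i, (hGX F L p ζ m x σ hC).2.2 (τ ^ i) ?_⟩
  rw [hC.hσ, map_mul, hmap]
  change (τ ^ i) X = _
  rw [IPW.pow_ap τ ζ X j hτX i, pow_eq_pow_mod (j * i) hZ.pow_eq_one, hi.2, pow_one]

end Pool.Agent.Work.MP_59f3ad_nt.QD
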