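import Mathlib
import Pool.Agent.Work.MP_59f3ad_nt.QD.StmtsQ
import Pool.Agent.Work.MP_59f3ad_nt.PX.I_RU1

/-!
Block QD, item R1 (helper73): the failure of the conjecture gives a witness (the proof of `PX/I_RU1.lean` for
squares up to `-1` and `M`, with the norm condition).
-/

set_option autoImplicit false

open NumberField IsDedekindDomain

namespace Pool.Agent.Work.MP_59f3ad_nt.QD

open Pool.Agent.Work.MP_59f3ad_nt.FE
open Pool.Agent.Work.MP_59f3ad_nt.PX

universe u

open PX.IRU1 in
theorem pr_R1 (hLFT : PX.StLFT.{u}) (hLM : StLM.{u}) (hLQ : StLQ.{u}) : StR1.{u} := by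
  intro F _ _ t m0 x π hC a hD j
  have hm : Mq m0 π ≠ 0 := by
    unfold Mq
    exact mul_ne_zero hC.m0n (Finset.prod_ne_zero_iff.2 fun i _ => (hC.pr i).ne_zero)
  have hmF : (Mq m0 π : F) ≠ 0 := by
    intro h
    exact hm (RingOfIntegers.ext (by rw [h]; rfl))
  have hA : a * (-(Mq m0 π : F)) ^ j ≠ 0 := mul_ne_zero hD.ne (pow_ne_zero _ (neg_ne_zero.2 hmF))
  obtain ⟨e, g, D, he, hg, hcop, heq⟩ := hLFT F 2 t (by norm_num) π hC.pr hC.na _ hA
  have hval : ∀ i, ((e i : ZMod 2)).val = e i := fun i => ZMod.val_cast_of_lt (he i)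
  obtain ⟨-, hLQ2⟩ := hLQ F t m0 x π hC
  obtain ⟨hloc, hpos⟩ := hLQ2 D e
  refine ⟨fun i => (e i : ZMod 2), D, g, ⟨hg, hcop, ?_, ?_⟩⟩
  · rw [heq]
    simp only [hval]
  · refine ⟨?_, ?_, ?_, ?_⟩
    · rintro rfl
      exact hcop ⟨0, hC.ht⟩ (dvd_zero _)
    · intro q hq
      by_cases hπ : ∃ i, π i ∈ q.asIdeal
      · obtain ⟨i, hi⟩ := hπ
        refine ⟨1, ?_⟩
        rw [map_one, one_pow]
        exact val_one q D fun h => hcop i (mem_iff (hC.pr i) q hi D h)
      · push Not at hπ
        obtain ⟨ya, hya⟩ := hD.val q hq hπ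
        obtain ⟨y0, hy0⟩ : Vd F 2 q (m0 : F) := not_not.1 (fun h => hq (Or.inr h))
        refine ⟨ya * y0 ^ j * g, ?_⟩
        have h1 : ∀ (f : Fin t → ℕ), q.valuation F ((∏ i, π i ^ f i : 𝓞 F) : F) = 1 := by
          intro f
          refine val_one q _ ?_
          intro h
          obtain ⟨i, _, hi⟩ := (q.isPrime.prod_mem_iff).1 h
          exact hπ i (q.isPrime.mem_of_pow_mem _ hi)
        have h2 : q.valuation F (Mq m0 π : F) = q.valuation F (m0 : F) := by
          unfold Mq
          have h3 := h1 (fun _ => 1)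
          simp only [pow_one] at h3
          rw [cm, map_mul, h3, mul_one]
        have h3 := congrArg (q.valuation F) heq
        rw [map_mul, map_mul, map_pow, map_pow, Valuation.map_neg, h2, hya, hy0, cm, map_mul, h1,
          mul_one] at h3
        rw [← h3, map_mul, map_mul, map_pow, mul_pow, mul_pow, ← pow_mul, ← pow_mul, mul_comm 2 j]
    · intro v hv
      obtain ⟨h1, h2, h3, -, -⟩ := hLM F v (Mq m0 π : F) hmF
      have ha : Lq F v (Mq m0 π : F) a := by
        refine ⟨hD.loc v hv, ?_⟩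
        obtain ⟨y, z, hyz⟩ := hD.nrm
        refine ⟨algebraMap F (v.adicCompletion F) y, algebraMap F (v.adicCompletion F) z, ?_⟩
        rw [hyz, map_sub, map_mul, map_pow, map_pow]
      have hpow : ∀ n : ℕ, Lq F v (Mq m0 π : F) ((-(Mq m0 π : F)) ^ n) := by
        intro n
        induction n with
        | zero =>
          have := h2 1
          rwa [one_pow, ← pow_zero (-(Mq m0 π : F))] at this
        | succ n ih =>
          rw [pow_succ]
          exact h1 _ _ ih h3
      have h4 := hloc v hv (by rw [← heq]; exact h1 _ _ (h1 _ _ ha (hpow j)) (h2 g))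
      simp only [hval]
      exact h4
    · intro s
      simp only [hval]
      refine hpos s ?_
      by_cases h0 : 0 < s (Mq m0 π : F)
      · exact Or.inl h0
      · right
        have hsm : s (Mq m0 π : F) ≠ 0 := (map_ne_zero s).2 hmF
        have hlt : s (Mq m0 π : F) < 0 := lt_of_le_of_ne (not_lt.1 h0) hsm
        obtain ⟨y, z, hyz⟩ := hD.nrm
        have hsa : 0 < s a := by
          have h5 : s a = s y ^ 2 - s (Mq m0 π : F) * s z ^ 2 := by
            rw [hyz, map_sub, map_mul, map_pow, map_pow]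
          have h6 : 0 ≤ s a := by
            rw [h5]
            nlinarith [sq_nonneg (s y), mul_nonneg (neg_nonneg.2 hlt.le) (sq_nonneg (s z))]
          exact lt_of_le_of_ne h6 (Ne.symm ((map_ne_zero s).2 hD.ne))
        rw [← heq, map_mul, map_mul, map_pow, map_pow, map_neg]
        have hsg : s g ≠ 0 := (map_ne_zero s).2 hg
        exact mul_pos (mul_pos hsa (pow_pos (neg_pos.2 hlt) _)) (by positivity)

end Pool.Agent.Work.MP_59f3ad_nt.QD
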