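import Mathlib
import Pool.Agent.Work.MP_59f3ad_nt.QD.StmtsQ
import Pool.Agent.Work.MP_59f3ad_nt.PX.I_RX2

/-!
Item R2 of block QD: the relation (model: `PX/I_RU2.lean`).
-/

set_option autoImplicit false

open NumberField IsDedekindDomain

namespace Pool.Agent.Work.MP_59f3ad_nt.QD

open Pool.Agent.Work.MP_59f3ad_nt.FE
open Pool.Agent.Work.MP_59f3ad_nt.PX

universe u

/-- R2: the relation. -/
theorem pr_R2 : StR2.{u} := by
  intro F _ _ ind hS t m0 x π hC a hD j e D g hR d hE hcop k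
  classical
  have hp2 : Fact (Nat.Prime 2) := ⟨Nat.prime_two⟩
  have hπ := hC.pr k
  have hnp := hC.np k
  -- the prime elements are pairwise not associated
  have hki : ∀ i ∈ Finset.univ.erase k, ¬ π k ∣ π i := by
    intro i hi hdvd
    have := hC.na k i (hπ.associated_of_dvd (hC.pr i) hdvd)
    exact (Finset.ne_of_mem_erase hi) this.symm
  -- `ind D = ind d`
  have hkD : ¬ π k ∣ D := hR.cop k
  have hkd : ¬ π k ∣ d := hcop k
  have hDd : ind (π k) D = ind (π k) d := IRX2.ind_eqv hS hπ hnp hkD hkd hE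
  -- the tame symbol
  obtain ⟨y, hy⟩ := hD.tam j g D (fun i => (e i).val) hR.gn hR.cop hR.eq k
  have hA : ∀ n : Fin t → ℕ, ∀ i ∈ Finset.univ.erase k, ¬ π k ∣ π i ^ n i :=
    fun n i hi h => hki i hi (hπ.dvd_of_dvd_pow h)
  have hAp : ∀ n : Fin t → ℕ, ¬ π k ∣ ∏ i ∈ Finset.univ.erase k, π i ^ n i := by
    intro n h
    obtain ⟨i, hi, hdi⟩ := hπ.exists_mem_finset_dvd h
    exact hA n i hi hdi
  have hAq : ¬ π k ∣ ∏ i ∈ Finset.univ.erase k, π i := by
    intro h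
    obtain ⟨i, hi, hdi⟩ := hπ.exists_mem_finset_dvd h
    exact hki i hi hdi
  have hm0 : ¬ π k ∣ -m0 := by
    rw [dvd_neg]
    exact hC.nm0 k
  have hX1 : ¬ π k ∣ D * ∏ i ∈ Finset.univ.erase k, π i ^ (e i).val := by
    intro h
    rcases hπ.dvd_or_dvd h with h | h
    · exact hkD h
    · exact hAp _ h
  have hX2 : ¬ π k ∣ -m0 * ∏ i ∈ Finset.univ.erase k, π i := by
    intro h
    rcases hπ.dvd_or_dvd h with h | h
    · exact hm0 h
    · exact hAq h
  have h0 : ind (π k) ((D * ∏ i ∈ Finset.univ.erase k, π i ^ (e i).val) *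
      (-m0 * ∏ i ∈ Finset.univ.erase k, π i) ^ (e k).val) = 0 := by
    refine (hS.pow _ hπ hnp _ ?_).2 ⟨y, ?_⟩
    · intro h
      rcases hπ.dvd_or_dvd h with h | h
      · exact hX1 h
      · exact hX2 (hπ.dvd_of_dvd_pow h)
    · rw [neg_mul]
      exact hy
  have e1 : ind (π k) (∏ i ∈ Finset.univ.erase k, π i ^ (e i).val) =
      ∑ i ∈ Finset.univ.erase k, e i * ind (π k) (π i) := by
    rw [IRX2.ind_prod hS hπ hnp _ _ (hA _)]
    refine Finset.sum_congr rfl fun i hi => ?_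
    rw [IRX2.ind_pow hS hπ hnp (hki i hi), ZMod.natCast_zmod_val]
  have e2 : ind (π k) (∏ i ∈ Finset.univ.erase k, π i) =
      ∑ i ∈ Finset.univ.erase k, ind (π k) (π i) :=
    IRX2.ind_prod hS hπ hnp _ _ hki
  rw [hS.mul _ hπ hnp _ _ hX1 (fun h => hX2 (hπ.dvd_of_dvd_pow h)), IRX2.ind_pow hS hπ hnp hX2,
    hS.mul _ hπ hnp _ _ hkD (hAp _), hS.mul _ hπ hnp _ _ hm0 hAq, e1, e2, hDd,
    ZMod.natCast_zmod_val] at h0
  have hsum : ∑ i ∈ Finset.univ.erase k, (e i - e k) * ind (π k) (π i) =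
      ∑ i ∈ Finset.univ.erase k, e i * ind (π k) (π i) -
        e k * ∑ i ∈ Finset.univ.erase k, ind (π k) (π i) := by
    rw [Finset.mul_sum, ← Finset.sum_sub_distrib]
    exact Finset.sum_congr rfl fun i _ => by ring
  rw [hsum]
  have h2 : (2 : ZMod 2) = 0 := CharTwo.two_eq_zero
  linear_combination h0 - (e k * ∑ i ∈ Finset.univ.erase k, ind (π k) (π i) +
    e k * ind (π k) (-m0)) * h2

end Pool.Agent.Work.MP_59f3ad_nt.QD
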