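import Pool.Agent.Work.MP_59f3ad_nt.QD.StmtsQ

/-!
Item R3 of block QD: the exponent vector is not constant.
-/

set_option autoImplicit false

open NumberField IsDedekindDomain

namespace Pool.Agent.Work.MP_59f3ad_nt.QD

open Pool.Agent.Work.MP_59f3ad_nt.FE
open Pool.Agent.Work.MP_59f3ad_nt.PX

universe u

namespace IR3

variable {F : Type u} [Field F] [NumberField F]

theorem nz {a : 𝓞 F} (ha : a ≠ 0) : algebraMap (𝓞 F) F a ≠ 0 := by
  rwa [Ne, FaithfulSMul.algebraMap_eq_zero_iff]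

/-- a witness for the vector `0` with the same class as `a` contradicts `Dq` -/
theorem fin {t : ℕ} {m0 : 𝓞 F} {x π : Fin t → 𝓞 F} (hC : Cq m0 x π) {a : F} (hD : Dq m0 π a)
    {j : ℕ} {d : 𝓞 F} {g : F} (hg : g ≠ 0) (hcop : ∀ k, ¬ π k ∣ d) (hW : Wq m0 x 0 d)
    (h : a * (-(algebraMap (𝓞 F) F (Mq m0 π))) ^ j * g ^ 2 = algebraMap (𝓞 F) F d) : False := by
  have hm : algebraMap (𝓞 F) F (Mq m0 π) ≠ 0 :=
    nz (mul_ne_zero hC.m0n (Finset.prod_ne_zero_iff.2 fun i _ => (hC.pr i).ne_zero))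
  have hm' : (-(algebraMap (𝓞 F) F (Mq m0 π))) ^ j ≠ 0 := pow_ne_zero _ (neg_ne_zero.2 hm)
  rcases hC.hH d hW hcop with ⟨g', hg'⟩ | ⟨i, hi⟩
  · refine hD.non j (algebraMap (𝓞 F) F g' / (g * (-(algebraMap (𝓞 F) F (Mq m0 π))) ^ j)) ?_
    have h1 : a * (-(algebraMap (𝓞 F) F (Mq m0 π))) ^ j * g ^ 2 =
        algebraMap (𝓞 F) F g' ^ 2 := by rw [h, ← hg', map_pow]
    change a = (-(algebraMap (𝓞 F) F (Mq m0 π))) ^ j * _
    rw [div_pow, mul_div_assoc', eq_div_iff (pow_ne_zero 2 (mul_ne_zero hg hm')), ← h1]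
    ring
  · obtain ⟨y, hy⟩ := hD.tam j g d (fun _ => 0) hg hcop (by
      change a * (-(algebraMap (𝓞 F) F (Mq m0 π))) ^ j * g ^ 2 =
        algebraMap (𝓞 F) F (d * ∏ i, π i ^ (fun _ : Fin t => 0) i)
      simp only [pow_zero, Finset.prod_const_one, mul_one]
      exact h) i
    simp only [pow_zero, Finset.prod_const_one, mul_one] at hy
    exact hi ⟨y, hy⟩

end IR3

open IR3 in
/-- R3 -/
theorem pr_R3 (hLM : StLM.{u}) : StR3.{u} := by
  intro F _ _ t m0 x π hC a hD j e D g hR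
  by_contra hcon
  push Not at hcon
  have ht : 0 < t := hC.ht
  have hconst : ∀ i, e i = e ⟨0, ht⟩ := fun i => hcon i _
  have hM0 : algebraMap (𝓞 F) F (Mq m0 x) ≠ 0 :=
    nz (mul_ne_zero hC.m0n (Finset.prod_ne_zero_iff.2 fun i _ => hC.xn i))
  have hpi : algebraMap (𝓞 F) F (∏ i, π i) ≠ 0 :=
    nz (Finset.prod_ne_zero_iff.2 fun i _ => (hC.pr i).ne_zero)
  have hxi : algebraMap (𝓞 F) F (∏ i, x i) ≠ 0 :=
    nz (Finset.prod_ne_zero_iff.2 fun i _ => hC.xn i)
  have heq : a * (-(algebraMap (𝓞 F) F (Mq m0 π))) ^ j * g ^ 2 =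
      algebraMap (𝓞 F) F (D * ∏ i, π i ^ (e i).val) := hR.eq
  have h01 : ∀ z : ZMod 2, z = 0 ∨ z = 1 := by decide
  rcases h01 (e ⟨0, ht⟩) with h0 | h1
  · have he : e = 0 := by
      funext i
      rw [hconst i, h0]
      rfl
    have hW : Wq m0 x 0 D := by
      have := hR.wit
      rwa [he] at this
    refine fin hC hD (j := j) hR.gn hR.cop hW ?_
    rw [heq, he]
    simp
  · have he : ∀ i, (e i).val = 1 := by
      intro i
      rw [hconst i, h1]
      rfl
    simp only [he, pow_one] at heq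
    have hcop : ∀ k, ¬ π k ∣ -(D * m0) := by
      intro k hk
      rw [dvd_neg] at hk
      rcases (hC.pr k).dvd_or_dvd hk with h | h
      · exact hR.cop k h
      · exact hC.nm0 k h
    have hid : (-(D * m0)) * (∏ i, x i) ^ 2 = (D * ∏ i, x i) * (-(Mq m0 x)) := by
      unfold Mq
      ring
    have hid' : algebraMap (𝓞 F) F (-(D * m0)) * algebraMap (𝓞 F) F (∏ i, x i) ^ 2 =
        algebraMap (𝓞 F) F (D * ∏ i, x i) * -(algebraMap (𝓞 F) F (Mq m0 x)) := by
      rw [← map_pow, ← map_mul, hid, map_mul, map_neg]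
    have hone : ∀ d : 𝓞 F, d * ∏ i, x i ^ ((0 : Fin t → ZMod 2) i).val = d := by
      intro d
      simp
    have hW : Wq m0 x 0 (-(D * m0)) := by
      refine ⟨neg_ne_zero.2 (mul_ne_zero hR.wit.ne hC.m0n), ?_, ?_, ?_⟩
      · intro q hq
        have h1 : Vd F 2 q (D : F) := hR.wit.val q hq
        have h2 : Vd F 2 q (m0 : F) := by
          by_contra h
          exact hq (Or.inr h)
        obtain ⟨y, hy⟩ := h1
        obtain ⟨z, hz⟩ := h2
        refine ⟨y * z, ?_⟩
        change q.valuation F (algebraMap (𝓞 F) F (-(D * m0))) = _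
        rw [map_neg, Valuation.map_neg, map_mul, map_mul]
        change q.valuation F (D : F) * q.valuation F (m0 : F) = _
        rw [hy, hz, map_mul, mul_pow]
      · intro v hv
        obtain ⟨L1, L2, L3, L4, -⟩ := hLM F v (algebraMap (𝓞 F) F (Mq m0 x)) hM0
        have h1 : Lq F v (algebraMap (𝓞 F) F (Mq m0 x))
            (algebraMap (𝓞 F) F (D * ∏ i, x i ^ (e i).val)) := hR.wit.loc v hv
        simp only [he, pow_one] at h1
        have h2 := L1 _ _ h1 L3
        rw [← hid'] at h2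
        have h3 := L4 _ _ hxi h2
        rw [hone]
        exact h3
      · intro s
        rw [hone]
        have h1 : 0 < s (algebraMap (𝓞 F) F (Mq m0 x)) ∨
            0 < s (algebraMap (𝓞 F) F (D * ∏ i, x i ^ (e i).val)) := hR.wit.pos s
        simp only [he, pow_one] at h1
        change 0 < s (algebraMap (𝓞 F) F (Mq m0 x)) ∨ 0 < s (algebraMap (𝓞 F) F (-(D * m0)))
        rcases h1 with h1 | h1
        · exact Or.inl h1
        · by_cases hM : 0 < s (algebraMap (𝓞 F) F (Mq m0 x))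
          · exact Or.inl hM
          right
          have h2 : s (algebraMap (𝓞 F) F (Mq m0 x)) ≠ 0 := by
            rw [Ne, map_eq_zero]
            exact hM0
          have h3 : 0 < -(s (algebraMap (𝓞 F) F (Mq m0 x))) := by
            rw [not_lt] at hM
            have := lt_of_le_of_ne hM h2
            linarith
          have h4 : s (algebraMap (𝓞 F) F (-(D * m0))) * s (algebraMap (𝓞 F) F (∏ i, x i)) ^ 2 =
              s (algebraMap (𝓞 F) F (D * ∏ i, x i)) * -(s (algebraMap (𝓞 F) F (Mq m0 x))) := by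
            rw [← map_pow s, ← map_mul s, hid', map_mul s, map_neg s]
          have h5 : 0 < s (algebraMap (𝓞 F) F (-(D * m0))) *
              s (algebraMap (𝓞 F) F (∏ i, x i)) ^ 2 := by
            rw [h4]
            exact mul_pos h1 h3
          exact pos_of_mul_pos_left h5 (sq_nonneg _)
    refine fin hC hD (j := j + 1) (d := -(D * m0)) (g := g / algebraMap (𝓞 F) F (∏ i, π i))
      (div_ne_zero hR.gn hpi) hcop hW ?_
    rw [div_pow, mul_div_assoc', div_eq_iff (pow_ne_zero 2 hpi)]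
    have h6 : a * (-(algebraMap (𝓞 F) F (Mq m0 π))) ^ (j + 1) * g ^ 2 =
        (a * (-(algebraMap (𝓞 F) F (Mq m0 π))) ^ j * g ^ 2) *
          (-(algebraMap (𝓞 F) F (Mq m0 π))) := by
      rw [pow_succ]
      ring
    rw [h6, heq]
    have h7 : algebraMap (𝓞 F) F (Mq m0 π) =
        algebraMap (𝓞 F) F m0 * algebraMap (𝓞 F) F (∏ i, π i) := by
      unfold Mq
      rw [map_mul]
    rw [h7, map_mul, map_neg, map_mul]
    ring

end Pool.Agent.Work.MP_59f3ad_nt.QD
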