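import Pool.Agent.Work.MP_59f3ad_nt.QD.StmtsG
import Pool.Agent.Work.MP_59f3ad_nt.FE.I_IC

/-!
Item SEX of block PX: an element of the inertia group which extends `σ`.
-/

set_option autoImplicit false

open NumberField IsDedekindDomain

namespace Pool.Agent.Work.MP_59f3ad_nt.QD

open Pool.Agent.Work.MP_59f3ad_nt.PX

open Pool.Agent.Work.MP_59f3ad_nt.FE

universe u

namespace ISEX

theorem isAlg (F L : Type u) [Field F] [NumberField F] [Field L] [NumberField L] [Algebra F L] :
    IsAlgClosure F (AlgebraicClosure L) := by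
  have : Algebra.IsAlgebraic F L := Algebra.IsAlgebraic.tower_top (K := ℚ) F
  have : Algebra.IsAlgebraic F (AlgebraicClosure L) := Algebra.IsAlgebraic.trans F L _
  exact ⟨inferInstance, inferInstance⟩

end ISEX

/-- SEX -/
theorem pr_SEX (hI1 : StI1.{u}) (hPW : StPW.{u}) : StSEX.{u} := by
  intro F L _ _ _ _ _ p _ ζ m x σ hC q hq Q hQ hQq
  have := ISEX.isAlg F L
  by_contra hcon
  apply hq
  refine hI1 F (AlgebraicClosure L) p ζ hC.hζ q Q hQ hQq (algebraMap L (AlgebraicClosure L) x) m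
    hC.hm ?_ ?_
  · rw [← map_pow, hC.hx, ← IsScalarTower.algebraMap_apply]
  · intro h hh
    by_contra hne
    obtain ⟨i, hi⟩ := hPW F L p ζ m x σ hC h hne
    obtain ⟨I, hI, _⟩ := pr_IC F (AlgebraicClosure L) Q
    exact hcon ⟨h ^ i, (hI _).1 (I.pow_mem ((hI h).2 hh) i), hi⟩

end Pool.Agent.Work.MP_59f3ad_nt.QD
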