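import Pool.Agent.Work.MP_59f3ad_nt.QD.StmtsN
import Pool.Agent.Work.MP_59f3ad_nt.PX.StmtsD

set_option autoImplicit false

open NumberField IsDedekindDomain

namespace Pool.Agent.Work.MP_59f3ad_nt.QD

open Pool.Agent.Work.MP_59f3ad_nt.FE
open Pool.Agent.Work.MP_59f3ad_nt.PX

universe u

theorem pr_SZ (hDL : PX.StDL.{u}) (hZS : PX.StZS.{u}) (hIN : StIN.{u}) : StSZ.{u} := by
  intro K _ _ r φ h
  have h2 : SH K (AlgebraicClosure K) 2 r (fun g => 2 * φ g) := by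
    refine ⟨continuous_const.mul h.cont, ?_, ?_, ?_⟩
    · intro g k
      show 2 * φ (g * k) = 2 * φ g + tw 2 r g * (2 * φ k)
      rw [h.mul g k]
      ring
    · intro Q hQ hp k hk
      show 2 * φ k = 0
      rw [h.inr Q hQ hp k hk, mul_zero]
    · intro Q hQ hp
      obtain ⟨c, hc⟩ := h.dec Q hQ hp
      refine ⟨2 * c, fun k hk => ?_⟩
      show 2 * φ k = (tw 2 r k - 1) * (2 * c)
      rw [hc k hk]
      ring
  have hZ1 : (fun g => 2 * φ g) ∈ Z1 K 2 r := ⟨h2.cont, fun g k => h2.mul g k⟩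
  refine ⟨hZS K 2 r _ hZ1 h2.inr, fun v hv => ?_, fun v => ?_⟩
  · refine hDL K 2 r v _ fun Q hQ hQv => ?_
    apply h2.dec Q hQ
    have h1 : ((2 : ℕ) : 𝓞 K) ∈ v.asIdeal := hv
    rw [← hQv, Ideal.mem_comap, map_natCast] at h1
    exact h1
  · exact hIN K r φ (fun g k => h.mul g k) v

end Pool.Agent.Work.MP_59f3ad_nt.QD
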