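import Mathlib
import Pool.Agent.Work.MP_59f3ad_nt.QD.StmtsN
import Pool.Agent.Work.MP_59f3ad_nt.PX.I_TR1

/-!
Block QD, item T1: at a place above `2` the element `a` of `Bd` becomes a square after multiplication
by powers of `m` and `-1`.
-/

set_option autoImplicit false

open NumberField IsDedekindDomain

namespace Pool.Agent.Work.MP_59f3ad_nt.QD

open Pool.Agent.Work.MP_59f3ad_nt.FE
open Pool.Agent.Work.MP_59f3ad_nt.PX

universe u

namespace IT1

theorem eq_or_neg {Ω : Type u} [Field Ω] {a b : Ω} (h : a ^ 2 = b ^ 2) : a = b ∨ a = -b :=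
  sq_eq_sq_iff_eq_or_eq_neg.1 h

end IT1

open IT1 PX.ITR1 in
/-- T1 -/
theorem pr_T1 (hDX : StDX.{u}) (hLG : PX.StLG.{u}) (hGX : StGX.{u}) : StT1.{u} := by
  intro F L _ _ _ _ _ ζ m x σ hC v hv hm hm' A a δ hB
  have hcl := isAlg F L
  obtain ⟨Q, hQ, hQv⟩ := exists_over F L v
  have hpQ : ((2 : ℕ) : 𝓞 (AlgebraicClosure L)) ∈ Q := by
    have h1 : ((2 : ℕ) : 𝓞 F) ∈ v.asIdeal := hv
    rw [← hQv, Ideal.mem_comap, map_natCast] at h1
    exact h1
  have : Fact (Nat.Prime 2) := ⟨Nat.prime_two⟩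
  obtain ⟨s, hsD, hsE, hsi⟩ := hDX F L ζ m x σ hC v hm hm' Q hQ hQv
  obtain ⟨-, hG, -⟩ := hGX F L 2 ζ m x σ hC
  obtain ⟨l, hl⟩ := hB.dec Q hQ hpQ
  obtain ⟨i, hi⟩ : ∃ i : AlgebraicClosure L, i ^ 2 = -1 :=
    IsAlgClosed.exists_pow_nat_eq (-1) (by norm_num)
  set X : AlgebraicClosure L := algebraMap L (AlgebraicClosure L) x with hX
  have hXm : X ^ 2 = algebraMap F (AlgebraicClosure L) m := by
    rw [hX, ← map_pow, hC.hx, ← IsScalarTower.algebraMap_apply]
  have hζ : ζ = -1 := hC.hζ.eq_neg_one_of_two_right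
  have hsX : s X = -X := by
    rw [hX, hsE x, hC.hσ, hζ, map_neg, map_one, neg_one_mul, map_neg]
  set A1 : AlgebraicClosure L := i ^ l * A with hA1
  have hA1sq : A1 ^ 2 = algebraMap F (AlgebraicClosure L) (a * (-1) ^ l) := by
    rw [hA1, mul_pow, ← pow_mul, mul_comm l 2, pow_mul, hi, hB.hA, map_mul, map_pow, map_neg,
      map_one]
    ring
  have hsA1 : s A1 = A1 ∨ s A1 = -A1 := by
    apply eq_or_neg
    rw [← map_pow, hA1sq, AlgEquiv.commutes]
  obtain ⟨k, hk⟩ : ∃ k : ℕ, s (A1 * X ^ k) = A1 * X ^ k := by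
    rcases hsA1 with h | h
    · exact ⟨0, by rw [pow_zero, mul_one, h]⟩
    · exact ⟨1, by rw [pow_one, map_mul, h, hsX, neg_mul_neg]⟩
  refine ⟨k, l, ?_⟩
  -- elements of the decomposition group which fix X
  have key : ∀ g : AlgebraicClosure L ≃ₐ[F] AlgebraicClosure L, Dec Q g → g X = X →
      g (A1 * X ^ k) = A1 * X ^ k := by
    intro g hg hgX
    obtain ⟨h, hh⟩ := hG g hgX
    have hDh : Dec Q h := by
      intro y y' hy
      exact hg y y' (by rw [hy, hh])
    have hhA : h A1 = A1 := hl i hi h hDh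
    rw [map_mul, map_pow, hgX, ← hh A1, hhA]
  refine hLG F (AlgebraicClosure L) 2 v Q hQ hQv (A1 * X ^ k) (a * m ^ k * (-1) ^ l) ?_ ?_
  · rw [mul_pow, hA1sq, ← pow_mul, mul_comm k 2, pow_mul, hXm]
    simp only [map_mul, map_pow, map_neg, map_one]
    ring
  · intro g hg
    have hgX : g X = X ∨ g X = -X := by
      apply eq_or_neg
      rw [← map_pow, hXm, AlgEquiv.commutes]
    rcases hgX with hgX | hgX
    · exact key g hg hgX
    · have hs' : s⁻¹ X = -X := by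
        have h1 : s⁻¹ (s X) = X := s.symm_apply_apply X
        rw [hsX, map_neg] at h1
        rw [← h1, neg_neg, h1]
      have hg' : (s⁻¹ * g) X = X := by
        rw [AlgEquiv.mul_apply, hgX, map_neg, hs', neg_neg]
      have h1 := key (s⁻¹ * g) (dec_mul (dec_inv hsD) hg) hg'
      have h2 : g = s * (s⁻¹ * g) := by group
      rw [h2, AlgEquiv.mul_apply, h1, hk]

end Pool.Agent.Work.MP_59f3ad_nt.QD
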