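import Mathlib
import Pool.Agent.Work.MP_59f3ad_nt.QD.StmtsN
import Pool.Agent.Work.MP_59f3ad_nt.PX.I_TR2

/-!
Item T2 of block QD: the radical `a` has even valuations at the places not above `2` where the
valuation of `m` is even.
-/

set_option autoImplicit false

open NumberField IsDedekindDomain

namespace Pool.Agent.Work.MP_59f3ad_nt.QD

open Pool.Agent.Work.MP_59f3ad_nt.FE
open Pool.Agent.Work.MP_59f3ad_nt.PX

universe u

/-- T2 -/
theorem pr_T2 (hI1 : PX.StI1.{u}) (hI2 : PX.StI2.{u}) (hGX : StGX.{u}) : StT2.{u} := by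
  intro F L _ _ _ _ _ ζ m x σ C q hq hV A a δ B
  have := PX.ITR2.isAlg F L
  obtain ⟨Q, hQ, hco⟩ := PX.ITR2.exists_over F (AlgebraicClosure L) q
  have hpq : ((2 : ℕ) : 𝓞 F) ∉ q.asIdeal := hq
  have hpQ : ((2 : ℕ) : 𝓞 (AlgebraicClosure L)) ∉ Q := by
    intro h
    apply hpq
    rw [← hco, Ideal.mem_comap, map_natCast]
    exact h
  refine hI1 F (AlgebraicClosure L) 2 ζ C.hζ q Q hQ hco A a B.ha B.hA fun g hg => ?_
  have hx : g (algebraMap L (AlgebraicClosure L) x) = algebraMap L (AlgebraicClosure L) x :=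
    hI2 F (AlgebraicClosure L) 2 ζ C.hζ q hpq Q hQ hco (algebraMap L (AlgebraicClosure L) x) m C.hm
      (by rw [← map_pow, C.hx, ← IsScalarTower.algebraMap_apply]) hV g hg
  obtain ⟨-, h1, -⟩ := hGX F L 2 ζ m x σ C
  obtain ⟨h, hh⟩ := h1 g hx
  have hInr : Inr Q h := by
    intro y y' e
    exact hg y y' (by rw [e, hh])
  rw [← hh A]
  exact B.inr Q hQ hpQ h hInr

end Pool.Agent.Work.MP_59f3ad_nt.QD
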