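import Mathlib
import Pool.Agent.Work.MP_59f3ad_nt.QD.StmtsN
import Pool.Agent.Work.MP_59f3ad_nt.PX.I_TAM
import Pool.Agent.Work.MP_59f3ad_nt.Q3.I_Tam

/-!
Block QD, item TM: the tame symbol at a ramified prime of a quadratic extension.
-/

set_option autoImplicit false

open NumberField IsDedekindDomain WithZero

namespace Pool.Agent.Work.MP_59f3ad_nt.QD

open Pool.Agent.Work.MP_59f3ad_nt.FE
open Pool.Agent.Work.MP_59f3ad_nt.PX

universe u

namespace ITM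

/-- the norm of `x` -/
theorem nx {F L : Type u} [Field F] [NumberField F] [Field L] [NumberField L] [Algebra F L]
    {ζ m : F} {x : L} {σ : L ≃ₐ[F] L} (hC : Cf F L 2 ζ m x σ) :
    x * σ x = algebraMap F L (-m) := by
  have h1 : ζ = -1 := hC.hζ.eq_neg_one_of_two_right
  rw [hC.hσ, h1, map_neg, map_one, map_neg, ← hC.hx]
  ring

end ITM

theorem pr_TM : StTM.{u} := by
  intro F L _ _ _ _ _ ζ m x σ hC π N N'' e q v hπ hN hN2 hM R δ hno
  have hnx := ITM.nx hC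
  have hin := R.inr
  have memq : ∀ z : 𝓞 F, z ∈ q.asIdeal ↔ π ∣ z := by
    intro z
    rw [R.qs, Ideal.mem_span_singleton]
  have hπ0 : π ≠ 0 := hπ.ne_zero
  have q1 : ∀ z : 𝓞 F, ¬ π ∣ z → q.valuation F (z : F) = 1 := by
    intro z hz
    exact (q.valuation_eq_one_iff_notMem (K := F)).2 (fun h => hz ((memq z).1 h))
  have qπ : q.valuation F (π : F) = exp (-1 : ℤ) := by
    have := q.intValuation_singleton hπ0 R.qs
    rw [← q.valuation_of_algebraMap (K := F)] at this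
    exact this
  have nz1 : ∀ z : 𝓞 F, ¬ π ∣ z → (z : F) ≠ 0 := by
    intro z hz h
    have := q1 z hz
    rw [h, map_zero] at this
    exact zero_ne_one this
  have nzπ : (π : F) ≠ 0 := by
    intro h
    rw [h, map_zero] at qπ
    exact exp_ne_zero qπ.symm
  obtain ⟨P, hP⟩ : ∃ P : F, P = (π : F) := ⟨_, rfl⟩
  obtain ⟨Nf, hNf⟩ : ∃ Nf : F, Nf = ((-N : 𝓞 F) : F) := ⟨_, rfl⟩
  obtain ⟨G, hG⟩ : ∃ G : F, G = (N'' : F) := ⟨_, rfl⟩
  have nP : P ≠ 0 := by rw [hP]; exact nzπ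
  have hNn : ¬ π ∣ -N := fun h => hN ((dvd_neg).1 h)
  have nN : Nf ≠ 0 := by rw [hNf]; exact nz1 (-N) hNn
  have nG : G ≠ 0 := by rw [hG]; exact nz1 N'' hN2
  have em : -m = P * Nf := by
    rw [hM, hP, hNf]
    change -((π : F) * (N : F)) = (π : F) * (-(N : F))
    ring
  have ea : ((π ^ e * N'' : 𝓞 F) : F) = P ^ e * G := by
    rw [hP, hG]
    rfl
  rw [ea] at hno
  rw [em] at hnx
  -- the value of `δ`
  have hδ : δ ≠ 0 := by
    intro h
    rw [h, zero_mul] at hno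
    have h2 := (map_eq_zero (algebraMap F L)).1 hno.symm
    exact mul_ne_zero (pow_ne_zero _ nP) nG h2
  obtain ⟨n, hn⟩ := Q3.ITam.exists_exp v hδ
  have hval : n = -(e : ℤ) := by
    have h5 := congrArg (v.valuation L) hno
    have hvi : v.valuation L (σ δ) = v.valuation L δ := Q3.ITam.val_inv hin δ
    rw [map_mul, hvi, R.ram, map_mul, map_pow, hP, hG, qπ, q1 N'' hN2, hn,
      mul_one, ← exp_add, ← exp_nsmul, ← exp_nsmul] at h5
    have h6 := exp_injective h5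
    simp only [nsmul_eq_mul] at h6
    push_cast at h6
    linarith
  obtain ⟨ε, hε⟩ : ∃ ε : L, ε = δ / x ^ e := ⟨_, rfl⟩
  have vε : v.valuation L ε = 1 := by
    rw [hε, map_div₀, map_pow, hn, R.vx, ← exp_nsmul, ← exp_sub, hval, ← exp_zero]
    congr 1
    simp only [nsmul_eq_mul]
    push_cast
    ring
  obtain ⟨n1, d1, hn1, hd1, hnd1⟩ := Q3.ITam.unit_rep v vε
  -- the norm of `ε`
  have nε : ε * σ ε = algebraMap F L (G / Nf ^ e) := by
    rw [hε, map_div₀, map_pow, div_mul_div_comm, ← mul_pow, hno, hnx, ← map_pow, ← map_div₀]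
    congr 1
    rw [mul_pow, mul_div_mul_left _ _ (pow_ne_zero _ nP)]
  -- integral form of the norm equation
  obtain ⟨τ, hτ⟩ : ∃ τ : 𝓞 L ≃+* 𝓞 L, τ = RingOfIntegers.mapRingEquiv (σ : L ≃+* L) := ⟨_, rfl⟩
  have cτ : ∀ y : 𝓞 L, ((τ y : 𝓞 L) : L) = σ (y : L) := by
    intro y
    rw [hτ]
    rfl
  have hprod : (n1 : L) * σ (n1 : L) = (ε * σ ε) * ((d1 : L) * σ (d1 : L)) := by
    rw [← hnd1, map_mul]
    ring
  have hLo : algebraMap (𝓞 F) (𝓞 L) ((-N) ^ e) * (n1 * τ n1) =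
      algebraMap (𝓞 F) (𝓞 L) N'' * (d1 * τ d1) := by
    apply RingOfIntegers.ext
    have a1 : ((algebraMap (𝓞 F) (𝓞 L) ((-N) ^ e) : 𝓞 L) : L) = algebraMap F L (Nf ^ e) := by
      rw [hNf]
      rfl
    have a2 : ((algebraMap (𝓞 F) (𝓞 L) N'' : 𝓞 L) : L) = algebraMap F L G := by
      rw [hG]
      rfl
    have a4 : ∀ y z : 𝓞 L, ((y * z : 𝓞 L) : L) = (y : L) * (z : L) := fun y z => rfl
    rw [a4, a4, a4, a4, a1, a2, cτ, cτ, hprod, nε, ← mul_assoc, ← map_mul]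
    congr 2
    rw [mul_div_cancel₀]
    exact pow_ne_zero _ nN
  obtain ⟨zd, hzd⟩ := R.res d1
  obtain ⟨zn, hzn⟩ := R.res n1
  -- `σ` acts trivially modulo `v`
  have φτ : ∀ y : 𝓞 L, Ideal.Quotient.mk v.asIdeal (τ y) = Ideal.Quotient.mk v.asIdeal y := by
    intro y
    rw [hτ, Ideal.Quotient.eq]
    exact hin y _ rfl
  have φd : Ideal.Quotient.mk v.asIdeal d1 =
      Ideal.Quotient.mk v.asIdeal (algebraMap (𝓞 F) (𝓞 L) zd) := by
    rw [Ideal.Quotient.eq]; exact hzd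
  have φn : Ideal.Quotient.mk v.asIdeal n1 =
      Ideal.Quotient.mk v.asIdeal (algebraMap (𝓞 F) (𝓞 L) zn) := by
    rw [Ideal.Quotient.eq]; exact hzn
  have hφ := congrArg (Ideal.Quotient.mk v.asIdeal) hLo
  rw [map_mul, map_mul, map_mul, map_mul, φτ, φτ, φd, φn, ← map_mul, ← map_mul, ← map_mul,
    ← map_mul, ← map_mul, ← map_mul, ← map_mul, ← map_mul, Ideal.Quotient.eq, ← map_sub,
    PX.ITAM.mem_v two_ne_zero R.ram, memq] at hφ
  have hzd' : zd ∉ q.asIdeal := by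
    intro h'
    rw [← PX.ITAM.mem_v two_ne_zero R.ram] at h'
    exact hd1 (by simpa using v.asIdeal.add_mem hzd h')
  have hmax : q.asIdeal.IsMaximal := q.isMaximal
  obtain ⟨w, i0, hi0, hw⟩ := hmax.exists_inv hzd'
  rw [memq] at hi0
  obtain ⟨t, rfl⟩ := hi0
  obtain ⟨s, hs⟩ := hφ
  refine ⟨(-N) ^ e * zn * w, ?_⟩
  -- `w zd = 1 - π t`
  have hwd : w * zd = 1 - π * t := by
    rw [← hw]
    ring
  have hzz : (-N) ^ e * (zn * zn) = N'' * (zd * zd) + π * s := by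
    rw [← hs]
    ring
  refine ⟨(-N) ^ e * w ^ 2 * s + (-N) ^ e * N'' * (π * t ^ 2 - 2 * t), ?_⟩
  have e1 : ((-N) ^ e * zn * w) ^ 2 = (-N) ^ e * w ^ 2 * ((-N) ^ e * (zn * zn)) := by ring
  rw [e1, hzz]
  have e2 : (-N) ^ e * w ^ 2 * (N'' * (zd * zd) + π * s) =
      (-N) ^ e * N'' * (w * zd) ^ 2 + π * ((-N) ^ e * w ^ 2 * s) := by ring
  rw [e2, hwd]
  ring

end Pool.Agent.Work.MP_59f3ad_nt.QD
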