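import Mathlib
import Pool.Agent.Work.MP_59f3ad_nt.QD.StmtsG
import Pool.Agent.Work.MP_59f3ad_nt.PX.I_TAM

/-!
Block PX, item TMQ: units at a totally ramified place which are norms are `p`-th powers modulo the place.
-/

set_option autoImplicit false

open NumberField IsDedekindDomain WithZero

namespace Pool.Agent.Work.MP_59f3ad_nt.QD

open Pool.Agent.Work.MP_59f3ad_nt.PX

open Pool.Agent.Work.MP_59f3ad_nt.FE

universe u

theorem pr_TMQ : StTMQ.{u} := by
  intro F L _ _ _ _ _ p hp ζ m x σ hC q v _ hin hres hram u ε hu hno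
  have hp0 : p ≠ 0 := hp.out.ne_zero
  -- the value of `ε`
  have vε : v.valuation L ε = 1 := by
    have h5 := congrArg (v.valuation L) hno
    rw [map_prod, Finset.prod_congr rfl (fun i _ => ITAM.val_pow hin i ε), Finset.prod_const,
      Finset.card_range, hram, hu, one_pow] at h5
    exact (pow_eq_one_iff_of_nonneg (zero_le) hp0).1 h5
  obtain ⟨n1, d1, hn1, hd1, hnd1⟩ := Q3.ITam.unit_rep v vε
  obtain ⟨nu, du, hnu, hdu, hndu⟩ := Q3.ITam.unit_rep q hu
  -- integral form of the norm equation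
  obtain ⟨τ, hτ⟩ : ∃ τ : ℕ → 𝓞 L ≃+* 𝓞 L,
    τ = fun i => RingOfIntegers.mapRingEquiv ((σ ^ i : L ≃ₐ[F] L) : L ≃+* L) := ⟨_, rfl⟩
  have cτ : ∀ (i : ℕ) (y : 𝓞 L), ((τ i y : 𝓞 L) : L) = (σ ^ i) (y : L) := by
    intro i y
    rw [hτ]
    rfl
  have hprod : ∏ i ∈ Finset.range p, (σ ^ i) (n1 : L) =
      (∏ i ∈ Finset.range p, (σ ^ i) ε) * ∏ i ∈ Finset.range p, (σ ^ i) (d1 : L) := by
    rw [← Finset.prod_mul_distrib]
    refine Finset.prod_congr rfl (fun i _ => ?_)
    rw [← map_mul, hnd1]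
  have hLo : algebraMap (𝓞 F) (𝓞 L) du * ∏ i ∈ Finset.range p, τ i n1 =
      algebraMap (𝓞 F) (𝓞 L) nu * ∏ i ∈ Finset.range p, τ i d1 := by
    apply RingOfIntegers.ext
    have a1 : ((algebraMap (𝓞 F) (𝓞 L) du : 𝓞 L) : L) = algebraMap F L (du : F) := rfl
    have a2 : ((algebraMap (𝓞 F) (𝓞 L) nu : 𝓞 L) : L) = algebraMap F L (nu : F) := rfl
    have a3 : ∀ y : 𝓞 L, ((∏ i ∈ Finset.range p, τ i y : 𝓞 L) : L) =
        ∏ i ∈ Finset.range p, (σ ^ i) (y : L) := by
      intro y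
      change algebraMap (𝓞 L) L (∏ i ∈ Finset.range p, τ i y) = _
      rw [map_prod]
      exact Finset.prod_congr rfl (fun i _ => cτ i y)
    have a4 : ∀ y z : 𝓞 L, ((y * z : 𝓞 L) : L) = (y : L) * (z : L) := fun y z => rfl
    rw [a4, a4, a1, a2, a3, a3, hprod, hno, ← mul_assoc, ← map_mul, mul_comm (du : F), hndu]
  obtain ⟨zd, hzd⟩ := hres d1
  obtain ⟨zn, hzn⟩ := hres n1
  -- `σ^i` acts trivially modulo `v`
  have φτ : ∀ (i : ℕ) (y : 𝓞 L), Ideal.Quotient.mk v.asIdeal (τ i y) =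
      Ideal.Quotient.mk v.asIdeal y := by
    intro i
    induction i with
    | zero =>
      intro y
      congr 1
      apply RingOfIntegers.ext
      rw [cτ]
      rfl
    | succ i ih =>
      intro y
      have h1 : τ (i + 1) y = RingOfIntegers.mapRingEquiv (σ : L ≃+* L) (τ i y) := by
        apply RingOfIntegers.ext
        rw [cτ, pow_succ']
        change (σ * σ ^ i) (y : L) = σ ((τ i y : 𝓞 L) : L)
        rw [cτ]
        rfl
      rw [h1, ← ih y, Ideal.Quotient.eq]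
      exact hin (τ i y) _ rfl
  have φd : Ideal.Quotient.mk v.asIdeal d1 =
      Ideal.Quotient.mk v.asIdeal (algebraMap (𝓞 F) (𝓞 L) zd) := by
    rw [Ideal.Quotient.eq]; exact hzd
  have φn : Ideal.Quotient.mk v.asIdeal n1 =
      Ideal.Quotient.mk v.asIdeal (algebraMap (𝓞 F) (𝓞 L) zn) := by
    rw [Ideal.Quotient.eq]; exact hzn
  have hφ := congrArg (Ideal.Quotient.mk v.asIdeal) hLo
  rw [map_mul, map_mul, map_prod, map_prod, Finset.prod_congr rfl (fun i _ => φτ i n1),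
    Finset.prod_congr rfl (fun i _ => φτ i d1), Finset.prod_const, Finset.prod_const,
    Finset.card_range, φd, φn, ← map_pow, ← map_pow, ← map_pow, ← map_pow, ← map_mul, ← map_mul,
    ← map_mul, ← map_mul, Ideal.Quotient.eq, ← map_sub, ITAM.mem_v hp0 hram] at hφ
  have hzd' : zd ∉ q.asIdeal := by
    intro h'
    rw [← ITAM.mem_v hp0 hram] at h'
    exact hd1 (by simpa using v.asIdeal.add_mem hzd h')
  have hmax : q.asIdeal.IsMaximal := q.isMaximal
  obtain ⟨w, i0, hi0, hw⟩ := hmax.exists_inv hzd'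
  refine ⟨zn * w, ?_⟩
  have e1 : Ideal.Quotient.mk q.asIdeal (du * zn ^ p) =
      Ideal.Quotient.mk q.asIdeal (nu * zd ^ p) := by
    rw [Ideal.Quotient.eq]
    exact hφ
  have e2 : Ideal.Quotient.mk q.asIdeal (w * zd) = 1 := by
    rw [← map_one (Ideal.Quotient.mk q.asIdeal), Ideal.Quotient.eq, ← hw]
    have h1 : w * zd - (w * zd + i0) = -i0 := by ring
    rw [h1]
    exact q.asIdeal.neg_mem hi0
  have e3 : nu - du * (zn * w) ^ p ∈ q.asIdeal := by
    rw [← Ideal.Quotient.eq]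
    have h1 : du * (zn * w) ^ p = du * zn ^ p * w ^ p := by rw [mul_pow]; ring
    have h2 : nu * zd ^ p * w ^ p = nu * (w * zd) ^ p := by rw [mul_pow]; ring
    rw [h1, map_mul, e1, ← map_mul, h2, map_mul, map_pow, e2, one_pow, mul_one]
  have e4 : q.valuation F (du : F) = 1 := (q.valuation_eq_one_iff_notMem (K := F)).2 hdu
  have e5 : (du : F) * (u - ((zn * w : 𝓞 F) : F) ^ p) = ((nu - du * (zn * w) ^ p : 𝓞 F) : F) := by
    have h1 : ((nu - du * (zn * w) ^ p : 𝓞 F) : F) =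
      (nu : F) - (du : F) * ((zn * w : 𝓞 F) : F) ^ p := rfl
    rw [h1, ← hndu]
    ring
  have e6 : q.valuation F (u - ((zn * w : 𝓞 F) : F) ^ p) =
      q.valuation F ((nu - du * (zn * w) ^ p : 𝓞 F) : F) := by
    rw [← e5, map_mul, e4, one_mul]
  rw [e6]
  exact (q.valuation_lt_one_iff_mem (K := F) _).2 e3

end Pool.Agent.Work.MP_59f3ad_nt.QD
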