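import Pool.Agent.Work.MP_59f3ad_nt.QD.StmtsN
import Pool.Agent.Work.MP_59f3ad_nt.PX.I_TRT

/-!
Item TT of block QD (helper52): the local condition at the places where the valuation of `m` is odd.
-/

set_option autoImplicit false

open NumberField IsDedekindDomain

namespace Pool.Agent.Work.MP_59f3ad_nt.QD

open Pool.Agent.Work.MP_59f3ad_nt.FE
open Pool.Agent.Work.MP_59f3ad_nt.PX

universe u

/-- TT -/
theorem pr_TT (hRMQ : StRMQ.{u}) (hTMQ : StTMQ.{u}) (hHEN : PX.StHEN.{u}) : StTT.{u} := by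
  intro F L _ _ _ _ _ ζ m x σ C q hq hV a δ ha hδ
  obtain ⟨α, hα⟩ := PX.ITRT.exists_log F q a ha
  obtain ⟨μ, hμ⟩ := PX.ITRT.exists_log F q m C.hm
  have hpμ : ¬ ((2 : ℕ) : ℤ) ∣ μ := by
    rintro ⟨ν, hν⟩
    obtain ⟨g, -, hg⟩ := PX.ITRT.exists_elt F q ν
    refine hV ⟨g, ?_⟩
    rw [hμ, hg, hν, ← WithZero.exp_nsmul]
    congr 1
  obtain ⟨k, ν, hk⟩ := PX.ITRT.exists_k 2 α μ hpμ
  obtain ⟨g, hg0, hg⟩ := PX.ITRT.exists_elt F q ν
  have hgp : g ^ 2 ≠ 0 := pow_ne_zero 2 hg0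
  have hval : q.valuation F (a * (-m) ^ k) = q.valuation F g ^ 2 := by
    rw [map_mul, map_pow, Valuation.map_neg, hα, hμ, hg, ← WithZero.exp_nsmul,
      ← WithZero.exp_nsmul, ← WithZero.exp_add]
    congr 1
  have hu : q.valuation F (a * (-m) ^ k / g ^ 2) = 1 := by
    rw [map_div₀, hval, map_pow, div_self]
    rw [← map_pow]
    exact (Valuation.ne_zero_iff _).2 hgp
  have hζ : ζ = -1 := C.hζ.eq_neg_one_of_two_right
  have hσx : σ x = -x := by
    rw [C.hσ, hζ, map_neg, map_one, neg_one_mul]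
  have hε : ∏ i ∈ Finset.range 2, (σ ^ i) (δ * x ^ k / algebraMap F L g) =
      algebraMap F L (a * (-m) ^ k / g ^ 2) := by
    have hg1 : algebraMap F L g ≠ 0 := (map_ne_zero _).2 hg0
    rw [Finset.prod_range_succ, Finset.prod_range_one, pow_zero, pow_one, AlgEquiv.one_apply,
      map_div₀, map_mul, map_pow, AlgEquiv.commutes, hσx]
    have e1 : δ * x ^ k / algebraMap F L g * (σ δ * (-x) ^ k / algebraMap F L g) =
        (δ * σ δ) * (-(x ^ 2)) ^ k / algebraMap F L g ^ 2 := by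
      have e2 : (-(x ^ 2)) ^ k = x ^ k * (-x) ^ k := by
        rw [← mul_pow]
        congr 1
        ring
      rw [e2]
      field_simp
    rw [e1, hδ, C.hx, map_div₀, map_mul, map_pow, map_pow, map_neg]
  obtain ⟨v, hv1, hv2, hv3, hv4⟩ := hRMQ F L 2 ζ m x σ C q hV
  obtain ⟨z, hz⟩ := hTMQ F L 2 ζ m x σ C q v hv1 hv2 hv3 hv4 _ _ hu hε
  obtain ⟨y, hy⟩ := hHEN F 2 q hq _ z hu hz
  refine ⟨k, y * algebraMap F (q.adicCompletion F) g, ?_⟩
  rw [mul_pow, hy, ← map_pow, ← map_mul, div_mul_cancel₀ _ hgp]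

end Pool.Agent.Work.MP_59f3ad_nt.QD
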