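import Mathlib
import Pool.Agent.Work.MP_59f3ad_nt.QD.StmtsQ
import Pool.Agent.Work.MP_59f3ad_nt.QD.I_BA
import Pool.Agent.Work.MP_59f3ad_nt.QD.I_BB
import Pool.Agent.Work.MP_59f3ad_nt.QD.I_BC
import Pool.Agent.Work.MP_59f3ad_nt.QD.I_BE
import Pool.Agent.Work.MP_59f3ad_nt.QD.I_BN
import Pool.Agent.Work.MP_59f3ad_nt.QD.I_BS
import Pool.Agent.Work.MP_59f3ad_nt.QD.I_CFG
import Pool.Agent.Work.MP_59f3ad_nt.QD.I_CH
import Pool.Agent.Work.MP_59f3ad_nt.QD.I_CN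
import Pool.Agent.Work.MP_59f3ad_nt.QD.I_CY
import Pool.Agent.Work.MP_59f3ad_nt.QD.I_D2
import Pool.Agent.Work.MP_59f3ad_nt.QD.I_DEX
import Pool.Agent.Work.MP_59f3ad_nt.QD.I_DT
import Pool.Agent.Work.MP_59f3ad_nt.QD.I_DV
import Pool.Agent.Work.MP_59f3ad_nt.QD.I_DX
import Pool.Agent.Work.MP_59f3ad_nt.QD.I_EXS
import Pool.Agent.Work.MP_59f3ad_nt.QD.I_EXT
import Pool.Agent.Work.MP_59f3ad_nt.QD.I_GX
import Pool.Agent.Work.MP_59f3ad_nt.QD.I_H90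
import Pool.Agent.Work.MP_59f3ad_nt.QD.I_IH
import Pool.Agent.Work.MP_59f3ad_nt.QD.I_IN
import Pool.Agent.Work.MP_59f3ad_nt.QD.I_KK
import Pool.Agent.Work.MP_59f3ad_nt.QD.I_KU
import Pool.Agent.Work.MP_59f3ad_nt.QD.I_LCT
import Pool.Agent.Work.MP_59f3ad_nt.QD.I_LM
import Pool.Agent.Work.MP_59f3ad_nt.QD.I_LO
import Pool.Agent.Work.MP_59f3ad_nt.QD.I_LQ
import Pool.Agent.Work.MP_59f3ad_nt.QD.I_ND
import Pool.Agent.Work.MP_59f3ad_nt.QD.I_NM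
import Pool.Agent.Work.MP_59f3ad_nt.QD.I_PW
import Pool.Agent.Work.MP_59f3ad_nt.QD.I_R1
import Pool.Agent.Work.MP_59f3ad_nt.QD.I_R2
import Pool.Agent.Work.MP_59f3ad_nt.QD.I_R3
import Pool.Agent.Work.MP_59f3ad_nt.QD.I_RAM
import Pool.Agent.Work.MP_59f3ad_nt.QD.I_RE
import Pool.Agent.Work.MP_59f3ad_nt.QD.I_RMQ
import Pool.Agent.Work.MP_59f3ad_nt.QD.I_RS
import Pool.Agent.Work.MP_59f3ad_nt.QD.I_SEX
import Pool.Agent.Work.MP_59f3ad_nt.QD.I_SF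
import Pool.Agent.Work.MP_59f3ad_nt.QD.I_SZ
import Pool.Agent.Work.MP_59f3ad_nt.QD.I_T1
import Pool.Agent.Work.MP_59f3ad_nt.QD.I_T2
import Pool.Agent.Work.MP_59f3ad_nt.QD.I_TM
import Pool.Agent.Work.MP_59f3ad_nt.QD.I_TMQ
import Pool.Agent.Work.MP_59f3ad_nt.QD.I_TT
import Pool.Agent.Work.MP_59f3ad_nt.PX.I_LD
import Pool.Agent.Work.MP_59f3ad_nt.PX.I_DK
import Pool.Agent.Work.MP_59f3ad_nt.PX.I_SHS
import Pool.Agent.Work.MP_59f3ad_nt.PX.I_MUF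
import Pool.Agent.Work.MP_59f3ad_nt.PX.I_TS
import Pool.Agent.Work.MP_59f3ad_nt.PX.I_SQM
import Pool.Agent.Work.MP_59f3ad_nt.PX.I_LG
import Pool.Agent.Work.MP_59f3ad_nt.PX.I_LP
import Pool.Agent.Work.MP_59f3ad_nt.PX.I_NI
import Pool.Agent.Work.MP_59f3ad_nt.PX.I_DI
import Pool.Agent.Work.MP_59f3ad_nt.PX.I_I1
import Pool.Agent.Work.MP_59f3ad_nt.PX.I_I2
import Pool.Agent.Work.MP_59f3ad_nt.PX.I_DL
import Pool.Agent.Work.MP_59f3ad_nt.PX.I_ZS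
import Pool.Agent.Work.MP_59f3ad_nt.PX.I_UM
import Pool.Agent.Work.MP_59f3ad_nt.PX.I_TRN
import Pool.Agent.Work.MP_59f3ad_nt.PX.I_HEN
import Pool.Agent.Work.MP_59f3ad_nt.PX.I_TW1
import Pool.Agent.Work.MP_59f3ad_nt.PX.I_KUM
import Pool.Agent.Work.MP_59f3ad_nt.PX.I_LFT
import Pool.Agent.Work.MP_59f3ad_nt.PX.I_IND
import Pool.Agent.Work.MP_59f3ad_nt.PX.I_FMO
import Pool.Agent.Work.MP_59f3ad_nt.PX.I_BLT
import Pool.Agent.Work.MP_59f3ad_nt.PX.I_BIL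
import Pool.Agent.Work.MP_59f3ad_nt.PX.I_DUA
import Pool.Agent.Work.MP_59f3ad_nt.PX.I_BOX
import Pool.Agent.Work.MP_59f3ad_nt.PX.I_PER
import Pool.Agent.Work.MP_59f3ad_nt.PX.I_PBX
import Pool.Agent.Work.MP_59f3ad_nt.PX.I_EP
import Pool.Agent.Work.MP_59f3ad_nt.PX.I_REP
import Pool.Agent.Work.MP_59f3ad_nt.PX.I_UFD
import Pool.Agent.Work.MP_59f3ad_nt.PX.I_NMB
import Pool.Agent.Work.MP_59f3ad_nt.PX.I_CRD
import Pool.Agent.Work.MP_59f3ad_nt.PX.I_EXC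
import Pool.Agent.Work.MP_59f3ad_nt.PX.I_TFI
import Pool.Agent.Work.MP_59f3ad_nt.PX.I_FSU

/-!
Block QD: everything together.
-/

set_option autoImplicit false

namespace Pool.Agent.Work.MP_59f3ad_nt.QD

universe u

theorem px_LP : PX.StLP.{u} := PX.pr_LP PX.pr_NI PX.pr_DI
theorem px_LG : PX.StLG.{u} := PX.pr_LG px_LP
theorem px_SHS : PX.StSHS.{u} := PX.pr_SHS (PX.pr_LD PX.pr_DK)
theorem px_ZS : PX.StZS.{u} := PX.pr_ZS PX.pr_UM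
theorem px_DL : PX.StDL.{u} := PX.pr_DL PX.pr_NI PX.pr_DI
theorem px_BOX : PX.StBOX.{u} := PX.pr_BOX (PX.pr_PER PX.pr_EP) PX.pr_PBX PX.pr_EP
theorem px_DUA : PX.StDUA.{u} := PX.pr_DUA px_BOX PX.pr_EP
theorem px_REP : PX.StREP.{u} := PX.pr_REP PX.pr_UFD
theorem px_BIL : PX.StBIL.{u} := PX.pr_BIL px_DUA px_REP PX.pr_NMB PX.pr_EP
theorem px_BLT : PX.StBLT.{u} := PX.pr_BLT px_BIL PX.pr_CRD PX.pr_EP
theorem px_FMO : PX.StFMO.{u} := PX.pr_FMO px_BLT PX.pr_EP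

theorem all_PW : StPW.{u} := pr_PW pr_GX
theorem all_SEX : StSEX.{u} := pr_SEX PX.pr_I1 all_PW
theorem all_DEX : StDEX.{u} := pr_DEX px_LG all_PW
theorem all_KK : StKK.{u} := pr_KK pr_GX
theorem all_H90 : StH90.{u} := pr_H90 pr_GX
theorem all_LCT : StLCT.{u} := pr_LCT all_DEX PX.pr_TW1
theorem all_EXT : StEXT.{u} := pr_EXT pr_GX

theorem all_ND : StND.{u} := pr_ND PX.pr_NI PX.pr_DI
theorem all_BE : StBE.{u} := pr_BE all_ND PX.pr_MUF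
theorem all_SZ : StSZ.{u} := pr_SZ px_DL px_ZS pr_IN
theorem all_SF : StSF.{u} := pr_SF all_SZ all_ND PX.pr_TRN
theorem all_KU : StKU.{u} := pr_KU pr_CY
theorem all_DX : StDX.{u} := pr_DX px_LG pr_GX
theorem all_LO : StLO.{u} := pr_LO all_DX pr_CY
theorem all_BA : StBA.{u} := pr_BA all_KU all_LO all_H90 pr_CY
theorem all_BB : StBB.{u} := pr_BB all_KU all_LCT
theorem all_BC : StBC.{u} := pr_BC all_BA all_BB PX.pr_SQM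
theorem all_EXS : StEXS.{u} := pr_EXS pr_GX PX.pr_MUF all_ND
theorem all_IH : StIH.{u} := pr_IH px_SHS all_SF all_BE all_ND PX.pr_MUF all_SEX all_KK PX.pr_TS
  PX.pr_SQM pr_CH all_BC all_EXT all_EXS
theorem all_T1 : StT1.{u} := pr_T1 all_DX px_LG pr_GX
theorem all_T2 : StT2.{u} := pr_T2 PX.pr_I1 PX.pr_I2 pr_GX
theorem all_TT : StTT.{u} := pr_TT pr_RMQ pr_TMQ PX.pr_HEN
theorem all_DT : StDT.{u} := pr_DT pr_CFG all_IH all_T1 all_T2 pr_RAM pr_NM pr_TM all_TT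
theorem all_D2 : StD2.{u} := pr_D2 PX.pr_TW1 PX.pr_KUM PX.pr_I1 px_LG
theorem all_DV : StDV.{u} := pr_DV PX.pr_TW1 PX.pr_MUF
theorem all_BS : StBS.{u} := pr_BS px_SHS all_D2 all_DV

theorem all_LQ : StLQ.{u} := pr_LQ pr_LM
theorem all_R1 : StR1.{u} := pr_R1 PX.pr_LFT pr_LM all_LQ
theorem all_R3 : StR3.{u} := pr_R3 pr_LM
theorem all_RS : StRS.{u} := pr_RS all_DT all_R1 pr_R2 all_R3 all_LQ
theorem all_CN : StCN.{u} := pr_CN PX.pr_IND all_RS px_FMO PX.pr_EXC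
theorem all_RE : StRE.{u} := pr_RE PX.pr_TFI PX.pr_FSU
theorem all_BN : StBN.{u} := pr_BN pr_LM

end Pool.Agent.Work.MP_59f3ad_nt.QD
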