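import Mathlib
import Pool.Agent.Work.MP_59f3ad_nt.QD.StmtsQ

/-!
Block QD, part E: `p = 2`, EVEN twists `r ≠ 0` (`tw = 1` modulo `4` everywhere). `L = F(x)`, `x^2 = m`,
`σ x = -x`, `Ω = AlgebraicClosure L`, `GK L = Gal(Ω/L)`, `cs hs h = s⁻¹ h s`. New point: the cyclic quartic
extension of `L` given by the cocycle modulo `4` is dihedral over `F`, so that `a = y^2 + m z^2`. The counting
part is that of the odd twists with `-m0` in place of `m0`. Every docstring is the complete proof. Models: the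
landed files `QD/I_*.lean` and `PX/I_*.lean`.
-/

set_option autoImplicit false

open NumberField IsDedekindDomain

namespace Pool.Agent.Work.MP_59f3ad_nt.QD

open Pool.Agent.Work.MP_59f3ad_nt.FE
open Pool.Agent.Work.MP_59f3ad_nt.PX

universe u

/-- What the failure of the conjecture for `L` and an even twist produces. -/
structure Be {F L : Type u} [Field F] [NumberField F] [Field L] [NumberField L] [Algebra F L]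
    (m : F) (A : AlgebraicClosure L) (a : F) : Prop where
  ha : a ≠ 0
  hA : A ^ 2 = algebraMap F (AlgebraicClosure L) a
  nrm : ∃ y z : F, a = y ^ 2 + m * z ^ 2
  inr : ∀ Q : Ideal (𝓞 (AlgebraicClosure L)), Q.IsPrime →
    ((2 : ℕ) : 𝓞 (AlgebraicClosure L)) ∉ Q → ∀ h : GK L, Inr Q h → h A = A
  dec : ∀ Q : Ideal (𝓞 (AlgebraicClosure L)), Q.IsPrime →
    ((2 : ℕ) : 𝓞 (AlgebraicClosure L)) ∈ Q → ∀ h : GK L, Dec Q h → h A = A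
  ne : ∃ h : GK L, h A ≠ A

/-- `PX.StFX` for `QD.Cf` (done by the captain). -/
def StFX : Prop := ∀ (F L : Type u) [Field F] [NumberField F] [Field L] [NumberField L]
  [Algebra F L] (p : ℕ) [Fact p.Prime] (ζ m : F) (x : L) (σ : L ≃ₐ[F] L), Cf F L p ζ m x σ →
  ∀ (s : AlgebraicClosure L ≃ₐ[F] AlgebraicClosure L) (hs : Ex σ s) (k : GK L),
  (∀ y, k y = (s ^ p) y) → ∀ f : GK L → ℤ_[p], (∀ h, (p : ℤ_[p]) ∣ f (cs hs h) - f h) →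
  (p : ℤ_[p]) ∣ f k → ∀ u : AlgebraicClosure L, u ≠ 0 →
  (∀ h : GK L, h u = algebraMap F (AlgebraicClosure L) (ζ ^ (PadicInt.toZMod (f h)).val) * u) →
  ∃ (d : L) (a : F), d ≠ 0 ∧ a ≠ 0 ∧
    s (u / algebraMap L (AlgebraicClosure L) d) = u / algebraMap L (AlgebraicClosure L) d ∧
    (u / algebraMap L (AlgebraicClosure L) d) ^ p = algebraMap F (AlgebraicClosure L) a

/-- TE (EASY). `tw 2 r h = u^r`, `u` a unit of `ℤ_2`, `r = 2 r'`, so it is the square of the unit `u^(r')`, and the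
square of an odd `2`-adic integer is `1` modulo `4` (even modulo `8`). -/
def StTE : Prop := ∀ (k Ω : Type u) [Field k] [Field Ω] [Algebra k Ω] (r : ℤ), Even r →
  ∀ h : Ω ≃ₐ[k] Ω, (4 : ℤ_[2]) ∣ tw 2 r h - 1

/-- NE (MEDIUM, from `QD.StND`, StCY, `PX.StTRN`-type transport). Let `Ω = AlgebraicClosure K`, `i ∈ Ω`, `i^2 = -1`,
`K' = K(i) ⊂ Ω` (`IntermediateField.adjoin K {i}`, a number field), `Ω' = AlgebraicClosure K'`,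
`e : Ω ≃ₐ[K'] Ω'` (`IsAlgClosure.equiv K'`; `Ω` is an algebraic closure of `K'`). `Q'` = the prime of `𝓞 Ω'`
corresponding to `Q` (`y' ∈ Q'` iff `e⁻¹ y' ∈ Q`), `2 ∈ Q'`. StND for `K'`, `r = 1` gives `h' ∈ GK K'` with
`Dec Q' h'`, `tw 2 1 h' ≠ 1`. Put `h = e⁻¹ h' e`, an automorphism of `Ω` over `K'`, so over `K`: `Dec Q h`, and
`tw 2 1 h = tw 2 1 h'` (transport of the cyclotomic character, see the proof of `PX/I_TRN.lean`). `h i = i`, so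
`u = tw 2 1 h = 1 + 4 w` (StCY), `u ≠ 1`. For `r ≠ 0`: `u^r ≠ 1`: with `n = |r|`, `n = 2^a b`, `b` odd: if `v ≠ 1`,
`v = 1` modulo `4`, then `v^b ≠ 1` (`1 + v + ... + v^(b-1)` is odd) and `v^2 ≠ 1` (`v = -1` is not `1` modulo `4`), and
both are `1` modulo `4`. (Other way: repeat the proof of `exists_cyc_ne_one` with `ζ + ζ⁻¹`.) -/
def StNE : Prop := ∀ (K : Type u) [Field K] [NumberField K] (r : ℤ), r ≠ 0 →
  ∀ Q : Ideal (𝓞 (AlgebraicClosure K)), Q.IsPrime → ((2 : ℕ) : 𝓞 (AlgebraicClosure K)) ∈ Q →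
  ∃ h : GK K, Dec Q h ∧ tw 2 r h ≠ 1

/-- BF (EASY, copy of `QD/I_BE.lean` with StNE in place of StND; from StNE, `PX.StMUF`). -/
def StBF : Prop := ∀ (K : Type u) [Field K] [NumberField K] (r : ℤ), r ≠ 0 →
  ∃ (m : ℕ) (β : GK K → ℤ_[2]), (∀ g, ((2 : ℕ) : ℤ_[2]) ^ m * β g = tw 2 r g - 1) ∧
    (∃ g, ¬ ((2 : ℕ) : ℤ_[2]) ∣ β g) ∧ SQ K (AlgebraicClosure K) 2 r β

/-- SG (EASY, copy of `QD/I_SF.lean` with StNE in place of StND; from StSZ, StNE, `PX.StTRN`). -/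
def StSG : Prop := ∀ (F L : Type u) [Field F] [NumberField F] [Field L] [NumberField L]
  [Algebra F L] (r : ℤ), r ≠ 0 → Sha1 F 2 r (Sp F 2) = ⊥ →
  ∀ Ψ : (AlgebraicClosure L ≃ₐ[F] AlgebraicClosure L) → ℤ_[2],
  SH F (AlgebraicClosure L) 2 r Ψ → ∃ c : ℤ_[2], ∀ g, Ψ g = (tw 2 r g - 1) * c

/-- C4 (MEDIUM). `f` modulo `4` is a homomorphism to `ℤ/4`, `U = {g : 4 ∣ f g}` is an open normal subgroup (the
kernel; `f` is continuous), `M` = its fixed field, `U` = the fixing subgroup of `M`. `f (τ^2) = 2 f τ` modulo `4`, so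
`τ^2 ∉ U` and there is `z ∈ M` with `τ^2 z ≠ z`. `w = z - τ^2 z ≠ 0`. If `4 ∣ f h` then `h` fixes `z`, and
`h (τ^2 z) = τ^2 ((τ⁻² h τ²) z) = τ^2 z` (`U` is normal). If `f h = 2` modulo `4` then `τ⁻² h ∈ U`, so
`h z = τ^2 z`, and `h (τ^2 z) = (h τ^2) z = z` as `h τ^2 ∈ U`. So `h w = -w`. -/
def StC4 : Prop := ∀ (k Ω : Type u) [Field k] [CharZero k] [Field Ω] [Algebra k Ω]
  [IsAlgClosure k Ω] (f : (Ω ≃ₐ[k] Ω) → ℤ_[2]), Continuous f →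
  (∀ g h, (4 : ℤ_[2]) ∣ f (g * h) - (f g + f h)) → (∃ τ, ¬ ((2 : ℕ) : ℤ_[2]) ∣ f τ) →
  ∃ w : Ω, w ≠ 0 ∧ ∀ h : Ω ≃ₐ[k] Ω, ((4 : ℤ_[2]) ∣ f h → h w = w) ∧
    ((4 : ℤ_[2]) ∣ f h - 2 → h w = -w)

/-- LE (EASY-MEDIUM, from StDEX, StTE; compare `QD/I_LO.lean`). As in LO with `s'` from StDEX (`Dec Q s'`,
`Ex σ s'`): `(1 + tw g) θ h = (tw h - 1) θ g`, `tw g = 1 + 4 w`, `tw h = 1 + 4 w'` (TE): `(1 + 2 w) θ h =
2 w' θ g`, and `1 + 2 w` is a unit. -/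
def StLE : Prop := ∀ (F L : Type u) [Field F] [NumberField F] [Field L] [NumberField L]
  [Algebra F L] (ζ m : F) (x : L) (σ : L ≃ₐ[F] L), Cf F L 2 ζ m x σ →
  (∀ v ∈ Sp F 2, ¬ Lp F 2 v m) →
  ∀ (s : AlgebraicClosure L ≃ₐ[F] AlgebraicClosure L) (hs : Ex σ s) (r : ℤ), Even r →
  tw 2 r s = 1 → ∀ θ : GK L → ℤ_[2], SQ L (AlgebraicClosure L) 2 r θ →
  (∀ h, θ (cs hs h) = -θ h) → ∀ Q : Ideal (𝓞 (AlgebraicClosure L)), Q.IsPrime →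
  ((2 : ℕ) : 𝓞 (AlgebraicClosure L)) ∈ Q → ∀ h : GK L, Dec Q h → ((2 : ℕ) : ℤ_[2]) ∣ θ h

/-- BG (MEDIUM-HARD, from `PX.StKUM`, StFX, StC4, StTE, StLE). `ζ = -1`. Everything modulo `4`: `θ` is a homomorphism
modulo `4` (TE). KUM for `θ`: `u ≠ 0`, `h u = (-1)^(θ h) u`; FX (`θ (cs h) - θ h = -2 θ h`, `θ k = 0`): `A = u / d`,
`s A = A`, `A^2 = a ∈ F*`, `h A = (-1)^(θ h) A`. `G2 = {h ∈ GK L : 2 ∣ θ h}`. Let `θ τ` be odd. C4 for `k = L`: `w0 ≠ 0`,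
for `h ∈ G2`: `h w0 = w0` if `4 ∣ θ h`, `-w0` if `θ h = 2` modulo `4`; write `e h = ±1` for this sign, `h w0 = e(h) w0`.
(1) `s w0`: for `h ∈ G2`: `h (s w0) = s ((cs h) w0) = e(h) s w0` (`θ (cs h) = -θ h`). `ρ = s w0 / w0` is fixed by `G2`;
`s^2 w0 = k w0 = w0` (`θ k = 0`), so `ρ s ρ = 1`. There is `d0 ≠ 0`, fixed by `G2`, with `ρ s d0 = d0`: `d0 = 1 + ρ` if
`ρ ≠ -1` (`ρ (1 + s ρ) = ρ + 1`), `d0 = x` if `ρ = -1`. `w = w0 d0`: `s w = ρ w0 s d0 = w`, `h w = e(h) w` for `h ∈ G2`.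
(2) `ν = w τ w`: for `h ∈ G2`: `h (τ w) = τ ((τ⁻¹ h τ) w) = e(h) τ w` (`θ (τ⁻¹ h τ) = θ h` modulo `4`), so `h ν = ν`;
`τ^2 ∈ G2`, `e (τ^2) = -1` (`θ (τ^2) = 2 θ τ = 2` modulo `4`), `τ^2 w = -w`, so `τ ν = τ w (-w) = -ν`. Every `h ∈ GK L`
is in `G2` or in `τ G2`, and `τ A = -A`; so `ν / A` is fixed by `GK L`: `ν = A l`, `l ∈ L*`. (3) `τ' = s τ s⁻¹ ∈ GK L`,
`cs τ' = τ`, so `θ τ' = -θ τ`; `s (τ w) = τ' (s w) = τ' w`; `τ⁻¹ τ' ∈ G2`, `θ (τ⁻¹ τ') = -2 θ τ = 2` modulo `4`, so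
`τ' w = -τ w`. So `s ν = -ν`, `s l = -l`, `σ l = -l`, `l = x l2` with `l2 ∈ F*` (`Cf.hfix` for `l / x`).
(4) `γ = w^2`: fixed by `G2` and `s`; `τ γ = (τ w)^2`, fixed by `G2`; `s τ γ = τ γ`; `τ τ γ = γ`. So `γ + τ γ` and
`(γ - τ γ) / A` are fixed by `GK L` and `s`: `γ + τ γ = 2 g1`, `γ - τ γ = 2 g2 A` with `g1, g2 ∈ F`; `γ = g1 + g2 A`,
`τ γ = g1 - g2 A`, and `g1^2 - a g2^2 = γ τ γ = ν^2 = a l^2 = a m l2^2`: `a (g2^2 + m l2^2) = g1^2`. If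
`N = g2^2 + m l2^2 ≠ 0`: `a = (g1 g2 / N)^2 + m (g1 l2 / N)^2`. If `N = 0`: `-m = n^2`, `n = g2 / l2 ≠ 0`, and
`a = ((a + 1)/2)^2 - n^2 ((a - 1)/(2 n))^2`. `inr`: `θ h = 0`. `dec`: LE. `ne`: `θ τ` is odd. (Fixed by `GK L`: in `L`;
fixed by `s` too: in `F` by `Cf.hfix`.) -/
def StBG : Prop := ∀ (F L : Type u) [Field F] [NumberField F] [Field L] [NumberField L]
  [Algebra F L] (ζ m : F) (x : L) (σ : L ≃ₐ[F] L), Cf F L 2 ζ m x σ →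
  (∀ v ∈ Sp F 2, ¬ Lp F 2 v m) →
  ∀ (s : AlgebraicClosure L ≃ₐ[F] AlgebraicClosure L) (hs : Ex σ s) (k : GK L),
  (∀ y, k y = (s ^ 2) y) → ∀ r : ℤ, Even r → tw 2 r s = 1 →
  ∀ θ : GK L → ℤ_[2], SQ L (AlgebraicClosure L) 2 r θ →
  θ k = 0 → (∀ h, θ (cs hs h) = -θ h) → (∃ h, ¬ ((2 : ℕ) : ℤ_[2]) ∣ θ h) →
  ∃ (A : AlgebraicClosure L) (a : F), Be m A a

/-- SS (MEDIUM, from StC4). The element `E` generates a quadratic extension of `F` contained in a cyclic extension of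
degree `4`: `a` is a sum of two squares. `G2 = {g : 2 ∣ f g}` = the `g` with `g E = E`. `f τ` odd, `w` from C4;
`h w = e(h) w` for `h ∈ G2` (`e = 1` if `4 ∣ f h`, `-1` otherwise). `ν = w τ w`: as in BG (2) it is fixed by `G2`,
`τ ν = -ν`, `τ E = -E` (`g E = ±E`), so `ν / E` is fixed by all `g`: `ν = E l`, `l ∈ F*`. `γ = w^2`: fixed by `G2`;
`γ + τ γ` and `(γ - τ γ)/E` are fixed by all `g`: `γ = g1 + g2 E`, `τ γ = g1 - g2 E`, `g1, g2 ∈ F`, and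
`g1^2 - a g2^2 = ν^2 = a l^2`: `a (g2^2 + l^2) = g1^2`. If `N = g2^2 + l^2 ≠ 0`: `a = (g1 g2 / N)^2 + (g1 l / N)^2`.
If `N = 0`: `-1 = n^2`, `n = g2 / l`, and `a = ((a + 1)/2)^2 + (n (a - 1)/2)^2`. -/
def StSS : Prop := ∀ (k Ω : Type u) [Field k] [CharZero k] [Field Ω] [Algebra k Ω]
  [IsAlgClosure k Ω] (f : (Ω ≃ₐ[k] Ω) → ℤ_[2]), Continuous f →
  (∀ g h, (4 : ℤ_[2]) ∣ f (g * h) - (f g + f h)) → (∃ τ, ¬ ((2 : ℕ) : ℤ_[2]) ∣ f τ) →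
  ∀ (E : Ω) (a : k), a ≠ 0 → E ^ 2 = algebraMap k Ω a →
  (∀ g : Ω ≃ₐ[k] Ω, ((2 : ℕ) : ℤ_[2]) ∣ f g ↔ g E = E) → ∃ y z : k, a = y ^ 2 + z ^ 2

/-- QA (EASY). Symbols. `a` is not a square, so `q ≠ 0`, `z ≠ 0`; `-1 = (p/q)^2 - a (1/q)^2`,
`m = (y/z)^2 - a (1/z)^2`. The product: `-m = P^2 - a Q^2` with `P = (p y + a)/(q z)`, `Q = (p + y)/(q z)`.
`Q ≠ 0` (`-m` is not a square), so `a = (P/Q)^2 + m (1/Q)^2`. -/
def StQA : Prop := ∀ (F : Type u) [Field F] (a m : F), (∀ g : F, g ^ 2 ≠ a) →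
  (∀ g : F, g ^ 2 ≠ -m) → (∃ p q : F, a = p ^ 2 + q ^ 2) →
  (∃ y z : F, a = y ^ 2 - m * z ^ 2) → ∃ y z : F, a = y ^ 2 + m * z ^ 2

/-- BH (MEDIUM-HARD, from `PX.StKUM`, StFX, StLCT, StTE, StGX, StNM, StSS, StQA). `ζ = -1`. (1) KUM for `β` and FX
(`β (cs h) = β h`, `β k = 0`): `E = e / d`, `s E = E`, `E^2 = a ∈ F*`, `h E = (-1)^(β h) E` for `h ∈ GK L`. (2) KUM for
`θ`: `u`, `h u = (-1)^(θ h) u`. `h (s u) = s ((cs h) u) = (-1)^(θ (cs h)) s u`, so `s u / u` is multiplied by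
`(-1)^(θ h + θ (cs h)) = (-1)^(β h)` and `s u = E l u`, `l ∈ L*`. `u = k u = s^2 u = s E s l s u = E σ(l) E l u`
(`θ k = 0`), so `a l σ l = 1`: `a` is the norm of `l⁻¹`, and NM gives `a = y^2 - m z^2`. (3) Every `g ∈ Gal(Ω/F)` fixes
`x` or maps it to `-x`, so `g = h` or `g = s h` with `h ∈ GK L` (StGX, restriction of scalars); `tw g = tw h`, so
`2^m' ∣ tw g - 1`; let `f g` be the quotient. It is continuous (`‖f g - f h‖ = 2^m' ‖tw g - tw h‖`,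
`continuous_zpow_cyc`, compare `QD/I_BE.lean`), `f (g g') = f g + tw g f g'`, a homomorphism modulo `4` (TE), and `g E =
(-1)^(f g) E` (`f (s h) = β h`, `s E = E`). SS: `a = p^2 + q^2`. (4) `a` is not a square in `F` (some `β g` is odd, `g E
≠ E`), `-m` is not a square in `F` (else in `F_v` for `v` above `2`, `exists_prime_above`). QA: `nrm`. `inr`: `β h = 0`.
`dec`: `β h = θ (cs h) + θ h`, and `2` divides `θ (cs h) - θ h` (LCT). `ne`: some `β g` is odd. `A = E`. -/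
def StBH : Prop := ∀ (F L : Type u) [Field F] [NumberField F] [Field L] [NumberField L]
  [Algebra F L] (ζ m : F) (x : L) (σ : L ≃ₐ[F] L), Cf F L 2 ζ m x σ →
  (∀ v ∈ Sp F 2, ¬ Lp F 2 v m ∧ ¬ Lp F 2 v (-m)) →
  ∀ (s : AlgebraicClosure L ≃ₐ[F] AlgebraicClosure L) (hs : Ex σ s) (k : GK L),
  (∀ y, k y = (s ^ 2) y) → ∀ r : ℤ, Even r → tw 2 r s = 1 →
  ∀ (m' : ℕ) (β : GK L → ℤ_[2]), (∀ g, ((2 : ℕ) : ℤ_[2]) ^ m' * β g = tw 2 r g - 1) →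
  SQ L (AlgebraicClosure L) 2 r β → (∃ g, ¬ ((2 : ℕ) : ℤ_[2]) ∣ β g) → β k = 0 →
  (∀ h, β (cs hs h) = β h) → ∀ θ : GK L → ℤ_[2], SQ L (AlgebraicClosure L) 2 r θ →
  θ k = 0 → (∀ h, θ (cs hs h) + θ h = β h) → ∃ (A : AlgebraicClosure L) (a : F), Be m A a

/-- BI (EASY, copy of `QD/I_BC.lean`; from StBG, StBH, `PX.StSQM`). -/
def StBI : Prop := ∀ (F L : Type u) [Field F] [NumberField F] [Field L] [NumberField L]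
  [Algebra F L] (ζ m : F) (x : L) (σ : L ≃ₐ[F] L), Cf F L 2 ζ m x σ →
  (∀ v ∈ Sp F 2, ¬ Lp F 2 v m ∧ ¬ Lp F 2 v (-m)) →
  ∀ (s : AlgebraicClosure L ≃ₐ[F] AlgebraicClosure L) (hs : Ex σ s) (k : GK L),
  (∀ y, k y = (s ^ 2) y) → ∀ r : ℤ, Even r → tw 2 r s = 1 →
  ∀ (m' : ℕ) (β : GK L → ℤ_[2]), (∀ g, ((2 : ℕ) : ℤ_[2]) ^ m' * β g = tw 2 r g - 1) →
  SQ L (AlgebraicClosure L) 2 r β → (∃ g, ¬ ((2 : ℕ) : ℤ_[2]) ∣ β g) → β k = 0 →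
  (∀ h, β (cs hs h) = β h) → ∀ θ : GK L → ℤ_[2], SQ L (AlgebraicClosure L) 2 r θ →
  θ k = 0 → ∀ c : ℤ_[2], (∀ h, θ (cs hs h) + θ h = c * β h) →
  (∀ c' : ℤ_[2], ∃ g, ¬ ((2 : ℕ) : ℤ_[2]) ∣ θ g - c' * β g) →
  ∃ (A : AlgebraicClosure L) (a : F), Be m A a

/-- EXE (EASY, copy of `QD/I_EXS.lean` with StNE in place of StND; from StGX, `PX.StMUF`, StNE). -/
def StEXE : Prop := ∀ (F L : Type u) [Field F] [NumberField F] [Field L] [NumberField L]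
  [Algebra F L] (ζ m : F) (x : L) (σ : L ≃ₐ[F] L), Cf F L 2 ζ m x σ →
  ∀ r : ℤ, r ≠ 0 → ∀ φ : GK L → ℤ_[2], SH L (AlgebraicClosure L) 2 r φ →
  ∀ Ψ : (AlgebraicClosure L ≃ₐ[F] AlgebraicClosure L) → ℤ_[2], Continuous Ψ →
  (∀ g h, Ψ (g * h) = Ψ g + tw 2 r g * Ψ h) → (∀ h : GK L, Ψ (h.restrictScalars F) = φ h) →
  SH F (AlgebraicClosure L) 2 r Ψ

/-- IE (MEDIUM, copy of `QD/I_IH.lean` with StNE, StBF, StSG, StBI, StEXE in place of StND, StBE, StSF, StBC, StEXS;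
from `PX.StSHS`, StSG, StBF, StNE, `PX.StMUF`, StSEX, StKK, `PX.StTS`, `PX.StSQM`, StCH, StBI, StEXT, StEXE). -/
def StIE : Prop := ∀ (F L : Type u) [Field F] [NumberField F] [Field L] [NumberField L]
  [Algebra F L] (ζ m : F) (x : L) (σ : L ≃ₐ[F] L), Cf F L 2 ζ m x σ →
  (∀ v ∈ Sp F 2, ¬ Lp F 2 v m ∧ ¬ Lp F 2 v (-m)) →
  ∀ q : HeightOneSpectrum (𝓞 F), q ∉ Sp F 2 → ¬ Vd F 2 q m →
  ∀ r : ℤ, Even r → r ≠ 0 → Sha1 F 2 r (Sp F 2) = ⊥ →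
  ∀ S : Set (HeightOneSpectrum (𝓞 L)), (∀ v ∈ Sp L 2, v ∈ S) → Sha1 L 2 r S ≠ ⊥ →
  ∃ (A : AlgebraicClosure L) (a : F), Be m A a

/-- U1 (EASY-MEDIUM, copy of `PX/I_TR1.lean` for `p = 2`; or simplify `QD/I_T1.lean`; from StDEX, `PX.StLG`, StGX). -/
def StU1 : Prop := ∀ (F L : Type u) [Field F] [NumberField F] [Field L] [NumberField L]
  [Algebra F L] (ζ m : F) (x : L) (σ : L ≃ₐ[F] L), Cf F L 2 ζ m x σ →
  ∀ v ∈ Sp F 2, ¬ Lp F 2 v m → ∀ (A : AlgebraicClosure L) (a : F), Be m A a →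
  ∃ k : ℕ, Lp F 2 v (a * m ^ k)

/-- U2 (EASY, copy of `QD/I_T2.lean`; from `PX.StI1`, `PX.StI2`, StGX). -/
def StU2 : Prop := ∀ (F L : Type u) [Field F] [NumberField F] [Field L] [NumberField L]
  [Algebra F L] (ζ m : F) (x : L) (σ : L ≃ₐ[F] L), Cf F L 2 ζ m x σ →
  ∀ q : HeightOneSpectrum (𝓞 F), q ∉ Sp F 2 → Vd F 2 q m →
  ∀ (A : AlgebraicClosure L) (a : F), Be m A a → Vd F 2 q a

/-- UM (MEDIUM). The tame symbol, elementary. `q = (π)` with valuation `v`; `v(π^e N'') = e`, `v(m) = 1` (additive).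
`v(y^2)` is even and `v(m z^2)` is odd (or infinite), so `e = min(v(y^2), v(m z^2))`. If `e = 2 f`: `v(y) = f`,
`v(m z^2) > e`, and with `y = π^f y'`: `N'' = y'^2` modulo `π`. If `e = 2 f + 1`: `v(z) = f`, `z = π^f z'`,
`N'' = N z'^2` modulo `π`. (`y'`, `z'` are integral at `π`: congruent modulo `π` to elements of `𝓞 F`, compare
`PX/I_TAM.lean`.) So `N'' N^e` is congruent to `(N^f y')^2`, `(N^(f+1) z')^2`. -/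
def StUM : Prop := ∀ (F : Type u) [Field F] [NumberField F] (π N N'' : 𝓞 F) (e : ℕ) (y z : F),
  Prime π → ¬ π ∣ N → ¬ π ∣ N'' →
  ((π ^ e * N'' : 𝓞 F) : F) = y ^ 2 + ((π * N : 𝓞 F) : F) * z ^ 2 →
  ∃ u : 𝓞 F, π ∣ u ^ 2 - N'' * N ^ e

/-- UT (MEDIUM, from `PX.StHEN`). `q(a) = exp(-α)`, `q(m) = exp(-μ)`, `μ` odd. Choose `k ∈ {0, 1}` with `α + k μ` even
and `g ∈ F*` with `q(g)^2 = q(a m^k)`; `u = a m^k / g^2`, `q(u) = 1`. `a m^k = Y^2 + m Z^2` (`m (y^2 + m z^2) =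
(m z)^2 + m y^2`), so `u = Y'^2 + m Z'^2`, `q(Y'^2)` is an even, `q(m Z'^2)` an odd power of `exp 1` (or `0`), so
`q(Y') = 1`, `q(m Z'^2) < 1`. Choose `z ∈ 𝓞 F` congruent to `Y'` modulo `q`: `q(u - z^2) < 1`. HEN: `Lp u`. -/
def StUT : Prop := ∀ (F : Type u) [Field F] [NumberField F] (m : F) (q : HeightOneSpectrum (𝓞 F)),
  m ≠ 0 → q ∉ Sp F 2 → ¬ Vd F 2 q m → ∀ a y z : F, a ≠ 0 → a = y ^ 2 + m * z ^ 2 →
  ∃ k : ℕ, Lp F 2 q (a * m ^ k)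

/-- DE (MEDIUM, assembly, compare `QD/I_DT.lean`; from StCFG, StIE, StU1, StU2, StUM, StUT). `m = -(Mq n0 π)`,
`L = F(√m)`. `i0 : Fin t`, `q0 = (π_(i0))`, `q0(m)` is odd, so `m` is not a square in `F`; CFG and IE give `σ`, `A`, `a`.
`loc`: `v` above `2`: U1; `v` not above `2`, `¬ Vd F 2 v n0`: `v(m) = v(n0)`, UT (`Be.nrm`): `Lp (a m^k)`,
`m^k = (Mq n0 π)^k (-1)^k`. `nrm`: `Be.nrm`, `a = y^2 - (Mq n0 π) z^2`. `val`: `q(m) = q(n0)`, U2. `non`: `-(Mq n0 π) = m`;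
if `a = m^j g^2` then `A = ±x^j g ∈ L`, against `Be.ne`. `tam`: `a m^j g^2 = Y^2 + m Z^2` (closed under multiplication by
`m` and by squares); for every `k`: `m = π_k N`, `N = -(n0 ∏_(i≠k) π_i)`, `D ∏ π_i^(e_i) = π_k^(e_k) N''`, UM. -/
def StDE : Prop := ∀ (F : Type u) [Field F] [NumberField F] (t : ℕ) (n0 : 𝓞 F)
  (π : Fin t → 𝓞 F), 1 ≤ t → n0 ≠ 0 → (∀ i, Prime (π i)) →
  (∀ i, ¬ π i ∣ ((2 : ℕ) : 𝓞 F)) → (∀ i k, Associated (π i) (π k) → i = k) →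
  (∀ i, ¬ π i ∣ n0) →
  (∀ v ∈ Sp F 2, ¬ Lp F 2 v (Mq n0 π : F) ∧ ¬ Lp F 2 v (-(Mq n0 π : F))) →
  ∀ (L : Type u) [Field L] [NumberField L] [Algebra F L] (x : L), Module.finrank F L = 2 →
  x ^ 2 = algebraMap F L (-(Mq n0 π : F)) → ∀ r : ℤ, Even r → r ≠ 0 →
  Sha1 F 2 r (Sp F 2) = ⊥ →
  ∀ S : Set (HeightOneSpectrum (𝓞 L)), (∀ v ∈ Sp L 2, v ∈ S) → Sha1 L 2 r S ≠ ⊥ →
  ∃ a : F, Dq n0 π a

/-- Schneider's conjecture at `2` for all even twists `r ≠ 0` is inherited by `F(√(-m))`, `m = n0 ∏ π_i`. -/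
def Ge {F : Type u} [Field F] [NumberField F] {t : ℕ} (n0 : 𝓞 F) (π : Fin t → 𝓞 F) : Prop :=
  ∀ (L : Type u) [Field L] [NumberField L] [Algebra F L] (x : L), Module.finrank F L = 2 →
    x ^ 2 = algebraMap F L (-(Mq n0 π : F)) → ∀ r : ℤ, Even r → r ≠ 0 →
    Sha1 F 2 r (Sp F 2) = ⊥ →
    ∀ S : Set (HeightOneSpectrum (𝓞 L)), (∀ v ∈ Sp L 2, v ∈ S) → Sha1 L 2 r S = ⊥

/-- RF (EASY, copy of `QD/I_RS.lean` with StDE, `Ge` in place of StDT, `Gd`; from StDE, StR1, StR2, StR3, StLQ). -/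
def StRF : Prop := ∀ (F : Type u) [Field F] [NumberField F] (ind : 𝓞 F → 𝓞 F → ZMod 2),
  Sym F 2 ind → ∀ (t : ℕ) (n0 : 𝓞 F) (x π : Fin t → 𝓞 F), Cq n0 x π →
  ∀ R : Finset ((Fin t → ZMod 2) × 𝓞 F), (∀ a ∈ R, ∀ k, ¬ π k ∣ a.2) →
  (∀ (e : Fin t → ZMod 2) (D : 𝓞 F), (∃ i k, e i ≠ e k) →
    Wq n0 x e D → ∃ d, (e, d) ∈ R ∧ Eqv 2 D d) → ¬ Ge n0 π →
  ∃ T : Finset ((Fin t → ZMod 2) × 𝓞 F), T.card = 2 ∧ ∀ a ∈ T, a ∈ R ∧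
    (∃ i k, a.1 i ≠ a.1 k) ∧
    ∀ k, ∑ i ∈ Finset.univ.erase k, (a.1 i - a.1 k) * ind (π k) (π i) =
      -(ind (π k) a.2 - a.1 k * ind (π k) (-n0))

open Classical in
/-- CE (EASY, copy of `QD/I_CN.lean` with StRF, `Ge` in place of StRS, `Gd`; from `PX.StIND`, StRF, `PX.StFMO`,
`PX.StEXC`). -/
def StCE : Prop := ∀ (F : Type u) [Field F] [NumberField F], 2 ≤ Module.finrank ℚ F →
  ∀ (t : ℕ) (n0 : 𝓞 F) (x : Fin t → 𝓞 F), 1 ≤ t → n0 ≠ 0 → (∀ i, x i ≠ 0) →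
  (∀ v ∈ Sp F 2, ¬ Lp F 2 v (Mq n0 x : F) ∧ ¬ Lp F 2 v (-(Mq n0 x : F))) →
  ∀ R : Finset ((Fin t → ZMod 2) × 𝓞 F), (∀ a ∈ R, a.2 ≠ 0) →
  (∀ (e : Fin t → ZMod 2) (D : 𝓞 F), (∃ i k, e i ≠ e k) →
    Wq n0 x e D → ∃ d, (e, d) ∈ R ∧ Eqv 2 D d) → ∀ ε : ℝ, 0 < ε →
  ∃ X0 : ℕ, ∀ X : ℕ, X0 ≤ X → ∀ P : Fin t → Finset (𝓞 F), (∀ i, Adm F 2 X (P i)) →
  (∀ i, (X : ℝ) ^ ((Module.finrank ℚ F : ℝ) - 1 / 4) ≤ (P i).card) →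
  (∀ i, ∀ z ∈ P i, ∀ v ∈ TT F 2 n0, ∃ y : v.adicCompletion F,
    algebraMap F (v.adicCompletion F) (z : F) =
      algebraMap F (v.adicCompletion F) (x i : F) * y ^ 2) →
  (∀ i, ∀ z ∈ P i, ∀ s : F →+* ℝ, 0 < s (z : F) * s (x i : F)) →
  (∀ d : 𝓞 F, Wq n0 x 0 d → (∃ g : 𝓞 F, g ^ 2 = d) ∨
    ∃ i, ∀ z ∈ P i, ¬ z ∣ d → ¬ ∃ y : 𝓞 F, z ∣ y ^ 2 - d) →
  (((Fintype.piFinset P).filter (fun π => ¬ Ge n0 π)).card : ℝ) ≤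
    ((R.card : ℝ) / (2 : ℝ) ^ t + ε) * ∏ i, ((P i).card : ℝ)

end Pool.Agent.Work.MP_59f3ad_nt.QD
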