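import Mathlib
import Pool.Agent.Work.MP_59f3ad_nt.QD.StmtsE
import Pool.Agent.Work.MP_59f3ad_nt.PX.I_BET

/-!
Block QD, item BF: `χ^r - 1` divided by the largest possible power of `2`.
-/

set_option autoImplicit false

open NumberField IsDedekindDomain

namespace Pool.Agent.Work.MP_59f3ad_nt.QD

open Pool.Agent.Work.MP_59f3ad_nt.FE
open Pool.Agent.Work.MP_59f3ad_nt.PX

universe u

open IBET in
/-- item BF -/
theorem pr_BF (hNE : StNE.{u}) (hMUF : PX.StMUF.{u}) : StBF.{u} := by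
  intro K _ _ r hr
  classical
  obtain ⟨Q, hQ1, hQ2⟩ := exQ K 2
  obtain ⟨h0, -, hh0⟩ := hNE K r hr Q hQ1 hQ2
  have hp0 : ((2 : ℕ) : ℤ_[2]) ≠ 0 := by
    exact_mod_cast (Fact.out : Nat.Prime 2).ne_zero
  have hex : ∃ m : ℕ, ∃ g : GK K, ¬ ((2 : ℕ) : ℤ_[2]) ^ (m + 1) ∣ tw 2 r g - 1 := by
    obtain ⟨n, hn⟩ := exn 2 (tw 2 r h0 - 1) (sub_ne_zero.mpr hh0)
    exact ⟨n, h0, hn⟩
  obtain ⟨g0, hg0⟩ := Nat.find_spec hex
  set m : ℕ := Nat.find hex with hm
  have hdiv : ∀ g : GK K, ((2 : ℕ) : ℤ_[2]) ^ m ∣ tw 2 r g - 1 := by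
    intro g
    rcases Nat.eq_zero_or_pos m with h1 | h1
    · rw [h1, pow_zero]
      exact one_dvd _
    · by_contra hc
      have h2 : m - 1 < Nat.find hex := by omega
      apply Nat.find_min hex h2
      refine ⟨g, ?_⟩
      rw [Nat.sub_add_cancel h1]
      exact hc
  choose β hβ using hdiv
  have hpm : ((2 : ℕ) : ℤ_[2]) ^ m ≠ 0 := pow_ne_zero _ hp0
  refine ⟨m, β, fun g => (hβ g).symm, ⟨g0, ?_⟩, ?_, ?_, ?_, ?_⟩
  · rintro ⟨c, hc⟩
    apply hg0
    refine ⟨c, ?_⟩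
    rw [hβ g0, hc]
    ring
  · -- continuity
    have h1 : Continuous fun g : GK K => ((β g : ℤ_[2]) : ℚ_[2]) := by
      have h2 : (fun g : GK K => ((β g : ℤ_[2]) : ℚ_[2])) =
          fun g : GK K => (((tw 2 r g : ℤ_[2]) : ℚ_[2]) - 1) / (((2 : ℕ) : ℚ_[2]) ^ m) := by
        funext g
        have h3 : (((2 : ℕ) : ℚ_[2]) ^ m) ≠ 0 := by
          apply pow_ne_zero
          exact_mod_cast (Fact.out : Nat.Prime 2).ne_zero
        rw [eq_div_iff h3]
        have h4 := congrArg (fun x : ℤ_[2] => (x : ℚ_[2])) (hβ g)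
        simp only [PadicInt.coe_sub, PadicInt.coe_one, PadicInt.coe_mul, PadicInt.coe_pow,
          PadicInt.coe_natCast] at h4
        rw [h4]
        ring
      rw [h2]
      exact ((continuous_subtype_val.comp (cont_tw K 2 r)).sub continuous_const).div_const _
    exact Continuous.subtype_mk h1 _
  · intro g h
    apply mul_left_cancel₀ hpm
    rw [← hβ, tw_mul, mul_add, ← hβ, mul_left_comm, ← hβ]
    ring
  · intro Q' hQ' hpQ' h hh
    have h1 := hβ h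
    rw [hMUF K (AlgebraicClosure K) 2 Q' hQ' hpQ' h hh r, sub_self] at h1
    exact (mul_eq_zero.mp h1.symm).resolve_left hpm
  · intro Q' _ _
    refine ⟨m, 1, fun h _ => ?_⟩
    rw [mul_one, hβ]

end Pool.Agent.Work.MP_59f3ad_nt.QD
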