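import Mathlib
import Pool.Agent.Work.MP_59f3ad_nt.QD.StmtsE

/-!
Block QD, item BH: even twists, the case of a class `θ` with `θ ∘ cs + θ = β`.
-/

set_option autoImplicit false

open NumberField IsDedekindDomain

namespace Pool.Agent.Work.MP_59f3ad_nt.QD

open Pool.Agent.Work.MP_59f3ad_nt.FE
open Pool.Agent.Work.MP_59f3ad_nt.PX

universe u

namespace IBH

theorem isAlg (F L : Type u) [Field F] [NumberField F] [Field L] [NumberField L] [Algebra F L] :
    IsAlgClosure F (AlgebraicClosure L) := by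
  have : Algebra.IsAlgebraic F L := Algebra.IsAlgebraic.tower_top (K := ℚ) F
  have : Algebra.IsAlgebraic F (AlgebraicClosure L) := Algebra.IsAlgebraic.trans F L _
  exact ⟨inferInstance, inferInstance⟩

theorem exists_above (F : Type u) [Field F] [NumberField F] :
    ∃ v : HeightOneSpectrum (𝓞 F), v ∈ Sp F 2 := by
  have hpu : ¬ IsUnit ((2 : ℕ) : 𝓞 F) := by
    intro h
    have h1 := (Ideal.absNorm_eq_one_iff (I := Ideal.span {((2 : ℕ) : 𝓞 F)})).mpr
      (Ideal.span_singleton_eq_top.mpr h)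
    rw [Ideal.absNorm_span_natCast] at h1
    have h2 : 0 < Module.finrank ℤ (𝓞 F) := Module.finrank_pos
    exact absurd ((Nat.pow_eq_one.mp h1).resolve_right h2.ne') (by norm_num)
  obtain ⟨M, hM, hle⟩ := Ideal.exists_le_maximal (Ideal.span {((2 : ℕ) : 𝓞 F)})
    (fun h => hpu (Ideal.span_singleton_eq_top.mp h))
  have hmem : ((2 : ℕ) : 𝓞 F) ∈ M := hle (Ideal.mem_span_singleton_self _)
  have h20 : ((2 : ℕ) : 𝓞 F) ≠ 0 := by
    exact_mod_cast (two_ne_zero : (2 : 𝓞 F) ≠ 0)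
  refine ⟨⟨M, hM.isPrime, ?_⟩, hmem⟩
  rintro rfl
  exact h20 ((Submodule.mem_bot _).mp hmem)

theorem toZMod_even {t : ℤ_[2]} (h : ((2 : ℕ) : ℤ_[2]) ∣ t) : (PadicInt.toZMod t).val = 0 := by
  obtain ⟨b, hb⟩ := h
  rw [hb, map_mul, map_natCast, ZMod.natCast_self, zero_mul, ZMod.val_zero]

theorem toZMod_odd {t : ℤ_[2]} (h : ¬ ((2 : ℕ) : ℤ_[2]) ∣ t) : (PadicInt.toZMod t).val = 1 := by
  have h1 : PadicInt.toZMod t ≠ 0 := by
    intro h0
    have h2 : t ∈ RingHom.ker (PadicInt.toZMod : ℤ_[2] →+* ZMod 2) := h0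
    rw [PadicInt.ker_toZMod, PadicInt.maximalIdeal_eq_span_p, Ideal.mem_span_singleton] at h2
    exact h h2
  have h3 : (PadicInt.toZMod t).val < 2 := ZMod.val_lt _
  have h4 : (PadicInt.toZMod t).val ≠ 0 := by
    intro h0
    exact h1 ((ZMod.val_eq_zero _).1 h0)
  omega

/-- The parity of a sum. -/
theorem odd_add {a b : ℤ_[2]} (ha : ¬ ((2 : ℕ) : ℤ_[2]) ∣ a) (hb : ¬ ((2 : ℕ) : ℤ_[2]) ∣ b) :
    ((2 : ℕ) : ℤ_[2]) ∣ a + b := by
  have h1 : PadicInt.toZMod (a + b) = 0 := by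
    have e1 : ((PadicInt.toZMod a).val : ZMod 2) = PadicInt.toZMod a := ZMod.natCast_zmod_val _
    have e2 : ((PadicInt.toZMod b).val : ZMod 2) = PadicInt.toZMod b := ZMod.natCast_zmod_val _
    rw [map_add, ← e1, ← e2, toZMod_odd ha, toZMod_odd hb]
    decide
  have h2 : a + b ∈ RingHom.ker (PadicInt.toZMod : ℤ_[2] →+* ZMod 2) := h1
  rw [PadicInt.ker_toZMod, PadicInt.maximalIdeal_eq_span_p, Ideal.mem_span_singleton] at h2
  exact h2

theorem fixed_mem {L : Type u} [Field L] [NumberField L] {x : AlgebraicClosure L}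
    (h : ∀ g : GK L, g x = x) : ∃ y : L, x = algebraMap L (AlgebraicClosure L) y := by
  obtain ⟨y, hy⟩ := (InfiniteGalois.mem_range_algebraMap_iff_fixed x).2 h
  exact ⟨y, hy.symm⟩

end IBH

open IBH in
theorem pr_BH (hKUM : PX.StKUM.{u}) (hFX : StFX.{u}) (hLCT : StLCT.{u}) (hTE : StTE.{u})
    (hGX : StGX.{u}) (hNM : StNM.{u}) (hSS : StSS.{u}) (hQA : StQA.{u}) (hEXT : StEXT.{u}) :
    StBH.{u} := by
  intro F L _ _ _ _ _ ζ m x σ hC hlp s hs k hk r hr hsr m' β hβm hβ hβ1 hβk hβc θ hθ hθk hθβ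
  have hζ : ζ = -1 := hC.hζ.eq_neg_one_of_two_right
  have hcl := isAlg F L
  have hpL : IsPrimitiveRoot (algebraMap F L ζ) 2 :=
    hC.hζ.map_of_injective (algebraMap F L).injective
  have h4 : ∀ t : ℤ_[2], (4 : ℤ_[2]) ∣ t → ((2 : ℕ) : ℤ_[2]) ∣ t := by
    intro t ht
    refine Dvd.dvd.trans ⟨2, ?_⟩ ht
    push_cast
    norm_num
  -- Kummer elements
  have kum : ∀ f : GK L → ℤ_[2], Continuous f →
      (∀ g h, f (g * h) = f g + tw 2 r g * f h) → ∃ u : AlgebraicClosure L, u ≠ 0 ∧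
      (∀ h : GK L, h u = algebraMap F (AlgebraicClosure L) (ζ ^ (PadicInt.toZMod (f h)).val) * u) ∧
      ∀ h : GK L, (((2 : ℕ) : ℤ_[2]) ∣ f h → h u = u) ∧ (¬ ((2 : ℕ) : ℤ_[2]) ∣ f h → h u = -u) := by
    intro f hf hfm
    obtain ⟨u, hu0, hu⟩ := hKUM L 2 (algebraMap F L ζ) hpL f hf (by
      intro g h
      have h1 : f (g * h) - (f g + f h) = (tw 2 r g - 1) * f h := by rw [hfm]; ring
      rw [h1]
      exact Dvd.dvd.mul_right (h4 _ (hTE L (AlgebraicClosure L) r hr g)) _)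
    have hu' : ∀ h : GK L,
        h u = algebraMap F (AlgebraicClosure L) (ζ ^ (PadicInt.toZMod (f h)).val) * u := by
      intro h
      rw [hu h, ← map_pow, ← IsScalarTower.algebraMap_apply F L (AlgebraicClosure L)]
    refine ⟨u, hu0, hu', fun h => ⟨fun h1 => ?_, fun h1 => ?_⟩⟩
    · rw [hu' h, toZMod_even h1, pow_zero, map_one, one_mul]
    · rw [hu' h, toZMod_odd h1, pow_one, hζ, map_neg, map_one, neg_one_mul]
  -- (1)
  obtain ⟨e0, he0, heK, heP⟩ := kum β hβ.cont hβ.mul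
  obtain ⟨d, a, hd0, ha0, hsE, hE2⟩ := hFX F L 2 ζ m x σ hC s hs k hk β
    (fun h => by rw [hβc h, sub_self]; exact dvd_zero _) (by rw [hβk]; exact dvd_zero _) e0 he0 heK
  obtain ⟨E, hE⟩ : ∃ E, E = e0 / algebraMap L (AlgebraicClosure L) d := ⟨_, rfl⟩
  rw [← hE] at hsE hE2
  have hdΩ : algebraMap L (AlgebraicClosure L) d ≠ 0 := by
    rw [Ne, map_eq_zero]
    exact hd0
  have hE0 : E ≠ 0 := by
    rw [hE]
    exact div_ne_zero he0 hdΩ
  have hEe : ∀ h : GK L, ((2 : ℕ) : ℤ_[2]) ∣ β h → h E = E := by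
    intro h h1
    rw [hE, map_div₀, (heP h).1 h1, AlgEquiv.commutes]
  have hEo : ∀ h : GK L, ¬ ((2 : ℕ) : ℤ_[2]) ∣ β h → h E = -E := by
    intro h h1
    rw [hE, map_div₀, (heP h).2 h1, AlgEquiv.commutes, neg_div]
  have hEne : -E ≠ E := by
    intro h
    have h1 : (2 : AlgebraicClosure L) * E = 0 := by linear_combination -h
    exact mul_ne_zero two_ne_zero hE0 h1
  obtain ⟨g0, hg0⟩ := hβ1
  -- (2)
  obtain ⟨u, hu0, -, huP⟩ := kum θ hθ.cont hθ.mul
  have hsu0 : s u ≠ 0 := by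
    rw [Ne, map_eq_zero]
    exact hu0
  have hscs : ∀ h : GK L, h (s u) = s (cs hs h u) := by
    intro h
    rw [cs_apply]
    exact (s.apply_symm_apply _).symm
  obtain ⟨l, hl⟩ := fixed_mem (L := L) (x := s u / (E * u)) (by
    intro h
    have hsum := hθβ h
    rw [map_div₀, map_mul, hscs h]
    by_cases h1 : ((2 : ℕ) : ℤ_[2]) ∣ θ h <;> by_cases h2 : ((2 : ℕ) : ℤ_[2]) ∣ θ (cs hs h)
    · rw [(huP (cs hs h)).1 h2, (huP h).1 h1, hEe h (by rw [← hsum]; exact dvd_add h2 h1)]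
    · have h3 : ¬ ((2 : ℕ) : ℤ_[2]) ∣ β h := by
        intro h3
        rw [← hsum] at h3
        exact h2 ((dvd_add_left h1).1 h3)
      rw [(huP (cs hs h)).2 h2, (huP h).1 h1, hEo h h3, map_neg, neg_mul, neg_div_neg_eq]
    · have h3 : ¬ ((2 : ℕ) : ℤ_[2]) ∣ β h := by
        intro h3
        rw [← hsum] at h3
        exact h1 ((dvd_add_right h2).1 h3)
      rw [(huP (cs hs h)).1 h2, (huP h).2 h1, hEo h h3, neg_mul_neg]
    · rw [(huP (cs hs h)).2 h2, (huP h).2 h1, hEe h (by rw [← hsum]; exact odd_add h2 h1),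
        map_neg, mul_neg, neg_div_neg_eq])
  have hsu : s u = E * algebraMap L (AlgebraicClosure L) l * u := by
    rw [← hl]
    field_simp
  have hl0 : l ≠ 0 := by
    rintro rfl
    rw [map_zero, mul_zero, zero_mul] at hsu
    exact hsu0 hsu
  have hssu : s (s u) = u := by
    have e2 := hk u
    rw [(huP k).1 (by rw [hθk]; exact dvd_zero _), pow_two, AlgEquiv.mul_apply] at e2
    exact e2.symm
  have hal : algebraMap F L a * (l * σ l) = 1 := by
    apply (algebraMap L (AlgebraicClosure L)).injective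
    rw [map_mul, map_mul, map_one, ← IsScalarTower.algebraMap_apply F L (AlgebraicClosure L),
      ← hE2, ← hs l]
    have h1 : s (s u) = E * s (algebraMap L (AlgebraicClosure L) l) *
        (E * algebraMap L (AlgebraicClosure L) l * u) := by
      conv_lhs => rw [hsu]
      rw [map_mul, map_mul, hsE, hsu]
    rw [hssu] at h1
    apply mul_right_cancel₀ hu0
    rw [one_mul]
    conv_rhs => rw [h1]
    ring
  obtain ⟨y1, z1, hyz⟩ := hNM F L ζ m x σ hC a l⁻¹ (by
    rw [map_inv₀]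
    have hσl : σ l ≠ 0 := by
      rw [Ne, map_eq_zero]
      exact hl0
    field_simp
    linear_combination -hal)
  -- (3)
  obtain ⟨Ψ, hΨc, hΨm, hΨr⟩ := hEXT F L 2 ζ m x σ hC s hs k hk r hsr β hβ.cont hβ.mul hβc hβk
  have hΨs : Ψ s = 0 := by
    have h1 : s * s = k.restrictScalars F := by
      ext y
      have := hk y
      rw [pow_two] at this
      exact this.symm
    have h2 := hΨm s s
    rw [h1, hΨr k, hβk, hsr, one_mul] at h2
    have h3 : (2 : ℤ_[2]) * Ψ s = 0 := by linear_combination -h2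
    exact (mul_eq_zero.1 h3).resolve_left two_ne_zero
  have hx0 : x ≠ 0 := by
    rintro rfl
    have h1 := hC.hx
    rw [zero_pow two_ne_zero] at h1
    exact hC.hm ((map_eq_zero _).1 h1.symm)
  have hsx : s (algebraMap L (AlgebraicClosure L) x) = -algebraMap L (AlgebraicClosure L) x := by
    rw [hs x, hC.hσ, hζ, map_neg, map_one, neg_one_mul, map_neg]
  -- the two cosets
  have hcos : ∀ g : AlgebraicClosure L ≃ₐ[F] AlgebraicClosure L,
      ∃ h : GK L, Ψ g = β h ∧ g E = h E := by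
    intro g
    have hgx2 : g (algebraMap L (AlgebraicClosure L) x) ^ 2 =
        algebraMap L (AlgebraicClosure L) x ^ 2 := by
      rw [← map_pow, ← map_pow, hC.hx, ← IsScalarTower.algebraMap_apply F L (AlgebraicClosure L),
        AlgEquiv.commutes]
    rcases sq_eq_sq_iff_eq_or_eq_neg.1 hgx2 with h1 | h1
    · obtain ⟨h, hh⟩ := (hGX F L 2 ζ m x σ hC).2.1 g h1
      refine ⟨h, ?_, (hh E).symm⟩
      rw [← hΨr h]
      congr 1
      ext y
      exact (hh y).symm
    · have h2 : (s⁻¹ * g) (algebraMap L (AlgebraicClosure L) x) =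
          algebraMap L (AlgebraicClosure L) x := by
        rw [AlgEquiv.mul_apply, h1]
        have h3 : -algebraMap L (AlgebraicClosure L) x =
            s (algebraMap L (AlgebraicClosure L) x) := hsx.symm
        rw [h3]
        exact s.symm_apply_apply _
      obtain ⟨h, hh⟩ := (hGX F L 2 ζ m x σ hC).2.1 (s⁻¹ * g) h2
      have h4 : g = s * h.restrictScalars F := by
        ext y
        have h5 : h y = s.symm (g y) := hh y
        show g y = s (h y)
        rw [h5]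
        exact (s.apply_symm_apply _).symm
      refine ⟨h, ?_, ?_⟩
      · rw [h4, hΨm, hΨr, hΨs, hsr, one_mul, zero_add]
      · rw [h4]
        show s (h E) = h E
        by_cases h5 : ((2 : ℕ) : ℤ_[2]) ∣ β h
        · rw [hEe h h5, hsE]
        · rw [hEo h h5, map_neg, hsE]
  obtain ⟨p1, q1, hpq⟩ := hSS F (AlgebraicClosure L) Ψ hΨc
    (by
      intro g h
      have h1 : Ψ (g * h) - (Ψ g + Ψ h) = (tw 2 r g - 1) * Ψ h := by rw [hΨm]; ring
      rw [h1]
      exact Dvd.dvd.mul_right (hTE F (AlgebraicClosure L) r hr g) _)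
    ⟨g0.restrictScalars F, by rw [hΨr]; exact hg0⟩ E a ha0 hE2
    (by
      intro g
      obtain ⟨h, h1, h2⟩ := hcos g
      rw [h1, h2]
      constructor
      · exact hEe h
      · intro h3
        by_contra h5
        rw [hEo h h5] at h3
        exact hEne h3)
  -- (4)
  have hasq : ∀ g : F, g ^ 2 ≠ a := by
    intro g hg
    have h1 : E ^ 2 = (algebraMap F (AlgebraicClosure L) g) ^ 2 := by
      rw [hE2, ← hg, map_pow]
    have h2 : g0 E = E := by
      have h3 : ∀ w : F, g0 (algebraMap F (AlgebraicClosure L) w) =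
          algebraMap F (AlgebraicClosure L) w := by
        intro w
        rw [IsScalarTower.algebraMap_apply F L (AlgebraicClosure L), AlgEquiv.commutes]
      rcases sq_eq_sq_iff_eq_or_eq_neg.1 h1 with h4 | h4
      · rw [h4, h3]
      · rw [h4, map_neg, h3]
    rw [hEo g0 hg0] at h2
    exact hEne h2
  have hmsq : ∀ g : F, g ^ 2 ≠ -m := by
    intro g hg
    obtain ⟨v, hv⟩ := exists_above F
    refine (hlp v hv).2 ⟨algebraMap F (v.adicCompletion F) g, ?_⟩
    rw [← map_pow, hg]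
  refine ⟨E, a, ha0, hE2, ?_, ?_, ?_, ⟨g0, ?_⟩⟩
  · exact hQA F a m hasq hmsq ⟨p1, q1, hpq⟩ ⟨y1, z1, hyz⟩
  · intro Q hQ h2 h hh
    refine hEe h ?_
    rw [hβ.inr Q hQ h2 h hh]
    exact dvd_zero _
  · intro Q hQ h2 h hh
    refine hEe h ?_
    have h3 := hLCT F L 2 ζ m x σ hC (fun v hv => (hlp v hv).1) s hs r θ hθ Q hQ h2 h hh
    have e : β h = (θ (cs hs h) - θ h) + ((2 : ℕ) : ℤ_[2]) * θ h := by
      rw [← hθβ h]
      push_cast
      ring
    rw [e]
    exact dvd_add h3 (dvd_mul_right _ _)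
  · rw [hEo g0 hg0]
    exact hEne

end Pool.Agent.Work.MP_59f3ad_nt.QD
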