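import Pool.Agent.Work.MP_59f3ad_nt.QD.StmtsE

/-!
# MP_59f3ad_nt, block QD, item BI: both parities of `c`, even twists
-/

set_option autoImplicit false

open NumberField IsDedekindDomain

namespace Pool.Agent.Work.MP_59f3ad_nt.QD

open Pool.Agent.Work.MP_59f3ad_nt.FE
open Pool.Agent.Work.MP_59f3ad_nt.PX

universe u

namespace IBI

theorem isUnit_of_not_dvd {b : ℤ_[2]} (h : ¬ ((2 : ℕ) : ℤ_[2]) ∣ b) : IsUnit b := by
  rw [PadicInt.isUnit_iff]
  by_contra hne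
  exact h (PadicInt.norm_lt_one_iff_dvd b |>.1 (lt_of_le_of_ne (PadicInt.norm_le_one b) hne))

end IBI

open IBI in
theorem pr_BI (hBG : StBG.{u}) (hBH : StBH.{u}) (hSQM : PX.StSQM.{u}) : StBI.{u} := by
  intro F L _ _ _ _ _ ζ m x σ hCf hloc s hs k hk r hr hts m' β hβ0 hβ hβu hβk hβs θ hθ hθk c hc hne
  obtain ⟨⟨A, hA, -⟩, -, -⟩ := hSQM L 2 r
  have hβA : β ∈ A := (hA β).2 hβ
  have hθA : θ ∈ A := (hA θ).2 hθ
  by_cases hd : ((2 : ℕ) : ℤ_[2]) ∣ c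
  · obtain ⟨c', rfl⟩ := hd
    have hθ' : SQ L (AlgebraicClosure L) 2 r (θ - c' • β) :=
      (hA _).1 (A.sub_mem hθA (A.smul_mem c' hβA))
    refine hBG F L ζ m x σ hCf (fun v hv => (hloc v hv).1) s hs k hk r hr hts (θ - c' • β) hθ' ?_ ?_ ?_
    · simp [hθk, hβk]
    · intro h
      have h1 := hc h
      simp only [Pi.sub_apply, Pi.smul_apply, smul_eq_mul]
      rw [hβs h]
      push_cast at h1
      linear_combination h1
    · obtain ⟨g, hg⟩ := hne c'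
      exact ⟨g, by simpa only [Pi.sub_apply, Pi.smul_apply, smul_eq_mul] using hg⟩
  · obtain ⟨w, hw⟩ := isUnit_of_not_dvd hd
    have hθ' : SQ L (AlgebraicClosure L) 2 r ((↑w⁻¹ : ℤ_[2]) • θ) :=
      (hA _).1 (A.smul_mem _ hθA)
    refine hBH F L ζ m x σ hCf hloc s hs k hk r hr hts m' β hβ0 hβ hβu hβk hβs
      ((↑w⁻¹ : ℤ_[2]) • θ) hθ' ?_ ?_
    · simp [hθk]
    · intro h
      have h1 := hc h
      have h2 : (↑w⁻¹ : ℤ_[2]) * c = 1 := by rw [← hw]; exact w.inv_mul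
      simp only [Pi.smul_apply, smul_eq_mul]
      rw [← mul_add, h1, ← mul_assoc, h2, one_mul]

end Pool.Agent.Work.MP_59f3ad_nt.QD
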