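import Mathlib
import Pool.Agent.Work.MP_59f3ad_nt.QD.StmtsE

/-!
Block QD, item C4: the quartic extension cut out by a cocycle modulo `4`.
-/

set_option autoImplicit false

open NumberField IsDedekindDomain

namespace Pool.Agent.Work.MP_59f3ad_nt.QD

open Pool.Agent.Work.MP_59f3ad_nt.FE
open Pool.Agent.Work.MP_59f3ad_nt.PX

universe u

namespace IC4

/-- the multiples of `4` form a closed set -/
theorem isClosed_four : IsClosed {x : ℤ_[2] | (4 : ℤ_[2]) ∣ x} := by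
  have h : {x : ℤ_[2] | (4 : ℤ_[2]) ∣ x} = {x : ℤ_[2] | ‖x‖ ≤ ((2 : ℕ) : ℝ) ^ (-(2 : ℕ) : ℤ)} := by
    ext x
    have h1 := PadicInt.norm_le_pow_iff_mem_span_pow (p := 2) x 2
    have h2 : ((2 : ℕ) : ℤ_[2]) ^ 2 = 4 := by norm_num
    rw [h2, Ideal.mem_span_singleton] at h1
    exact h1.symm
  rw [h]
  exact isClosed_le continuous_norm continuous_const

/-- an odd number in `ℤ_2` is `1` plus an even one -/
theorem odd_sub (a : ℤ_[2]) (ha : ¬ ((2 : ℕ) : ℤ_[2]) ∣ a) : ∃ b : ℤ_[2], a = 1 + 2 * b := by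
  have h1 : ¬ a ∈ Ideal.span {((2 : ℕ) : ℤ_[2])} := fun h => ha (Ideal.mem_span_singleton.mp h)
  rw [← PadicInt.maximalIdeal_eq_span_p, ← PadicInt.ker_toZMod, RingHom.mem_ker] at h1
  have h2 : PadicInt.toZMod (a - 1) = 0 := by
    rw [map_sub, map_one]
    generalize PadicInt.toZMod a = z at h1
    revert z
    decide
  have h3 : a - 1 ∈ Ideal.span {((2 : ℕ) : ℤ_[2])} := by
    rw [← PadicInt.maximalIdeal_eq_span_p, ← PadicInt.ker_toZMod, RingHom.mem_ker]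
    exact h2
  obtain ⟨b, hb⟩ := Ideal.mem_span_singleton.mp h3
  refine ⟨b, ?_⟩
  have h4 : ((2 : ℕ) : ℤ_[2]) = 2 := by norm_num
  rw [h4] at hb
  linear_combination hb

end IC4

open IC4 in
theorem pr_C4 : StC4.{u} := by
  intro k Ω _ _ _ _ _ f hf hm ⟨τ, hτ⟩
  have h1 : (4 : ℤ_[2]) ∣ f 1 := by
    have h := hm 1 1
    rw [mul_one] at h
    have e : f 1 - (f 1 + f 1) = -f 1 := by ring
    rw [e, dvd_neg] at h
    exact h
  have hinv : ∀ g, (4 : ℤ_[2]) ∣ f g⁻¹ + f g := by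
    intro g
    have h := hm g⁻¹ g
    rw [inv_mul_cancel] at h
    have e : f g⁻¹ + f g = f 1 - (f 1 - (f g⁻¹ + f g)) := by ring
    rw [e]
    exact dvd_sub h1 h
  let U : Subgroup (Ω ≃ₐ[k] Ω) :=
    { carrier := {g | (4 : ℤ_[2]) ∣ f g}
      one_mem' := h1
      mul_mem' := by
        intro a b ha hb
        have h := dvd_add (hm a b) (dvd_add ha hb)
        rwa [sub_add_cancel] at h
      inv_mem' := by
        intro a ha
        have h := dvd_sub (hinv a) ha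
        rwa [add_sub_cancel_right] at h }
  have hU : ∀ g, g ∈ U ↔ (4 : ℤ_[2]) ∣ f g := fun g => Iff.rfl
  have hcl : IsClosed (U : Set (Ω ≃ₐ[k] Ω)) := isClosed_four.preimage hf
  -- `2 f τ` is `2` modulo `4`
  obtain ⟨b, hb⟩ := odd_sub (f τ) hτ
  have hττ : (4 : ℤ_[2]) ∣ f (τ * τ) - 2 := by
    obtain ⟨c, hc⟩ := hm τ τ
    exact ⟨b + c, by linear_combination hc + 2 * hb⟩
  have hττU : τ * τ ∉ U := by
    intro h
    obtain ⟨c, hc⟩ := dvd_sub ((hU _).mp h) hττ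
    have h2 : (2 : ℤ_[2]) * 1 = 2 * (2 * c) := by linear_combination hc
    have h3 := mul_left_cancel₀ (two_ne_zero' ℤ_[2]) h2
    have h4 : IsUnit ((2 : ℕ) : ℤ_[2]) := by
      refine IsUnit.of_mul_eq_one c ?_
      rw [Nat.cast_ofNat]
      exact h3.symm
    exact PadicInt.p_nonunit h4
  -- the Galois correspondence
  have hfix : ∃ z : Ω, (∀ g ∈ U, g z = z) ∧ (τ * τ) z ≠ z := by
    by_contra hcon
    push Not at hcon
    apply hττU
    have h2 := InfiniteGalois.fixingSubgroup_fixedField (k := k) (K := Ω) ⟨U, hcl⟩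
    have h3 : τ * τ ∈ (IntermediateField.fixedField U).fixingSubgroup := by
      rw [IntermediateField.mem_fixingSubgroup_iff]
      intro z hz
      exact hcon z fun g hg => hz ⟨g, hg⟩
    have h4 : (IntermediateField.fixedField U).fixingSubgroup = U := h2
    rw [h4] at h3
    exact h3
  obtain ⟨z, hz, hzne⟩ := hfix
  refine ⟨z - (τ * τ) z, sub_ne_zero.mpr (Ne.symm hzne), fun h => ⟨fun hh => ?_, fun hh => ?_⟩⟩
  · have h2 : h z = z := hz h hh
    have h3 : (τ * τ)⁻¹ * h * (τ * τ) ∈ U := by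
      rw [hU]
      have e1 := hm ((τ * τ)⁻¹ * h) (τ * τ)
      have e2 := hm (τ * τ)⁻¹ h
      have e3 := hinv (τ * τ)
      have e : f ((τ * τ)⁻¹ * h * (τ * τ)) =
          (f ((τ * τ)⁻¹ * h * (τ * τ)) - (f ((τ * τ)⁻¹ * h) + f (τ * τ))) +
          (f ((τ * τ)⁻¹ * h) - (f (τ * τ)⁻¹ + f h)) + (f (τ * τ)⁻¹ + f (τ * τ)) + f h := by ring
      rw [e]
      exact dvd_add (dvd_add (dvd_add e1 e2) e3) hh
    have h4 : h ((τ * τ) z) = (τ * τ) z := by
      have e : h * (τ * τ) = (τ * τ) * ((τ * τ)⁻¹ * h * (τ * τ)) := by group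
      calc h ((τ * τ) z) = (h * (τ * τ)) z := rfl
        _ = (τ * τ) (((τ * τ)⁻¹ * h * (τ * τ)) z) := by rw [e]; rfl
        _ = (τ * τ) z := by rw [hz _ h3]
    rw [map_sub, h2, h4]
  · have h3 : (τ * τ)⁻¹ * h ∈ U := by
      rw [hU]
      have e2 := hm (τ * τ)⁻¹ h
      have e3 := hinv (τ * τ)
      have e : f ((τ * τ)⁻¹ * h) =
          (f ((τ * τ)⁻¹ * h) - (f (τ * τ)⁻¹ + f h)) + (f (τ * τ)⁻¹ + f (τ * τ)) + (f h - 2)
            - (f (τ * τ) - 2) := by ring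
      rw [e]
      exact dvd_sub (dvd_add (dvd_add e2 e3) hh) hττ
    have h2 : h z = (τ * τ) z := by
      have e : h = (τ * τ) * ((τ * τ)⁻¹ * h) := by group
      calc h z = ((τ * τ) * ((τ * τ)⁻¹ * h)) z := by rw [← e]
        _ = (τ * τ) (((τ * τ)⁻¹ * h) z) := rfl
        _ = (τ * τ) z := by rw [hz _ h3]
    have h5 : h * (τ * τ) ∈ U := by
      rw [hU]
      have e1 := hm h (τ * τ)
      have e : f (h * (τ * τ)) = (f (h * (τ * τ)) - (f h + f (τ * τ))) + (f h - 2) +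
          (f (τ * τ) - 2) + 4 := by ring
      rw [e]
      exact dvd_add (dvd_add (dvd_add e1 hh) hττ) (dvd_refl 4)
    have h4 : h ((τ * τ) z) = z := hz _ h5
    rw [map_sub, h2, h4]
    ring

end Pool.Agent.Work.MP_59f3ad_nt.QD
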