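import Mathlib
import Pool.Agent.Work.MP_59f3ad_nt.QD.StmtsE
import Pool.Agent.Work.MP_59f3ad_nt.PX.I_CNT

/-!
Block QD, item CE (helper73): the count for `p = 2`, even twists (copy of I_CN.lean), from the deterministic relations, the first moment and the
rarity of exceptional tuples.
-/

set_option autoImplicit false

open NumberField IsDedekindDomain

namespace Pool.Agent.Work.MP_59f3ad_nt.QD

open Pool.Agent.Work.MP_59f3ad_nt.FE
open Pool.Agent.Work.MP_59f3ad_nt.PX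

universe u

theorem pr_CE (hIND : PX.StIND.{u}) (hRF : StRF.{u}) (hFMO : PX.StFMO.{u})
    (hEXC : PX.StEXC.{u}) : StCE.{u} := by
  classical
  intro F _ _ hdeg t m0 x ht hm0 hx hnsp R hR0 hRR ε hε
  have hζ : IsPrimitiveRoot (-1 : F) 2 := IsPrimitiveRoot.neg_one 0 (by norm_num)
  obtain ⟨ind, hind⟩ := hIND F 2 (-1) hζ
  set H : Finset ((Fin t → ZMod 2) × 𝓞 F) :=
    R.filter (fun a => ∃ i k, a.1 i ≠ a.1 k) with hHdef
  have hHm : ∀ a, a ∈ H ↔ a ∈ R ∧ ∃ i k, a.1 i ≠ a.1 k := by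
    intro a
    rw [hHdef, Finset.mem_filter]
  have hHR : H.card ≤ R.card := Finset.card_le_card (Finset.filter_subset _ _)
  set D0 : 𝓞 F := m0 * ∏ a ∈ R, a.2 with hD0
  have hD0n : D0 ≠ 0 := mul_ne_zero hm0 (Finset.prod_ne_zero_iff.mpr fun a ha => hR0 a ha)
  have hmD : m0 ∣ D0 := Dvd.intro _ rfl
  have hdD : ∀ a ∈ R, a.2 ∣ D0 := fun a ha =>
    (Finset.dvd_prod_of_mem (fun a : (Fin t → ZMod 2) × 𝓞 F => a.2) ha).trans
      (Dvd.intro_left _ rfl)
  obtain ⟨X1, hX1⟩ := hEXC F 2 t D0 hD0n (ε / 2) (by positivity)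
  have hε' : 0 < ε / (2 * ((H.card : ℝ) + 1)) := by positivity
  have hFex : ∀ a : (Fin t → ZMod 2) × 𝓞 F, ∃ X0 : ℕ, a ∈ H → ∀ X : ℕ, X0 ≤ X →
      ∀ P : Fin t → Finset (𝓞 F), (∀ i, Adm F 2 X (P i)) →
      (∀ i, (X : ℝ) ^ ((Module.finrank ℚ F : ℝ) - 1 / 4) ≤ (P i).card) →
      (((Fintype.piFinset P).filter (fun π => ∀ k,
        ∑ i ∈ Finset.univ.erase k, (a.1 i - a.1 k) * ind (π k) (π i) =
          -(ind (π k) a.2 - a.1 k * ind (π k) (-m0)))).card : ℝ) ≤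
        (((2 : ℕ) : ℝ) / ((2 : ℕ) : ℝ) ^ t + ε / (2 * ((H.card : ℝ) + 1))) *
          ∏ i, ((P i).card : ℝ) := by
    intro a
    by_cases ha : a ∈ H
    · obtain ⟨_, hne⟩ := (hHm a).mp ha
      obtain ⟨X0, hX0⟩ := hFMO F 2 ind hind hdeg t (fun _ => 1) a.1 (fun _ => one_ne_zero)
        (by simpa only [one_mul] using hne) _ hε'
      refine ⟨X0, fun _ X hX P hP hPc => ?_⟩
      have h := hX0 X hX P hP hPc (fun k z => -(ind z a.2 - a.1 k * ind z (-m0)))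
      simp only [one_mul] at h
      exact h
    · exact ⟨0, fun h => absurd h ha⟩
  choose X2 hX2 using hFex
  refine ⟨max X1 (H.sup X2), fun X hX P hP hPc hPl hPs hPd => ?_⟩
  have hXX1 : X1 ≤ X := (le_max_left _ _).trans hX
  have hXX2 : ∀ a ∈ H, X2 a ≤ X := fun a ha =>
    (Finset.le_sup ha).trans ((le_max_right _ _).trans hX)
  set Pi0 : ℝ := ∏ i, ((P i).card : ℝ) with hPi0
  have hPi : 0 ≤ Pi0 := Finset.prod_nonneg fun i _ => Nat.cast_nonneg _
  set S := Fintype.piFinset P with hS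
  set B := S.filter (fun π => ¬ Ge m0 π) with hB
  set B1 := S.filter (fun π => (∃ i k, i ≠ k ∧ Associated (π i) (π k)) ∨ ∃ i, π i ∣ D0) with hB1
  set B2 := B.filter (fun π => ¬ ((∃ i k, i ≠ k ∧ Associated (π i) (π k)) ∨ ∃ i, π i ∣ D0))
    with hB2
  have hBle : B.card ≤ B1.card + B2.card := by
    refine (Finset.card_le_card ?_).trans (Finset.card_union_le _ _)
    intro π hπ
    rw [Finset.mem_union]
    by_cases h : (∃ i k, i ≠ k ∧ Associated (π i) (π k)) ∨ ∃ i, π i ∣ D0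
    · left
      exact Finset.mem_filter.mpr ⟨(Finset.mem_filter.mp hπ).1, h⟩
    · right
      exact Finset.mem_filter.mpr ⟨hπ, h⟩
  have hB1c : (B1.card : ℝ) ≤ ε / 2 * Pi0 := hX1 X hXX1 P hP hPc
  let Q : (Fin t → 𝓞 F) → ((Fin t → ZMod 2) × 𝓞 F) → Prop := fun π a => ∀ k,
    ∑ i ∈ Finset.univ.erase k, (a.1 i - a.1 k) * ind (π k) (π i) =
      -(ind (π k) a.2 - a.1 k * ind (π k) (-m0))
  have hdb : 2 * B2.card ≤ ∑ a ∈ H, (S.filter fun π => Q π a).card := by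
    refine PX.ICNT.double S H Q B2
      ((Finset.filter_subset _ _).trans (Finset.filter_subset _ _)) _ ?_
    intro π hπ
    obtain ⟨hπB, hnex⟩ := Finset.mem_filter.mp hπ
    obtain ⟨hπS, hbad⟩ := Finset.mem_filter.mp hπB
    have hmem : ∀ i, π i ∈ P i := fun i => Fintype.mem_piFinset.mp hπS i
    have hndD : ∀ i, ¬ π i ∣ D0 := fun i h => hnex (Or.inr ⟨i, h⟩)
    have hctx : Cq m0 x π :=
      { ht := ht
        m0n := hm0
        xn := hx
        nsp := hnsp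
        hH := fun d hd hcop => by
          rcases hPd d hd with h | ⟨i, hi⟩
          · exact Or.inl h
          · exact Or.inr ⟨i, hi (π i) (hmem i) (hcop i)⟩
        pr := fun i => (hP i).pr _ (hmem i)
        np := fun i => (hP i).np _ (hmem i)
        na := fun i k h => by
          by_contra hik
          exact hnex (Or.inl ⟨i, k, hik, h⟩)
        nm0 := fun i h => hndD i (h.trans hmD)
        lc := fun i v hv => hPl i _ (hmem i) v hv
        sg := fun i s => hPs i _ (hmem i) s }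
    obtain ⟨T, hT, hTR⟩ := hRF F ind hind t m0 x π hctx R
      (fun a ha k h => hndD k (h.trans (hdD a ha))) hRR hbad
    exact ⟨T, hT, fun a ha =>
      ⟨(hHm a).mpr ⟨(hTR a ha).1, (hTR a ha).2.1⟩, (hTR a ha).2.2⟩⟩
  have hsum : ((∑ a ∈ H, (S.filter fun π => Q π a).card : ℕ) : ℝ) ≤
      H.card * ((((2 : ℕ) : ℝ) / ((2 : ℕ) : ℝ) ^ t + ε / (2 * ((H.card : ℝ) + 1))) * Pi0) := by
    rw [Nat.cast_sum, ← nsmul_eq_mul, ← Finset.sum_const]
    refine Finset.sum_le_sum fun a ha => ?_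
    exact hX2 a ha X (hXX2 a ha) P hP hPc
  have hB2c : ((((2 : ℕ) : ℝ) - 1) * ((2 : ℕ) : ℝ)) * B2.card ≤
      H.card * ((((2 : ℕ) : ℝ) / ((2 : ℕ) : ℝ) ^ t + ε / (2 * ((H.card : ℝ) + 1))) * Pi0) := by
    refine le_trans ?_ hsum
    have h1 : ((2 * B2.card : ℕ) : ℝ) = (((2 : ℕ) : ℝ) - 1) * ((2 : ℕ) : ℝ) * B2.card := by
      push_cast
      ring
    rw [← h1]
    exact_mod_cast hdb
  have hfin := PX.ICNT.fin_step 2 H.card t le_rfl ε Pi0 B.card B1.card B2.card hε hPi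
    (by exact_mod_cast hBle) hB1c hB2c
  refine hfin.trans (mul_le_mul_of_nonneg_right ?_ hPi)
  have h5 : (0 : ℝ) ≤ (2 : ℝ) ^ t := by positivity
  have h6 : (H.card : ℝ) ≤ R.card := by exact_mod_cast hHR
  have h7 := div_le_div_of_nonneg_right h6 h5
  have h8 : (H.card : ℝ) / ((((2 : ℕ) : ℝ) - 1) * ((2 : ℕ) : ℝ) ^ t) =
      (H.card : ℝ) / (2 : ℝ) ^ t := by
    norm_num
  rw [h8]
  linarith

end Pool.Agent.Work.MP_59f3ad_nt.QD
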