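import Mathlib
import Pool.Agent.Work.MP_59f3ad_nt.QD.StmtsE
import Pool.Agent.Work.MP_59f3ad_nt.PX.I_DTU

/-!
Block QD, item DE: the deterministic theorem for even twists (assembly).
-/

set_option autoImplicit false

open NumberField IsDedekindDomain

namespace Pool.Agent.Work.MP_59f3ad_nt.QD

open Pool.Agent.Work.MP_59f3ad_nt.FE
open Pool.Agent.Work.MP_59f3ad_nt.PX

universe u

namespace IDE

/-- the values `y^2 + m z^2` are closed under multiplication by powers of `m` and by squares -/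
theorem form {F : Type u} [Field F] (m a : F) (h : ∃ y z : F, a = y ^ 2 + m * z ^ 2) (j : ℕ)
    (g : F) : ∃ y z : F, a * m ^ j * g ^ 2 = y ^ 2 + m * z ^ 2 := by
  have h1 : ∃ y z : F, a * m ^ j = y ^ 2 + m * z ^ 2 := by
    induction j with
    | zero =>
      obtain ⟨y, z, hyz⟩ := h
      exact ⟨y, z, by rw [pow_zero, mul_one, hyz]⟩
    | succ j ih =>
      obtain ⟨y, z, hyz⟩ := ih
      refine ⟨m * z, y, ?_⟩
      rw [pow_succ, ← mul_assoc, hyz]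
      ring
  obtain ⟨y, z, hyz⟩ := h1
  refine ⟨y * g, z * g, ?_⟩
  rw [hyz]
  ring

theorem Mq_eq {F : Type u} [Field F] [NumberField F] {t : ℕ} (m0 : 𝓞 F) (π : Fin t → 𝓞 F) :
    Mq m0 π = m0 * ∏ i, π i ^ (fun _ : Fin t => 1) i := by
  simp [Mq]

end IDE

open IDE in
/-- item DE -/
theorem pr_DE (hCFG : StCFG.{u}) (hIE : StIE.{u}) (hU1 : StU1.{u}) (hU2 : StU2.{u})
    (hUM : StUM.{u}) (hUT : StUT.{u}) : StDE.{u} := by
  intro F _ _ t n0 π ht hn0 hπ hπp hna hπn0 hLp L _ _ _ x hfin hx r hr hr0 hF S hS hLS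
  have hp : (2 : ℕ).Prime := Nat.prime_two
  have hζ : IsPrimitiveRoot (-1 : F) 2 := IsPrimitiveRoot.neg_one 0 (by norm_num)
  have hMe := Mq_eq n0 π
  have hsp : ∀ k, Mq n0 π = π k * (n0 * ∏ i ∈ Finset.univ.erase k, π i) := by
    intro k
    have h1 := IDET.split π n0 (fun _ => 1) k
    simp only [pow_one] at h1
    rw [hMe]
    simp only [pow_one]
    exact h1
  have hN : ∀ k, ¬ π k ∣ n0 * ∏ i ∈ Finset.univ.erase k, π i := by
    intro k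
    have h1 := IDET.nd π hπ hna n0 (fun _ => 1) k (hπn0 k)
    simpa only [pow_one] using h1
  have hM0 : Mq n0 π ≠ 0 := by
    rw [Mq]
    exact mul_ne_zero hn0 (Finset.prod_ne_zero_iff.mpr fun i _ => (hπ i).ne_zero)
  have hm1 : ((Mq n0 π : 𝓞 F) : F) ≠ 0 := by
    rw [RingOfIntegers.coe_eq_algebraMap, Ne, FaithfulSMul.algebraMap_eq_zero_iff]
    exact hM0
  have hm : -((Mq n0 π : 𝓞 F) : F) ≠ 0 := neg_ne_zero.mpr hm1
  have hval : ∀ q : HeightOneSpectrum (𝓞 F), (∀ i, π i ∉ q.asIdeal) →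
      q.valuation F (-((Mq n0 π : 𝓞 F) : F)) = q.valuation F (n0 : F) := by
    intro q hq
    rw [Valuation.map_neg, hMe]
    exact IDTU.valM F n0 π (fun _ => 1) q hq
  -- the place `q0`
  let i0 : Fin t := ⟨0, by omega⟩
  obtain ⟨q0, hq0⟩ := IDET.place F (π i0) (hπ i0)
  have hq0p : q0 ∉ Sp F 2 := by
    intro h
    have h1 : ((2 : ℕ) : 𝓞 F) ∈ q0.asIdeal := h
    rw [hq0, Ideal.mem_span_singleton] at h1
    exact hπp i0 h1
  have hnVd : ¬ Vd F 2 q0 (-((Mq n0 π : 𝓞 F) : F)) := by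
    have h1 := IDET.nVd F 2 hp (π i0) _ (hπ i0) (hN i0) 1 le_rfl (by norm_num) q0 hq0
    rw [pow_one, ← hsp i0] at h1
    rintro ⟨y, hy⟩
    rw [Valuation.map_neg] at hy
    exact h1 ⟨y, hy⟩
  have hnp : ∀ z : F, z ^ 2 ≠ -((Mq n0 π : 𝓞 F) : F) := by
    intro z hz
    apply hnVd
    exact ⟨z, by rw [← hz, map_pow]⟩
  have hLp' : ∀ v ∈ Sp F 2, ¬ Lp F 2 v (-((Mq n0 π : 𝓞 F) : F)) ∧
      ¬ Lp F 2 v (-(-((Mq n0 π : 𝓞 F) : F))) := by
    intro v hv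
    rw [neg_neg]
    exact ⟨(hLp v hv).2, (hLp v hv).1⟩
  obtain ⟨σ, hσ⟩ := hCFG F L 2 (-1) (-((Mq n0 π : 𝓞 F) : F)) x hζ hm hfin hx hnp
  obtain ⟨A, a, hbad⟩ := hIE F L (-1) (-((Mq n0 π : 𝓞 F) : F)) x σ hσ hLp' q0 hq0p hnVd r hr hr0
    hF S hS hLS
  obtain ⟨y0, z0, hyz⟩ := hbad.nrm
  have hneg : ∀ k : ℕ, a * ((Mq n0 π : 𝓞 F) : F) ^ k * (-1) ^ k =
      a * (-((Mq n0 π : 𝓞 F) : F)) ^ k := by
    intro k
    rw [neg_pow ((Mq n0 π : 𝓞 F) : F) k]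
    ring
  refine ⟨a, hbad.ha, ?_, ?_, ?_, ?_, ?_⟩
  · intro v hv
    by_cases hvp : v ∈ Sp F 2
    · obtain ⟨k, hk⟩ := hU1 F L (-1) (-((Mq n0 π : 𝓞 F) : F)) x σ hσ v hvp (hLp' v hvp).1 A a hbad
      refine ⟨k, k, ?_⟩
      rw [hneg]
      exact hk
    · have hv0 : ¬ Vd F 2 v (n0 : F) := by
        rcases hv with hv | hv
        · exact absurd hv hvp
        · exact hv
      have hπv : ∀ i, π i ∉ v.asIdeal := fun i =>
        IDTU.notmem F 2 n0 (π i) (hπ i) (hπn0 i) v hv0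
      have hvM : ¬ Vd F 2 v (-((Mq n0 π : 𝓞 F) : F)) := by
        rintro ⟨y, hy⟩
        exact hv0 ⟨y, by rw [← hy, hval v hπv]⟩
      obtain ⟨k, hk⟩ := hUT F (-((Mq n0 π : 𝓞 F) : F)) v hm hvp hvM a y0 z0 hbad.ha hyz
      refine ⟨k, k, ?_⟩
      rw [hneg]
      exact hk
  · refine ⟨y0, z0, ?_⟩
    rw [hyz]
    ring
  · intro q hq hπq
    have hqp : q ∉ Sp F 2 := fun h => hq (Or.inl h)
    have hq0 : Vd F 2 q (n0 : F) := by
      by_contra h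
      exact hq (Or.inr h)
    refine hU2 F L (-1) (-((Mq n0 π : 𝓞 F) : F)) x σ hσ q hqp ?_ A a hbad
    obtain ⟨y, hy⟩ := hq0
    exact ⟨y, by rw [← hy, hval q hπq]⟩
  · intro j g haj
    obtain ⟨y, hy⟩ := IDET.rootL F L 2 hp (-1) _ x hζ hx A a hbad.ha hbad.hA j g haj
    obtain ⟨h, hh⟩ := hbad.ne
    apply hh
    rw [hy]
    exact h.commutes y
  · intro j g D e hg hD hEq k
    have hN'' := IDET.nd π hπ hna D e k (hD k)
    have hN' : ¬ π k ∣ -(n0 * ∏ i ∈ Finset.univ.erase k, π i) := by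
      rw [dvd_neg]
      exact hN k
    obtain ⟨y, z, h1⟩ := form (-((Mq n0 π : 𝓞 F) : F)) a hbad.nrm j g
    refine hUM F (π k) (-(n0 * ∏ i ∈ Finset.univ.erase k, π i))
      (D * ∏ i ∈ Finset.univ.erase k, π i ^ e i) (e k) y z (hπ k) hN' hN'' ?_
    rw [← IDET.split π D e k, ← hEq, h1, mul_neg, ← hsp k]
    congr 2

end Pool.Agent.Work.MP_59f3ad_nt.QD
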