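import Mathlib
import Pool.Agent.Work.MP_59f3ad_nt.QD.StmtsE

/-!
Block PX, item FX: a Kummer radical which is invariant under `s` modulo `L*`.
-/

set_option autoImplicit false

open NumberField IsDedekindDomain

namespace Pool.Agent.Work.MP_59f3ad_nt.QD

open Pool.Agent.Work.MP_59f3ad_nt.PX

open Pool.Agent.Work.MP_59f3ad_nt.FE

universe u

namespace IFX

theorem toZMod_of_dvd {p : ℕ} [Fact p.Prime] {a b : ℤ_[p]} (h : (p : ℤ_[p]) ∣ a - b) :
    PadicInt.toZMod a = PadicInt.toZMod b := by
  obtain ⟨c, hc⟩ := h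
  have h1 : PadicInt.toZMod (a - b) = 0 := by
    rw [hc, map_mul, map_natCast, ZMod.natCast_self, zero_mul]
  rw [map_sub, sub_eq_zero] at h1
  exact h1

set_option linter.unusedSectionVars false

variable {F L : Type u} [Field F] [NumberField F] [Field L] [NumberField L] [Algebra F L]

theorem ex_pow {σ : L ≃ₐ[F] L} {s : AlgebraicClosure L ≃ₐ[F] AlgebraicClosure L} (hs : Ex σ s)
    (i : ℕ) (y : L) : (s ^ i) (algebraMap L (AlgebraicClosure L) y) =
      algebraMap L (AlgebraicClosure L) ((σ ^ i) y) := by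
  induction i generalizing y with
  | zero => simp
  | succ n ih => rw [pow_succ, pow_succ, AlgEquiv.mul_apply, AlgEquiv.mul_apply, hs y, ih]

theorem fixed_mem {x : AlgebraicClosure L} (h : ∀ g : GK L, g x = x) :
    ∃ y : L, x = algebraMap L (AlgebraicClosure L) y := by
  obtain ⟨y, hy⟩ := (InfiniteGalois.mem_range_algebraMap_iff_fixed x).2 h
  exact ⟨y, hy.symm⟩

end IFX

theorem pr_FX (hH90 : StH90.{u}) : StFX.{u} := by
  intro F L _ _ _ _ _ p hpF ζ m x σ hC s hs k hk f hf hfk u hu hfu
  have hζ0 : ζ ≠ 0 := hC.hζ.ne_zero hpF.out.ne_zero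
  have hp0 : p ≠ 0 := hpF.out.ne_zero
  set z : GK L → F := fun h => ζ ^ (PadicInt.toZMod (f h)).val with hz
  have hz0 : ∀ h, z h ≠ 0 := fun h => pow_ne_zero _ hζ0
  have hzp : ∀ h, z h ^ p = 1 := by
    intro h
    simp only [hz]
    rw [← pow_mul, mul_comm, pow_mul, hC.hζ.pow_eq_one, one_pow]
  have hsu0 : s u ≠ 0 := by
    rw [Ne, map_eq_zero]
    exact hu
  -- the action on `s u`
  have hsu : ∀ h : GK L, h (s u) = algebraMap F (AlgebraicClosure L) (z h) * s u := by
    intro h
    have e1 : s (cs hs h u) = h (s u) := by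
      rw [cs_apply]
      exact s.apply_symm_apply _
    rw [← e1, hfu (cs hs h), map_mul, s.commutes]
    have : PadicInt.toZMod (f (cs hs h)) = PadicInt.toZMod (f h) := IFX.toZMod_of_dvd (hf h)
    rw [this]
  obtain ⟨c, hc⟩ := IFX.fixed_mem (L := L) (x := s u / u) (fun h => by
    rw [map_div₀, hsu h, hfu h]
    have : algebraMap F (AlgebraicClosure L) (z h) ≠ 0 := by
      rw [Ne, map_eq_zero]
      exact hz0 h
    exact mul_div_mul_left _ _ this)
  -- the norm of `c`
  have hprod : ∏ i ∈ Finset.range p, (σ ^ i) c = 1 := by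
    apply (algebraMap L (AlgebraicClosure L)).injective
    rw [map_prod, map_one]
    have e2 : ∀ n : ℕ, ∏ i ∈ Finset.range n, algebraMap L (AlgebraicClosure L) ((σ ^ i) c) = (s ^ n) u / u := by
      intro n
      induction n with
      | zero =>
        simp only [Finset.range_zero, Finset.prod_empty, pow_zero]
        rw [AlgEquiv.one_apply, div_self hu]
      | succ n ih =>
        have h0 : (s ^ n) u ≠ 0 := by
          rw [Ne, map_eq_zero]
          exact hu
        rw [Finset.prod_range_succ, ih, ← IFX.ex_pow hs n c, ← hc, map_div₀, pow_succ,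
          AlgEquiv.mul_apply]
        field_simp
    rw [e2 p, ← hk u, hfu k]
    have e3 : PadicInt.toZMod (f k) = 0 := by
      have := IFX.toZMod_of_dvd (a := f k) (b := 0) (by rwa [sub_zero])
      rw [this, map_zero]
    rw [e3, ZMod.val_zero, pow_zero, map_one, one_mul, div_self hu]
  obtain ⟨d, hd0, hd⟩ := hH90 F L p ζ m x σ hC c hprod
  have hdΩ : algebraMap L (AlgebraicClosure L) d ≠ 0 := by
    rw [Ne, map_eq_zero]
    exact hd0
  have hc0 : algebraMap L (AlgebraicClosure L) c ≠ 0 := by
    rw [← hc]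
    exact div_ne_zero hsu0 hu
  set A := u / algebraMap L (AlgebraicClosure L) d with hA
  have hA0 : A ≠ 0 := div_ne_zero hu hdΩ
  have hsA : s A = A := by
    have e : s u = algebraMap L (AlgebraicClosure L) c * u := by
      rw [← hc]
      field_simp
    rw [hA, map_div₀, hs d, hd, map_mul, e]
    exact mul_div_mul_left _ _ hc0
  have hhA : ∀ h : GK L, h A = algebraMap F (AlgebraicClosure L) (z h) * A := by
    intro h
    rw [hA, map_div₀, hfu h]
    have : h (algebraMap L (AlgebraicClosure L) d) = algebraMap L (AlgebraicClosure L) d := h.commutes d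
    rw [this, mul_div_assoc]
  obtain ⟨b, hb⟩ := IFX.fixed_mem (L := L) (x := A ^ p) (fun h => by
    rw [map_pow, hhA h, mul_pow, ← map_pow, hzp h, map_one, one_mul])
  have hσb : σ b = b := by
    apply (algebraMap L (AlgebraicClosure L)).injective
    rw [← hs b, ← hb, map_pow, hsA]
  obtain ⟨a, ha⟩ := hC.hfix b hσb
  refine ⟨d, a, hd0, ?_, hsA, ?_⟩
  · rintro rfl
    rw [map_zero] at ha
    rw [ha, map_zero] at hb
    exact pow_ne_zero p hA0 hb
  · rw [hb, ha]
    exact (IsScalarTower.algebraMap_apply F L (AlgebraicClosure L) a).symm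

end Pool.Agent.Work.MP_59f3ad_nt.QD
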