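import Mathlib
import Pool.Agent.Work.MP_59f3ad_nt.QD.StmtsE
import Pool.Agent.Work.MP_59f3ad_nt.PX.I_INH

/-!
Block QD, item IE: failure of the conjecture for `L`, `p = 2`, `r ≠ 0` even, produces the data of `Be`.
-/

set_option autoImplicit false

open NumberField IsDedekindDomain

namespace Pool.Agent.Work.MP_59f3ad_nt.QD

open Pool.Agent.Work.MP_59f3ad_nt.FE
open Pool.Agent.Work.MP_59f3ad_nt.PX

universe u


open Pool.Agent.Work.MP_59f3ad_nt.PX.IINH in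
theorem pr_IE (hSHS : PX.StSHS.{u}) (hSG : StSG.{u}) (hBF : StBF.{u}) (hNE : StNE.{u})
    (hMUF : PX.StMUF.{u}) (hSEX : StSEX.{u}) (hKK : StKK.{u}) (hTS : PX.StTS.{u})
    (hSQM : PX.StSQM.{u}) (hCH : StCH.{u}) (hBI : StBI.{u}) (hEXT : StEXT.{u})
    (hEXE : StEXE.{u}) : StIE.{u} := by
  intro F L _ _ _ _ _ ζ m x σ hcf hLp q hq hVd r hrE hr hShaF S hS hShaL
  by_contra hno
  apply hShaL
  rw [Sha1_eq_bot_iff]
  intro φ hφS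
  have hp0 : ((2 : ℕ) : ℤ_[2]) ≠ 0 := by
    exact_mod_cast (Nat.prime_two).ne_zero
  -- the prime `Q0` and the elements `s`, `k`
  obtain ⟨Q0, hQ0, hQ0c⟩ := exists_over F (AlgebraicClosure L) q
  have hpQ0 : ((2 : ℕ) : 𝓞 (AlgebraicClosure L)) ∉ Q0 := by
    rw [mem_iff F (AlgebraicClosure L) q Q0 hQ0c 2]
    exact hq
  obtain ⟨s, hsI, hs⟩ := hSEX F L 2 ζ m x σ hcf q hVd Q0 hQ0 hQ0c
  obtain ⟨k, hk, hkc⟩ := hKK F L 2 ζ m x σ hcf s hs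
  have hkI : Inr Q0 k := by
    intro y y' hy
    refine inr_pow Q0 s hsI 2 y y' ?_
    rw [hy, hk]
  have hts : tw 2 r s = 1 := hMUF F (AlgebraicClosure L) 2 Q0 hQ0 hpQ0 s hsI r
  have htk : tw 2 r k = 1 := hMUF L (AlgebraicClosure L) 2 Q0 hQ0 hpQ0 k hkI r
  obtain ⟨⟨A, hA, hAsat⟩, ⟨A', hA'⟩, hSS⟩ := hSQM L 2 r
  obtain ⟨m', β, hβ1, hβ2, hβ3⟩ := hBF L r hr
  obtain ⟨htw, htsSH, htsSQ, htsQ⟩ := hTS F L 2 r σ s hs
  have hβc : ∀ g, β (cs hs g) = β g := by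
    intro g
    have h1 : ((2 : ℕ) : ℤ_[2]) ^ m' * β (cs hs g) = ((2 : ℕ) : ℤ_[2]) ^ m' * β g := by
      rw [hβ1, hβ1, htw]
    exact mul_left_cancel₀ (pow_ne_zero _ hp0) h1
  have hβk : β k = 0 := hβ3.inr Q0 hQ0 hpQ0 k hkI
  have hlast : ∀ θ ∈ A, ∀ c : ℤ_[2], (∀ g, θ (cs hs g) + θ g = c * β g) →
      ∃ c' : ℤ_[2], ∀ g, ((2 : ℕ) : ℤ_[2]) ∣ θ g - c' * β g := by
    intro θ hθ c hc
    by_contra hcon
    apply hno
    refine hBI F L ζ m x σ hcf hLp s hs k hk r hrE hts m' β hβ1 hβ3 hβ2 hβk hβc θ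
      ((hA θ).mp hθ) (((hA θ).mp hθ).inr Q0 hQ0 hpQ0 k hkI) c hc ?_
    intro c'
    by_contra hc'
    apply hcon
    refine ⟨c', fun g => ?_⟩
    by_contra hg
    exact hc' ⟨g, hg⟩
  have hφ : SH L (AlgebraicClosure L) 2 r φ := hSHS L 2 r S hS φ hφS
  have hφQ : SQ L (AlgebraicClosure L) 2 r φ := hSS φ hφ
  have hφk : φ k = 0 := hφQ.inr Q0 hQ0 hpQ0 k hkI
  -- the sum over the conjugates
  set ψ : GK L → ℤ_[2] := fun h => φ (cs hs h) + φ h with hψdef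
  have hψ : SH L (AlgebraicClosure L) 2 r ψ := by
    rw [← hA']
    exact Submodule.add_mem _ ((hA' _).mpr (htsSH _ hφ)) ((hA' _).mpr hφ)
  have hψc : ∀ h, ψ (cs hs h) = ψ h := by
    intro h
    have h1 : φ (cs hs (cs hs h)) = φ h := by
      have h2 := hkc h
      rw [Function.iterate_succ_apply, Function.iterate_one] at h2
      rw [h2]
      exact conj hφQ.mul k hφk htk h
    show φ (cs hs (cs hs h)) + φ (cs hs h) = φ (cs hs h) + φ h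
    rw [h1, add_comm]
  have hψk : ψ k = 0 := hψ.inr Q0 hQ0 hpQ0 k hkI
  obtain ⟨Ψ, hΨc, hΨm, hΨr⟩ := hEXT F L 2 ζ m x σ hcf s hs k hk r hts ψ hψ.cont hψ.mul hψc hψk
  have hΨ : SH F (AlgebraicClosure L) 2 r Ψ :=
    hEXE F L ζ m x σ hcf r hr ψ hψ Ψ hΨc hΨm hΨr
  obtain ⟨c, hc⟩ := hSG F L r hr hShaF Ψ hΨ
  have hψβ : ∀ h, ψ h = (c * ((2 : ℕ) : ℤ_[2]) ^ m') * β h := by
    intro h
    have h1 : tw 2 r (h.restrictScalars F) = tw 2 r h := rfl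
    rw [← hΨr h, hc, h1, mul_assoc, hβ1 h, mul_comm]
  obtain ⟨c', hc'⟩ := hCH (GK L) (cs hs) β A hβ2 hβc ((hA β).mpr hβ3) hAsat hlast φ
    ((hA φ).mpr hφQ) _ hψβ
  -- a prime above `2`
  obtain ⟨v, hv⟩ := exists_prime_above L 2
  obtain ⟨Q, hQ, hQc⟩ := exists_over L (AlgebraicClosure L) v
  have hpQ : ((2 : ℕ) : 𝓞 (AlgebraicClosure L)) ∈ Q := by
    rw [mem_iff L (AlgebraicClosure L) v Q hQc 2]
    exact hv
  obtain ⟨c1, hc1⟩ := hφ.dec Q hQ hpQ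
  obtain ⟨h, hdec, hne⟩ := hNE L r hr Q hQ hpQ
  have hβh : β h ≠ 0 := by
    intro h0
    have h1 := hβ1 h
    rw [h0, mul_zero] at h1
    exact hne (sub_eq_zero.mp h1.symm)
  have hcc : c' = ((2 : ℕ) : ℤ_[2]) ^ m' * c1 := by
    have h1 := hc1 h hdec
    rw [hc' h, ← hβ1 h] at h1
    refine mul_right_cancel₀ hβh ?_
    rw [h1]
    ring
  refine ⟨c1, fun g => ?_⟩
  rw [hc' g, hcc, twist_eq, ← hβ1 g]
  ring

end Pool.Agent.Work.MP_59f3ad_nt.QD
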