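import Mathlib
import Pool.Agent.Work.MP_59f3ad_nt.QD.StmtsE
import Pool.Agent.Work.MP_59f3ad_nt.PX.I_LCT

/-!
Block QD, item LE: `p = 2`, even twists, the anti-invariant classes are locally divisible by `2`.
-/

set_option autoImplicit false

open NumberField IsDedekindDomain

namespace Pool.Agent.Work.MP_59f3ad_nt.QD

open Pool.Agent.Work.MP_59f3ad_nt.FE
open Pool.Agent.Work.MP_59f3ad_nt.PX

universe u

namespace ILE

/-- `1 + 2 w` is a unit of the `2`-adic integers. -/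
theorem unit_odd (w : ℤ_[2]) : IsUnit (1 + 2 * w) := by
  have h2 : ((2 : ℕ) : ℤ_[2]) ∈ IsLocalRing.maximalIdeal ℤ_[2] := by
    rw [PadicInt.maximalIdeal_eq_span_p]
    exact Ideal.mem_span_singleton_self _
  have h3 : ((2 : ℕ) : ℤ_[2]) * (-w) ∈ IsLocalRing.maximalIdeal ℤ_[2] :=
    Ideal.mul_mem_right _ _ h2
  have h4 : IsUnit (1 - ((2 : ℕ) : ℤ_[2]) * (-w)) := by
    by_contra hc
    have h5 : (1 - ((2 : ℕ) : ℤ_[2]) * (-w)) ∈ IsLocalRing.maximalIdeal ℤ_[2] :=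
      (IsLocalRing.mem_maximalIdeal _).2 hc
    have h6 := Ideal.add_mem _ h5 h3
    rw [sub_add_cancel] at h6
    exact (Ideal.ne_top_iff_one _).1 (IsLocalRing.maximalIdeal.isMaximal ℤ_[2]).ne_top h6
  have e : (1 - ((2 : ℕ) : ℤ_[2]) * (-w)) = 1 + 2 * w := by
    push_cast
    ring
  rwa [e] at h4

end ILE

open ILE in
/-- item LE -/
theorem pr_LE (hDEX : StDEX.{u}) (hTE : StTE.{u}) : StLE.{u} := by
  intro F L _ _ _ _ _ ζ m x σ hC hlp s hs r hr hst θ hθ hanti Q hQ hpQ h hh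
  -- the place below
  set 𝔮 : Ideal (𝓞 F) := Q.comap (algebraMap (𝓞 F) (𝓞 (AlgebraicClosure L))) with h𝔮
  have hp0 : ((2 : ℕ) : 𝓞 F) ≠ 0 := Nat.cast_ne_zero.2 (by norm_num)
  have hpq : ((2 : ℕ) : 𝓞 F) ∈ 𝔮 := by
    rw [h𝔮, Ideal.mem_comap, map_natCast]
    exact hpQ
  have hne : 𝔮 ≠ ⊥ := by
    intro hb
    rw [hb, Ideal.mem_bot] at hpq
    exact hp0 hpq
  let v : HeightOneSpectrum (𝓞 F) := ⟨𝔮, hQ.comap _, hne⟩
  obtain ⟨s', hs'Q, hs'⟩ := hDEX F L 2 ζ m x σ hC v (hlp v hpq) Q hQ rfl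
  -- the element `g = s⁻¹ s'`
  let g : GK L := AlgEquiv.ofRingEquiv
    (f := ((s' : AlgebraicClosure L ≃+* AlgebraicClosure L).trans
      (s : AlgebraicClosure L ≃+* AlgebraicClosure L).symm))
    (by
      intro y
      simp only [RingEquiv.trans_apply]
      rw [RingEquiv.symm_apply_eq]
      change s' (algebraMap L _ y) = s (algebraMap L _ y)
      rw [hs y, hs' y])
  have hg : ∀ y, g y = s.symm (s' y) := fun _ => rfl
  obtain ⟨w, hw⟩ := hTE L (AlgebraicClosure L) r hr g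
  obtain ⟨w', hw'⟩ := hTE L (AlgebraicClosure L) r hr h
  have htg : tw 2 r g = 1 + 4 * w := by linear_combination hw
  have hth : tw 2 r h = 1 + 4 * w' := by linear_combination hw'
  obtain ⟨z, hz⟩ := unit_odd w
  have hrel : g * cs hs' h = cs hs h * g := by
    ext y
    rw [AlgEquiv.mul_apply, AlgEquiv.mul_apply, hg, hg, cs_apply, cs_apply,
      AlgEquiv.apply_symm_apply, AlgEquiv.apply_symm_apply]
  -- the values at `h` and at its conjugate by `s'`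
  obtain ⟨n, c, hc⟩ := hθ.dec Q hQ hpQ
  have h4 : θ (cs hs' h) = θ h := by
    have e1 := hc (cs hs' h) (PX.ILCT.dec_cs hs' hs'Q hh)
    rw [PX.ILCT.tw_cs 2 r hs' h, ← hc h hh] at e1
    have hpn : ((2 : ℕ) : ℤ_[2]) ^ n ≠ 0 := pow_ne_zero n (Nat.cast_ne_zero.2 (by norm_num))
    exact mul_left_cancel₀ hpn e1
  have h1 := hθ.mul g (cs hs' h)
  have h2 := hθ.mul (cs hs h) g
  rw [hrel, h2, PX.ILCT.tw_cs 2 r hs h, hanti h, h4, htg] at h1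
  -- `-θ h + tw h θ g = θ g + (1 + 4 w) θ h`
  rw [hth] at h1
  have h2' : (2 : ℤ_[2]) ≠ 0 := two_ne_zero
  have h5 : (z : ℤ_[2]) * θ h = 2 * (w' * θ g) := by
    apply mul_left_cancel₀ h2'
    rw [hz]
    linear_combination -h1
  have h6 : ((z⁻¹ : ℤ_[2]ˣ) : ℤ_[2]) * (z : ℤ_[2]) = 1 := by
    rw [← Units.val_mul, inv_mul_cancel, Units.val_one]
  refine ⟨((z⁻¹ : ℤ_[2]ˣ) : ℤ_[2]) * (w' * θ g), ?_⟩
  calc θ h = (((z⁻¹ : ℤ_[2]ˣ) : ℤ_[2]) * (z : ℤ_[2])) * θ h := by rw [h6, one_mul]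
    _ = ((z⁻¹ : ℤ_[2]ˣ) : ℤ_[2]) * ((z : ℤ_[2]) * θ h) := by ring
    _ = ((z⁻¹ : ℤ_[2]ˣ) : ℤ_[2]) * (2 * (w' * θ g)) := by rw [h5]
    _ = ((2 : ℕ) : ℤ_[2]) * (((z⁻¹ : ℤ_[2]ˣ) : ℤ_[2]) * (w' * θ g)) := by
      push_cast
      ring

end Pool.Agent.Work.MP_59f3ad_nt.QD
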