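import Mathlib
import Pool.Agent.Work.MP_59f3ad_nt.QD.StmtsE
import Pool.Agent.Work.MP_59f3ad_nt.PX.I_TRN

/-!
Block QD, item NE: the nontrivial twists are not trivial on the decomposition groups above `2`.
-/

set_option autoImplicit false

open NumberField IsDedekindDomain

namespace Pool.Agent.Work.MP_59f3ad_nt.QD

open Pool.Agent.Work.MP_59f3ad_nt.FE
open Pool.Agent.Work.MP_59f3ad_nt.PX

universe u

namespace INE

/-- the units of `ℤ_2` have no odd torsion -/
theorem odd_pow_eq_one (u : ℤ_[2]ˣ) (n : ℕ) (hn : Odd n) (h : u ^ n = 1) : u = 1 := by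
  have h1 : (u : ℤ_[2]) ^ n = 1 := by
    have := congrArg Units.val h
    rwa [Units.val_pow_eq_pow_val, Units.val_one] at this
  have h2 : (∑ i ∈ Finset.range n, (u : ℤ_[2]) ^ i) * ((u : ℤ_[2]) - 1) = 0 := by
    rw [geom_sum_mul, h1, sub_self]
  rcases mul_eq_zero.1 h2 with h3 | h3
  · exfalso
    have h4 : PadicInt.toZMod (p := 2) (u : ℤ_[2]) = 1 := by
      have h5 : PadicInt.toZMod (p := 2) (u : ℤ_[2]) ≠ 0 :=
        (u.isUnit.map (PadicInt.toZMod (p := 2))).ne_zero
      revert h5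
      generalize PadicInt.toZMod (p := 2) (u : ℤ_[2]) = x
      revert x
      decide
    have h6 := congrArg (PadicInt.toZMod (p := 2)) h3
    rw [map_sum, map_zero] at h6
    simp only [map_pow, h4, one_pow, Finset.sum_const, Finset.card_range, nsmul_eq_mul,
      mul_one] at h6
    rw [ZMod.natCast_eq_zero_iff] at h6
    exact (Nat.not_even_iff_odd.2 hn) (even_iff_two_dvd.2 h6)
  · exact Units.ext (sub_eq_zero.1 h3)

theorem not_four (c : ℤ_[2]) : (-1 : ℤ_[2]) - 1 ≠ 4 * c := by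
  intro h
  have h1 : (2 : ℤ_[2]) * (2 * c + 1) = 0 := by linear_combination -h
  rcases mul_eq_zero.1 h1 with h2 | h2
  · exact two_ne_zero h2
  · have h3 := congrArg (PadicInt.toZMod (p := 2)) h2
    rw [map_add, map_mul, map_one, map_zero, map_ofNat] at h3
    revert h3
    generalize PadicInt.toZMod (p := 2) c = x
    revert x
    decide

theorem pow_ne (u : ℤ_[2]ˣ) (w : ℤ_[2]) (hu : (u : ℤ_[2]) = 1 + 4 * w) (hne : u ≠ 1) :
    ∀ n : ℕ, 0 < n → u ^ n ≠ 1 := by
  intro n
  induction n using Nat.strong_induction_on with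
  | _ n ih =>
    intro hn h
    rcases Nat.even_or_odd' n with ⟨m, hm | hm⟩
    · have hm0 : 0 < m := by omega
      have h1 : u ^ m ≠ 1 := ih m (by omega) hm0
      have h2 : ((u ^ m : ℤ_[2]ˣ) : ℤ_[2]) ^ 2 = 1 := by
        rw [← Units.val_pow_eq_pow_val, ← pow_mul, mul_comm, ← hm, h, Units.val_one]
      rcases sq_eq_one_iff.1 h2 with h3 | h3
      · exact h1 (Units.ext h3)
      · have h4 : (4 : ℤ_[2]) ∣ ((u ^ m : ℤ_[2]ˣ) : ℤ_[2]) - 1 := by
          have h5 : (u : ℤ_[2]) - 1 ∣ (u : ℤ_[2]) ^ m - 1 ^ m := sub_dvd_pow_sub_pow _ _ _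
          rw [one_pow, ← Units.val_pow_eq_pow_val] at h5
          refine dvd_trans ⟨w, ?_⟩ h5
          rw [hu]
          ring
        obtain ⟨c, hc⟩ := h4
        rw [h3] at hc
        exact not_four c hc
    · exact hne (odd_pow_eq_one u n ⟨m, hm⟩ h)

theorem zpow_ne (u : ℤ_[2]ˣ) (w : ℤ_[2]) (hu : (u : ℤ_[2]) = 1 + 4 * w) (hne : u ≠ 1) (r : ℤ)
    (hr : r ≠ 0) : u ^ r ≠ 1 := by
  intro h1
  have h2 : u ^ r.natAbs = 1 := by
    rcases Int.natAbs_eq r with h3 | h3
    · rw [h3, zpow_natCast] at h1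
      exact h1
    · rw [h3, zpow_neg, inv_eq_one, zpow_natCast] at h1
      exact h1
  exact pow_ne u w hu hne r.natAbs (Int.natAbs_pos.2 hr) h2

end INE

open ITRN in
theorem pr_NE (hND : StND.{u}) (hCY : StCY.{u}) : StNE.{u} := by
  intro K _ _ r hr Q hQ hpQ
  obtain ⟨i, hi⟩ := IsAlgClosed.exists_pow_nat_eq (-1 : AlgebraicClosure K) (n := 2) (by norm_num)
  have hint : IsIntegral K i := Algebra.IsIntegral.isIntegral i
  let K' : IntermediateField K (AlgebraicClosure K) := IntermediateField.adjoin K {i}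
  have hfin : FiniteDimensional K K' := IntermediateField.adjoin.finiteDimensional hint
  have hnf : NumberField K' := NumberField.of_module_finite K K'
  have halg : Algebra.IsAlgebraic K' (AlgebraicClosure K) := Algebra.IsAlgebraic.tower_top (K := K) K'
  have hac : IsAlgClosure K' (AlgebraicClosure K) := ⟨inferInstance, halg⟩
  let e : AlgebraicClosure K ≃ₐ[K'] AlgebraicClosure K' :=
    IsAlgClosure.equiv K' (AlgebraicClosure K) (AlgebraicClosure K')
  obtain ⟨Q', hQ'⟩ : ∃ Q', Q' = Q0 e.symm Q := ⟨_, rfl⟩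
  have hQp : Q'.IsPrime := by rw [hQ']; exact Q0_prime e.symm Q hQ
  have hQ2 : ((2 : ℕ) : 𝓞 (AlgebraicClosure K')) ∈ Q' := by
    rw [hQ', p_mem_Q0]
    exact hpQ
  have hQQ : Q0 e Q' = Q := by
    ext y
    rw [mem_Q0, hQ', mem_Q0]
    have : RingOfIntegers.mapRingEquiv (e.symm : AlgebraicClosure K' ≃+* AlgebraicClosure K)
        (RingOfIntegers.mapRingEquiv (e : AlgebraicClosure K ≃+* AlgebraicClosure K') y) = y := by
      apply RingOfIntegers.ext
      show e.symm (e (y : AlgebraicClosure K)) = y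
      exact e.symm_apply_apply _
    rw [this]
  obtain ⟨h', hd, hne⟩ := hND K' 1 odd_one Q' hQp hQ2
  have hd1 : Dec Q (cj e h') := by
    rw [← hQQ]
    exact dec_cj e Q' h' hd
  have htw : tw 2 1 (cj e h') = tw 2 1 h' := tw_cj 2 1 e h'
  refine ⟨(cj e h').restrictScalars K, hd1, ?_⟩
  have hii : (cj e h') i = i := by
    have hmem : i ∈ K' := IntermediateField.mem_adjoin_simple_self K i
    exact (cj e h').commutes ⟨i, hmem⟩
  have hi0 : i ≠ 0 := by
    rintro rfl
    rw [zero_pow two_ne_zero] at hi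
    exact one_ne_zero (neg_eq_zero.1 hi.symm)
  obtain ⟨w, hw⟩ : ∃ w : ℤ_[2], tw 2 1 (cj e h') = 1 + 4 * w := by
    rcases hCY K' (AlgebraicClosure K) 1 odd_one i hi (cj e h') with ⟨-, h1⟩ | ⟨h1, -⟩
    · exact h1
    · exfalso
      rw [hii] at h1
      exact hi0 (self_eq_neg.1 h1)
  rw [← htw] at hne
  have hu1 : tw 2 1 (cj e h') = ((cyclotomicCharacter (AlgebraicClosure K) 2
      ((cj e h' : AlgebraicClosure K ≃ₐ[K'] AlgebraicClosure K) :
        AlgebraicClosure K ≃+* AlgebraicClosure K) : ℤ_[2]ˣ) : ℤ_[2]) := by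
    unfold tw
    rw [zpow_one]
  rw [hu1] at hw hne
  have hfin := INE.zpow_ne _ w hw (fun h => hne (by rw [h, Units.val_one])) r hr
  intro hc
  exact hfin (Units.ext hc)

end Pool.Agent.Work.MP_59f3ad_nt.QD
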