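import Mathlib
import Pool.Agent.Work.MP_59f3ad_nt.QD.StmtsE

/-!
Block QD, item QA: symbols.
-/

set_option autoImplicit false

open NumberField IsDedekindDomain

namespace Pool.Agent.Work.MP_59f3ad_nt.QD

open Pool.Agent.Work.MP_59f3ad_nt.FE
open Pool.Agent.Work.MP_59f3ad_nt.PX

universe u

/-- item QA -/
theorem pr_QA : StQA.{u} := by
  intro F _ a m ha hm h1 h2
  obtain ⟨p, q, h1⟩ := h1
  obtain ⟨y, z, h2⟩ := h2
  have hq : q ≠ 0 := by
    intro h
    exact ha p (by rw [h1, h]; ring)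
  have hz : z ≠ 0 := by
    intro h
    exact ha y (by rw [h2, h]; ring)
  have hQ : p + y ≠ 0 := by
    intro h
    apply hm ((p * y + a) / (q * z))
    rw [div_pow, div_eq_iff (pow_ne_zero 2 (mul_ne_zero hq hz))]
    have e1 : (p * y + a) ^ 2 - a * (p + y) ^ 2 = -m * (q * z) ^ 2 := by
      have e2 : q ^ 2 = a - p ^ 2 := by rw [h1]; ring
      have e3 : m * z ^ 2 = y ^ 2 - a := by rw [h2]; ring
      have e4 : -m * (q * z) ^ 2 = -(m * z ^ 2) * q ^ 2 := by ring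
      rw [e4, e2, e3]
      ring
    rw [← e1, h]
    ring
  refine ⟨(p * y + a) / (p + y), q * z / (p + y), ?_⟩
  have e1 : (p * y + a) ^ 2 + m * (q * z) ^ 2 = a * (p + y) ^ 2 := by
    have e2 : q ^ 2 = a - p ^ 2 := by rw [h1]; ring
    have e3 : m * z ^ 2 = y ^ 2 - a := by rw [h2]; ring
    have e4 : m * (q * z) ^ 2 = (m * z ^ 2) * q ^ 2 := by ring
    rw [e4, e2, e3]
    ring
  have e5 : ((p * y + a) / (p + y)) ^ 2 + m * (q * z / (p + y)) ^ 2 =
      ((p * y + a) ^ 2 + m * (q * z) ^ 2) / (p + y) ^ 2 := by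
    rw [div_pow, div_pow]
    ring
  rw [e5, e1, mul_div_cancel_right₀ _ (pow_ne_zero 2 hQ)]

end Pool.Agent.Work.MP_59f3ad_nt.QD
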