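import Mathlib
import Pool.Agent.Work.MP_59f3ad_nt.QD.StmtsE

/-!
Block QD, item RF: a bad tuple satisfies two relations (even twists).
-/

set_option autoImplicit false

open NumberField IsDedekindDomain

namespace Pool.Agent.Work.MP_59f3ad_nt.QD

open Pool.Agent.Work.MP_59f3ad_nt.FE
open Pool.Agent.Work.MP_59f3ad_nt.PX

universe u

namespace IRF

theorem eqv {F : Type u} [Field F] [NumberField F] {p : ℕ} {D D' d : 𝓞 F}
    (h1 : Eqv p D d) (h2 : Eqv p D' d) : Eqv p D D' := by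
  obtain ⟨g, g', hg, hg', e1⟩ := h1
  obtain ⟨h, h', hh, hh', e2⟩ := h2
  refine ⟨h' * g, g' * h, mul_ne_zero hh' hg, mul_ne_zero hg' hh, ?_⟩
  calc (h' * g) ^ p * D = h' ^ p * (g ^ p * D) := by ring
    _ = h' ^ p * (g' ^ p * d) := by rw [e1]
    _ = g' ^ p * (h' ^ p * d) := by ring
    _ = g' ^ p * (h ^ p * D') := by rw [e2]
    _ = (g' * h) ^ p * D' := by ring

theorem exists_above (F : Type u) [Field F] [NumberField F] :
    ∃ v : HeightOneSpectrum (𝓞 F), v ∈ Sp F 2 := by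
  have hpu : ¬ IsUnit ((2 : ℕ) : 𝓞 F) := by
    intro h
    have h1 := (Ideal.absNorm_eq_one_iff (I := Ideal.span {((2 : ℕ) : 𝓞 F)})).mpr
      (Ideal.span_singleton_eq_top.mpr h)
    rw [Ideal.absNorm_span_natCast] at h1
    have h2 : 0 < Module.finrank ℤ (𝓞 F) := Module.finrank_pos
    exact absurd ((Nat.pow_eq_one.mp h1).resolve_right h2.ne') (by norm_num)
  obtain ⟨M, hM, hle⟩ := Ideal.exists_le_maximal (Ideal.span {((2 : ℕ) : 𝓞 F)})
    (fun h => hpu (Ideal.span_singleton_eq_top.mp h))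
  have hmem : ((2 : ℕ) : 𝓞 F) ∈ M := hle (Ideal.mem_span_singleton_self _)
  have h20 : ((2 : ℕ) : 𝓞 F) ≠ 0 := by
    exact_mod_cast (two_ne_zero : (2 : 𝓞 F) ≠ 0)
  refine ⟨⟨M, hM.isPrime, ?_⟩, hmem⟩
  rintro rfl
  exact h20 ((Submodule.mem_bot _).mp hmem)

end IRF

/-- Item RF. -/
theorem pr_RF (hDE : StDE.{u}) (hR1 : StR1.{u}) (hR2 : StR2.{u}) (hR3 : StR3.{u})
    (hLQ : StLQ.{u}) : StRF.{u} := by
  classical
  intro F _ _ ind hind t m0 x π hC R hRd hR hbad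
  simp only [Ge, not_forall] at hbad
  obtain ⟨L, iL, nL, aL, y, hfr, hy, r, hr, hr0, hSF, S, hS, hne⟩ := hbad
  obtain ⟨h0, -⟩ := hLQ F t m0 x π hC
  obtain ⟨a, hDq⟩ := hDE F t m0 π hC.ht hC.m0n hC.pr hC.np hC.na hC.nm0 h0 L y hfr hy r hr hr0 hSF S
    hS hne
  obtain ⟨e0, D0, g0, hQ0⟩ := hR1 F t m0 x π hC a hDq 0
  obtain ⟨e1, D1, g1, hQ1⟩ := hR1 F t m0 x π hC a hDq 1
  have n0 := hR3 F t m0 x π hC a hDq 0 e0 D0 g0 hQ0
  have n1 := hR3 F t m0 x π hC a hDq 1 e1 D1 g1 hQ1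
  obtain ⟨d0, hd0, hE0⟩ := hR e0 D0 n0 hQ0.wit
  obtain ⟨d1, hd1, hE1⟩ := hR e1 D1 n1 hQ1.wit
  have hne' : (e0, d0) ≠ (e1, d1) := by
    intro h
    obtain ⟨he, hd⟩ := Prod.mk.inj h
    subst he
    subst hd
    obtain ⟨u, w, hu, hw, huw⟩ := IRF.eqv hE0 hE1
    have q0 := hQ0.eq
    have q1 := hQ1.eq
    rw [pow_zero, mul_one] at q0
    rw [pow_one] at q1
    have huF : (u : F) ≠ 0 := fun h => hu (RingOfIntegers.coe_eq_zero_iff.mp h)
    have hwF : (w : F) ≠ 0 := fun h => hw (RingOfIntegers.coe_eq_zero_iff.mp h)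
    have huw' : (u : F) ^ 2 * (D0 : F) = (w : F) ^ 2 * (D1 : F) := by
      have h8 := congrArg (fun z : 𝓞 F => (z : F)) huw
      simp only [map_mul, map_pow] at h8
      exact h8
    simp only [map_mul] at q0 q1
    generalize algebraMap (𝓞 F) F (∏ i, π i ^ (e0 i).val) = E at q0 q1
    have h9 : a * (g0 * u) ^ 2 = a * (-(Mq m0 π : F) * (g1 * w) ^ 2) := by
      calc a * (g0 * u) ^ 2 = (a * g0 ^ 2) * (u : F) ^ 2 := by ring
        _ = ((u : F) ^ 2 * (D0 : F)) * E := by rw [q0]; ring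
        _ = ((w : F) ^ 2 * (D1 : F)) * E := by rw [huw']
        _ = (a * (-(Mq m0 π : F)) * g1 ^ 2) * (w : F) ^ 2 := by rw [q1]; ring
        _ = a * (-(Mq m0 π : F) * (g1 * w) ^ 2) := by ring
    have h10 := mul_left_cancel₀ hDq.ne h9
    have h11 : (g1 * (w : F)) ≠ 0 := mul_ne_zero hQ1.gn hwF
    have h12 : (g0 * u / (g1 * w)) ^ 2 = -(Mq m0 π : F) := by
      rw [div_pow, h10, mul_div_assoc, div_self (pow_ne_zero 2 h11), mul_one]
    obtain ⟨v, hv⟩ := IRF.exists_above F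
    refine (h0 v hv).2 ⟨algebraMap F (v.adicCompletion F) (g0 * u / (g1 * w)), ?_⟩
    rw [← map_pow, h12]
  refine ⟨{(e0, d0), (e1, d1)}, Finset.card_pair hne', ?_⟩
  intro b hb
  rw [Finset.mem_insert, Finset.mem_singleton] at hb
  rcases hb with rfl | rfl
  · exact ⟨hd0, n0, fun k => hR2 F ind hind t m0 x π hC a hDq 0 e0 D0 g0 hQ0 d0 hE0 (hRd _ hd0) k⟩
  · exact ⟨hd1, n1, fun k => hR2 F ind hind t m0 x π hC a hDq 1 e1 D1 g1 hQ1 d1 hE1 (hRd _ hd1) k⟩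

end Pool.Agent.Work.MP_59f3ad_nt.QD
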