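import Pool.Agent.Work.MP_59f3ad_nt.QD.StmtsE

/-!
Item SS of block QD (helper52): the radicand of a quadratic extension which is contained in a cyclic
extension of degree `4` is a sum of two squares.
-/

set_option autoImplicit false

open NumberField IsDedekindDomain

namespace Pool.Agent.Work.MP_59f3ad_nt.QD

open Pool.Agent.Work.MP_59f3ad_nt.FE
open Pool.Agent.Work.MP_59f3ad_nt.PX

universe u

namespace ISS

/-- Reduction modulo `4`. -/
noncomputable def red : ℤ_[2] →+* ZMod (2 ^ 2) := PadicInt.toZModPow 2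

theorem four_dvd (x : ℤ_[2]) : (4 : ℤ_[2]) ∣ x ↔ red x = 0 := by
  have e : ((2 : ℕ) : ℤ_[2]) ^ 2 = 4 := by norm_num
  unfold red
  rw [← RingHom.mem_ker, PadicInt.ker_toZModPow, Ideal.mem_span_singleton, e]

theorem two_dvd (x : ℤ_[2]) : ((2 : ℕ) : ℤ_[2]) ∣ x ↔ (red x = 0 ∨ red x = 2) := by
  constructor
  · rintro ⟨y, rfl⟩
    rw [map_mul, map_natCast]
    generalize red y = t
    revert t
    decide
  · intro h
    have h1 : (4 : ℤ_[2]) ∣ x ∨ (4 : ℤ_[2]) ∣ x - 2 := by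
      rcases h with h | h
      · exact Or.inl ((four_dvd x).2 h)
      · refine Or.inr ((four_dvd (x - 2)).2 ?_)
        rw [map_sub, h, map_ofNat, sub_self]
    rcases h1 with ⟨y, hy⟩ | ⟨y, hy⟩
    · exact ⟨2 * y, by rw [hy]; push_cast; ring⟩
    · refine ⟨1 + 2 * y, ?_⟩
      have : x = 2 + 4 * y := by rw [← hy]; ring
      rw [this]
      push_cast
      ring

theorem odd_cases (t : ZMod (2 ^ 2)) (h : ¬ (t = 0 ∨ t = 2)) : t + t = 2 := by
  revert t
  decide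

theorem odd_sub (s t : ZMod (2 ^ 2)) (hs : ¬ (s = 0 ∨ s = 2)) (ht : ¬ (t = 0 ∨ t = 2)) :
    -s + t = 0 ∨ -s + t = 2 := by
  revert s t
  decide

end ISS

/-- SS -/
theorem pr_SS (hC4 : StC4.{u}) : StSS.{u} := by
  intro k Ω _ _ _ _ _ f hf hhom hodd E a ha hE hEf
  obtain ⟨w, hw0, hw⟩ := hC4 k Ω f hf hhom hodd
  obtain ⟨τ, hτ⟩ := hodd
  obtain ⟨F, hFdef⟩ : ∃ F : (Ω ≃ₐ[k] Ω) → ZMod (2 ^ 2), F = fun g => ISS.red (f g) := ⟨_, rfl⟩
  have hF : ∀ g h, F (g * h) = F g + F h := by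
    intro g h
    have h1 := (ISS.four_dvd _).1 (hhom g h)
    rw [map_sub, map_add, sub_eq_zero] at h1
    rw [hFdef]
    exact h1
  have hw4 : ∀ g, F g = 0 → g w = w := by
    intro g hg
    rw [hFdef] at hg
    exact (hw g).1 ((ISS.four_dvd _).2 hg)
  have hw2 : ∀ g, F g = 2 → g w = -w := by
    intro g hg
    rw [hFdef] at hg
    refine (hw g).2 ((ISS.four_dvd _).2 ?_)
    rw [map_sub, map_ofNat, sub_eq_zero]
    exact hg
  have hE1 : ∀ g, (F g = 0 ∨ F g = 2) → g E = E := by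
    intro g hg
    rw [hFdef] at hg
    exact (hEf g).1 ((ISS.two_dvd _).2 hg)
  have hτF : ¬ (F τ = 0 ∨ F τ = 2) := by
    rw [hFdef]
    exact fun h => hτ ((ISS.two_dvd _).2 h)
  have hF1 : F 1 = 0 := by
    have h1 := hF 1 1
    rw [mul_one] at h1
    exact left_eq_add.1 h1
  have hFinv : ∀ g, F g⁻¹ = -F g := by
    intro g
    have h1 := hF g⁻¹ g
    rw [inv_mul_cancel, hF1] at h1
    exact eq_neg_of_add_eq_zero_left h1.symm
  have hconj : ∀ h, F (τ⁻¹ * h * τ) = F h := by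
    intro h
    rw [hF, hF, hFinv]
    ring
  have happ : ∀ h : Ω ≃ₐ[k] Ω, h (τ w) = τ ((τ⁻¹ * h * τ) w) := by
    intro h
    have e1 : (τ * (τ⁻¹ * h * τ)) w = (h * τ) w := by
      congr 1
      group
    exact e1.symm
  -- the sign
  have hsig : ∀ h, (F h = 0 ∨ F h = 2) → (h w = w ∧ h (τ w) = τ w) ∨
      (h w = -w ∧ h (τ w) = -τ w) := by
    intro h hh
    rcases hh with hh | hh
    · refine Or.inl ⟨hw4 h hh, ?_⟩
      rw [happ, hw4 _ ((hconj h).trans hh)]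
    · refine Or.inr ⟨hw2 h hh, ?_⟩
      rw [happ, hw2 _ ((hconj h).trans hh), map_neg]
  have hττ : τ (τ w) = -w := by
    have h1 : F (τ * τ) = 2 := by
      rw [hF]
      exact ISS.odd_cases _ hτF
    exact hw2 _ h1
  have hE0 : E ≠ 0 := by
    intro h
    rw [h] at hE
    refine ha ((map_eq_zero (algebraMap k Ω)).1 ?_)
    rw [← hE]
    ring
  have hτE : τ E = -E := by
    have h1 : (τ E) ^ 2 = E ^ 2 := by
      rw [← map_pow, hE, AlgEquiv.commutes]
    rcases sq_eq_sq_iff_eq_or_eq_neg.1 h1 with h2 | h2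
    · exact absurd ((hEf τ).2 h2) hτ
    · exact h2
  have hfix : ∀ y : Ω, (∀ h, (F h = 0 ∨ F h = 2) → h y = y) → τ y = y →
      ∃ z : k, algebraMap k Ω z = y := by
    intro y hy hτy
    have h1 : ∀ g : Ω ≃ₐ[k] Ω, g y = y := by
      intro g
      by_cases hg : F g = 0 ∨ F g = 2
      · exact hy g hg
      · have h2 : F (τ⁻¹ * g) = 0 ∨ F (τ⁻¹ * g) = 2 := by
          rw [hF, hFinv]
          exact ISS.odd_sub _ _ hτF hg
        have h3 := hy _ h2
        have h4 : τ ((τ⁻¹ * g) y) = g y := by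
          have e1 : (τ * (τ⁻¹ * g)) y = g y := by
            congr 1
            group
          exact e1
        rw [← h4, h3, hτy]
    have h5 := (InfiniteGalois.mem_range_algebraMap_iff_fixed (k := k) (K := Ω) y).2 h1
    exact h5
  have hτw0 : τ w ≠ 0 := fun h => hw0 ((map_eq_zero τ).1 h)
  have h2Ω : (2 : Ω) ≠ 0 := by
    have : CharZero Ω := charZero_of_injective_algebraMap (algebraMap k Ω).injective
    exact two_ne_zero
  obtain ⟨l, hl⟩ := hfix (w * τ w / E) (by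
    intro h hh
    rw [map_div₀, map_mul, hE1 h hh]
    rcases hsig h hh with ⟨h1, h2⟩ | ⟨h1, h2⟩
    · rw [h1, h2]
    · rw [h1, h2, neg_mul_neg]) (by
    rw [map_div₀, map_mul, hττ, hτE]
    field_simp)
  obtain ⟨g1, hg1⟩ := hfix ((w ^ 2 + (τ w) ^ 2) / 2) (by
    intro h hh
    rw [map_div₀, map_add, map_pow, map_pow, map_ofNat]
    rcases hsig h hh with ⟨h1, h2⟩ | ⟨h1, h2⟩
    · rw [h1, h2]
    · rw [h1, h2, neg_sq, neg_sq]) (by
    rw [map_div₀, map_add, map_pow, map_pow, map_ofNat, hττ, neg_sq, add_comm])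
  obtain ⟨g2, hg2⟩ := hfix ((w ^ 2 - (τ w) ^ 2) / (2 * E)) (by
    intro h hh
    rw [map_div₀, map_sub, map_pow, map_pow, map_mul, map_ofNat, hE1 h hh]
    rcases hsig h hh with ⟨h1, h2⟩ | ⟨h1, h2⟩
    · rw [h1, h2]
    · rw [h1, h2, neg_sq, neg_sq]) (by
    rw [map_div₀, map_sub, map_pow, map_pow, map_mul, map_ofNat, hττ, neg_sq, hτE]
    field_simp
    ring)
  have hl0 : l ≠ 0 := by
    intro h
    rw [h, map_zero] at hl
    exact div_ne_zero (mul_ne_zero hw0 hτw0) hE0 hl.symm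
  have hkey : a * (g2 ^ 2 + l ^ 2) = g1 ^ 2 := by
    apply (algebraMap k Ω).injective
    rw [map_mul, map_add, map_pow, map_pow, map_pow, hl, hg1, hg2, ← hE]
    field_simp
    ring
  by_cases hN : g2 ^ 2 + l ^ 2 = 0
  · have h2k : (2 : k) ≠ 0 := two_ne_zero
    refine ⟨(a + 1) / 2, g2 / l * (a - 1) / 2, ?_⟩
    have h1 : (g2 / l) ^ 2 = -1 := by
      rw [div_pow, div_eq_iff (pow_ne_zero 2 hl0)]
      linear_combination hN
    have h2 : (g2 / l * (a - 1) / 2) ^ 2 = (g2 / l) ^ 2 * ((a - 1) / 2) ^ 2 := by ring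
    rw [h2, h1]
    field_simp
    ring
  · refine ⟨g1 * g2 / (g2 ^ 2 + l ^ 2), g1 * l / (g2 ^ 2 + l ^ 2), ?_⟩
    have h3 : (g1 * g2 / (g2 ^ 2 + l ^ 2)) ^ 2 + (g1 * l / (g2 ^ 2 + l ^ 2)) ^ 2 =
        g1 ^ 2 / (g2 ^ 2 + l ^ 2) := by
      field_simp
    rw [h3, eq_div_iff hN, hkey]

end Pool.Agent.Work.MP_59f3ad_nt.QD
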