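import Mathlib
import Pool.Agent.Work.MP_59f3ad_nt.QD.StmtsE

/-!
# Item TE: even twists are `1` modulo `4`
-/

set_option autoImplicit false

open NumberField IsDedekindDomain

namespace Pool.Agent.Work.MP_59f3ad_nt.QD

open Pool.Agent.Work.MP_59f3ad_nt.FE
open Pool.Agent.Work.MP_59f3ad_nt.PX

universe u

namespace ITE

theorem sq4 : ∀ w : (ZMod 4)ˣ, w ^ 2 = 1 := by decide

end ITE

/-- Item TE. -/
theorem pr_TE : StTE.{u} := by
  intro k Ω _ _ _ r hr h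
  obtain ⟨t, ht⟩ := hr
  set f := PadicInt.toZModPow (p := 2) 2 with hf
  have hsq : ∀ w : (ZMod (2 ^ 2))ˣ, w ^ 2 = 1 := ITE.sq4
  have h2 : Units.map (f : ℤ_[2] →* ZMod (2 ^ 2))
      (cyclotomicCharacter Ω 2 (h : Ω ≃+* Ω) ^ r) = 1 := by
    rw [map_zpow, ht, ← two_mul, zpow_mul]
    have h3 := hsq (Units.map (f : ℤ_[2] →* ZMod (2 ^ 2)) (cyclotomicCharacter Ω 2 (h : Ω ≃+* Ω)))
    rw [← zpow_natCast] at h3
    rw [show ((2 : ℕ) : ℤ) = 2 by rfl] at h3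
    rw [h3, one_zpow]
  have h3 : f (tw 2 r h) = 1 := congrArg Units.val h2
  have h4 : tw 2 r h - 1 ∈ RingHom.ker f := by
    rw [RingHom.mem_ker, map_sub, h3, map_one, sub_self]
  rw [hf, PadicInt.ker_toZModPow, Ideal.mem_span_singleton] at h4
  have e : (((2 : ℕ) : ℤ_[2]) ^ 2) = 4 := by norm_num
  rwa [e] at h4

end Pool.Agent.Work.MP_59f3ad_nt.QD
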