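import Mathlib
import Pool.Agent.Work.MP_59f3ad_nt.QD.StmtsE
import Pool.Agent.Work.MP_59f3ad_nt.PX.I_TR1

/-!
Block QD, item U1: at a place above `2` the element `a` of `Be` becomes a square after multiplication
by a power of `m`.
-/

set_option autoImplicit false

open NumberField IsDedekindDomain

namespace Pool.Agent.Work.MP_59f3ad_nt.QD

open Pool.Agent.Work.MP_59f3ad_nt.FE
open Pool.Agent.Work.MP_59f3ad_nt.PX

universe u

namespace IU1

theorem eq_or_neg {Ω : Type u} [Field Ω] {a b : Ω} (h : a ^ 2 = b ^ 2) : a = b ∨ a = -b :=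
  sq_eq_sq_iff_eq_or_eq_neg.1 h

end IU1

open IU1 PX.ITR1 in
/-- U1 -/
theorem pr_U1 (hDEX : StDEX.{u}) (hLG : PX.StLG.{u}) (hGX : StGX.{u}) : StU1.{u} := by
  intro F L _ _ _ _ _ ζ m x σ hC v hv hm A a hB
  have hcl := isAlg F L
  obtain ⟨Q, hQ, hQv⟩ := exists_over F L v
  have hpQ : ((2 : ℕ) : 𝓞 (AlgebraicClosure L)) ∈ Q := by
    have h1 : ((2 : ℕ) : 𝓞 F) ∈ v.asIdeal := hv
    rw [← hQv, Ideal.mem_comap, map_natCast] at h1
    exact h1
  have : Fact (Nat.Prime 2) := ⟨Nat.prime_two⟩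
  obtain ⟨s, hsD, hsE⟩ := hDEX F L 2 ζ m x σ hC v hm Q hQ hQv
  obtain ⟨-, hG, -⟩ := hGX F L 2 ζ m x σ hC
  set X : AlgebraicClosure L := algebraMap L (AlgebraicClosure L) x with hX
  have hXm : X ^ 2 = algebraMap F (AlgebraicClosure L) m := by
    rw [hX, ← map_pow, hC.hx, ← IsScalarTower.algebraMap_apply]
  have hζ : ζ = -1 := hC.hζ.eq_neg_one_of_two_right
  have hsX : s X = -X := by
    rw [hX, hsE x, hC.hσ, hζ, map_neg, map_one, neg_one_mul, map_neg]
  have hsA : s A = A ∨ s A = -A := by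
    apply eq_or_neg
    rw [← map_pow, hB.hA, AlgEquiv.commutes]
  obtain ⟨k, hk⟩ : ∃ k : ℕ, s (A * X ^ k) = A * X ^ k := by
    rcases hsA with h | h
    · exact ⟨0, by rw [pow_zero, mul_one, h]⟩
    · exact ⟨1, by rw [pow_one, map_mul, h, hsX, neg_mul_neg]⟩
  refine ⟨k, ?_⟩
  -- elements of the decomposition group which fix X
  have key : ∀ g : AlgebraicClosure L ≃ₐ[F] AlgebraicClosure L, Dec Q g → g X = X →
      g (A * X ^ k) = A * X ^ k := by
    intro g hg hgX
    obtain ⟨h, hh⟩ := hG g hgX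
    have hDh : Dec Q h := by
      intro y y' hy
      exact hg y y' (by rw [hy, hh])
    have hhA : h A = A := hB.dec Q hQ hpQ h hDh
    rw [map_mul, map_pow, hgX, ← hh A, hhA]
  refine hLG F (AlgebraicClosure L) 2 v Q hQ hQv (A * X ^ k) (a * m ^ k) ?_ ?_
  · rw [mul_pow, hB.hA, ← pow_mul, mul_comm k 2, pow_mul, hXm]
    simp only [map_mul, map_pow]
  · intro g hg
    have hgX : g X = X ∨ g X = -X := by
      apply eq_or_neg
      rw [← map_pow, hXm, AlgEquiv.commutes]
    rcases hgX with hgX | hgX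
    · exact key g hg hgX
    · have hs' : s⁻¹ X = -X := by
        have h1 : s⁻¹ (s X) = X := s.symm_apply_apply X
        rw [hsX, map_neg] at h1
        rw [← h1, neg_neg, h1]
      have hg' : (s⁻¹ * g) X = X := by
        rw [AlgEquiv.mul_apply, hgX, map_neg, hs', neg_neg]
      have h1 := key (s⁻¹ * g) (dec_mul (dec_inv hsD) hg) hg'
      have h2 : g = s * (s⁻¹ * g) := by group
      rw [h2, AlgEquiv.mul_apply, h1, hk]

end Pool.Agent.Work.MP_59f3ad_nt.QD
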