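import Mathlib
import Pool.Agent.Work.MP_59f3ad_nt.QD.StmtsE

/-!
Block QD, item UM: the tame symbol for `p = 2`, elementary.
-/

set_option autoImplicit false

open NumberField IsDedekindDomain

namespace Pool.Agent.Work.MP_59f3ad_nt.QD

open Pool.Agent.Work.MP_59f3ad_nt.FE
open Pool.Agent.Work.MP_59f3ad_nt.PX

universe u

namespace IUM

/-- an inverse modulo a prime element -/
theorem inv_mod {R : Type u} [CommRing R] [IsDedekindDomain R] {π : R} (hπ : Prime π) {N : R}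
    (hN : ¬ π ∣ N) : ∃ s : R, π ∣ N * s - 1 := by
  have hp : (Ideal.span {π}).IsPrime := (Ideal.span_singleton_prime hπ.ne_zero).2 hπ
  have hb : Ideal.span {π} ≠ ⊥ := by
    intro h
    exact hπ.ne_zero (Ideal.span_singleton_eq_bot.1 h)
  have hmax : (Ideal.span {π}).IsMaximal := hp.isMaximal hb
  have hx : N ∉ Ideal.span {π} := by
    rw [Ideal.mem_span_singleton]
    exact hN
  obtain ⟨s, i, hi, h⟩ := hmax.exists_inv hx
  rw [Ideal.mem_span_singleton] at hi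
  refine ⟨s, ?_⟩
  have h1 : N * s - 1 = -i := by linear_combination h
  rw [h1]
  exact (dvd_neg).2 hi

theorem key {R : Type u} [CommRing R] [IsDedekindDomain R] {π : R} (hπ : Prime π) {N N'' C : R}
    (hN : ¬ π ∣ N) (hC : ¬ π ∣ C) : ∀ (n : ℕ) (a b : R),
    π ^ n * N'' * C ^ 2 = a ^ 2 + π * N * b ^ 2 → ∃ u : R, π ∣ u ^ 2 - N'' * N ^ n := by
  obtain ⟨s, c, hs⟩ := inv_mod hπ hC
  intro n
  induction n using Nat.twoStepInduction with
  | zero =>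
    intro a b h
    refine ⟨a * s, ?_⟩
    -- `a^2 = N'' C^2 - π N b^2`, `C s = 1 + π c`
    refine ⟨-(N * b ^ 2 * s ^ 2) + N'' * c * (2 + π * c), ?_⟩
    have h1 : C * s = 1 + π * c := by linear_combination hs
    have h2 : (C * s) ^ 2 = (1 + π * c) ^ 2 := by rw [h1]
    linear_combination (-(s ^ 2)) * h + N'' * h2
  | one =>
    intro a b h
    have ha : π ∣ a := by
      apply hπ.dvd_of_dvd_pow (n := 2)
      exact ⟨N'' * C ^ 2 - N * b ^ 2, by linear_combination -h⟩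
    obtain ⟨a₁, rfl⟩ := ha
    have h3 : N'' * C ^ 2 = π * a₁ ^ 2 + N * b ^ 2 := by
      apply mul_left_cancel₀ hπ.ne_zero
      linear_combination h
    refine ⟨N * b * s, ?_⟩
    refine ⟨-(N * a₁ ^ 2 * s ^ 2) + N'' * N * c * (2 + π * c), ?_⟩
    have h1 : C * s = 1 + π * c := by linear_combination hs
    have h2 : (C * s) ^ 2 = (1 + π * c) ^ 2 := by rw [h1]
    linear_combination (-(N * s ^ 2)) * h3 + N'' * N * h2
  | more n ih _ =>
    intro a b h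
    have ha : π ∣ a := by
      apply hπ.dvd_of_dvd_pow (n := 2)
      exact ⟨π ^ (n + 1) * N'' * C ^ 2 - N * b ^ 2, by linear_combination -h⟩
    obtain ⟨a₁, rfl⟩ := ha
    have h3 : π ^ (n + 1) * N'' * C ^ 2 = π * a₁ ^ 2 + N * b ^ 2 := by
      apply mul_left_cancel₀ hπ.ne_zero
      linear_combination h
    have hb : π ∣ b := by
      have h4 : π ∣ N * b ^ 2 := ⟨π ^ n * N'' * C ^ 2 - a₁ ^ 2, by linear_combination -h3⟩
      rcases hπ.dvd_or_dvd h4 with h5 | h5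
      · exact absurd h5 hN
      · exact hπ.dvd_of_dvd_pow h5
    obtain ⟨b₁, rfl⟩ := hb
    have h6 : π ^ n * N'' * C ^ 2 = a₁ ^ 2 + π * N * b₁ ^ 2 := by
      apply mul_left_cancel₀ hπ.ne_zero
      linear_combination h3
    obtain ⟨u, w, hu⟩ := ih a₁ b₁ h6
    refine ⟨u * N, w * N ^ 2, ?_⟩
    linear_combination N ^ 2 * hu

end IUM

theorem pr_UM : StUM.{u} := by
  intro F _ _ π N N'' e y z hπ hN hN'' h
  obtain ⟨a₁, c₁, hc₁, rfl⟩ := IsFractionRing.div_surjective (A := 𝓞 F) y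
  obtain ⟨b₁, c₂, hc₂, rfl⟩ := IsFractionRing.div_surjective (A := 𝓞 F) z
  have hc₁0 : c₁ ≠ 0 := nonZeroDivisors.ne_zero hc₁
  have hc₂0 : c₂ ≠ 0 := nonZeroDivisors.ne_zero hc₂
  have hc0 : c₁ * c₂ ≠ 0 := mul_ne_zero hc₁0 hc₂0
  obtain ⟨γ, C, hC, hcC⟩ := WfDvdMonoid.max_power_factor hc0 hπ.irreducible
  have hinj := IsFractionRing.injective (𝓞 F) F
  have h1 : algebraMap (𝓞 F) F c₁ ≠ 0 := fun hh => hc₁0 (hinj (by rw [hh, map_zero]))
  have h2 : algebraMap (𝓞 F) F c₂ ≠ 0 := fun hh => hc₂0 (hinj (by rw [hh, map_zero]))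
  have h3 : π ^ e * N'' * (c₁ * c₂) ^ 2 = (a₁ * c₂) ^ 2 + π * N * (b₁ * c₁) ^ 2 := by
    apply hinj
    have h' : algebraMap (𝓞 F) F (π ^ e * N'') = (algebraMap (𝓞 F) F a₁ / algebraMap (𝓞 F) F c₁) ^ 2 +
        algebraMap (𝓞 F) F (π * N) * (algebraMap (𝓞 F) F b₁ / algebraMap (𝓞 F) F c₂) ^ 2 := h
    have h4 : algebraMap (𝓞 F) F (π ^ e * N'' * (c₁ * c₂) ^ 2) =
        algebraMap (𝓞 F) F (π ^ e * N'') *
          (algebraMap (𝓞 F) F c₁ * algebraMap (𝓞 F) F c₂) ^ 2 := by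
      simp only [map_mul, map_pow]
    have h5 : algebraMap (𝓞 F) F ((a₁ * c₂) ^ 2 + π * N * (b₁ * c₁) ^ 2) =
        (algebraMap (𝓞 F) F a₁ * algebraMap (𝓞 F) F c₂) ^ 2 + algebraMap (𝓞 F) F (π * N) *
          (algebraMap (𝓞 F) F b₁ * algebraMap (𝓞 F) F c₁) ^ 2 := by
      simp only [map_mul, map_pow, map_add]
    rw [h4, h5, h']
    field_simp
  have h6 : π ^ (e + 2 * γ) * N'' * C ^ 2 = (a₁ * c₂) ^ 2 + π * N * (b₁ * c₁) ^ 2 := by
    rw [← h3, hcC]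
    ring
  obtain ⟨u, hu⟩ := IUM.key hπ hN hC (e + 2 * γ) _ _ h6
  obtain ⟨s, hs⟩ := IUM.inv_mod hπ hN
  refine ⟨u * s ^ γ, ?_⟩
  have h7 : π ∣ (N * s) ^ (2 * γ) - 1 :=
    hs.trans (sub_one_dvd_pow_sub_one (N * s) (2 * γ))
  have h8 : (u * s ^ γ) ^ 2 - N'' * N ^ e = s ^ (2 * γ) * (u ^ 2 - N'' * N ^ (e + 2 * γ)) +
      N'' * N ^ e * ((N * s) ^ (2 * γ) - 1) := by
    rw [pow_add, mul_pow N s]
    ring
  rw [h8]
  exact dvd_add (hu.mul_left _) (h7.mul_left _)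

end Pool.Agent.Work.MP_59f3ad_nt.QD
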