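import Mathlib
import Pool.Agent.Work.MP_59f3ad_nt.QD.All
import Pool.Agent.Work.MP_59f3ad_nt.QD.StmtsE
import Pool.Agent.Work.MP_59f3ad_nt.QD.I_FX
import Pool.Agent.Work.MP_59f3ad_nt.QD.I_TE
import Pool.Agent.Work.MP_59f3ad_nt.QD.I_NE
import Pool.Agent.Work.MP_59f3ad_nt.QD.I_BF
import Pool.Agent.Work.MP_59f3ad_nt.QD.I_SG
import Pool.Agent.Work.MP_59f3ad_nt.QD.I_C4
import Pool.Agent.Work.MP_59f3ad_nt.QD.I_LE
import Pool.Agent.Work.MP_59f3ad_nt.QD.I_BG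
import Pool.Agent.Work.MP_59f3ad_nt.QD.I_SS
import Pool.Agent.Work.MP_59f3ad_nt.QD.I_QA
import Pool.Agent.Work.MP_59f3ad_nt.QD.I_BH
import Pool.Agent.Work.MP_59f3ad_nt.QD.I_BI
import Pool.Agent.Work.MP_59f3ad_nt.QD.I_EXE
import Pool.Agent.Work.MP_59f3ad_nt.QD.I_IE
import Pool.Agent.Work.MP_59f3ad_nt.QD.I_U1
import Pool.Agent.Work.MP_59f3ad_nt.QD.I_U2
import Pool.Agent.Work.MP_59f3ad_nt.QD.I_UM
import Pool.Agent.Work.MP_59f3ad_nt.QD.I_UT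
import Pool.Agent.Work.MP_59f3ad_nt.QD.I_DE
import Pool.Agent.Work.MP_59f3ad_nt.QD.I_RF
import Pool.Agent.Work.MP_59f3ad_nt.QD.I_CE

/-!
Block QD: everything together, even twists.
-/

set_option autoImplicit false

namespace Pool.Agent.Work.MP_59f3ad_nt.QD

universe u

theorem all_FX : StFX.{u} := pr_FX all_H90
theorem all_NE : StNE.{u} := pr_NE all_ND pr_CY
theorem all_BF : StBF.{u} := pr_BF all_NE PX.pr_MUF
theorem all_SG : StSG.{u} := pr_SG all_SZ all_NE PX.pr_TRN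
theorem all_LE : StLE.{u} := pr_LE all_DEX pr_TE
theorem all_BG : StBG.{u} := pr_BG PX.pr_KUM all_FX pr_C4 pr_TE all_LE
theorem all_SS : StSS.{u} := pr_SS pr_C4
theorem all_BH : StBH.{u} := pr_BH PX.pr_KUM all_FX all_LCT pr_TE pr_GX pr_NM all_SS pr_QA all_EXT
theorem all_BI : StBI.{u} := pr_BI all_BG all_BH PX.pr_SQM
theorem all_EXE : StEXE.{u} := pr_EXE pr_GX PX.pr_MUF all_NE
theorem all_IE : StIE.{u} := pr_IE px_SHS all_SG all_BF all_NE PX.pr_MUF all_SEX all_KK PX.pr_TS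
  PX.pr_SQM pr_CH all_BI all_EXT all_EXE
theorem all_U1 : StU1.{u} := pr_U1 all_DEX px_LG pr_GX
theorem all_U2 : StU2.{u} := pr_U2 PX.pr_I1 PX.pr_I2 pr_GX
theorem all_UT : StUT.{u} := pr_UT PX.pr_HEN
theorem all_DE : StDE.{u} := pr_DE pr_CFG all_IE all_U1 all_U2 pr_UM all_UT
theorem all_RF : StRF.{u} := pr_RF all_DE all_R1 pr_R2 all_R3 all_LQ
theorem all_CE : StCE.{u} := pr_CE PX.pr_IND all_RF px_FMO PX.pr_EXC

end Pool.Agent.Work.MP_59f3ad_nt.QD
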