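import Mathlib
import Pool.Agent.Work.MP_59f3ad_nt.QD.StmtsE
import Pool.Agent.Work.MP_59f3ad_nt.QD.I_BA

/-!
Block QD, item BG: even twists, an element `θ` with `θ (s⁻¹ h s) = -θ h` gives a square root `A` of
`a = y^2 + m z^2`.
-/

set_option autoImplicit false

open NumberField IsDedekindDomain

namespace Pool.Agent.Work.MP_59f3ad_nt.QD

open Pool.Agent.Work.MP_59f3ad_nt.FE
open Pool.Agent.Work.MP_59f3ad_nt.PX

universe u

namespace IBG

theorem odd_form {a : ℤ_[2]} (h : ¬ ((2 : ℕ) : ℤ_[2]) ∣ a) : ∃ d : ℤ_[2], a = 1 + 2 * d := by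
  obtain ⟨b, hb⟩ := IBA.exists_val a
  obtain ⟨k, hk⟩ := IBA.odd_val h
  rw [hk] at hb
  refine ⟨k + 2 * b, ?_⟩
  rw [hb]
  push_cast
  ring

theorem four_cases {a : ℤ_[2]} (h : ((2 : ℕ) : ℤ_[2]) ∣ a) :
    (4 : ℤ_[2]) ∣ a ∨ (4 : ℤ_[2]) ∣ a - 2 := by
  obtain ⟨c, hc⟩ := h
  by_cases h2 : ((2 : ℕ) : ℤ_[2]) ∣ c
  · obtain ⟨d, hd⟩ := h2
    left
    refine ⟨d, ?_⟩
    rw [hc, hd]
    push_cast
    ring
  · obtain ⟨d, hd⟩ := odd_form h2
    right
    refine ⟨d, ?_⟩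
    rw [hc, hd]
    push_cast
    ring

theorem not_four {a : ℤ_[2]} (h : (4 : ℤ_[2]) ∣ a - 2) : ¬ (4 : ℤ_[2]) ∣ a := by
  rintro ⟨c, hc⟩
  obtain ⟨d, hd⟩ := h
  apply IBA.not_dvd_one
  refine ⟨c - d, ?_⟩
  have h2 : (2 : ℤ_[2]) ≠ 0 := by norm_num
  apply mul_left_cancel₀ h2
  push_cast
  linear_combination hc - hd

theorem two_of_four {a : ℤ_[2]} (h : (4 : ℤ_[2]) ∣ a) : ((2 : ℕ) : ℤ_[2]) ∣ a := by
  obtain ⟨c, hc⟩ := h
  refine ⟨2 * c, ?_⟩
  rw [hc]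
  push_cast
  ring

theorem two_of_four' {a : ℤ_[2]} (h : (4 : ℤ_[2]) ∣ a - 2) : ((2 : ℕ) : ℤ_[2]) ∣ a := by
  obtain ⟨c, hc⟩ := h
  refine ⟨2 * c + 1, ?_⟩
  push_cast
  linear_combination hc

theorem final_alg {F : Type u} [Field F] [CharZero F] {a m g1 g2 l2 : F} (hm : m ≠ 0)
    (hl : l2 ≠ 0) (h : a * (g2 ^ 2 + m * l2 ^ 2) = g1 ^ 2) :
    ∃ y z : F, a = y ^ 2 + m * z ^ 2 := by
  by_cases hN : g2 ^ 2 + m * l2 ^ 2 = 0
  · have hg2 : g2 ≠ 0 := by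
      rintro rfl
      have h1 : m * l2 ^ 2 = 0 := by linear_combination hN
      exact mul_ne_zero hm (pow_ne_zero 2 hl) h1
    refine ⟨(a + 1) / 2, (a - 1) * l2 / (2 * g2), ?_⟩
    have h2 : m * ((a - 1) * l2 / (2 * g2)) ^ 2 = -((a - 1) / 2) ^ 2 := by
      field_simp
      linear_combination (a - 1) ^ 2 * hN
    rw [h2]
    ring
  · refine ⟨g1 * g2 / (g2 ^ 2 + m * l2 ^ 2), g1 * l2 / (g2 ^ 2 + m * l2 ^ 2), ?_⟩
    rw [div_pow, div_pow, mul_div_assoc', ← add_div, eq_div_iff (pow_ne_zero 2 hN)]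
    linear_combination (g2 ^ 2 + m * l2 ^ 2) * h

theorem inF {F L : Type u} [Field F] [NumberField F] [Field L] [NumberField L] [Algebra F L]
    {ζ m : F} {x : L} {σ : L ≃ₐ[F] L} (hC : Cf F L 2 ζ m x σ)
    {s : AlgebraicClosure L ≃ₐ[F] AlgebraicClosure L} (hs : Ex σ s) {y : AlgebraicClosure L}
    (h1 : ∀ g : GK L, g y = y) (h2 : s y = y) :
    ∃ z : F, y = algebraMap F (AlgebraicClosure L) z := by
  obtain ⟨b, hb⟩ := IFX.fixed_mem (L := L) h1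
  have hσb : σ b = b := by
    apply (algebraMap L (AlgebraicClosure L)).injective
    rw [← hs b, ← hb, h2]
  obtain ⟨z, hz⟩ := hC.hfix b hσb
  refine ⟨z, ?_⟩
  rw [hb, hz]
  exact (IsScalarTower.algebraMap_apply F L (AlgebraicClosure L) z).symm

end IBG

open IBG in
theorem pr_BG (hKUM : PX.StKUM.{u}) (hFX : StFX.{u}) (hC4 : StC4.{u}) (hTE : StTE.{u})
    (hLE : StLE.{u}) : StBG.{u} := by
  intro F L _ _ _ _ _ ζ m x σ hC hlp s hs k hk r hr hts θ hθ hθk hθs hodd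
  -- modulo 4
  have hmul4 : ∀ g h : GK L, (4 : ℤ_[2]) ∣ θ (g * h) - (θ g + θ h) := by
    intro g h
    obtain ⟨c, hc⟩ := hTE L (AlgebraicClosure L) r hr g
    refine ⟨c * θ h, ?_⟩
    rw [hθ.mul g h]
    linear_combination (θ h) * hc
  have hmul2 : ∀ g h : GK L, ((2 : ℕ) : ℤ_[2]) ∣ θ (g * h) - (θ g + θ h) :=
    fun g h => two_of_four (hmul4 g h)
  -- the square root
  have hζL : IsPrimitiveRoot (algebraMap F L ζ) 2 :=
    hC.hζ.map_of_injective (algebraMap F L).injective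
  obtain ⟨u, hu, hgu⟩ := hKUM L 2 (algebraMap F L ζ) hζL θ hθ.cont hmul2
  have hgu' : ∀ h : GK L, h u =
      algebraMap F (AlgebraicClosure L) (ζ ^ (PadicInt.toZMod (θ h)).val) * u := by
    intro h
    rw [hgu h, IsScalarTower.algebraMap_apply F L (AlgebraicClosure L), map_pow (algebraMap F L)]
  obtain ⟨d, a, hd0, ha0, hsA', hAa'⟩ := hFX F L 2 ζ m x σ hC s hs k hk θ
    (fun h => ⟨-θ h, by rw [hθs h]; push_cast; ring⟩) (by rw [hθk]; exact dvd_zero _) u hu hgu'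
  obtain ⟨A, hA⟩ : ∃ A : AlgebraicClosure L, A = u / algebraMap L (AlgebraicClosure L) d :=
    ⟨_, rfl⟩
  rw [← hA] at hsA' hAa'
  have hdΩ : algebraMap L (AlgebraicClosure L) d ≠ 0 := by
    rw [Ne, map_eq_zero]
    exact hd0
  have hA0 : A ≠ 0 := by
    rw [hA]
    exact div_ne_zero hu hdΩ
  have hζ1 : ζ = -1 := hC.hζ.eq_neg_one_of_two_right
  have hhA : ∀ h : GK L, h A = (-1) ^ (PadicInt.toZMod (θ h)).val * A := by
    intro h
    have hdh : h (algebraMap L (AlgebraicClosure L) d) = algebraMap L (AlgebraicClosure L) d :=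
      h.commutes d
    rw [hA, map_div₀, hgu' h, hdh, hζ1, map_pow, map_neg, map_one, mul_div_assoc]
  have hAe : ∀ h : GK L, ((2 : ℕ) : ℤ_[2]) ∣ θ h → h A = A := by
    intro h hh
    have h1 : PadicInt.toZMod (θ h) = 0 := by
      rw [IFX.toZMod_of_dvd (a := θ h) (b := 0) (by rwa [sub_zero]), map_zero]
    rw [hhA, h1, ZMod.val_zero, pow_zero, one_mul]
  have hAo : ∀ h : GK L, ¬ ((2 : ℕ) : ℤ_[2]) ∣ θ h → h A = -A := by
    intro h hh
    obtain ⟨c, hc⟩ := odd_form hh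
    have h1 : PadicInt.toZMod (θ h) = 1 := by
      rw [IFX.toZMod_of_dvd (a := θ h) (b := 1) ⟨c, by rw [hc]; push_cast; ring⟩, map_one]
    have h2 : (1 : ZMod 2).val = 1 := rfl
    rw [hhA, h1, h2, pow_one, neg_one_mul]
  obtain ⟨τ, hτ⟩ := hodd
  obtain ⟨w0, hw00, hw0⟩ := hC4 L (AlgebraicClosure L) θ hθ.cont hmul4 ⟨τ, hτ⟩
  -- the signs
  obtain ⟨e, he⟩ : ∃ e : GK L → AlgebraicClosure L,
      ∀ h, ((4 : ℤ_[2]) ∣ θ h ∧ e h = 1) ∨ (¬ (4 : ℤ_[2]) ∣ θ h ∧ e h = -1) := by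
    classical
    refine ⟨fun h => if (4 : ℤ_[2]) ∣ θ h then 1 else -1, fun h => ?_⟩
    by_cases hh : (4 : ℤ_[2]) ∣ θ h
    · exact Or.inl ⟨hh, if_pos hh⟩
    · exact Or.inr ⟨hh, if_neg hh⟩
  have he2 : ∀ h, e h * e h = 1 := by
    intro h
    rcases he h with ⟨_, h1⟩ | ⟨_, h1⟩
    · rw [h1, one_mul]
    · rw [h1, neg_mul_neg, one_mul]
  have he0 : ∀ h, e h ≠ 0 := by
    intro h h0
    have h1 := he2 h
    rw [h0, mul_zero] at h1
    exact zero_ne_one h1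
  have hew : ∀ h : GK L, ((2 : ℕ) : ℤ_[2]) ∣ θ h → h w0 = e h * w0 := by
    intro h hh
    rcases he h with ⟨h4, h1⟩ | ⟨h4, h1⟩
    · rw [h1, (hw0 h).1 h4, one_mul]
    · rcases four_cases hh with h5 | h5
      · exact absurd h5 h4
      · rw [h1, (hw0 h).2 h5, neg_one_mul]
  have hec : ∀ g h : GK L, (4 : ℤ_[2]) ∣ θ g - θ h → e g = e h := by
    rintro g h ⟨c, hc⟩
    rcases he g with ⟨h4, h1⟩ | ⟨h4, h1⟩ <;> rcases he h with ⟨h5, h2⟩ | ⟨h5, h2⟩
    · rw [h1, h2]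
    · exfalso
      obtain ⟨b, hb⟩ := h4
      exact h5 ⟨b - c, by linear_combination hb - hc⟩
    · exfalso
      obtain ⟨b, hb⟩ := h5
      exact h4 ⟨b + c, by linear_combination hb + hc⟩
    · rw [h1, h2]
  have hem : ∀ h : GK L, (4 : ℤ_[2]) ∣ θ h - 2 → e h = -1 := by
    intro h hh
    rcases he h with ⟨h4, _⟩ | ⟨_, h1⟩
    · exact absurd h4 (not_four hh)
    · exact h1
  have hecs : ∀ h, e (cs hs h) = e h := by
    intro h
    rcases he (cs hs h) with ⟨h4, h1⟩ | ⟨h4, h1⟩ <;> rcases he h with ⟨h5, h2⟩ | ⟨h5, h2⟩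
    · rw [h1, h2]
    · exfalso
      rw [hθs h, dvd_neg] at h4
      exact h5 h4
    · exfalso
      rw [hθs h, dvd_neg] at h4
      exact h4 h5
    · rw [h1, h2]
  have hes : ∀ h, s (e h) = e h := by
    intro h
    rcases he h with ⟨_, h1⟩ | ⟨_, h1⟩
    · rw [h1, map_one]
    · rw [h1, map_neg, map_one]
  have heg : ∀ (g : GK L) (h : GK L), g (e h) = e h := by
    intro g h
    rcases he h with ⟨_, h1⟩ | ⟨_, h1⟩
    · rw [h1, map_one]
    · rw [h1, map_neg, map_one]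
  -- (1)
  have hcsa : ∀ (h : GK L) (y : AlgebraicClosure L), h (s y) = s (cs hs h y) := by
    intro h y
    rw [cs_apply]
    exact (s.apply_symm_apply _).symm
  have hcs2 : ∀ h : GK L, ((2 : ℕ) : ℤ_[2]) ∣ θ h → ((2 : ℕ) : ℤ_[2]) ∣ θ (cs hs h) := by
    intro h hh
    rw [hθs h]
    exact (dvd_neg).2 hh
  have hsw0 : ∀ h : GK L, ((2 : ℕ) : ℤ_[2]) ∣ θ h → h (s w0) = e h * s w0 := by
    intro h hh
    rw [hcsa, hew _ (hcs2 h hh), map_mul, hes, hecs]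
  have hks : ∀ y, k y = s (s y) := by
    intro y
    rw [hk y, pow_two, AlgEquiv.mul_apply]
  have hssw0 : s (s w0) = w0 := by
    rw [← hks, (hw0 k).1 (by rw [hθk]; exact dvd_zero _)]
  have hsw00 : s w0 ≠ 0 := by
    rw [Ne, map_eq_zero]
    exact hw00
  obtain ⟨ρ, hρ⟩ : ∃ ρ : AlgebraicClosure L, ρ = s w0 / w0 := ⟨_, rfl⟩
  have hρw : ρ * w0 = s w0 := by
    rw [hρ]
    exact div_mul_cancel₀ _ hw00
  have hρG : ∀ h : GK L, ((2 : ℕ) : ℤ_[2]) ∣ θ h → h ρ = ρ := by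
    intro h hh
    rw [hρ, map_div₀, hsw0 h hh, hew h hh]
    exact mul_div_mul_left _ _ (he0 h)
  have hsρ : ρ * s ρ = 1 := by
    rw [hρ, map_div₀, hssw0]
    field_simp
  have hx0 : x ≠ 0 := by
    rintro rfl
    have h1 := hC.hx
    rw [zero_pow two_ne_zero] at h1
    exact hC.hm ((map_eq_zero (algebraMap F L)).1 h1.symm)
  have hσx : σ x = -x := by
    rw [hC.hσ, hζ1, map_neg, map_one, neg_one_mul]
  obtain ⟨d0, hd00, hd0G, hd0s⟩ : ∃ d0 : AlgebraicClosure L, d0 ≠ 0 ∧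
      (∀ h : GK L, ((2 : ℕ) : ℤ_[2]) ∣ θ h → h d0 = d0) ∧ ρ * s d0 = d0 := by
    by_cases hρ1 : ρ = -1
    · refine ⟨algebraMap L (AlgebraicClosure L) x, ?_, fun h _ => h.commutes x, ?_⟩
      · rw [Ne, map_eq_zero]
        exact hx0
      · rw [hρ1, hs x, hσx, map_neg, neg_mul_neg, one_mul]
    · refine ⟨1 + ρ, ?_, ?_, ?_⟩
      · intro h
        apply hρ1
        linear_combination h
      · intro h hh
        rw [map_add, map_one, hρG h hh]
      · rw [map_add, map_one]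
        linear_combination hsρ
  obtain ⟨w, hw⟩ : ∃ w : AlgebraicClosure L, w = w0 * d0 := ⟨_, rfl⟩
  have hwn : w ≠ 0 := by
    rw [hw]
    exact mul_ne_zero hw00 hd00
  have hsw : s w = w := by
    rw [hw, map_mul, ← hρw]
    linear_combination w0 * hd0s
  have hwG : ∀ h : GK L, ((2 : ℕ) : ℤ_[2]) ∣ θ h → h w = e h * w := by
    intro h hh
    rw [hw, map_mul, hew h hh, hd0G h hh, mul_assoc]
  -- (2)
  obtain ⟨c, hc⟩ := odd_form hτ
  have hconj : ∀ h : GK L, (4 : ℤ_[2]) ∣ θ (τ⁻¹ * h * τ) - θ h := by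
    intro h
    obtain ⟨b1, hb1⟩ := hmul4 τ (τ⁻¹ * h * τ)
    obtain ⟨b2, hb2⟩ := hmul4 h τ
    have e1 : τ * (τ⁻¹ * h * τ) = h * τ := by group
    rw [e1] at hb1
    exact ⟨b2 - b1, by linear_combination hb2 - hb1⟩
  have hτw : ∀ h : GK L, ((2 : ℕ) : ℤ_[2]) ∣ θ h → h (τ w) = e h * τ w := by
    intro h hh
    have h2 : ((2 : ℕ) : ℤ_[2]) ∣ θ (τ⁻¹ * h * τ) := by
      have h3 := dvd_add (two_of_four (hconj h)) hh
      rwa [sub_add_cancel] at h3
    have h4 : h (τ w) = τ ((τ⁻¹ * h * τ) w) := by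
      rw [← AlgEquiv.mul_apply, ← AlgEquiv.mul_apply]
      congr 1
      group
    rw [h4, hwG _ h2, hec _ _ (hconj h), map_mul, heg]
  have hττ : (4 : ℤ_[2]) ∣ θ (τ * τ) - 2 := by
    obtain ⟨b, hb⟩ := hmul4 τ τ
    exact ⟨b + c, by linear_combination hb + 2 * hc⟩
  have hττw : τ (τ w) = -w := by
    rw [← AlgEquiv.mul_apply, hwG _ (two_of_four' hττ), hem _ hττ, neg_one_mul]
  have hτA : τ A = -A := hAo τ hτ
  have hfix : ∀ y : AlgebraicClosure L, (∀ h : GK L, ((2 : ℕ) : ℤ_[2]) ∣ θ h → h y = y) →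
      τ y = y → ∀ h : GK L, h y = y := by
    intro y hy hτy h
    by_cases hh : ((2 : ℕ) : ℤ_[2]) ∣ θ h
    · exact hy h hh
    · have h1 : ((2 : ℕ) : ℤ_[2]) ∣ θ (τ⁻¹ * h) := by
        obtain ⟨b, hb⟩ := hmul2 τ (τ⁻¹ * h)
        rw [mul_inv_cancel_left] at hb
        obtain ⟨c', hc'⟩ := odd_form hh
        refine ⟨c' - c - b, ?_⟩
        push_cast at hb ⊢
        linear_combination -hb + hc' - hc
      have h2 : h y = τ ((τ⁻¹ * h) y) := by
        rw [← AlgEquiv.mul_apply, mul_inv_cancel_left]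
      rw [h2, hy _ h1, hτy]
  have hτwn : τ w ≠ 0 := by
    rw [Ne, map_eq_zero]
    exact hwn
  obtain ⟨ν, hν⟩ : ∃ ν : AlgebraicClosure L, ν = w * τ w := ⟨_, rfl⟩
  have hνn : ν ≠ 0 := by
    rw [hν]
    exact mul_ne_zero hwn hτwn
  have hνG : ∀ h : GK L, ((2 : ℕ) : ℤ_[2]) ∣ θ h → h ν = ν := by
    intro h hh
    rw [hν, map_mul, hwG h hh, hτw h hh]
    linear_combination (w * τ w) * he2 h
  have hτν : τ ν = -ν := by
    rw [hν, map_mul, hττw]
    ring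
  obtain ⟨l, hl⟩ := IFX.fixed_mem (L := L) (x := ν / A) (hfix (ν / A)
    (fun h hh => by rw [map_div₀, hνG h hh, hAe h hh])
    (by rw [map_div₀, hτν, hτA, neg_div_neg_eq]))
  have hνA : ν = algebraMap L (AlgebraicClosure L) l * A := by
    rw [← hl]
    field_simp
  -- (3)
  obtain ⟨τ', hτ'⟩ : ∃ τ' : GK L, τ' = cs hs (k * τ * k⁻¹) := ⟨_, rfl⟩
  have hsτ : ∀ y, s (τ y) = τ' (s y) := by
    intro y
    have h1 : k⁻¹ (s (s y)) = y := by
      rw [← hks, ← AlgEquiv.mul_apply, inv_mul_cancel, AlgEquiv.one_apply]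
    rw [hτ', cs_apply, AlgEquiv.mul_apply, AlgEquiv.mul_apply, h1, hks,
      AlgEquiv.symm_apply_apply]
  have hcsτ' : cs hs τ' = τ := by
    ext y
    rw [cs_apply, ← hsτ, AlgEquiv.symm_apply_apply]
  have hθτ' : θ τ' = -θ τ := by
    have h1 := hθs τ'
    rw [hcsτ'] at h1
    rw [h1, neg_neg]
  have hττ' : (4 : ℤ_[2]) ∣ θ (τ⁻¹ * τ') - 2 := by
    obtain ⟨b, hb⟩ := hmul4 τ (τ⁻¹ * τ')
    rw [mul_inv_cancel_left, hθτ'] at hb
    exact ⟨-b - c - 1, by linear_combination -hb - 2 * hc⟩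
  have hτ'w : τ' w = -τ w := by
    have h1 : τ' w = τ ((τ⁻¹ * τ') w) := by
      rw [← AlgEquiv.mul_apply, mul_inv_cancel_left]
    rw [h1, hwG _ (two_of_four' hττ'), hem _ hττ', neg_one_mul, map_neg]
  have hsτw : s (τ w) = -τ w := by
    rw [hsτ, hsw, hτ'w]
  have hsν : s ν = -ν := by
    rw [hν, map_mul, hsw, hsτw]
    ring
  have hσl : σ l = -l := by
    apply (algebraMap L (AlgebraicClosure L)).injective
    rw [← hs l, map_neg, ← hl, map_div₀, hsν, hsA', neg_div]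
  obtain ⟨l2, hl2⟩ := hC.hfix (l / x) (by rw [map_div₀, hσl, hσx, neg_div_neg_eq])
  have hlx : l = algebraMap F L l2 * x := by
    rw [← hl2]
    field_simp
  have hl20 : l2 ≠ 0 := by
    rintro rfl
    rw [map_zero, zero_mul] at hlx
    rw [hlx, map_zero, zero_mul] at hνA
    exact hνn hνA
  -- (4)
  obtain ⟨G1, hG1⟩ := inF hC hs (y := w ^ 2 + (τ w) ^ 2) (hfix _
    (fun h hh => by
      rw [map_add, map_pow, map_pow, hwG h hh, hτw h hh]
      linear_combination (w ^ 2 + (τ w) ^ 2) * he2 h)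
    (by
      rw [map_add, map_pow, map_pow, hττw]
      ring))
    (by
      rw [map_add, map_pow, map_pow, hsw, hsτw]
      ring)
  obtain ⟨G2, hG2⟩ := inF hC hs (y := (w ^ 2 - (τ w) ^ 2) / A) (hfix _
    (fun h hh => by
      have h1 : h (w ^ 2 - (τ w) ^ 2) = w ^ 2 - (τ w) ^ 2 := by
        rw [map_sub, map_pow, map_pow, hwG h hh, hτw h hh]
        linear_combination (w ^ 2 - (τ w) ^ 2) * he2 h
      rw [map_div₀, h1, hAe h hh])
    (by
      have h1 : τ (w ^ 2 - (τ w) ^ 2) = -(w ^ 2 - (τ w) ^ 2) := by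
        rw [map_sub, map_pow, map_pow, hττw]
        ring
      rw [map_div₀, h1, hτA, neg_div_neg_eq]))
    (by
      have h1 : s (w ^ 2 - (τ w) ^ 2) = w ^ 2 - (τ w) ^ 2 := by
        rw [map_sub, map_pow, map_pow, hsw, hsτw]
        ring
      rw [map_div₀, h1, hsA'])
  have hG2' : w ^ 2 - (τ w) ^ 2 = algebraMap F (AlgebraicClosure L) G2 * A := by
    rw [← hG2]
    field_simp
  have hxx : algebraMap L (AlgebraicClosure L) x ^ 2 = algebraMap F (AlgebraicClosure L) m := by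
    rw [← map_pow, hC.hx]
    exact (IsScalarTower.algebraMap_apply F L (AlgebraicClosure L) m).symm
  have hll : algebraMap L (AlgebraicClosure L) l =
      algebraMap F (AlgebraicClosure L) l2 * algebraMap L (AlgebraicClosure L) x := by
    rw [hlx, map_mul, ← IsScalarTower.algebraMap_apply F L (AlgebraicClosure L) l2]
  have hνν : w ^ 2 * (τ w) ^ 2 = algebraMap F (AlgebraicClosure L) (a * (m * l2 ^ 2)) := by
    have h1 : w ^ 2 * (τ w) ^ 2 = ν ^ 2 := by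
      rw [hν]
      ring
    rw [h1, hνA, hll, map_mul, map_mul, map_pow, ← hxx, ← hAa']
    ring
  have hfin : a * (G2 ^ 2 + m * (2 * l2) ^ 2) = G1 ^ 2 := by
    apply (algebraMap F (AlgebraicClosure L)).injective
    have h3 : algebraMap F (AlgebraicClosure L) (a * (G2 ^ 2 + m * (2 * l2) ^ 2)) =
        algebraMap F (AlgebraicClosure L) a * algebraMap F (AlgebraicClosure L) G2 ^ 2 +
          4 * algebraMap F (AlgebraicClosure L) (a * (m * l2 ^ 2)) := by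
      simp only [map_mul, map_add, map_pow, map_ofNat]
      ring
    rw [h3, ← hνν, ← hAa', map_pow, ← hG1]
    have h4 : A ^ 2 * algebraMap F (AlgebraicClosure L) G2 ^ 2 = (w ^ 2 - (τ w) ^ 2) ^ 2 := by
      rw [hG2']
      ring
    rw [h4]
    ring
  obtain ⟨y, z, hyz⟩ := final_alg hC.hm (mul_ne_zero two_ne_zero hl20) hfin
  refine ⟨A, a, ⟨ha0, hAa', ⟨y, z, hyz⟩, ?_, ?_, ⟨τ, ?_⟩⟩⟩
  · intro Q hQ h2Q h hh
    exact hAe h (by rw [hθ.inr Q hQ h2Q h hh]; exact dvd_zero _)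
  · intro Q hQ h2Q h hh
    exact hAe h (hLE F L ζ m x σ hC hlp s hs r hr hts θ hθ hθs Q hQ h2Q h hh)
  · rw [hτA]
    intro h1
    apply hA0
    have h2 : (2 : AlgebraicClosure L) * A = 0 := by linear_combination -h1
    rcases mul_eq_zero.1 h2 with h3 | h3
    · exact absurd h3 two_ne_zero
    · exact h3

end Pool.Agent.Work.MP_59f3ad_nt.QD
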