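import Mathlib
import Pool.Agent.Work.MP_59f3ad_nt.QD.StmtsN

set_option autoImplicit false

open NumberField IsDedekindDomain

namespace Pool.Agent.Work.MP_59f3ad_nt.QD

open Pool.Agent.Work.MP_59f3ad_nt.FE
open Pool.Agent.Work.MP_59f3ad_nt.PX

universe u

namespace INM

section
variable {F L : Type u} [Field F] [NumberField F] [Field L] [NumberField L] [Algebra F L] {ζ m : F} {x : L}
  {σ : L ≃ₐ[F] L}

theorem zeta (hC : Cf F L 2 ζ m x σ) : ζ = -1 := hC.hζ.eq_neg_one_of_two_right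

theorem sig_x (hC : Cf F L 2 ζ m x σ) : σ x = -x := by
  rw [hC.hσ, zeta hC, map_neg, map_one, neg_one_mul]

theorem x_ne (hC : Cf F L 2 ζ m x σ) : x ≠ 0 := by
  intro h
  have h1 := hC.hx
  rw [h, zero_pow (by norm_num)] at h1
  exact hC.hm ((map_eq_zero (algebraMap F L)).1 h1.symm)

theorem two_ne : (2 : L) ≠ 0 := two_ne_zero

theorem sig_ne (hC : Cf F L 2 ζ m x σ) : σ ≠ 1 := by
  intro h
  have h1 := sig_x hC
  rw [h, AlgEquiv.one_apply] at h1
  have h2 : (2 : L) * x = 0 := by linear_combination h1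
  rcases mul_eq_zero.1 h2 with h3 | h3
  · exact two_ne h3
  · exact x_ne hC h3

/-- `σ^2 = 1`: the group of the extension has at most two elements -/
theorem sig_sig (hC : Cf F L 2 ζ m x σ) (y : L) : σ (σ y) = y := by
  classical
  have : FiniteDimensional F L := Module.finite_of_finrank_pos (by rw [hC.hL]; norm_num)
  have h1 : Nat.card (L ≃ₐ[F] L) ≤ 2 := by
    have := AlgEquiv.card_le (F := F) (K := L)
    rw [hC.hL] at this
    rwa [Nat.card_eq_fintype_card]
  have h2 : orderOf σ ≤ 2 := le_trans orderOf_le_card h1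
  have h3 : 0 < orderOf σ := orderOf_pos σ
  have h4 : orderOf σ ≠ 1 := fun h => sig_ne hC (orderOf_eq_one_iff.1 h)
  have h5 : orderOf σ = 2 := by omega
  have h6 : σ ^ 2 = 1 := by rw [← h5]; exact pow_orderOf_eq_one σ
  have h7 : (σ ^ 2) y = y := by rw [h6, AlgEquiv.one_apply]
  rwa [pow_two, AlgEquiv.mul_apply] at h7

end

end INM

open INM in
theorem pr_NM : StNM.{u} := by
  intro F L _ _ _ _ _ ζ m x σ hC a δ hδ
  have hx := sig_x hC
  have hx0 := x_ne hC
  have h2 : (2 : L) ≠ 0 := two_ne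
  have hs := sig_sig hC δ
  have h2s : σ (2 : L) = 2 := map_ofNat σ 2
  obtain ⟨y, hy⟩ := hC.hfix ((δ + σ δ) / 2) (by
    rw [map_div₀, map_add, hs, h2s, add_comm])
  obtain ⟨z, hz⟩ := hC.hfix ((δ - σ δ) / (2 * x)) (by
    rw [map_div₀, map_sub, map_mul, hs, h2s, hx]
    field_simp
    ring)
  refine ⟨y, z, (algebraMap F L).injective ?_⟩
  rw [map_sub, map_mul, map_pow, map_pow, ← hδ, ← hC.hx, ← hy, ← hz]
  field_simp
  ring

end Pool.Agent.Work.MP_59f3ad_nt.QD
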