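import Mathlib
import Pool.Agent.Work.MP_59f3ad_nt.QD.StmtsN
import Pool.Agent.Work.MP_59f3ad_nt.Bridge
import Pool.Agent.Work.MP_59f3ad_nt.Q3.I_Tau
import Pool.Agent.Work.MP_59f3ad_nt.PX.I_SHF

/-!
Item SF of block QD: Tate-Shafarevich cocycles of the Galois group of an algebraic closure of `L`
over the subfield `F` are coboundaries if the Tate-Shafarevich group of `F` is trivial, `p = 2`, odd
twists.
-/

set_option autoImplicit false

open NumberField IsDedekindDomain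

namespace Pool.Agent.Work.MP_59f3ad_nt.QD

open Pool.Agent.Work.MP_59f3ad_nt.FE Pool.Agent.Work.MP_59f3ad_nt.PX

universe u

/-- SF -/
theorem pr_SF (hSZ : StSZ.{u}) (hND : StND.{u}) (hTRN : PX.StTRN.{u}) : StSF.{u} := by
  intro F L _ _ _ _ _ r hr hSha Ψ hΨ
  have := PX.ISHF.isAlg F L
  let e : AlgebraicClosure L ≃ₐ[F] AlgebraicClosure F := IsAlgClosure.equiv F _ _
  have : CharZero (AlgebraicClosure F) := algebraRat.charZero _
  have : CharZero (AlgebraicClosure L) := algebraRat.charZero _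
  obtain ⟨h1, h3⟩ := hTRN F (AlgebraicClosure L) (AlgebraicClosure F) 2 r e Ψ hΨ
  have h4 := hSZ F r _ h1
  obtain ⟨c, hc⟩ := (Sha1_eq_bot_iff F 2 r (Sp F 2)).1 hSha _ h4
  -- a prime above `2`
  obtain ⟨v, hv⟩ := exists_prime_above F 2
  obtain ⟨Q, hQ, hco⟩ := Q3.ITau.exists_over F v
  have hpQ : ((2 : ℕ) : 𝓞 (AlgebraicClosure F)) ∈ Q := by
    have h5 : ((2 : ℕ) : 𝓞 F) ∈ Q.comap (algebraMap (𝓞 F) (𝓞 (AlgebraicClosure F))) := by
      rw [hco]
      exact hv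
    rwa [Ideal.mem_comap, map_natCast] at h5
  obtain ⟨c1, hc1⟩ := h1.dec Q hQ hpQ
  obtain ⟨h, hdec, hne⟩ := hND F r hr Q hQ hpQ
  have hcc : c = 2 * c1 := by
    have h5 := hc h
    have h6 := hc1 h hdec
    rw [twist_eq] at h5
    simp only at h5 h6
    rw [h6] at h5
    have h7 : tw 2 r h - 1 ≠ 0 := sub_ne_zero.2 hne
    refine mul_left_cancel₀ h7 ?_
    rw [← h5]
    ring
  refine ⟨c1, fun g => ?_⟩
  have h6 := hc ((e.symm.trans g).trans e)
  have h7 := h3 ((e.symm.trans g).trans e)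
  rw [twist_eq, ← h7] at h6
  simp only [PX.ISHF.conj] at h6
  have h8 : (2 : ℤ_[2]) ≠ 0 := two_ne_zero
  refine mul_left_cancel₀ h8 ?_
  rw [h6, hcc]
  ring

end Pool.Agent.Work.MP_59f3ad_nt.QD
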