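import Mathlib
import Pool.Agent.Work.MP_59f3ad_nt.QD.StmtsE
import Pool.Agent.Work.MP_59f3ad_nt.PX.StmtsF
import Pool.Agent.Work.MP_59f3ad_nt.Q3.I_Tam

/-!
Block QD, item UT: an element of the form `y^2 + m z^2` is a square times a power of `m` in the completion at a
place not above `2` where the valuation of `m` is odd.
-/

set_option autoImplicit false

open NumberField IsDedekindDomain WithZero

namespace Pool.Agent.Work.MP_59f3ad_nt.QD

open Pool.Agent.Work.MP_59f3ad_nt.FE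
open Pool.Agent.Work.MP_59f3ad_nt.PX

universe u

namespace IUT

theorem even_rep {F : Type u} [Field F] [NumberField F] (q : HeightOneSpectrum (𝓞 F)) (f : F)
    (n : ℤ) (hn : q.valuation F f = exp n) (he : Even n) :
    ∃ g : F, g ≠ 0 ∧ q.valuation F f = q.valuation F g ^ 2 := by
  obtain ⟨b, hb⟩ := he
  obtain ⟨π, hπ⟩ := q.valuation_exists_uniformizer F
  have hπ0 : π ≠ 0 := by
    intro h
    rw [h, map_zero] at hπ
    exact exp_ne_zero hπ.symm
  refine ⟨π ^ (-b), zpow_ne_zero _ hπ0, ?_⟩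
  rw [map_zpow₀, hπ, hn, ← exp_zsmul, ← exp_nsmul, hb]
  congr 1
  simp only [zsmul_eq_mul, nsmul_eq_mul]
  push_cast
  ring

theorem approx {F : Type u} [Field F] [NumberField F] (q : HeightOneSpectrum (𝓞 F)) {y : F}
    (hy : q.valuation F y = 1) : ∃ z : 𝓞 F, q.valuation F (y - (z : F)) < 1 := by
  obtain ⟨n, d, hn, hd, hnd⟩ := Q3.ITam.unit_rep q hy
  obtain ⟨d', i, hi, hdi⟩ := q.isMaximal.exists_inv hd
  refine ⟨n * d', ?_⟩
  have hn1 := (q.valuation_eq_one_iff_notMem (K := F)).2 hn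
  have hd1 := (q.valuation_eq_one_iff_notMem (K := F)).2 hd
  have hi1 := (q.valuation_lt_one_iff_mem (K := F) i).2 hi
  have hd0 : (d : F) ≠ 0 := by
    intro h
    have h2 : q.valuation F (algebraMap (𝓞 F) F d) = q.valuation F (d : F) := rfl
    rw [h2, h, map_zero] at hd1
    exact zero_ne_one hd1
  have e1 : ((d' : F) * d + i) = 1 := by exact_mod_cast congrArg (algebraMap (𝓞 F) F) hdi
  have e2 : y - ((n * d' : 𝓞 F) : F) = (n : F) * i / d := by
    have e3 : y = n / d := by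
      rw [eq_div_iff hd0]
      exact hnd
    have e4 : ((n * d' : 𝓞 F) : F) = (n : F) * d' := by exact_mod_cast map_mul (algebraMap (𝓞 F) F) n d'
    rw [e4, e3, div_sub' hd0, div_left_inj' hd0]
    have e5 : (i : F) = 1 - d' * d := by rw [← e1]; ring
    rw [e5]
    ring
  rw [e2, map_div₀, map_mul]
  have h1 : q.valuation F (n : F) = 1 := hn1
  have h2 : q.valuation F (d : F) = 1 := hd1
  have h3 : q.valuation F (i : F) < 1 := hi1
  rw [h1, h2, one_mul, div_one]
  exact h3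

theorem key (hHEN : PX.StHEN.{u}) {F : Type u} [Field F] [NumberField F] {m : F}
    {q : HeightOneSpectrum (𝓞 F)} (hq : q ∉ Sp F 2) (hV : ¬ Vd F 2 q m)
    {A Y Z g : F} (hg : g ≠ 0) (hA : A = Y ^ 2 + m * Z ^ 2)
    (hw : q.valuation F A = q.valuation F g ^ 2) : Lp F 2 q A := by
  have hvg : q.valuation F g ≠ 0 := (Valuation.ne_zero_iff _).2 hg
  by_cases hZ : Z = 0
  · refine ⟨algebraMap F _ Y, ?_⟩
    rw [← map_pow, hA, hZ]
    congr 1
    ring
  -- the normalized element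
  have hu : A / g ^ 2 = (Y / g) ^ 2 + m * (Z / g) ^ 2 := by
    rw [hA]
    field_simp
  have hu1 : q.valuation F (A / g ^ 2) = 1 := by
    rw [map_div₀, map_pow, hw]
    exact div_self (pow_ne_zero _ hvg)
  have hZg : Z / g ≠ 0 := div_ne_zero hZ hg
  have hvZ : q.valuation F (Z / g) ≠ 0 := (Valuation.ne_zero_iff _).2 hZg
  have hne : q.valuation F ((Y / g) ^ 2) ≠ q.valuation F (m * (Z / g) ^ 2) := by
    intro h
    apply hV
    refine ⟨(Y / g) / (Z / g), ?_⟩
    rw [map_mul, map_pow, map_pow] at h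
    rw [map_div₀, div_pow, h, mul_div_cancel_right₀ _ (pow_ne_zero _ hvZ)]
  have hne1 : q.valuation F (m * (Z / g) ^ 2) ≠ 1 := by
    intro h
    apply hV
    refine ⟨(Z / g)⁻¹, ?_⟩
    rw [map_mul, map_pow] at h
    rw [map_inv₀, inv_pow]
    exact eq_inv_of_mul_eq_one_left h
  have hmax := Valuation.map_add_of_distinct_val (q.valuation F) hne
  rw [← hu, hu1] at hmax
  have hlt : q.valuation F (m * (Z / g) ^ 2) < 1 :=
    lt_of_le_of_ne (hmax ▸ le_max_right _ _) hne1
  have hY2 : q.valuation F ((Y / g) ^ 2) = 1 := by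
    rcases max_choice (q.valuation F ((Y / g) ^ 2)) (q.valuation F (m * (Z / g) ^ 2)) with h | h
    · rw [← h, ← hmax]
    · exact absurd (h.symm.trans hmax.symm) hne1
  have hY0 : Y / g ≠ 0 := by
    intro h
    rw [h, zero_pow two_ne_zero, map_zero] at hY2
    exact zero_ne_one hY2
  have hY1 : q.valuation F (Y / g) = 1 := by
    obtain ⟨n, hn⟩ := Q3.ITam.exists_exp q hY0
    rw [map_pow, hn, ← exp_nsmul, ← exp_zero] at hY2
    have h2 := exp_injective hY2
    simp only [nsmul_eq_mul] at h2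
    have h3 : n = 0 := by
      push_cast at h2
      omega
    rw [hn, h3, exp_zero]
  obtain ⟨z, hz⟩ := approx q hY1
  have hsub : q.valuation F (A / g ^ 2 - (z : F) ^ 2) < 1 := by
    have e1 : A / g ^ 2 - (z : F) ^ 2 = (Y / g - z) * (Y / g + z) + m * (Z / g) ^ 2 := by
      rw [hu]
      ring
    rw [e1]
    refine Valuation.map_add_lt _ ?_ hlt
    rw [map_mul]
    have hz1 : q.valuation F (z : F) ≤ 1 := q.valuation_le_one z
    have hs : q.valuation F (Y / g + z) ≤ 1 := Valuation.map_add_le _ hY1.le hz1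
    calc q.valuation F (Y / g - z) * q.valuation F (Y / g + z)
        ≤ q.valuation F (Y / g - z) * 1 := mul_le_mul_right hs _
      _ < 1 := by rw [mul_one]; exact hz
  have : Fact (Nat.Prime 2) := ⟨Nat.prime_two⟩
  obtain ⟨w, hwu⟩ := hHEN F 2 q hq (A / g ^ 2) z hu1 hsub
  refine ⟨w * algebraMap F _ g, ?_⟩
  rw [mul_pow, hwu, ← map_pow, ← map_mul, div_mul_cancel₀ _ (pow_ne_zero _ hg)]

end IUT

theorem pr_UT (hHEN : PX.StHEN.{u}) : StUT.{u} := by
  intro F _ _ m q hm hq hV a y z ha hayz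
  obtain ⟨α, hα⟩ := Q3.ITam.exists_exp q ha
  obtain ⟨μ, hμ⟩ := Q3.ITam.exists_exp q hm
  have hodd : Odd μ := by
    rcases Int.even_or_odd μ with h | h
    · obtain ⟨g, _, hg⟩ := IUT.even_rep q m μ hμ h
      exact absurd ⟨g, hg⟩ hV
    · exact h
  rcases Int.even_or_odd α with h | h
  · obtain ⟨g, hg0, hg⟩ := IUT.even_rep q a α hα h
    refine ⟨0, ?_⟩
    rw [pow_zero, mul_one]
    exact IUT.key hHEN hq hV hg0 hayz hg
  · have h2 : q.valuation F (a * m) = exp (α + μ) := by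
      rw [map_mul, hα, hμ, ← exp_add]
    obtain ⟨g, hg0, hg⟩ := IUT.even_rep q (a * m) (α + μ) h2 (h.add_odd hodd)
    refine ⟨1, ?_⟩
    rw [pow_one]
    refine IUT.key hHEN hq hV (Y := m * z) (Z := y) hg0 ?_ hg
    rw [hayz]
    ring

end Pool.Agent.Work.MP_59f3ad_nt.QD
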